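import Pool.Agent.W808.KZ.Per

/-!
# Step A: stability of the explored set (helper239)
-/

set_option autoImplicit false

namespace Pool.Agent.W808.KZ
open H974 H906.Cyl
open H12S (Dir hbE segD rimE H4 Crs Nr sqE)
open Pool.Agent.H160R2.ML (nm)
open Pool.Agent.H160R2.MU (Cel csq cpos prd shf BxS Bxs EP inSq PC Bad Cc)
open Pool.Agent.W801.OU

namespace TEXA

open Relation

/-- two relations which agree near an invariant set have the same classes there -/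
theorem eqv_agree {α : Type} {L1 L2 : α → α → Prop} {S : α → Prop}
    (hS1 : ∀ x y, L1 x y → (S x ↔ S y))
    (h12 : ∀ x y, (S x ∨ S y) → (L1 x y ↔ L2 x y)) {y x : α} (hy : S y) :
    EqvGen L1 y x ↔ EqvGen L2 y x := by
  have hS2 : ∀ x y, L2 x y → (S x ↔ S y) := by
    intro x y h
    constructor
    · intro hx
      exact (hS1 _ _ ((h12 x y (Or.inl hx)).2 h)).1 hx
    · intro hx
      exact (hS1 _ _ ((h12 x y (Or.inr hx)).2 h)).2 hx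
  have key : ∀ (A B : α → α → Prop), (∀ x y, A x y → (S x ↔ S y)) →
      (∀ x y, (S x ∨ S y) → (A x y → B x y)) → ∀ {a b : α}, EqvGen A a b →
      (S a ↔ S b) ∧ (S a → EqvGen B a b) := by
    intro A B hA hAB a b h
    induction h with
    | rel a b h => exact ⟨hA a b h, fun ha => EqvGen.rel _ _ (hAB a b (Or.inl ha) h)⟩
    | refl a => exact ⟨Iff.rfl, fun _ => EqvGen.refl _⟩
    | symm a b _ ih => exact ⟨ih.1.symm, fun hb => EqvGen.symm _ _ (ih.2 (ih.1.2 hb))⟩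
    | trans a b c _ _ ih1 ih2 =>
      exact ⟨ih1.1.trans ih2.1, fun ha => EqvGen.trans _ _ _ (ih1.2 ha) (ih2.2 (ih1.1.1 ha))⟩
  constructor
  · intro h
    exact (key L1 L2 hS1 (fun x y hs => (h12 x y hs).1) h).2 hy
  · intro h
    exact (key L2 L1 hS2 (fun x y hs => (h12 x y hs).2) h).2 hy

theorem mem_mrg {X F G : Finset Edg} {e : Edg} : e ∈ mrg X F G ↔ (e ∈ F ∧ e ∈ X) ∨ (e ∈ G ∧ e ∉ X) := by
  classical
  simp only [mrg, Finset.mem_union, Finset.mem_inter, Finset.mem_sdiff]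

/-- links depend on the configuration only through the squares which touch -/
theorem LZ_congr {Z : Set ℤ} {B G G' : Set Edg} {x y : ℤ × ℤ}
    (h : ∀ e ∈ B, (∃ c : ℤ, (c = 0 ∨ c = 1) ∧ Cor Z c e x ∧ Cor Z c e y) → (e ∈ G ↔ e ∈ G')) :
    LZ Z B G x y ↔ LZ Z B G' x y := by
  constructor
  · rintro ⟨e, he, hz, h1 | h1⟩
    · have := h e he ⟨0, Or.inl rfl, ⟨hz, y, Or.inl h1.2⟩, ⟨hz, x, Or.inr h1.2⟩⟩
      exact ⟨e, he, hz, Or.inl ⟨this.1 h1.1, h1.2⟩⟩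
    · have := h e he ⟨1, Or.inr rfl, ⟨hz, y, Or.inl h1.2⟩, ⟨hz, x, Or.inr h1.2⟩⟩
      exact ⟨e, he, hz, Or.inr ⟨fun h2 => h1.1 (this.2 h2), h1.2⟩⟩
  · rintro ⟨e, he, hz, h1 | h1⟩
    · have := h e he ⟨0, Or.inl rfl, ⟨hz, y, Or.inl h1.2⟩, ⟨hz, x, Or.inr h1.2⟩⟩
      exact ⟨e, he, hz, Or.inl ⟨this.2 h1.1, h1.2⟩⟩
    · have := h e he ⟨1, Or.inr rfl, ⟨hz, y, Or.inl h1.2⟩, ⟨hz, x, Or.inr h1.2⟩⟩
      exact ⟨e, he, hz, Or.inr ⟨fun h2 => h1.1 (this.1 h2), h1.2⟩⟩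

theorem mem_FA {N r : ℕ} {C : Cel} {n M : ℕ} {F : Finset Edg} {e : Edg} :
    e ∈ FA N r C n M F ↔ e ∈ CE n M ∧ ((e ∈ EB N r ∧ e ∈ F) ∨ (e ∉ EB N r ∧ e ∈ ET N r C)) := by
  classical
  simp only [FA, Finset.mem_filter]

theorem mem_ExA {N r : ℕ} {C : Cel} {n M : ℕ} {F : Finset Edg} {e : Edg} :
    e ∈ ExA N r C n M F ↔ e ∈ CE n M ∧ e ∈ EB N r ∧
      ∃ x, KA N r C n M F x ∧ (Cor (Zn n) 0 e x ∨ Cor (Zn n) 1 e x) := by
  classical
  simp only [ExA, Finset.mem_filter]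

theorem mem_ExB {N r : ℕ} {C : Cel} {n M : ℕ} {F : Finset Edg} {e : Edg} :
    e ∈ ExB N r C n M F ↔ e ∈ CE n M ∧ (e ∈ EB N r ∨ e ∈ ET N r C) ∧
      ∃ x, KB N r C n F x ∧ (Cor (Zn n) 0 e x ∨ Cor (Zn n) 1 e x) := by
  classical
  simp only [ExB, Finset.mem_filter]

theorem cor01 {n : ℕ} {e : Edg} {x : ℤ × ℤ} {c : ℤ} (hc : c = 0 ∨ c = 1) (h : Cor (Zn n) c e x) :
    Cor (Zn n) 0 e x ∨ Cor (Zn n) 1 e x := by
  rcases hc with rfl | rfl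
  · exact Or.inl h
  · exact Or.inr h

/-- a square which touches the clusters has an explored representative (step A) -/
theorem touch_ExA (h3 : S_z3) {N r : ℕ} {C : Cel} (hN : 16 ≤ N) (hC : AdmZ N C) {n M : ℕ}
    (hn : n = prd N N * r) (hn0 : 0 < n) {F : Finset Edg} {e : Edg} (he : red n e ∈ CE n M)
    (hb : red n e ∈ EB N r) {x : ℤ × ℤ} (hx : KA N r C n M F x)
    (hc : Cor (Zn n) 0 e x ∨ Cor (Zn n) 1 e x) : red n e ∈ ExA N r C n M F := by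
  rw [mem_ExA]
  refine ⟨he, hb, Per.tp n (-((e.1 + e.2.1) / (2 * n))) x, Per.KA_tp h3 hN hC hn hn0 F _ hx, ?_⟩
  rw [Per.red_eq_te]
  exact hc.imp (Per.Cor_te1 _) (Per.Cor_te1 _)

/-- the states of the squares which touch the clusters agree (step A) -/
theorem per_FA_iff (h3 : S_z3) {N r : ℕ} {C : Cel} (hN : 16 ≤ N) (hC : AdmZ N C) {n M : ℕ}
    (hn : n = prd N N * r) (hn0 : 0 < n) (F G : Finset Edg) {e : Edg} {x : ℤ × ℤ}
    (hx : KA N r C n M F x) (hc : Cor (Zn n) 0 e x ∨ Cor (Zn n) 1 e x) :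
    e ∈ per n (FA N r C n M F) ↔ e ∈ per n (FA N r C n M (mrg (ExA N r C n M F) F G)) := by
  show red n e ∈ FA N r C n M F ↔ red n e ∈ FA N r C n M (mrg (ExA N r C n M F) F G)
  rw [mem_FA, mem_FA, mem_mrg]
  by_cases h1 : red n e ∈ CE n M
  · by_cases h2 : red n e ∈ EB N r
    · have := touch_ExA h3 hN hC hn hn0 h1 h2 hx hc
      tauto
    · tauto
  · tauto

theorem KA_congr (h3 : S_z3) {N r : ℕ} {C : Cel} (hN : 16 ≤ N) (hC : AdmZ N C) {n M : ℕ}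
    (hn : n = prd N N * r) (hn0 : 0 < n) (F G : Finset Edg) {y x : ℤ × ℤ}
    (hy : KA N r C n M F y) :
    RC n (per n (FA N r C n M F)) y x ↔
      RC n (per n (FA N r C n M (mrg (ExA N r C n M F) F G))) y x := by
  refine eqv_agree (S := KA N r C n M F) ?_ ?_ hy
  · intro a b hab
    constructor
    · rintro ⟨z, h1, h2⟩
      exact ⟨z, h1, EqvGen.trans _ _ _ h2 (EqvGen.rel _ _ hab)⟩
    · rintro ⟨z, h1, h2⟩
      exact ⟨z, h1, EqvGen.trans _ _ _ h2 (EqvGen.symm _ _ (EqvGen.rel _ _ hab))⟩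
  · intro a b hab
    refine LZ_congr fun e _ h => ?_
    obtain ⟨c, hc, ha, hb⟩ := h
    rcases hab with h | h
    · exact per_FA_iff h3 hN hC hn hn0 F G h (cor01 hc ha)
    · exact per_FA_iff h3 hN hC hn hn0 F G h (cor01 hc hb)

theorem KA_eq (h3 : S_z3) {N r : ℕ} {C : Cel} (hN : 16 ≤ N) (hC : AdmZ N C) {n M : ℕ}
    (hn : n = prd N N * r) (hn0 : 0 < n) (F G : Finset Edg) :
    KA N r C n M (mrg (ExA N r C n M F) F G) = KA N r C n M F := by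
  funext x
  refine propext ⟨?_, ?_⟩
  · rintro ⟨y, h1, h2⟩
    exact ⟨y, h1, (KA_congr h3 hN hC hn hn0 F G ⟨y, h1, EqvGen.refl _⟩).2 h2⟩
  · rintro ⟨y, h1, h2⟩
    exact ⟨y, h1, (KA_congr h3 hN hC hn hn0 F G ⟨y, h1, EqvGen.refl _⟩).1 h2⟩

theorem touch_ExB (h3 : S_z3) {N r : ℕ} {C : Cel} (hN : 16 ≤ N) (hC : AdmZ N C) {n M : ℕ}
    (hn : n = prd N N * r) (hn0 : 0 < n) {F : Finset Edg} {e : Edg} (he : red n e ∈ CE n M)
    (hb : e ∈ EB N r ∨ e ∈ ET N r C) {x : ℤ × ℤ} (hx : KB N r C n F x)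
    (hc : Cor (Zn n) 0 e x ∨ Cor (Zn n) 1 e x) : red n e ∈ ExB N r C n M F := by
  rw [mem_ExB]
  refine ⟨he, hb.imp (Per.EB_red h3 hN hC hn e).2 (Per.ET_red h3 hN hC hn e).2,
    Per.tp n (-((e.1 + e.2.1) / (2 * n))) x, Per.KB_tp h3 hN hC hn hn0 F _ hx, ?_⟩
  rw [Per.red_eq_te]
  exact hc.imp (Per.Cor_te1 _) (Per.Cor_te1 _)

theorem per_FB_iff (h3 : S_z3) {N r : ℕ} {C : Cel} (hN : 16 ≤ N) (hC : AdmZ N C) {n M : ℕ}
    (hn : n = prd N N * r) (hn0 : 0 < n) {F G : Finset Edg} (hF : F ⊆ CE n M) (hG : G ⊆ CE n M)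
    {e : Edg} {x : ℤ × ℤ} (hb : e ∈ EB N r ∨ e ∈ ET N r C)
    (hx : KB N r C n F x) (hc : Cor (Zn n) 0 e x ∨ Cor (Zn n) 1 e x) :
    e ∈ per n F ↔ e ∈ per n (mrg (ExB N r C n M F) F G) := by
  show red n e ∈ F ↔ red n e ∈ mrg (ExB N r C n M F) F G
  rw [mem_mrg]
  by_cases h1 : red n e ∈ CE n M
  · have := touch_ExB h3 hN hC hn hn0 h1 hb hx hc
    tauto
  · have h2 : red n e ∉ F := fun h => h1 (hF h)
    have h4 : red n e ∉ G := fun h => h1 (hG h)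
    tauto

theorem KB_congr (h3 : S_z3) {N r : ℕ} {C : Cel} (hN : 16 ≤ N) (hC : AdmZ N C) {n M : ℕ}
    (hn : n = prd N N * r) (hn0 : 0 < n) {F G : Finset Edg} (hF : F ⊆ CE n M) (hG : G ⊆ CE n M)
    {y x : ℤ × ℤ} (hy : KB N r C n F y) :
    RW N r C n (per n F) y x ↔ RW N r C n (per n (mrg (ExB N r C n M F) F G)) y x := by
  refine eqv_agree (S := KB N r C n F) ?_ ?_ hy
  · intro a b hab
    constructor
    · rintro ⟨z, h1, h2⟩
      exact ⟨z, h1, EqvGen.trans _ _ _ h2 (EqvGen.rel _ _ hab)⟩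
    · rintro ⟨z, h1, h2⟩
      exact ⟨z, h1, EqvGen.trans _ _ _ h2 (EqvGen.symm _ _ (EqvGen.rel _ _ hab))⟩
  · intro a b hab
    refine or_congr Iff.rfl (LZ_congr fun e he h => ?_)
    obtain ⟨c, hc, ha, hb⟩ := h
    rcases hab with h | h
    · exact per_FB_iff h3 hN hC hn hn0 hF hG he h (cor01 hc ha)
    · exact per_FB_iff h3 hN hC hn hn0 hF hG he h (cor01 hc hb)

theorem KB_eq (h3 : S_z3) {N r : ℕ} {C : Cel} (hN : 16 ≤ N) (hC : AdmZ N C) {n M : ℕ}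
    (hn : n = prd N N * r) (hn0 : 0 < n) {F G : Finset Edg} (hF : F ⊆ CE n M) (hG : G ⊆ CE n M) :
    KB N r C n (mrg (ExB N r C n M F) F G) = KB N r C n F := by
  funext x
  refine propext ⟨?_, ?_⟩
  · rintro ⟨y, h1, h2⟩
    exact ⟨y, h1, (KB_congr h3 hN hC hn hn0 hF hG ⟨y, h1, EqvGen.refl _⟩).2 h2⟩
  · rintro ⟨y, h1, h2⟩
    exact ⟨y, h1, (KB_congr h3 hN hC hn hn0 hF hG ⟨y, h1, EqvGen.refl _⟩).1 h2⟩

theorem n_pos {N r n : ℕ} (hN : 16 ≤ N) (hr : 2 ≤ r) (hn : n = prd N N * r) : 0 < n := by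
  rw [hn]
  apply Nat.mul_pos _ (by omega)
  unfold prd
  omega

end TEXA

theorem t_EXA : S_z3 → S_EXA := by
  intro h3 N r C hN hr hC n M hn hM F G hF hG
  have hn0 := TEXA.n_pos hN hr hn
  ext e
  rw [TEXA.mem_ExA, TEXA.mem_ExA, TEXA.KA_eq h3 hN hC hn hn0 F G]

end Pool.Agent.W808.KZ
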