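import Pool.Agent.W808.KZ.Stm
import Pool.Agent.H160R2.MU.T_STA

/-!
# Upper bound for the three arm event of the dislocated plane: re-randomising the tube (step A)
-/

set_option autoImplicit false

namespace Pool.Agent.W808.KZ
open H974 H906.Cyl
open H12S (Dir hbE segD rimE H4 Crs Nr sqE)
open Pool.Agent.H160R2.ML (nm)
open Pool.Agent.H160R2.MU (Cel csq cpos prd shf BxS Bxs EP inSq PC Bad Cc)
open Pool.Agent.W808.HU (PTr)
open Pool.Agent.W801.OU

namespace TSTA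

section
variable {N r n M : ℕ} {C : Cel}

theorem FA_sub {F : Finset Edg} : FA N r C n M F ⊆ CE n M := by
  classical
  unfold FA
  exact Finset.filter_subset _ _

theorem FB_sub {F : Finset Edg} : FB N r C n M F ⊆ CE n M := by
  classical
  unfold FB
  exact Finset.filter_subset _ _

theorem FA_box (hr : 1 ≤ r) (hN : 1 ≤ N) (hn : n = prd N N * r) {F : Finset Edg}
    (hF : F ⊆ CE n M) :
    ∀ e ∈ boxE (N * r / 2), red n e ∈ FA N r C n M F ↔ red n e ∈ F := by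
  classical
  intro e he
  have h : red n e ∈ EP r (Bxs N N) :=
    Pool.Agent.H160R2.MU.TSTA.red_box (k := N) hr hN hn he
  unfold FA
  rw [Finset.mem_filter]
  constructor
  · rintro ⟨_, h1 | h1⟩
    · exact h1.2
    · exact absurd h h1.1
  · intro h1
    exact ⟨hF h1, Or.inl ⟨h, h1⟩⟩

theorem FB_box (hr : 1 ≤ r) (hN : 1 ≤ N) (hn : n = prd N N * r) {F : Finset Edg}
    (hF : F ⊆ CE n M) :
    ∀ e ∈ boxE (N * r / 2), red n e ∈ FB N r C n M F ↔ red n e ∈ F := by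
  classical
  intro e he
  have h : red n e ∈ EP r (Bxs N N) :=
    Pool.Agent.H160R2.MU.TSTA.red_box (k := N) hr hN hn he
  unfold FB
  rw [Finset.mem_filter]
  constructor
  · rintro ⟨_, h1⟩
    exact h1.2
  · intro h1
    exact ⟨hF h1, Or.inl h, h1⟩

end

/-- the arithmetic of the radii -/
theorem radii {M3 M4 r : ℕ} (hM3 : 64 ≤ M3) (hM4 : 64 * M3 ≤ M4) (hr : M4 ≤ r) :
    1 ≤ r / M4 ∧ 32 * (r / M4) ≤ r / M3 ∧ 64 * (r / M3) ≤ r ∧ 64 * 64 ≤ r := by
  refine ⟨(Nat.one_le_div_iff (by omega)).2 hr, ?_, ?_, by omega⟩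
  · rw [Nat.le_div_iff_mul_le (by omega)]
    have h1 : M4 * (r / M4) ≤ r := Nat.mul_div_le r M4
    nlinarith [Nat.zero_le (r / M4), Nat.mul_le_mul_right (r / M4) hM4]
  · have h1 : M3 * (r / M3) ≤ r := Nat.mul_div_le r M3
    nlinarith [Nat.zero_le (r / M3)]

/-- the probabilistic part of both steps -/
theorem comb (hPRB : Pool.Agent.H160R2.MU.S_PRB) (n M : ℕ) (Ex : Finset Edg → Finset Edg)
    (A Bd K B : Finset Edg → Prop) (κ ε : ℝ) (hκ : 0 < κ)
    (hbad : PC n M (fun F => A F ∧ Bd F) ≤ ε)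
    (hEx : ∀ F G : Finset Edg, F ⊆ CE n M → G ⊆ CE n M → Ex (mrg (Ex F) F G) = Ex F)
    (hdet : ∀ F G : Finset Edg, F ⊆ CE n M → G ⊆ CE n M → A F → ¬ Bd F → K G →
      B (mrg (Ex F) F G)) (hK : κ ≤ PC n M K) :
    PC n M A ≤ ε + 1 / κ * PC n M B := by
  have hok : H974.Ok (fun _ : Edg => (1 / 2 : ℝ)) := okq (by norm_num) (by norm_num)
  have hgood : PC n M (fun F => A F ∧ ¬ Bd F) * PC n M K ≤ PC n M B := by
    refine hPRB (CE n M) Ex _ _ _ ?_ ?_
    · intro F G hF hG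
      exact hEx F G hF hG
    · rintro F G hF hG ⟨h1, h2⟩ h3
      exact hdet F G hF hG h1 h2 h3
  have hsplit : PC n M A ≤ PC n M (fun F => A F ∧ Bd F) + PC n M (fun F => A F ∧ ¬ Bd F) := by
    refine le_trans ?_ (Pr_or_le hok _ _ _)
    refine Pr_mono hok ?_
    intro F hF h
    by_cases h1 : Bd F
    · exact Or.inl ⟨h, h1⟩
    · exact Or.inr ⟨h, h1⟩
  have hg0 : 0 ≤ PC n M (fun F => A F ∧ ¬ Bd F) := Pr_nonneg hok _ _
  have hfin : PC n M (fun F => A F ∧ ¬ Bd F) ≤ 1 / κ * PC n M B := by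
    rw [one_div, ← div_eq_inv_mul, le_div_iff₀ hκ]
    exact le_trans (mul_le_mul_of_nonneg_left hK hg0) hgood
  linarith

/-- the bad part of both steps -/
theorem badp (hDEC : S_DEC) (hIND : S_IND) {c N r n M ρ l : ℕ} (hc : c < 2) (hN : 16 ≤ N)
    (hl : 1 ≤ l) (hlρ : 32 * l ≤ ρ) (hρ : 64 * ρ ≤ r) (hn : n = prd N N * r)
    (hM : M = 4 * n) {δ : ℝ}
    (hB : PC n M (fun F => Bad c N r ρ l (prd N N) n M F ∨ BZ N r ρ n F) ≤ δ)
    (A : Finset Edg → Prop) (f : Finset Edg → Finset Edg)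
    (hA : ∀ F : Finset Edg, F ⊆ CE n M → A F → G3 n (per n (f F)))
    (hf : ∀ F : Finset Edg, F ⊆ CE n M → f F ⊆ CE n M)
    (hbox : ∀ F : Finset Edg, F ⊆ CE n M → ∀ e ∈ boxE (N * r / 2), red n e ∈ f F ↔ red n e ∈ F) :
    PC n M (fun F => A F ∧ (Bad c N r ρ l (prd N N) n M F ∨ BZ N r ρ n F)) ≤
      δ * uR (N * r / 2) := by
  have hok : H974.Ok (fun _ : Edg => (1 / 2 : ℝ)) := okq (by norm_num) (by norm_num)
  have hr : 2 ≤ r := by omega
  have hprd : prd N N = 20 * N := by unfold prd; ring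
  have hn20 : n = 20 * (N * r) := by rw [hn, hprd]; ring
  have hNr : 32 ≤ N * r := by
    have : 16 * 2 ≤ N * r := Nat.mul_le_mul hN hr
    omega
  have h1 : PC n M (fun F => A F ∧ (Bad c N r ρ l (prd N N) n M F ∨ BZ N r ρ n F)) ≤
      PC n M (fun F => SE3 (N * r / 2 : ℕ) (per n F) ∧
        (Bad c N r ρ l (prd N N) n M F ∨ BZ N r ρ n F)) := by
    refine Pr_mono hok ?_
    rintro F hF ⟨h1, h2⟩
    refine ⟨?_, h2⟩
    exact hDEC n M (N * r / 2) (by omega) (by omega) (by omega) (f F) F (hf F hF) hF (hbox F hF)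
      (hA F hF h1)
  have h2 := hIND c N r ρ l hc hN hr hl hlρ hρ n M hn hM
  have h3 : 0 ≤ uR (N * r / 2) := Pr_nonneg hok _ _
  calc _ ≤ _ := h1
    _ ≤ _ := h2
    _ ≤ uR (N * r / 2) * δ := mul_le_mul_of_nonneg_left hB h3
    _ = _ := mul_comm _ _

end TSTA

/-- **step A** -/
theorem t_STA : Pool.Agent.H160R2.MU.S_PRB → S_MA → S_EXA → Pool.Agent.W808.HU.S_TRP → S_BADZ →
    S_DEC → S_IND → S_STA := by
  intro hPRB hMA hEXA hTRP hBADZ hDEC hIND N C hN hC δ hδ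
  obtain ⟨M3, M4, hM3, hM4, hB⟩ := hBADZ N hN δ hδ
  have hprd : prd N N = 20 * N := by unfold prd; ring
  obtain ⟨κ, hκ, r0, hT⟩ := hTRP (prd N N) M4 (by omega) (by omega)
  refine ⟨1 / κ, by positivity, max r0 M4, ?_⟩
  intro r hr n M hn hM
  have hr1 : r0 ≤ r := le_trans (le_max_left _ _) hr
  have hr2 : M4 ≤ r := le_trans (le_max_right _ _) hr
  obtain ⟨hl, hlρ, hρ, hrb⟩ := TSTA.radii hM3 hM4 hr2
  have htrap : κ ≤ PC n M (PTr 1 n M (r / M4)) := by
    have h1 := hT 1 r (by norm_num) hr1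
    rw [← hn, ← hM] at h1
    exact h1
  refine TSTA.comb hPRB n M (ExA N r C n M)
    (fun F => EZ N r C n (per n (FA N r C n M F)))
    (fun F => Bad 1 N r (r / M3) (r / M4) (prd N N) n M F ∨ BZ N r (r / M3) n F)
    (PTr 1 n M (r / M4))
    (fun F => EZ N r C n (per n (FB N r C n M F))) κ _ hκ ?_ ?_ ?_ htrap
  · exact TSTA.badp hDEC hIND (by norm_num) hN hl hlρ hρ hn hM
      (hB 1 r (by norm_num) hr2 n M hn hM) _ (FA N r C n M) (fun F _ h => h.1)
      (fun F _ => TSTA.FA_sub) (fun F hF => TSTA.FA_box (by omega) (by omega) hn hF)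
  · intro F G hF hG
    exact hEXA N r C hN (by omega) hC n M hn hM F G hF hG
  · intro F G hF hG h1 h2 h3
    exact hMA N r (r / M3) (r / M4) C hN hC hl hlρ hρ n M hn hM F G hF hG
      (fun h => h2 (Or.inl h)) h3 h1

end Pool.Agent.W808.KZ
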