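import Pool.Agent.W808.KZ.Stm

/-!
# Translations by periods (helper239)

`te n q e` is the edge `e` shifted by `q (n, n)`, `tp n q x` the point `x` shifted by `(2 n q, 0)`.
Invariance of `zp`, `nrm`, `Dg`, `Cor`, `LZ`, `RZ`, `RC (per ..)`, `EB`, `ET`, `XE`, `XA`, `XW`, `XB`,
`DeA`, `DeB`, `RW`, `KA`, `KB`.
-/

set_option autoImplicit false

namespace Pool.Agent.W808.KZ
open H974 H906.Cyl
open H12S (Dir hbE segD rimE H4 Crs Nr sqE)
open Pool.Agent.H160R2.ML (nm)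
open Pool.Agent.H160R2.MU (Cel csq cpos prd shf BxS Bxs EP inSq PC Bad Cc)
open Pool.Agent.W801.OU

namespace Per

/-- translation of edges by `q` periods -/
def te (n : ℕ) (q : ℤ) (e : Edg) : Edg := (e.1 + n * q, e.2.1 + n * q, e.2.2)

/-- translation of points by `q` periods -/
def tp (n : ℕ) (q : ℤ) (x : ℤ × ℤ) : ℤ × ℤ := (x.1 + 2 * n * q, x.2)

theorem dco_te (n : ℕ) (q : ℤ) (e : Edg) : dco (te n q e) = dco e := by
  obtain ⟨x, y, b⟩ := e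
  cases b <;> simp only [te, dco, if_true, Bool.false_eq_true, if_false] <;> ring

theorem sum_te (n : ℕ) (q : ℤ) (e : Edg) :
    (te n q e).1 + (te n q e).2.1 = e.1 + e.2.1 + 2 * n * q := by
  unfold te
  ring

theorem red_te {n : ℕ} (hn : 0 < n) (q : ℤ) (e : Edg) : red n (te n q e) = red n e :=
  red_shift hn e q

theorem red_eq_te (n : ℕ) (e : Edg) : red n e = te n (-((e.1 + e.2.1) / (2 * n))) e := by
  obtain ⟨x, y, b⟩ := e
  simp only [red, te, Prod.mk.injEq, and_true]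
  constructor <;> ring

theorem te_te (n : ℕ) (q q' : ℤ) (e : Edg) : te n q (te n q' e) = te n (q + q') e := by
  unfold te
  simp only [Prod.mk.injEq, and_true]
  constructor <;> ring

theorem te_zero (n : ℕ) (e : Edg) : te n 0 e = e := by
  obtain ⟨x, y, b⟩ := e
  simp [te]

theorem tp_tp (n : ℕ) (q q' : ℤ) (x : ℤ × ℤ) : tp n q (tp n q' x) = tp n (q + q') x := by
  unfold tp
  exact Prod.ext (by simp only; ring) rfl

theorem tp_zero (n : ℕ) (x : ℤ × ℤ) : tp n 0 x = x := by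
  unfold tp
  exact Prod.ext (by simp) rfl

theorem tp_scz (n : ℕ) (q s : ℤ) (c : ℕ) : tp n q (scz n s c) = scz n (s + q) c := by
  unfold tp scz
  exact Prod.ext (by simp only; ring) rfl

theorem per_te {n : ℕ} (hn : 0 < n) (F : Finset Edg) (q : ℤ) (e : Edg) :
    te n q e ∈ per n F ↔ e ∈ per n F := by
  show red n (te n q e) ∈ F ↔ red n e ∈ F
  rw [red_te hn]

theorem mem_Zn_add (n : ℕ) (j q : ℤ) : j + 2 * n * q ∈ Zn n ↔ j ∈ Zn n := by
  show (j + 2 * n * q) % (2 * n : ℕ) = 0 ↔ j % (2 * n : ℕ) = 0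
  have h : j + 2 * n * q = j + ((2 * n : ℕ) : ℤ) * q := by push_cast; ring
  rw [h, Int.add_mul_emod_self_left]

theorem zp_te (n : ℕ) (q : ℤ) (e : Edg) : te n q e ∈ zp (Zn n) ↔ e ∈ zp (Zn n) := by
  show (dco (te n q e) < 0 ∧ (te n q e).1 + (te n q e).2.1 + 1 ∈ Zn n) ↔
    (dco e < 0 ∧ e.1 + e.2.1 + 1 ∈ Zn n)
  rw [dco_te, sum_te, show e.1 + e.2.1 + 2 * (n : ℤ) * q + 1 = e.1 + e.2.1 + 1 + 2 * n * q by ring,
    mem_Zn_add]

theorem nrm_te (n : ℕ) (q d j t : ℤ) : nrm (Zn n) d (j + 2 * n * q) t = tp n q (nrm (Zn n) d j t) := by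
  classical
  unfold nrm tp
  by_cases h : d < 0 ∧ j ∈ Zn n
  · rw [if_pos h, if_pos ⟨h.1, (mem_Zn_add n j q).2 h.2⟩]
    exact Prod.ext (by simp only; ring) rfl
  · rw [if_neg h, if_neg (fun h' => h ⟨h'.1, (mem_Zn_add n j q).1 h'.2⟩)]

theorem Dg_te1 {n : ℕ} {c : ℤ} {e : Edg} {x y : ℤ × ℤ} (q : ℤ) (h : Dg (Zn n) c e x y) :
    Dg (Zn n) c (te n q e) (tp n q x) (tp n q y) := by
  have key : ∀ j t : ℤ, tp n q (nrm (Zn n) (dco e) (e.1 + e.2.1 + j) t) =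
      nrm (Zn n) (dco (te n q e)) ((te n q e).1 + (te n q e).2.1 + j) t := by
    intro j t
    rw [dco_te, sum_te, ← nrm_te]
    congr 1
    ring
  have key0 : ∀ t : ℤ, tp n q (nrm (Zn n) (dco e) (e.1 + e.2.1) t) =
      nrm (Zn n) (dco (te n q e)) ((te n q e).1 + (te n q e).2.1) t := by
    intro t
    have := key 0 t
    simpa using this
  have hp : ((te n q e).1 + (te n q e).2.1 + dco (te n q e)) % 2 = (e.1 + e.2.1 + dco e) % 2 := by
    rw [dco_te, sum_te]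
    have : e.1 + e.2.1 + 2 * (n : ℤ) * q + dco e = e.1 + e.2.1 + dco e + 2 * (n * q) := by ring
    rw [this, Int.add_mul_emod_self_left]
  cases h with
  | rise h =>
    rw [key0, key]
    have h2 := Dg.rise (Z := Zn n) (c := c) (e := te n q e) (by rw [hp]; exact h)
    rw [show dco e = dco (te n q e) from (dco_te n q e).symm]
    exact h2
  | fall h =>
    rw [key0, key]
    have h2 := Dg.fall (Z := Zn n) (c := c) (e := te n q e) (by rw [hp]; exact h)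
    rw [show dco e = dco (te n q e) from (dco_te n q e).symm]
    exact h2

theorem Dg_te {n : ℕ} {c : ℤ} {e : Edg} {x y : ℤ × ℤ} (q : ℤ) :
    Dg (Zn n) c (te n q e) (tp n q x) (tp n q y) ↔ Dg (Zn n) c e x y := by
  refine ⟨fun h => ?_, Dg_te1 q⟩
  have h2 := Dg_te1 (-q) h
  rw [te_te, tp_tp, tp_tp, neg_add_cancel, te_zero, tp_zero, tp_zero] at h2
  exact h2

theorem Cor_te1 {n : ℕ} {c : ℤ} {e : Edg} {x : ℤ × ℤ} (q : ℤ) (h : Cor (Zn n) c e x) :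
    Cor (Zn n) c (te n q e) (tp n q x) := by
  obtain ⟨h1, y, h2⟩ := h
  exact ⟨fun h => h1 ((zp_te n q e).1 h), tp n q y, h2.imp (Dg_te1 q) (Dg_te1 q)⟩

theorem Cor_te {n : ℕ} {c : ℤ} {e : Edg} {x : ℤ × ℤ} (q : ℤ) :
    Cor (Zn n) c (te n q e) (tp n q x) ↔ Cor (Zn n) c e x := by
  refine ⟨fun h => ?_, Cor_te1 q⟩
  have h2 := Cor_te1 (-q) h
  rw [te_te, tp_tp, neg_add_cancel, te_zero, tp_zero] at h2
  exact h2

/-- links -/
theorem LZ_tp {n : ℕ} {B G : Set Edg} (hB : ∀ q e, te n q e ∈ B ↔ e ∈ B)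
    (hG : ∀ q e, te n q e ∈ G ↔ e ∈ G) {x y : ℤ × ℤ} (q : ℤ) (h : LZ (Zn n) B G x y) :
    LZ (Zn n) B G (tp n q x) (tp n q y) := by
  obtain ⟨e, he, hz, h⟩ := h
  refine ⟨te n q e, (hB q e).2 he, fun h => hz ((zp_te n q e).1 h), ?_⟩
  rcases h with ⟨h1, h2⟩ | ⟨h1, h2⟩
  · exact Or.inl ⟨(hG q e).2 h1, Dg_te1 q h2⟩
  · exact Or.inr ⟨fun h => h1 ((hG q e).1 h), Dg_te1 q h2⟩

theorem eqv_map {α : Type} {R : α → α → Prop} (f : α → α) (hf : ∀ x y, R x y → R (f x) (f y))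
    {x y : α} (h : Relation.EqvGen R x y) : Relation.EqvGen R (f x) (f y) := by
  induction h with
  | rel _ _ h => exact Relation.EqvGen.rel _ _ (hf _ _ h)
  | refl _ => exact Relation.EqvGen.refl _
  | symm _ _ _ ih => exact Relation.EqvGen.symm _ _ ih
  | trans _ _ _ _ _ ih1 ih2 => exact Relation.EqvGen.trans _ _ _ ih1 ih2

/-- connections -/
theorem RZ_tp {n : ℕ} {B G : Set Edg} (hB : ∀ q e, te n q e ∈ B ↔ e ∈ B)
    (hG : ∀ q e, te n q e ∈ G ↔ e ∈ G) {x y : ℤ × ℤ} (q : ℤ) (h : RZ (Zn n) B G x y) :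
    RZ (Zn n) B G (tp n q x) (tp n q y) :=
  eqv_map (tp n q) (fun _ _ h => LZ_tp hB hG q h) h

theorem RC_tp {n : ℕ} (hn : 0 < n) (F : Finset Edg) {x y : ℤ × ℤ} (q : ℤ)
    (h : RC n (per n F) x y) : RC n (per n F) (tp n q x) (tp n q y) :=
  RZ_tp (fun _ _ => ⟨fun _ => trivial, fun _ => trivial⟩) (per_te hn F) q h

theorem RC_tp_iff {n : ℕ} (hn : 0 < n) (F : Finset Edg) {x y : ℤ × ℤ} (q : ℤ) :
    RC n (per n F) (tp n q x) (tp n q y) ↔ RC n (per n F) x y := by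
  refine ⟨fun h => ?_, RC_tp hn F q⟩
  have h2 := RC_tp hn F (-q) h
  rw [tp_tp, tp_tp, neg_add_cancel, tp_zero, tp_zero] at h2
  exact h2

theorem mem_sq {r : ℕ} {z : ℤ × ℤ} {e : Edg} : e ∈ sqE r z ↔
    (r * z.1 ≤ e.1 ∧ r * z.2 ≤ e.2.1) ∧
    (if e.2.2 then e.1 < r * z.1 + r ∧ e.2.1 ≤ r * z.2 + r
      else e.1 ≤ r * z.1 + r ∧ e.2.1 < r * z.2 + r) := by
  obtain ⟨x, y, b⟩ := e
  unfold sqE
  cases b
  · rw [mem_RE_false]
    simp only [Bool.false_eq_true, if_false]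
    tauto
  · rw [mem_RE_true]
    simp only [if_true]
    tauto

/-- periodicity of the coarse sets -/
theorem EP_te {N k r n : ℕ} (hn : n = prd N k * r) {P : Set (ℤ × ℤ)}
    (hP : ∀ (z : ℤ × ℤ) (s : ℤ), z ∈ P ↔ shf N k s z ∈ P) (q : ℤ) (e : Edg) :
    te n q e ∈ EP r P ↔ e ∈ EP r P := by
  have key : ∀ (q : ℤ) (e : Edg), e ∈ EP r P → te n q e ∈ EP r P := by
    rintro q e ⟨z, hz, he⟩
    refine ⟨(z.1 + prd N k * q, z.2 + prd N k * q), ?_, ?_⟩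
    · rw [hP _ q]
      have : shf N k q (z.1 + prd N k * q, z.2 + prd N k * q) = z := by
        unfold shf
        exact Prod.ext (by simp only; ring) (by simp only; ring)
      rw [this]; exact hz
    · rw [mem_sq] at he ⊢
      have e1 : ∀ a : ℤ, (r : ℤ) * (a + prd N k * q) = r * a + n * q := by
        intro a; rw [hn]; push_cast; ring
      unfold te
      simp only [e1]
      generalize (n : ℤ) * q = w at *
      split_ifs at he ⊢ <;> refine ⟨⟨by omega, by omega⟩, by omega, by omega⟩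
  constructor
  · intro h
    have := key (-q) _ h
    rw [te_te, neg_add_cancel, te_zero] at this
    exact this
  · exact key q e

section geo

variable {N r : ℕ} {C : Cel} {n : ℕ}

theorem EB_te (h3 : S_z3) (hN : 16 ≤ N) (hC : AdmZ N C) (hn : n = prd N N * r) (q : ℤ) (e : Edg) :
    te n q e ∈ EB N r ↔ e ∈ EB N r :=
  EP_te hn (fun z s => ((h3 N C hN hC _ rfl).2.2.1 z s).1) q e

theorem ET_te (h3 : S_z3) (hN : 16 ≤ N) (hC : AdmZ N C) (hn : n = prd N N * r) (q : ℤ) (e : Edg) :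
    te n q e ∈ ET N r C ↔ e ∈ ET N r C :=
  EP_te hn (fun z s => ((h3 N C hN hC _ rfl).2.2.1 z s).2) q e

theorem EB_red (h3 : S_z3) (hN : 16 ≤ N) (hC : AdmZ N C) (hn : n = prd N N * r) (e : Edg) :
    red n e ∈ EB N r ↔ e ∈ EB N r := by
  rw [red_eq_te]; exact EB_te h3 hN hC hn _ e

theorem ET_red (h3 : S_z3) (hN : 16 ≤ N) (hC : AdmZ N C) (hn : n = prd N N * r) (e : Edg) :
    red n e ∈ ET N r C ↔ e ∈ ET N r C := by
  rw [red_eq_te]; exact ET_te h3 hN hC hn _ e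

theorem XE_tp (h3 : S_z3) (hN : 16 ≤ N) (hC : AdmZ N C) (hn : n = prd N N * r) (q : ℤ)
    {x : ℤ × ℤ} (h : XE N r C n x) : XE N r C n (tp n q x) := by
  obtain ⟨e, h1, h2, h4⟩ := h
  exact ⟨te n q e, fun h => h1 ((EB_te h3 hN hC hn q e).1 h), fun h => h2 ((ET_te h3 hN hC hn q e).1 h),
    Cor_te1 q h4⟩

theorem DeB_tp (h3 : S_z3) (hN : 16 ≤ N) (hC : AdmZ N C) (hn : n = prd N N * r) (q : ℤ)
    {x : ℤ × ℤ} (h : DeB N r C n x) : DeB N r C n (tp n q x) := by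
  obtain ⟨e, h1, h2, h4⟩ := h
  exact ⟨te n q e, fun h => h1 ((EB_te h3 hN hC hn q e).1 h), fun h => h2 ((ET_te h3 hN hC hn q e).1 h),
    Cor_te1 q h4⟩

theorem DeA_tp (h3 : S_z3) (hN : 16 ≤ N) (hC : AdmZ N C) (hn : n = prd N N * r) (q : ℤ)
    {x : ℤ × ℤ} (h : DeA N r C n x) : DeA N r C n (tp n q x) := by
  obtain ⟨e, h1, h2, h4⟩ := h
  exact ⟨te n q e, fun h => h1 ((EB_te h3 hN hC hn q e).1 h), (ET_te h3 hN hC hn q e).2 h2,
    Cor_te1 q h4⟩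

theorem XA_tp (h3 : S_z3) (hN : 16 ≤ N) (hC : AdmZ N C) (hn : n = prd N N * r) (q : ℤ)
    {x : ℤ × ℤ} (h : XA N r C n x) : XA N r C n (tp n q x) := by
  rcases h with ⟨s, c, hc, rfl⟩ | h | ⟨e, h1, h2, h4⟩
  · exact Or.inl ⟨s + q, c, hc, tp_scz n q s c⟩
  · exact Or.inr (Or.inl (XE_tp h3 hN hC hn q h))
  · exact Or.inr (Or.inr ⟨te n q e, fun h => h1 ((EB_te h3 hN hC hn q e).1 h),
      (ET_te h3 hN hC hn q e).2 h2, Cor_te1 q h4⟩)

theorem XW_tp (h3 : S_z3) (hN : 16 ≤ N) (hC : AdmZ N C) (hn : n = prd N N * r) (q : ℤ)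
    {x : ℤ × ℤ} (h : XW N r C n x) : XW N r C n (tp n q x) :=
  h.imp (XE_tp h3 hN hC hn q) id

theorem XB_tp (h3 : S_z3) (hN : 16 ≤ N) (hC : AdmZ N C) (hn : n = prd N N * r) (q : ℤ)
    {x : ℤ × ℤ} (h : XB N r C n x) : XB N r C n (tp n q x) := by
  rcases h with ⟨s, c, hc, rfl⟩ | h
  · exact Or.inl ⟨s + q, c, hc, tp_scz n q s c⟩
  · exact Or.inr (XW_tp h3 hN hC hn q h)

theorem RW_tp (h3 : S_z3) (hN : 16 ≤ N) (hC : AdmZ N C) (hn : n = prd N N * r) (hn0 : 0 < n)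
    (F : Finset Edg) (q : ℤ) {x y : ℤ × ℤ} (h : RW N r C n (per n F) x y) :
    RW N r C n (per n F) (tp n q x) (tp n q y) := by
  refine eqv_map (tp n q) ?_ h
  intro x y h
  rcases h with ⟨h1, h2⟩ | h
  · exact Or.inl ⟨XW_tp h3 hN hC hn q h1, XW_tp h3 hN hC hn q h2⟩
  · refine Or.inr (LZ_tp ?_ (per_te hn0 F) q h)
    intro q e
    exact or_congr (EB_te h3 hN hC hn q e) (ET_te h3 hN hC hn q e)

theorem RW_tp_iff (h3 : S_z3) (hN : 16 ≤ N) (hC : AdmZ N C) (hn : n = prd N N * r) (hn0 : 0 < n)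
    (F : Finset Edg) (q : ℤ) {x y : ℤ × ℤ} :
    RW N r C n (per n F) (tp n q x) (tp n q y) ↔ RW N r C n (per n F) x y := by
  refine ⟨fun h => ?_, RW_tp h3 hN hC hn hn0 F q⟩
  have h2 := RW_tp h3 hN hC hn hn0 F (-q) h
  rw [tp_tp, tp_tp, neg_add_cancel, tp_zero, tp_zero] at h2
  exact h2

theorem KA_tp (h3 : S_z3) (hN : 16 ≤ N) (hC : AdmZ N C) (hn : n = prd N N * r) (hn0 : 0 < n)
    {M : ℕ} (F : Finset Edg) (q : ℤ) {x : ℤ × ℤ} (h : KA N r C n M F x) :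
    KA N r C n M F (tp n q x) := by
  obtain ⟨y, h1, h2⟩ := h
  exact ⟨tp n q y, XA_tp h3 hN hC hn q h1, RC_tp hn0 _ q h2⟩

theorem KB_tp (h3 : S_z3) (hN : 16 ≤ N) (hC : AdmZ N C) (hn : n = prd N N * r) (hn0 : 0 < n)
    (F : Finset Edg) (q : ℤ) {x : ℤ × ℤ} (h : KB N r C n F x) :
    KB N r C n F (tp n q x) := by
  obtain ⟨y, h1, h2⟩ := h
  exact ⟨tp n q y, XB_tp h3 hN hC hn q h1, RW_tp h3 hN hC hn hn0 F q h2⟩

end geo

end Per

end Pool.Agent.W808.KZ
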