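import Pool.Agent.W808.KZ.T_SEPB0

/-!
# Dislocated plane: different clusters are far from each other at the boundary of boxes and tube
(helper940), part 2
-/

set_option autoImplicit false

namespace Pool.Agent.W808.KZ
open H974 H906.Cyl
open H12S (Dir hbE segD rimE H4 H3g Crs Nr sqE FD_nb FD_nb_of FD_mem_RE FD_of_mem_RE FD_div)
open Pool.Agent.H160R2.ML (nm)
open Pool.Agent.H160R2.MU (Cel csq cpos rad prd shf BxS Bxs EP inSq PC Bad Trap Cc)
open Pool.Agent.H160R2.MU.TSEPB (EP_loc EP_of BadQ EP_union far_box ext_sq)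
open Pool.Agent.W801.OU
open Relation (EqvGen)

namespace TSEPB

/-! ### equivalence relations -/

theorem eqv_closed {α : Type*} {T : α → α → Prop} {Q : α → Prop}
    (h : ∀ a b, T a b → (Q a ↔ Q b)) {a b : α} (hab : EqvGen T a b) : Q a ↔ Q b := by
  induction hab with
  | rel _ _ h1 => exact h _ _ h1
  | refl _ => exact Iff.rfl
  | symm _ _ _ ih => exact ih.symm
  | trans _ _ _ _ _ ih1 ih2 => exact ih1.trans ih2

theorem eqv_isol {α : Type*} {T : α → α → Prop} {a b : α} (h : ∀ z, ¬ T b z ∧ ¬ T z b)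
    (hab : EqvGen T a b) : a = b := by
  have key : ∀ x y, T x y → (x = b ↔ y = b) := by
    intro x y hxy
    constructor
    · rintro rfl
      exact absurd hxy (h y).1
    · rintro rfl
      exact absurd hxy (h x).2
  exact (eqv_closed (Q := fun z => z = b) key hab).2 rfl

theorem exit_eqv {α : Type*} {T : α → α → Prop} {a b : α} (h : EqvGen T a b) (R : α → Prop)
    (ha : R a) (hb : ¬ R b) : ∃ v w, EqvGen (fun x y => T x y ∧ R x ∧ R y) a v ∧ R v ∧ ¬ R w ∧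
      (T v w ∨ T w v) := by
  by_contra hcon
  push Not at hcon
  have key : ∀ x y, T x y → ((EqvGen (fun x y => T x y ∧ R x ∧ R y) a x ∧ R x) ↔
      (EqvGen (fun x y => T x y ∧ R x ∧ R y) a y ∧ R y)) := by
    intro x y hxy
    constructor
    · rintro ⟨h1, h2⟩
      by_cases h3 : R y
      · exact ⟨h1.trans _ _ _ (EqvGen.rel _ _ ⟨hxy, h2, h3⟩), h3⟩
      · exact absurd hxy (hcon x y h1 h2 h3).1
    · rintro ⟨h1, h2⟩
      by_cases h3 : R x
      · exact ⟨h1.trans _ _ _ ((EqvGen.rel _ _ ⟨hxy, h3, h2⟩).symm _ _), h3⟩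
      · exact absurd hxy (hcon y x h1 h2 h3).2
  exact hb ((eqv_closed key h).1 ⟨EqvGen.refl _, ha⟩).2

/-! ### squares and points away from the zippers -/

theorem mem_Zn {n : ℕ} {j : ℤ} : j ∈ Zn n ↔ ∃ s : ℤ, j = 2 * n * s := by
  have e : j ∈ Zn n ↔ j % ((2 * n : ℕ) : ℤ) = 0 := Iff.rfl
  rw [e]
  constructor
  · intro h
    refine ⟨j / ((2 * n : ℕ) : ℤ), ?_⟩
    have := Int.emod_add_mul_ediv j ((2 * n : ℕ) : ℤ)
    rw [h] at this
    push_cast at this ⊢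
    linarith
  · rintro ⟨s, rfl⟩
    have : (2 * n * s : ℤ) = ((2 * n : ℕ) : ℤ) * s := by push_cast; ring
    rw [this]
    exact Int.mul_emod_right _ _

/-- points away from the zippers -/
def Aw (n : ℕ) (p : ℤ × ℤ) : Prop :=
  1 ≤ p.2 ∨ ∀ s : ℤ, p.1 + 2 ≤ 2 * n * s ∨ 2 * n * s + 2 ≤ p.1

/-- squares away from the zippers -/
def Sz (n : ℕ) : Set Edg :=
  {e | 0 ≤ dco e ∨ ∀ s : ℤ, e.1 + e.2.1 + 1 ≠ 2 * n * s ∧ e.1 + e.2.1 ≠ 2 * n * s}

theorem mem_Sz {n : ℕ} {e : Edg} : e ∈ Sz n ↔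
    0 ≤ dco e ∨ ∀ s : ℤ, e.1 + e.2.1 + 1 ≠ 2 * n * s ∧ e.1 + e.2.1 ≠ 2 * n * s := Iff.rfl

theorem nrm_std {n : ℕ} {d j t : ℤ} (h : 0 ≤ d ∨ ∀ s : ℤ, j ≠ 2 * n * s) :
    nrm (Zn n) d j t = (j, t) := by
  unfold nrm
  rw [if_neg]
  rintro ⟨h1, h2⟩
  obtain ⟨s, hs⟩ := mem_Zn.1 h2
  rcases h with h | h
  · omega
  · exact h s hs

theorem nrm_fst {Z : Set ℤ} {d j t : ℤ} : j - 1 ≤ (nrm Z d j t).1 ∧ (nrm Z d j t).1 ≤ j ∧
    (nrm Z d j t).2 = t := by
  unfold nrm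
  split_ifs
  · dsimp only; omega
  · dsimp only; omega

theorem dg_near {Z : Set ℤ} {c : ℤ} {e : Edg} {x y : ℤ × ℤ} (h : Dg Z c e x y) :
    ((x.2 = dco e ∨ x.2 = dco e + 1) ∧ (y.2 = dco e ∨ y.2 = dco e + 1)) ∧
    (e.1 + e.2.1 - 1 ≤ x.1 ∧ x.1 ≤ e.1 + e.2.1 + 1) ∧
    (e.1 + e.2.1 - 1 ≤ y.1 ∧ y.1 ≤ e.1 + e.2.1 + 1) := by
  cases h with
  | rise h =>
    have h1 := nrm_fst (Z := Z) (d := dco e) (j := e.1 + e.2.1) (t := dco e)
    have h2 := nrm_fst (Z := Z) (d := dco e) (j := e.1 + e.2.1 + 1) (t := dco e + 1)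
    omega
  | fall h =>
    have h1 := nrm_fst (Z := Z) (d := dco e) (j := e.1 + e.2.1) (t := dco e + 1)
    have h2 := nrm_fst (Z := Z) (d := dco e) (j := e.1 + e.2.1 + 1) (t := dco e)
    omega

theorem aw_Sz {n : ℕ} {c : ℤ} {e : Edg} {p q : ℤ × ℤ} (hz : e ∉ zp (Zn n))
    (h : Dg (Zn n) c e p q ∨ Dg (Zn n) c e q p) (hp : Aw n p) : e ∈ Sz n := by
  rw [mem_Sz]
  by_contra hcon
  push Not at hcon
  obtain ⟨hd, s, hs⟩ := hcon
  have hz1 : e.1 + e.2.1 + 1 ∉ Zn n := fun hh => hz ⟨hd, hh⟩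
  have hs0 : e.1 + e.2.1 = 2 * n * s := by
    by_contra hne
    apply hne
    apply hs
    intro hh
    exact hz1 (mem_Zn.2 ⟨s, hh⟩)
  have hin : e.1 + e.2.1 ∈ Zn n := mem_Zn.2 ⟨s, hs0⟩
  have n0 : ∀ t, nrm (Zn n) (dco e) (e.1 + e.2.1) t = (e.1 + e.2.1 - 1, t) := by
    intro t
    unfold nrm
    rw [if_pos ⟨hd, hin⟩]
  have n1 : ∀ t, nrm (Zn n) (dco e) (e.1 + e.2.1 + 1) t = (e.1 + e.2.1 + 1, t) := by
    intro t
    unfold nrm
    rw [if_neg (fun hh => hz1 hh.2)]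
  have key : ∀ t : ℤ, t ≤ 0 → (p = (e.1 + e.2.1 - 1, t) ∨ p = (e.1 + e.2.1 + 1, t)) → False := by
    intro t ht hpt
    rcases hp with h1 | h1
    · rcases hpt with rfl | rfl
      · dsimp only at h1; omega
      · dsimp only at h1; omega
    · have h2 := h1 s
      rcases hpt with rfl | rfl
      · dsimp only at h2; omega
      · dsimp only at h2; omega
  rcases h with h | h
  · cases h with
    | rise h => exact key (dco e) hd.le (Or.inl (n0 _))
    | fall h => exact key (dco e + 1) (by omega) (Or.inl (n0 _))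
  · cases h with
    | rise h => exact key (dco e + 1) (by omega) (Or.inr (n1 _))
    | fall h => exact key (dco e) hd.le (Or.inr (n1 _))

theorem vp_inj {v w : Vtx} (h : vp v = vp w) : v = w := by
  unfold vp at h
  rw [Prod.mk.injEq] at h
  exact Prod.ext (by omega) (by omega)

theorem dg_std {n : ℕ} {c : ℤ} {e : Edg} (he : e ∈ Sz n) {x y : ℤ × ℤ} :
    Dg (Zn n) c e x y ↔
      ((e.1 + e.2.1 + dco e) % 2 = c ∧ x = (e.1 + e.2.1, dco e) ∧
        y = (e.1 + e.2.1 + 1, dco e + 1)) ∨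
      ((e.1 + e.2.1 + dco e) % 2 = 1 - c ∧ x = (e.1 + e.2.1, dco e + 1) ∧
        y = (e.1 + e.2.1 + 1, dco e)) := by
  have n0 : ∀ t, nrm (Zn n) (dco e) (e.1 + e.2.1) t = (e.1 + e.2.1, t) := fun t =>
    nrm_std ((mem_Sz.1 he).imp_right fun h s => (h s).2)
  have n1 : ∀ t, nrm (Zn n) (dco e) (e.1 + e.2.1 + 1) t = (e.1 + e.2.1 + 1, t) := fun t =>
    nrm_std ((mem_Sz.1 he).imp_right fun h s => (h s).1)
  constructor
  · intro h
    cases h with
    | rise h => exact Or.inl ⟨h, n0 _, n1 _⟩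
    | fall h => exact Or.inr ⟨h, n0 _, n1 _⟩
  · rintro (⟨h, rfl, rfl⟩ | ⟨h, rfl, rfl⟩)
    · have := Dg.rise (Z := Zn n) (c := c) (e := e) h
      rwa [n0, n1] at this
    · have := Dg.fall (Z := Zn n) (c := c) (e := e) h
      rwa [n0, n1] at this

theorem dg0 {n : ℕ} {e : Edg} (he : e ∈ Sz n) {x y : ℤ × ℤ} :
    Dg (Zn n) 0 e x y ↔ x = vp (src e) ∧ y = vp (tgt e) := by
  rw [dg_std he]
  obtain ⟨a, b, β⟩ := e
  cases β
  · simp only [dco, src, tgt, vp, Bool.false_eq_true, if_false, Prod.ext_iff]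
    constructor
    · rintro (⟨h, -, -⟩ | ⟨h, h1, h2⟩)
      · exfalso; omega
      · omega
    · rintro ⟨h1, h2⟩
      right
      omega
  · simp only [dco, src, tgt, vp, if_true, Prod.ext_iff]
    constructor
    · rintro (⟨h, h1, h2⟩ | ⟨h, -, -⟩)
      · omega
      · exfalso; omega
    · rintro ⟨h1, h2⟩
      left
      omega

theorem dg1 {n : ℕ} {e : Edg} (he : e ∈ Sz n) {x y : ℤ × ℤ} (h : Dg (Zn n) 1 e x y) :
    (x.1 + x.2) % 2 = 1 ∧ (y.1 + y.2) % 2 = 1 := by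
  rw [dg_std he] at h
  rcases h with ⟨h, rfl, rfl⟩ | ⟨h, rfl, rfl⟩
  · dsimp only; omega
  · dsimp only; omega

theorem vp_even (v : Vtx) : ((vp v).1 + (vp v).2) % 2 = 0 := by
  unfold vp
  dsimp only
  omega

/-- the links at a vertex away from the zippers -/
theorem link_vp {n : ℕ} {e : Edg} {v : Vtx} {y : ℤ × ℤ} {G : Set Edg} (hz : e ∉ zp (Zn n))
    (hv : Aw n (vp v)) :
    ((e ∈ G ∧ Dg (Zn n) 0 e (vp v) y) ∨ (e ∉ G ∧ Dg (Zn n) 1 e (vp v) y) →
      e ∈ Sz n ∧ e ∈ G ∧ src e = v ∧ y = vp (tgt e)) ∧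
    ((e ∈ G ∧ Dg (Zn n) 0 e y (vp v)) ∨ (e ∉ G ∧ Dg (Zn n) 1 e y (vp v)) →
      e ∈ Sz n ∧ e ∈ G ∧ tgt e = v ∧ y = vp (src e)) := by
  constructor
  · rintro (⟨h1, h2⟩ | ⟨h1, h2⟩)
    · have hS := aw_Sz hz (Or.inl h2) hv
      obtain ⟨h3, h4⟩ := (dg0 hS).1 h2
      exact ⟨hS, h1, (vp_inj h3).symm, h4⟩
    · have hS := aw_Sz hz (Or.inl h2) hv
      have := (dg1 hS h2).1
      have h5 := vp_even v
      omega
  · rintro (⟨h1, h2⟩ | ⟨h1, h2⟩)
    · have hS := aw_Sz hz (Or.inr h2) hv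
      obtain ⟨h3, h4⟩ := (dg0 hS).1 h2
      exact ⟨hS, h1, (vp_inj h4).symm, h3⟩
    · have hS := aw_Sz hz (Or.inr h2) hv
      have := (dg1 hS h2).2
      have h5 := vp_even v
      omega

/-! ### translation -/

/-- translation of points and edges by `s` periods -/
def tp (n : ℕ) (s : ℤ) (x : ℤ × ℤ) : ℤ × ℤ := (x.1 - 2 * n * s, x.2)

def te (n : ℕ) (s : ℤ) (e : Edg) : Edg := (e.1 - n * s, e.2.1 - n * s, e.2.2)

theorem dco_te (n : ℕ) (s : ℤ) (e : Edg) : dco (te n s e) = dco e := by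
  obtain ⟨x, y, _ | _⟩ := e <;> simp only [te, dco, if_true, Bool.false_eq_true, if_false] <;> ring

theorem sum_te (n : ℕ) (s : ℤ) (e : Edg) :
    (te n s e).1 + (te n s e).2.1 = e.1 + e.2.1 - 2 * n * s := by
  unfold te
  dsimp only
  ring

theorem Zn_sub {n : ℕ} {j s : ℤ} : j - 2 * n * s ∈ Zn n ↔ j ∈ Zn n := by
  rw [mem_Zn, mem_Zn]
  constructor
  · rintro ⟨q, hq⟩
    exact ⟨q + s, by linear_combination hq⟩
  · rintro ⟨q, hq⟩
    exact ⟨q - s, by linear_combination hq⟩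

theorem nrm_tp (n : ℕ) (s d j t : ℤ) :
    nrm (Zn n) d (j - 2 * n * s) t = tp n s (nrm (Zn n) d j t) := by
  unfold nrm tp
  by_cases h : d < 0 ∧ j ∈ Zn n
  · rw [if_pos h, if_pos ⟨h.1, Zn_sub.2 h.2⟩]
    refine Prod.ext ?_ rfl
    dsimp only
    ring
  · rw [if_neg h, if_neg (fun hh => h ⟨hh.1, Zn_sub.1 hh.2⟩)]

theorem dg_te {n : ℕ} {c : ℤ} {e : Edg} {x y : ℤ × ℤ} (s : ℤ) (h : Dg (Zn n) c e x y) :
    Dg (Zn n) c (te n s e) (tp n s x) (tp n s y) := by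
  have e1 : ∀ z : ℤ, (e.1 + e.2.1 - 2 * n * s + z) = (e.1 + e.2.1 + z) - 2 * n * s := by
    intro z; ring
  have hpar : ((te n s e).1 + (te n s e).2.1 + dco (te n s e)) % 2 =
      (e.1 + e.2.1 + dco e) % 2 := by
    rw [sum_te, dco_te]
    obtain ⟨A, hA⟩ : ∃ A : ℤ, A = n * s := ⟨_, rfl⟩
    have : (2 * n * s : ℤ) = 2 * A := by rw [hA]; ring
    rw [this]
    omega
  cases h with
  | rise h =>
    rw [← hpar] at h
    have := Dg.rise (Z := Zn n) (c := c) (e := te n s e) h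
    rw [sum_te, dco_te, e1, nrm_tp, nrm_tp] at this
    exact this
  | fall h =>
    rw [← hpar] at h
    have := Dg.fall (Z := Zn n) (c := c) (e := te n s e) h
    rw [sum_te, dco_te, e1, nrm_tp, nrm_tp] at this
    exact this

theorem zp_te {n : ℕ} {e : Edg} (s : ℤ) (h : e ∉ zp (Zn n)) : te n s e ∉ zp (Zn n) := by
  rintro ⟨h1, h2⟩
  rw [dco_te] at h1
  rw [sum_te] at h2
  apply h
  refine ⟨h1, ?_⟩
  rw [show e.1 + e.2.1 - 2 * n * s + 1 = (e.1 + e.2.1 + 1) - 2 * n * s by ring, Zn_sub] at h2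
  exact h2

theorem per_te {n : ℕ} (hn : 0 < n) {F : Finset Edg} {e : Edg} (s : ℤ) :
    te n s e ∈ per n F ↔ e ∈ per n F := by
  have h := red_shift hn e (-s)
  have e1 : te n s e = (e.1 + n * (-s), e.2.1 + n * (-s), e.2.2) := by
    unfold te
    refine Prod.ext ?_ (Prod.ext ?_ rfl) <;> · dsimp only
                                               ring
  show red n (te n s e) ∈ F ↔ red n e ∈ F
  rw [e1, h]

theorem LZ_te {n : ℕ} (hn : 0 < n) {F : Finset Edg} {B B' : Set Edg} {x y : ℤ × ℤ} (s : ℤ)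
    (h : LZ (Zn n) B (per n F) x y)
    (hB : ∀ e ∈ B, (∃ c, Dg (Zn n) c e x y) → te n s e ∈ B') :
    LZ (Zn n) B' (per n F) (tp n s x) (tp n s y) := by
  obtain ⟨e, he, hz, h⟩ := h
  refine ⟨te n s e, hB e he ?_, zp_te s hz, ?_⟩
  · rcases h with ⟨-, h⟩ | ⟨-, h⟩
    · exact ⟨_, h⟩
    · exact ⟨_, h⟩
  · rcases h with ⟨h1, h2⟩ | ⟨h1, h2⟩
    · exact Or.inl ⟨(per_te hn s).2 h1, dg_te s h2⟩
    · exact Or.inr ⟨fun hh => h1 ((per_te hn s).1 hh), dg_te s h2⟩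

/-! ### common data -/

/-- the parameters -/
structure Par (N r ρ l n : ℕ) (K : Cel) : Prop where
  hN : 16 ≤ N
  hl : 1 ≤ l
  h1 : 32 * l ≤ ρ
  h2 : 64 * ρ ≤ r
  hn : n = prd N N * r
  ext : ∀ z ∈ Bxs N N ∪ TubZ N K, |z.1 - z.2| ≤ 3 * N + 2
  zip : ∀ z ∈ TubZ N K, ∀ s : ℤ, (N : ℤ) ≤ (shf N N s z).1 - (shf N N s z).2 ∨
    (shf N N s z).1 + (shf N N s z).2 ≤ -6 ∨ 5 ≤ (shf N N s z).1 + (shf N N s z).2

section
variable {N r ρ l n : ℕ} {K : Cel} {F : Finset Edg}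

theorem Par.prd20 (_h : Par N r ρ l n K) : prd N N = 20 * N := by
  unfold prd
  ring

theorem Par.n20 (h : Par N r ρ l n K) : (n : ℤ) = 20 * (N * r) := by
  rw [h.hn, h.prd20]
  push_cast
  ring

theorem Par.Nr (h : Par N r ρ l n K) : (16 : ℤ) * r ≤ N * r := by
  have e1 : (16 : ℤ) ≤ N := by exact_mod_cast h.hN
  have e2 : (0 : ℤ) ≤ r := by positivity
  exact mul_le_mul_of_nonneg_right e1 e2

theorem Par.r64 (h : Par N r ρ l n K) : (32 : ℤ) * l ≤ ρ ∧ (64 : ℤ) * ρ ≤ r ∧ (1 : ℤ) ≤ l := by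
  have := h.h1
  have := h.h2
  have := h.hl
  omega

/-- the extent of the squares of boxes and tube -/
theorem Par.src_ext (h : Par N r ρ l n K) {e : Edg} (he : e ∈ EB N r ∪ ET N r K) :
    ∃ z ∈ Bxs N N ∪ TubZ N K, inSq r z (src e) ∧ inSq r z (tgt e) ∧
      |(src e).1 - (src e).2| ≤ 3 * (N * r) + 3 * r := by
  have he' : e ∈ EP r (Bxs N N ∪ TubZ N K) := by
    rw [EP_union]
    exact he
  obtain ⟨z, hz, h1, h2⟩ := EP_loc he' (Or.inl ⟨rfl, rfl⟩)
  refine ⟨z, hz, h1, h2, ?_⟩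
  have h3 := ext_sq (ν := 3 * N + 2) (by push_cast; exact h.ext z hz) h1
  refine h3.trans ?_
  push_cast
  nlinarith

theorem src_dco (e : Edg) : (src e).1 - (src e).2 - 1 ≤ dco e ∧ dco e ≤ (src e).1 - (src e).2 ∧
    (src e).1 + (src e).2 = e.1 + e.2.1 := by
  obtain ⟨x, y, β⟩ := e
  have h : dco (x, y, β) = x - y ∨ dco (x, y, β) = x - y - 1 := by cases β <;> simp [dco]
  show x - y - 1 ≤ dco (x, y, β) ∧ dco (x, y, β) ≤ x - y ∧ x + y = x + y
  omega

/-- a link in boxes and tube is near the diagonal -/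
theorem Par.lz_ext (h : Par N r ρ l n K) {G : Set Edg} {x y : ℤ × ℤ}
    (hl : LZ (Zn n) (EB N r ∪ ET N r K) G x y) : |x.2| ≤ 3 * (N * r) + 3 * r + 1 ∧
      |y.2| ≤ 3 * (N * r) + 3 * r + 1 := by
  obtain ⟨e, he, -, hd⟩ := hl
  obtain ⟨z, -, -, -, h1⟩ := h.src_ext he
  have h2 := src_dco e
  have h3 : ((x.2 = dco e ∨ x.2 = dco e + 1) ∧ (y.2 = dco e ∨ y.2 = dco e + 1)) := by
    rcases hd with ⟨-, hd⟩ | ⟨-, hd⟩
    · exact (dg_near hd).1
    · exact (dg_near hd).1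
  rw [abs_le] at h1 ⊢
  rw [abs_le]
  omega

theorem RW_wired {G : Set Edg} {x y : ℤ × ℤ} (hx : XW N r K n x) (hy : XW N r K n y) :
    RW N r K n G x y := EqvGen.rel _ _ (Or.inl ⟨hx, hy⟩)

/-- far or near the exit of a zipper: the cluster is the wired one -/
theorem Par.big (h : Par N r ρ l n K) (hBZ : ¬ BZ N r ρ n F) {x u : ℤ × ℤ}
    (hx : XB N r K n x) (hxu : RW N r K n (per n F) x u) (hbig : bigZ N r ρ n u) :
    ∃ y, XW N r K n y ∧ RW N r K n (per n F) x y := by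
  by_contra hO
  push Not at hO
  have hNr := h.Nr
  have hn20 := h.n20
  obtain ⟨hl1, hl2, hl3⟩ := h.r64
  have hn0 : 0 < n := by
    have : (0 : ℤ) < n := by omega
    exact_mod_cast this
  have hsec : ∃ (s : ℤ) (c : ℕ), c < 3 ∧ x = scz n s c := by
    rcases hx with hx | hx
    · exact hx
    · exact absurd (EqvGen.refl x) (hO x hx)
  obtain ⟨σ, c, hc, hxs⟩ := hsec
  rcases hbig with hbig | ⟨s, hb1, hb2⟩
  · have hxu' : x = u := by
      refine eqv_isol (fun z => ⟨?_, ?_⟩) hxu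
      · rintro (⟨h1, -⟩ | h1)
        · exact hO u h1 hxu
        · have := (h.lz_ext h1).1
          omega
      · rintro (⟨-, h1⟩ | h1)
        · exact hO u h1 hxu
        · have := (h.lz_ext h1).2
          omega
    rw [← hxu', hxs] at hbig
    unfold scz at hbig
    simp only [abs_zero] at hbig
    omega
  · set b : ℤ := (r : ℤ) / 2 with hb
    obtain ⟨v, w, hpath, hv, hw, hvw⟩ := exit_eqv hxu.symm
      (fun z => (|z.1 - 2 * n * s| < b ∧ |z.2 + 2 * N * r| < b) ∧ RW N r K n (per n F) x z)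
      (by
        refine ⟨⟨?_, ?_⟩, hxu⟩
        · omega
        · omega)
      (by
        rintro ⟨⟨-, h1⟩, -⟩
        rw [hxs] at h1
        unfold scz at h1
        simp only [zero_add, abs_lt] at h1
        have e1 : (2 * N * r : ℤ) = 2 * (N * r) := by ring
        rw [e1] at h1
        omega)
    have hstep : ∀ {a a' : ℤ × ℤ}, ((XW N r K n a ∧ XW N r K n a') ∨
        LZ (Zn n) (EB N r ∪ ET N r K) (per n F) a a') →
        ((|a.1 - 2 * n * s| < b ∧ |a.2 + 2 * N * r| < b) ∧ RW N r K n (per n F) x a) ∨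
        ((|a'.1 - 2 * n * s| < b ∧ |a'.2 + 2 * N * r| < b) ∧ RW N r K n (per n F) x a') →
        LZ (Zn n) {e | |e.1 + e.2.1| ≤ r ∧ |dco e + 2 * N * r| ≤ r} (per n F) (tp n s a)
          (tp n s a') := by
      intro a a' hT hR
      have hlz : LZ (Zn n) (EB N r ∪ ET N r K) (per n F) a a' := by
        rcases hT with ⟨h1, h2⟩ | h1
        · exfalso
          rcases hR with hR | hR
          · exact hO a h1 hR.2
          · exact hO a' h2 hR.2
        · exact h1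
      refine LZ_te hn0 s hlz ?_
      rintro e - ⟨c', hd⟩
      obtain ⟨⟨k1, k2⟩, k3, k4⟩ := dg_near hd
      show |(te n s e).1 + (te n s e).2.1| ≤ r ∧ |dco (te n s e) + 2 * N * r| ≤ r
      rw [sum_te, dco_te]
      obtain ⟨T, hT'⟩ : ∃ T : ℤ, T = 2 * n * s := ⟨_, rfl⟩
      obtain ⟨U, hU⟩ : ∃ U : ℤ, U = 2 * N * r := ⟨_, rfl⟩
      rw [← hT', ← hU] at hR ⊢
      simp only [abs_lt] at hR
      rw [abs_le, abs_le]
      rcases hR with ⟨⟨⟨q1, q2⟩, q3, q4⟩, -⟩ | ⟨⟨⟨q1, q2⟩, q3, q4⟩, -⟩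
      · omega
      · omega
    have hRZ : ∀ z, EqvGen (fun x' y' => ((XW N r K n x' ∧ XW N r K n y') ∨
        LZ (Zn n) (EB N r ∪ ET N r K) (per n F) x' y') ∧
        ((|x'.1 - 2 * n * s| < b ∧ |x'.2 + 2 * N * r| < b) ∧ RW N r K n (per n F) x x') ∧
        ((|y'.1 - 2 * n * s| < b ∧ |y'.2 + 2 * N * r| < b) ∧ RW N r K n (per n F) x y')) u z →
        RZ (Zn n) {e | |e.1 + e.2.1| ≤ r ∧ |dco e + 2 * N * r| ≤ r} (per n F) (tp n s u)
          (tp n s z) := by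
      intro z hz
      generalize u = u0 at hz
      induction hz with
      | rel a a' h1 => exact EqvGen.rel _ _ (hstep h1.1 (Or.inl h1.2.1))
      | refl a => exact EqvGen.refl _
      | symm a a' _ ih => exact ih.symm _ _
      | trans a a' a'' _ _ ih1 ih2 => exact ih1.trans _ _ _ ih2
    apply hBZ
    refine ⟨tp n s u, tp n s w, ?_, ?_, ?_, ?_⟩
    · show |u.1 - 2 * n * s| ≤ 16 * ρ
      omega
    · show |u.2 - (-(2 * N * r))| ≤ 16 * ρ
      rw [sub_neg_eq_add]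
      omega
    · show b ≤ |w.1 - 2 * n * s| ∨ b ≤ |w.2 - (-(2 * N * r))|
      rw [sub_neg_eq_add]
      by_contra hcon
      push Not at hcon
      apply hw
      refine ⟨hcon, ?_⟩
      rcases hvw with hvw | hvw
      · have h5 : RW N r K n (per n F) v w := EqvGen.rel _ _ hvw
        exact hv.2.trans _ _ _ h5
      · have h5 : RW N r K n (per n F) w v := EqvGen.rel _ _ hvw
        exact hv.2.trans _ _ _ (h5.symm _ _)
    · refine (hRZ v hpath).trans _ _ _ ?_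
      rcases hvw with hvw | hvw
      · exact EqvGen.rel _ _ (hstep hvw (Or.inl hv))
      · exact (EqvGen.rel _ _ (hstep hvw (Or.inr hv))).symm _ _

/-- the square of a point of the closed region is outside the boxes -/
theorem Par.deB_out (h : Par N r ρ l n K) {e0 : Edg} {u : ℤ × ℤ} (he : e0 ∉ EB N r)
    (hc : Cor (Zn n) 0 e0 u) (σ : ℤ) :
    2 * (N * r : ℤ) - 3 ≤ |u.1 + u.2 - 2 * n * σ| ∨ 2 * (N * r : ℤ) - 3 ≤ |u.1 - u.2 - 2 * n * σ| := by
  have hr1 : 1 ≤ r := by have := h.h1; have := h.h2; have := h.hl; omega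
  have h1 := far_box hr1 he (Or.inl rfl) σ
  rw [← h.hn] at h1
  obtain ⟨-, y, hd⟩ := hc
  have hnear : (u.2 = dco e0 ∨ u.2 = dco e0 + 1) ∧ e0.1 + e0.2.1 - 1 ≤ u.1 ∧
      u.1 ≤ e0.1 + e0.2.1 + 1 := by
    rcases hd with hd | hd
    · exact ⟨(dg_near hd).1.1, (dg_near hd).2.1⟩
    · exact ⟨(dg_near hd).1.2, (dg_near hd).2.2⟩
  have h2 := src_dco e0
  obtain ⟨T, hT⟩ : ∃ T : ℤ, T = n * σ := ⟨_, rfl⟩
  have e1 : (2 * n * σ : ℤ) = 2 * T := by rw [hT]; ring
  have e2 : σ * (n : ℤ) = T := by rw [hT]; ring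
  rw [e2] at h1
  rw [e1]
  simp only [le_abs] at h1 ⊢
  omega

theorem Par.deB_sec (h : Par N r ρ l n K) {u : ℤ × ℤ} (hu : DeB N r K n u) (s : ℤ) (c : ℕ)
    (hc : c < 3) : u ≠ scz n s c := by
  rintro rfl
  obtain ⟨e0, he, -, hcor⟩ := hu
  have h1 := h.deB_out he hcor s
  have h2 := h.Nr
  obtain ⟨h3, h4, h5⟩ := h.r64
  unfold scz at h1
  obtain ⟨T, hT⟩ : ∃ T : ℤ, T = 2 * n * s := ⟨_, rfl⟩
  simp only [← hT, le_abs] at h1
  omega

/-- far from the zippers -/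
def Far (n : ℕ) (D : ℤ) (u : ℤ × ℤ) : Prop := D ≤ u.2 ∨ ∀ s : ℤ, D ≤ |u.1 - 2 * n * s|

theorem Far.aw {n : ℕ} {D : ℤ} {u v : ℤ × ℤ} (h : Far n D u) (h1 : |v.1 - u.1| + 2 ≤ D)
    (h2 : |v.2 - u.2| + 2 ≤ D) : Aw n v := by
  rcases h with h | h
  · left
    have := abs_le.1 (le_refl |v.2 - u.2|)
    omega
  · right
    intro s
    have h3 := h s
    have := abs_le.1 (le_refl |v.1 - u.1|)
    rw [le_abs] at h3
    omega

theorem Par.far (h : Par N r ρ l n K) {u : ℤ × ℤ} (hu : DeB N r K n u)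
    (hbig : ¬ bigZ N r ρ n u) {e1 : Edg} {c : ℤ} {y : ℤ × ℤ} (he1 : e1 ∈ EB N r ∪ ET N r K)
    (hd : Dg (Zn n) c e1 u y ∨ Dg (Zn n) c e1 y u) : Far n (7 * ρ) u := by
  by_contra hfar
  unfold Far at hfar
  push Not at hfar
  obtain ⟨hf1, s, hf2⟩ := hfar
  have hNr := h.Nr
  have hn20 := h.n20
  obtain ⟨hl1, hl2, hl3⟩ := h.r64
  obtain ⟨z, hz, hz1, hz2, hext⟩ := h.src_ext he1
  have hsd := src_dco e1
  have hnear : (u.2 = dco e1 ∨ u.2 = dco e1 + 1) ∧ e1.1 + e1.2.1 - 1 ≤ u.1 ∧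
      u.1 ≤ e1.1 + e1.2.1 + 1 := by
    rcases hd with hd | hd
    · exact ⟨(dg_near hd).1.1, (dg_near hd).2.1⟩
    · exact ⟨(dg_near hd).1.2, (dg_near hd).2.2⟩
  unfold inSq at hz1
  have hr0 : (0 : ℤ) ≤ r := by positivity
  obtain ⟨R1, hR1⟩ : ∃ R1 : ℤ, R1 = r * z.1 := ⟨_, rfl⟩
  obtain ⟨R2, hR2⟩ : ∃ R2 : ℤ, R2 = r * z.2 := ⟨_, rfl⟩
  rw [← hR1, ← hR2] at hz1
  have hnr : (n : ℤ) = prd N N * r := by rw [h.hn]; push_cast; ring
  rw [abs_lt] at hf2
  rcases hz with hz | hz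
  · -- a box
    obtain ⟨σ, hσ⟩ := hz
    obtain ⟨b1, b2, b3, b4⟩ := hσ
    unfold shf at b1 b2 b3 b4
    dsimp only at b1 b2 b3 b4
    obtain ⟨T, hT⟩ : ∃ T : ℤ, T = n * σ := ⟨_, rfl⟩
    have hT' : T = r * (σ * prd N N) := by rw [hT, hnr]; ring
    have c1 : T - N * r ≤ R1 ∧ R1 + r ≤ T + N * r := by
      constructor
      · have := mul_le_mul_of_nonneg_left (show σ * (prd N N : ℤ) - N ≤ z.1 by linarith) hr0
        rw [hR1, hT']
        nlinarith
      · have := mul_le_mul_of_nonneg_left (show z.1 + 1 ≤ σ * (prd N N : ℤ) + N by omega) hr0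
        rw [hR1, hT']
        nlinarith
    have c2 : T - N * r ≤ R2 ∧ R2 + r ≤ T + N * r := by
      constructor
      · have := mul_le_mul_of_nonneg_left (show σ * (prd N N : ℤ) - N ≤ z.2 by linarith) hr0
        rw [hR2, hT']
        nlinarith
      · have := mul_le_mul_of_nonneg_left (show z.2 + 1 ≤ σ * (prd N N : ℤ) + N by omega) hr0
        rw [hR2, hT']
        nlinarith
    have hss : s = σ := by
      by_contra hne
      have e1 : (2 * n * s : ℤ) = 2 * T + 2 * n * (s - σ) := by rw [hT]; ring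
      rw [e1] at hf2
      have hn0 : (0 : ℤ) ≤ n := by positivity
      rcases lt_or_gt_of_ne hne with hlt | hgt
      · have := mul_le_mul_of_nonneg_left (show s - σ ≤ -1 by omega) hn0
        have e2 : (2 * n * (s - σ) : ℤ) = 2 * (n * (s - σ)) := by ring
        rw [e2] at hf2
        omega
      · have := mul_le_mul_of_nonneg_left (show 1 ≤ s - σ by omega) hn0
        have e2 : (2 * n * (s - σ) : ℤ) = 2 * (n * (s - σ)) := by ring
        rw [e2] at hf2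
        omega
    subst hss
    obtain ⟨e0, he, -, hcor⟩ := hu
    have h1 := h.deB_out he hcor s
    apply hbig
    right
    refine ⟨s, ?_, ?_⟩
    · rw [abs_le]
      omega
    · have e1 : (2 * n * s : ℤ) = 2 * T := by rw [hT]; ring
      have e2 : (2 * N * r : ℤ) = 2 * (N * r) := by ring
      rw [e1] at h1 hf2
      rw [e2]
      simp only [le_abs] at h1
      rw [abs_le]
      omega
  · -- the tube
    have h1 := h.zip z hz s
    unfold shf at h1
    dsimp only at h1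
    obtain ⟨T, hT⟩ : ∃ T : ℤ, T = n * s := ⟨_, rfl⟩
    have hT' : T = r * (s * prd N N) := by rw [hT, hnr]; ring
    have e1 : (2 * n * s : ℤ) = 2 * T := by rw [hT]; ring
    rw [e1] at hf2
    rcases h1 with h1 | h1 | h1
    · have := mul_le_mul_of_nonneg_left (show (N : ℤ) ≤ z.1 - z.2 by linarith) hr0
      have e3 : (r : ℤ) * (z.1 - z.2) = R1 - R2 := by rw [hR1, hR2]; ring
      have e4 : (r : ℤ) * N = N * r := by ring
      rw [e3, e4] at this
      omega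
    · have := mul_le_mul_of_nonneg_left (show z.1 + z.2 ≤ 2 * (s * (prd N N : ℤ)) - 6 by linarith) hr0
      have e3 : (r : ℤ) * (z.1 + z.2) = R1 + R2 := by rw [hR1, hR2]; ring
      have e4 : (r : ℤ) * (2 * (s * (prd N N : ℤ)) - 6) = 2 * T - 6 * r := by rw [hT']; ring
      rw [e3, e4] at this
      omega
    · have := mul_le_mul_of_nonneg_left (show 2 * (s * (prd N N : ℤ)) + 5 ≤ z.1 + z.2 by linarith) hr0
      have e3 : (r : ℤ) * (z.1 + z.2) = R1 + R2 := by rw [hR1, hR2]; ring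
      have e4 : (r : ℤ) * (2 * (s * (prd N N : ℤ)) + 5) = 2 * T + 5 * r := by rw [hT']; ring
      rw [e3, e4] at this
      omega

/-- a vertex away from the zippers is not wired -/
theorem not_XW {v : Vtx} (hv : Aw n (vp v)) (h2 : |(vp v).2| < 2 * n) :
    ¬ XW N r K n (vp v) := by
  rintro (⟨e, -, -, hz, y, hd⟩ | h3)
  · have h5 := vp_even v
    rcases hd with hd | hd
    · have := (dg1 (aw_Sz hz (Or.inl hd) hv) hd).1
      omega
    · have := (dg1 (aw_Sz hz (Or.inr hd) hv) hd).2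
      omega
  · omega

/-- the planar configuration -/
def CC (N r : ℕ) (K : Cel) (n : ℕ) (F : Finset Edg) : Set Edg :=
  {e | e ∈ per n F ∧ (e ∈ EB N r ∪ ET N r K) ∧ e ∈ Sz n}

theorem mem_CC {e : Edg} : e ∈ CC N r K n F ↔
    e ∈ per n F ∧ (e ∈ EB N r ∪ ET N r K) ∧ e ∈ Sz n := Iff.rfl

/-- a planar link is a link -/
theorem CC_LZ {e : Edg} (he : e ∈ CC N r K n F) :
    LZ (Zn n) (EB N r ∪ ET N r K) (per n F) (vp (src e)) (vp (tgt e)) := by
  obtain ⟨h1, h2, h3⟩ := mem_CC.1 he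
  refine ⟨e, h2, ?_, Or.inl ⟨h1, (dg0 h3).2 ⟨rfl, rfl⟩⟩⟩
  rintro ⟨h4, h5⟩
  obtain ⟨s, hs⟩ := mem_Zn.1 h5
  rcases mem_Sz.1 h3 with h6 | h6
  · omega
  · exact (h6 s).1 hs

theorem CC_reach {v w : Vtx} (h : Reach (CC N r K n F) v w) :
    RW N r K n (per n F) (vp v) (vp w) := by
  induction h with
  | refl => exact EqvGen.refl _
  | tail _ hbc ih =>
    obtain ⟨e, he, hec⟩ := hbc
    have h1 : RW N r K n (per n F) (vp (src e)) (vp (tgt e)) := EqvGen.rel _ _ (Or.inr (CC_LZ he))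
    refine ih.trans _ _ _ ?_
    rcases hec with ⟨h3, h4⟩ | ⟨h3, h4⟩
    · rw [← h3, ← h4]
      exact h1
    · rw [← h3, ← h4]
      exact h1.symm _ _

/-- leaving a region away from the zippers -/
theorem exit_CC {x : ℤ × ℤ} {p : Vtx} (hx : XB N r K n x) (hxp : RW N r K n (per n F) x (vp p))
    (R : Vtx → Prop) (hRp : R p) (hA : ∀ v, R v → Aw n (vp v))
    (hW : ∀ v, R v → ¬ XW N r K n (vp v))
    (hS : ∀ v, R v → ∀ (s : ℤ) (c : ℕ), c < 3 → vp v ≠ scz n s c) :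
    ∃ v w, Reach (CC N r K n F ∩ {e | R (src e) ∧ R (tgt e)}) p v ∧ R v ∧ ¬ R w ∧
      ∃ e ∈ CC N r K n F, (src e = v ∧ tgt e = w) ∨ (src e = w ∧ tgt e = v) := by
  by_contra hcon
  push Not at hcon
  have step : ∀ (v w : Vtx) (e : Edg), Reach (CC N r K n F ∩ {e | R (src e) ∧ R (tgt e)}) p v →
      R v → e ∈ CC N r K n F → ((src e = v ∧ tgt e = w) ∨ (src e = w ∧ tgt e = v)) →
      Reach (CC N r K n F ∩ {e | R (src e) ∧ R (tgt e)}) p w ∧ R w := by
    intro v w e h1 h2 he hvw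
    by_cases hw : R w
    · refine ⟨h1.trans (Adj.reach ⟨e, ⟨he, ?_⟩, hvw⟩), hw⟩
      rcases hvw with ⟨h3, h4⟩ | ⟨h3, h4⟩
      · exact ⟨by rw [h3]; exact h2, by rw [h4]; exact hw⟩
      · exact ⟨by rw [h3]; exact hw, by rw [h4]; exact h2⟩
    · exfalso
      have h5 := hcon v w h1 h2 hw e he
      rcases hvw with hvw | hvw
      · exact h5.1 hvw.1 hvw.2
      · exact h5.2 hvw.1 hvw.2
  have key : ∀ a b, ((XW N r K n a ∧ XW N r K n b) ∨
      LZ (Zn n) (EB N r ∪ ET N r K) (per n F) a b) →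
      ((∃ v, vp v = a ∧ Reach (CC N r K n F ∩ {e | R (src e) ∧ R (tgt e)}) p v ∧ R v) ↔
       (∃ v, vp v = b ∧ Reach (CC N r K n F ∩ {e | R (src e) ∧ R (tgt e)}) p v ∧ R v)) := by
    intro a b hab
    constructor
    · rintro ⟨v, rfl, h1, h2⟩
      rcases hab with ⟨h3, -⟩ | ⟨e, he, hz, hd⟩
      · exact absurd h3 (hW v h2)
      · obtain ⟨k1, k2, k3, k4⟩ := (link_vp hz (hA v h2)).1 hd
        exact ⟨tgt e, k4.symm, step v (tgt e) e h1 h2 ⟨k2, he, k1⟩ (Or.inl ⟨k3, rfl⟩)⟩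
    · rintro ⟨v, rfl, h1, h2⟩
      rcases hab with ⟨-, h3⟩ | ⟨e, he, hz, hd⟩
      · exact absurd h3 (hW v h2)
      · obtain ⟨k1, k2, k3, k4⟩ := (link_vp hz (hA v h2)).2 hd
        exact ⟨src e, k4.symm, step v (src e) e h1 h2 ⟨k2, he, k1⟩ (Or.inr ⟨rfl, k3⟩)⟩
  obtain ⟨v, hv, -, hv2⟩ := (eqv_closed key hxp).2 ⟨p, rfl, Reach.refl _ _, hRp⟩
  rcases hx with ⟨s, c, hc, hxs⟩ | hx
  · exact hS v hv2 s c hc (hv.trans hxs)
  · exact hW v hv2 (hv ▸ hx)

/-- a point of the closed region away from the zippers is a vertex -/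
theorem deB_vp {u : ℤ × ℤ} (hu : DeB N r K n u) (hA : Aw n u) : ∃ v : Vtx, vp v = u ∧
    ∃ e : Edg, e ∉ EB N r ∧ e ∉ ET N r K ∧ Cor (Zn n) 0 e u ∧ (src e = v ∨ tgt e = v) := by
  obtain ⟨e, h1, h2, hz, y, hd⟩ := hu
  rcases hd with hd | hd
  · have := (dg0 (aw_Sz hz (Or.inl hd) hA)).1 hd
    exact ⟨src e, this.1.symm, e, h1, h2, ⟨hz, y, Or.inl hd⟩, Or.inl rfl⟩
  · have := (dg0 (aw_Sz hz (Or.inr hd) hA)).1 hd
    exact ⟨tgt e, this.2.symm, e, h1, h2, ⟨hz, y, Or.inr hd⟩, Or.inr rfl⟩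

/-- a marked cluster at an unwired point of the closed region has a link there -/
theorem Par.link (h : Par N r ρ l n K) {x u : ℤ × ℤ} (hx : XB N r K n x)
    (hxu : RW N r K n (per n F) x u) (hu : DeB N r K n u) (hW : ¬ XW N r K n u) :
    ∃ e ∈ EB N r ∪ ET N r K, e ∉ zp (Zn n) ∧ ∃ y,
      ((e ∈ per n F ∧ Dg (Zn n) 0 e u y) ∨ (e ∉ per n F ∧ Dg (Zn n) 1 e u y)) ∨
      ((e ∈ per n F ∧ Dg (Zn n) 0 e y u) ∨ (e ∉ per n F ∧ Dg (Zn n) 1 e y u)) := by
  by_contra hcon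
  push Not at hcon
  have hxu' : x = u := by
    refine eqv_isol (fun z => ⟨?_, ?_⟩) hxu
    · rintro (⟨h1, -⟩ | ⟨e, he, hz, hd⟩)
      · exact hW h1
      · have := (hcon e he hz z).1
        rcases hd with hd | hd
        · exact this.1 hd.1 hd.2
        · exact this.2 hd.1 hd.2
    · rintro (⟨-, h1⟩ | ⟨e, he, hz, hd⟩)
      · exact hW h1
      · have := (hcon e he hz z).2
        rcases hd with hd | hd
        · exact this.1 hd.1 hd.2
        · exact this.2 hd.1 hd.2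
  rcases hx with ⟨s, c, hc, hxs⟩ | hx
  · exact h.deB_sec hu s c hc (hxu' ▸ hxs)
  · exact hW (hxu' ▸ hx)

theorem Par.core (h : Par N r ρ l n K) {M : ℕ}
    (hBad : ¬ Bad 0 N r ρ l (prd N N) n M F) (hBZ : ¬ BZ N r ρ n F) {x x' u u' : ℤ × ℤ}
    (hx : XB N r K n x) (hx' : XB N r K n x') (hxu : RW N r K n (per n F) x u)
    (hxu' : RW N r K n (per n F) x' u') (hu : DeB N r K n u) (hu' : DeB N r K n u')
    (hnr : nrp l u u') (hO : ∀ y, XW N r K n y → ¬ RW N r K n (per n F) x y) :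
    RW N r K n (per n F) x x' := by
  have hNr := h.Nr
  have hn20 := h.n20
  obtain ⟨hl1, hl2, hl3⟩ := h.r64
  have hr1 : 1 ≤ r := by have := h.h1; have := h.h2; have := h.hl; omega
  have hbig : ¬ bigZ N r ρ n u := fun hb => by
    obtain ⟨y, hy, hy2⟩ := h.big hBZ hx hxu hb
    exact hO y hy hy2
  have hnW : ¬ XW N r K n u := fun hh => hO u hh hxu
  obtain ⟨e1, he1, hz1, y1, hd1⟩ := h.link hx hxu hu hnW
  have hfar : Far n (7 * ρ) u := by
    rcases hd1 with (hd | hd) | (hd | hd)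
    · exact h.far hu hbig he1 (Or.inl hd.2)
    · exact h.far hu hbig he1 (Or.inl hd.2)
    · exact h.far hu hbig he1 (Or.inr hd.2)
    · exact h.far hu hbig he1 (Or.inr hd.2)
  have hu2 : |u.2| ≤ 3 * (N * r) + 3 * r + 1 := by
    rcases hd1 with hd | hd
    · exact (h.lz_ext ⟨e1, he1, hz1, hd⟩).1
    · exact (h.lz_ext ⟨e1, he1, hz1, hd⟩).2
  have hAu : Aw n u := hfar.aw (by simp; omega) (by simp; omega)
  obtain ⟨hn1, hn2⟩ := hnr
  have hnn : |u'.1 - u.1| ≤ 8 * l ∧ |u'.2 - u.2| ≤ 8 * l := by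
    rw [abs_le] at hn1 hn2
    rw [abs_le, abs_le]
    omega
  have hAu' : Aw n u' := hfar.aw (by omega) (by omega)
  obtain ⟨v0, hv0, e0, he0B, he0T, hcor0, he0v⟩ := deB_vp hu hAu
  obtain ⟨v0', hv0', e0', he0B', he0T', hcor0', he0v'⟩ := deB_vp hu' hAu'
  have hu2' : |u'.2| < 2 * n := by
    have := hnn.2
    rw [abs_le] at this hu2
    rw [abs_lt]
    omega
  have hnW' : ¬ XW N r K n u' := by
    rw [← hv0'] at hAu' hu2' ⊢
    exact not_XW hAu' hu2'
  obtain ⟨e1', he1', hz1', y1', hd1'⟩ := h.link hx' hxu' hu' hnW'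
  have hinc : src e1 = v0 ∨ tgt e1 = v0 := by
    rw [← hv0] at hAu hd1
    rcases hd1 with hd | hd
    · exact Or.inl ((link_vp hz1 hAu).1 hd).2.2.1
    · exact Or.inr ((link_vp hz1 hAu).2 hd).2.2.1
  have hinc' : src e1' = v0' ∨ tgt e1' = v0' := by
    rw [← hv0'] at hAu' hd1'
    rcases hd1' with hd | hd
    · exact Or.inl ((link_vp hz1' hAu').1 hd).2.2.1
    · exact Or.inr ((link_vp hz1' hAu').2 hd).2.2.1
  obtain ⟨z, hz, hzs, hzt, -⟩ := h.src_ext he1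
  have hzu : inSq r z v0 := by
    rcases hinc with hh | hh
    · rw [← hh]; exact hzs
    · rw [← hh]; exact hzt
  have c1' : u.1 = v0.1 + v0.2 := by rw [← hv0]; rfl
  have c2' : u.2 = v0.1 - v0.2 := by rw [← hv0]; rfl
  have c3' : u'.1 = v0'.1 + v0'.2 := by rw [← hv0']; rfl
  have c4' : u'.2 = v0'.1 - v0'.2 := by rw [← hv0']; rfl
  have hvp : ∀ v : Vtx, (vp v).1 = v.1 + v.2 ∧ (vp v).2 = v.1 - v.2 := fun v => ⟨rfl, rfl⟩
  have hW : ∀ v : Vtx, (|v.1 - v0.1| ≤ r ∧ |v.2 - v0.2| ≤ r) ∧ Aw n (vp v) →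
      ¬ XW N r K n (vp v) := by
    rintro v ⟨⟨h3, h4⟩, h5⟩
    refine not_XW h5 ?_
    rw [(hvp v).2]
    rw [abs_le] at h3 h4 hu2
    rw [abs_lt]
    omega
  have hS : ∀ v : Vtx, (|v.1 - v0.1| ≤ r ∧ |v.2 - v0.2| ≤ r) ∧ Aw n (vp v) →
      ∀ (s : ℤ) (c : ℕ), c < 3 → vp v ≠ scz n s c := by
    rintro v ⟨⟨h3, h4⟩, -⟩ s c hc hh
    have h6 := h.deB_out he0B hcor0 s
    have h7 := (hvp v).1
    have h8 := (hvp v).2
    rw [hh] at h7 h8
    unfold scz at h7 h8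
    dsimp only at h7 h8
    obtain ⟨T, hT⟩ : ∃ T : ℤ, T = 2 * n * s := ⟨_, rfl⟩
    rw [← hT] at h6 h7
    rw [abs_le] at h3 h4
    simp only [le_abs] at h6
    omega
  have hctx : TSEPB0.Ctx N r ρ l (prd N N) (Sz n) (fun v => Aw n (vp v)) (Bxs N N ∪ TubZ N K)
      (CC N r K n F) (per n F) v0 v0' :=
    { hl := h.hl
      h1 := h.h1
      h2 := by have := h.h2; omega
      c1 := fun g hg => by
        rw [EP_union]
        exact (mem_CC.1 hg).2.1
      c2 := fun g hg1 hg2 hg3 => by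
        rw [EP_union] at hg3
        exact mem_CC.2 ⟨hg1, hg3, hg2⟩
      c3 := fun g hg => (mem_CC.1 hg).1
      c4 := fun g hg => (mem_CC.1 hg).2.2
      un := ⟨e0, by rw [EP_union]; rintro (hh | hh); exacts [he0B hh, he0T hh], he0v⟩
      un' := ⟨e0', by rw [EP_union]; rintro (hh | hh); exacts [he0B' hh, he0T' hh], he0v'⟩
      uy' := ⟨e1', by rw [EP_union]; exact he1', hinc'⟩
      n1 := by
        rw [abs_le] at hn1 hn2 ⊢
        omega
      n2 := by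
        rw [abs_le] at hn1 hn2 ⊢
        omega
      ex := fun R hRu hR => exit_CC hx (hv0 ▸ hxu) R hRu (fun v hv => (hR v hv).2)
        (fun v hv => hW v (hR v hv)) (fun v hv => hS v (hR v hv))
      ex' := fun R hRu hR => exit_CC hx' (hv0' ▸ hxu') R hRu (fun v hv => (hR v hv).2)
        (fun v hv => hW v (hR v hv)) (fun v hv => hS v (hR v hv))
      hD := fun s => far_box hr1 he0B he0v s
      hext := by
        have e1 : ((prd N N * r : ℕ) : ℤ) = n := by rw [h.hn]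
        rw [e1]
        rw [abs_le] at hu2 ⊢
        omega
      hcor := by
        intro ζ a1 a2 v b1 b2
        obtain ⟨R1, hR1⟩ : ∃ R1 : ℤ, R1 = r * ζ.1 := ⟨_, rfl⟩
        obtain ⟨R2, hR2⟩ : ∃ R2 : ℤ, R2 = r * ζ.2 := ⟨_, rfl⟩
        rw [← hR1] at a1 b1
        rw [← hR2] at a2 b2
        rw [abs_le] at a1 a2
        rw [abs_lt] at b1 b2
        push_cast at b1 b2
        have hr0 : (0 : ℤ) < r := by exact_mod_cast hr1
        rcases hfar with hf | hf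
        · left
          rw [(hvp v).2]
          have k1 : (r : ℤ) * 0 < r * (ζ.1 - ζ.2) := by
            have : (r : ℤ) * (ζ.1 - ζ.2) = R1 - R2 := by rw [hR1, hR2]; ring
            rw [this]
            omega
          have k2 := lt_of_mul_lt_mul_left k1 hr0.le
          have k3 := mul_le_mul_of_nonneg_left (show 1 ≤ ζ.1 - ζ.2 by omega) hr0.le
          have k4 : (r : ℤ) * (ζ.1 - ζ.2) = R1 - R2 := by rw [hR1, hR2]; ring
          rw [k4] at k3
          omega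
        · right
          intro s
          rw [(hvp v).1]
          have hf' := hf s
          have hT : (2 * n * s : ℤ) = r * (2 * (prd N N * s)) := by
            rw [h.hn]; push_cast; ring
          obtain ⟨q, hq⟩ : ∃ q : ℤ, q = ζ.1 + ζ.2 - 2 * (prd N N * s) := ⟨_, rfl⟩
          have k4 : (r : ℤ) * q = R1 + R2 - 2 * n * s := by rw [hq, hT, hR1, hR2]; ring
          obtain ⟨T, hT2⟩ : ∃ T : ℤ, T = 2 * n * s := ⟨_, rfl⟩
          rw [← hT2] at k4 hf' ⊢
          rw [le_abs] at hf'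
          rcases hf' with hf' | hf'
          · have k1 : (r : ℤ) * 0 < r * q := by
              rw [k4]
              omega
            have k2 := lt_of_mul_lt_mul_left k1 hr0.le
            have k3 := mul_le_mul_of_nonneg_left (show 1 ≤ q by omega) hr0.le
            rw [k4] at k3
            right
            omega
          · have k1 : (r : ℤ) * q < r * 0 := by
              rw [k4]
              omega
            have k2 := lt_of_mul_lt_mul_left k1 hr0.le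
            have k3 := mul_le_mul_of_nonneg_left (show q ≤ -1 by omega) hr0.le
            rw [k4] at k3
            left
            omega }
  have hball : TSEPB0.Ball (Sz n) (fun v => Aw n (vp v)) ρ l v0 := by
    have hb : ∀ v : Vtx, inR (v0.1 - ρ - l) (v0.1 + ρ + l) (v0.2 - ρ - l) (v0.2 + ρ + l) v →
        Aw n (vp v) := by
      intro v hv
      unfold inR at hv
      refine hfar.aw ?_ ?_
      · rw [(hvp v).1, c1']
        have : |v.1 + v.2 - (v0.1 + v0.2)| ≤ 2 * (ρ + l) := by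
          rw [abs_le]
          omega
        omega
      · rw [(hvp v).2, c2']
        have : |v.1 - v.2 - (v0.1 - v0.2)| ≤ 2 * (ρ + l) := by
          rw [abs_le]
          omega
        omega
    refine ⟨fun g hg _ => ?_, hb⟩
    have hA := hb _ hg
    have hsd := src_dco g
    rw [mem_Sz]
    rcases hA with hA | hA
    · left
      rw [(hvp _).2] at hA
      omega
    · right
      intro s
      have := hA s
      rw [(hvp _).1] at this
      constructor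
      · intro hh
        omega
      · intro hh
        omega
  rcases TSEPB0.planar hctx hz hzu hball with hbad | ⟨R, -, -, hreach⟩
  · exfalso
    apply hBad
    have hCc : Cc 0 n M F = per n F := by
      unfold Cc
      simp
    unfold Bad
    rw [hCc]
    unfold BadQ at hbad
    rw [← h.hn] at hbad
    exact hbad
  · have h9 : RW N r K n (per n F) u u' := by
      rw [← hv0, ← hv0']
      exact CC_reach (hreach.mono Set.inter_subset_left)
    exact (hxu.trans _ _ _ h9).trans _ _ _ (hxu'.symm _ _)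

end

end TSEPB

open TSEPB in
theorem t_SEPB (_h1 : S_z1) (_h2 : S_z2) (h3 : S_z3) : S_SEPB := by
  intro N r ρ l K hN hK hl h1 h2 n M hn hM F _hF hBad hBZ x x' u u' hx hx' hxu hxu' hu hu' hnear
  obtain ⟨-, -, -, hext, hzip⟩ := h3 N K hN hK _ rfl
  have hp : Par N r ρ l n K := ⟨hN, hl, h1, h2, hn, hext, hzip⟩
  by_cases hO : ∃ y, XW N r K n y ∧ RW N r K n (per n F) x y
  · by_cases hO' : ∃ y, XW N r K n y ∧ RW N r K n (per n F) x' y
    · obtain ⟨y, hy1, hy2⟩ := hO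
      obtain ⟨y', hy1', hy2'⟩ := hO'
      exact (hy2.trans _ _ _ (RW_wired hy1 hy1')).trans _ _ _ (hy2'.symm _ _)
    · push Not at hO'
      have hnr : nrp l u' u := by
        rcases hnear with hnear | ⟨-, hnear⟩
        · obtain ⟨k1, k2⟩ := hnear
          rw [abs_le] at k1 k2
          unfold nrp
          rw [abs_le, abs_le]
          omega
        · obtain ⟨y, hy, hy2⟩ := hp.big hBZ hx' hxu' hnear
          exact absurd hy2 (hO' y hy)
      exact (hp.core hBad hBZ hx' hx hxu' hxu hu' hu hnr hO').symm _ _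
  · push Not at hO
    have hnr : nrp l u u' := by
      rcases hnear with hnear | ⟨hnear, -⟩
      · exact hnear
      · obtain ⟨y, hy, hy2⟩ := hp.big hBZ hx hxu hnear
        exact absurd hy2 (hO y hy)
    exact hp.core hBad hBZ hx hx' hxu hxu' hu hu' hnr hO

end Pool.Agent.W808.KZ
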