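import Pool.Agent.W808.KZ.Stm

/-!
# Parity: two different sectors have adjacent touching points at the boundary of the box
-/

set_option autoImplicit false

namespace Pool.Agent.W808.KZ
open H974 H906.Cyl
open Pool.Agent.H160R2.ML (nm)
open Pool.Agent.W801.OU

namespace TADJ

theorem edz_s (s d : ℤ) : (edz s d).1 + (edz s d).2.1 = s := by
  unfold edz
  split_ifs with h
  · simp only; omega
  · simp only; omega

theorem edz_d (s d : ℤ) : dco (edz s d) = d := by
  unfold edz dco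
  split_ifs with h h1 h1
  · simp only; omega
  · simp at h1
  · simp at h1
  · simp only; omega

/-- half edges: a square and one of its sides (bottom, top, left, right) -/
abbrev HE := (ℤ × ℤ) × Fin 4

/-- the neighbour across the side -/
def nb (h : HE) : HE :=
  match h with
  | ((s, d), 0) => ((s, d - 1), 1)
  | ((s, d), 1) => ((s, d + 1), 0)
  | ((s, d), 2) => if d < 0 ∧ s = 0 then ((-2, d), 3) else ((s - 1, d), 3)
  | ((s, d), 3) => if d < 0 ∧ s = -2 then ((0, d), 2) else ((s + 1, d), 2)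

/-- the square is not removed -/
def ok (q : ℤ × ℤ) : Prop := ¬ (q.2 < 0 ∧ q.1 = -1)

/-- the sides at the tip -/
def tip (h : HE) : Prop := h = ((-1, 0), 0) ∨ h = ((0, 0), 0) ∨ h = ((0, -1), 1)

/-- corners -/
def co (d j t : ℤ) : ℤ × ℤ := if d < 0 ∧ j = 0 then (j - 1, t) else (j, t)

theorem nrm_eq (d j t : ℤ) : nrm {0} d j t = co d j t := by
  unfold nrm co
  simp only [Set.mem_singleton_iff]

/-- first and second corner of a side -/
def P1 (h : HE) : ℤ × ℤ :=
  match h with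
  | ((s, d), 0) => co d s d
  | ((s, d), 1) => co d s (d + 1)
  | ((s, d), 2) => co d s d
  | ((s, d), 3) => co d (s + 1) d

def P2 (h : HE) : ℤ × ℤ :=
  match h with
  | ((s, d), 0) => co d (s + 1) d
  | ((s, d), 1) => co d (s + 1) (d + 1)
  | ((s, d), 2) => co d s (d + 1)
  | ((s, d), 3) => co d (s + 1) (d + 1)

theorem fin4 (P : Fin 4 → Prop) (h0 : P 0) (h1 : P 1) (h2 : P 2) (h3 : P 3) : ∀ k, P k := by
  intro k
  fin_cases k
  · exact h0
  · exact h1
  · exact h2
  · exact h3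

theorem nb_ok {h : HE} (hk : ok h.1) (ht : ¬ tip h) : ok (nb h).1 := by
  obtain ⟨⟨s, d⟩, k⟩ := h
  revert k
  refine fin4 _ ?_ ?_ ?_ ?_
  · intro hk ht
    simp only [tip, Prod.mk.injEq, ok, nb] at *
    intro h
    simp only [and_true] at ht
    omega
  · intro hk ht
    simp only [tip, Prod.mk.injEq, ok, nb] at *
    omega
  · intro hk ht
    simp only [tip, Prod.mk.injEq, ok, nb] at *
    split_ifs with h1
    · simp
    · simp only; omega
  · intro hk ht
    simp only [tip, Prod.mk.injEq, ok, nb] at *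
    split_ifs with h1
    · simp
    · simp only; omega

theorem nb_tip {h : HE} (hk : ok h.1) (ht : ¬ tip h) : ¬ tip (nb h) := by
  obtain ⟨⟨s, d⟩, k⟩ := h
  revert k
  refine fin4 _ ?_ ?_ ?_ ?_
  · intro hk ht h
    simp only [tip, Prod.mk.injEq, ok, nb] at *
    rcases h with h | h | h
    · exact absurd h.2 (by decide)
    · exact absurd h.2 (by decide)
    · apply ht
      right; left
      exact ⟨⟨h.1.1, by omega⟩, trivial⟩
  · intro hk ht h
    simp only [tip, Prod.mk.injEq, ok, nb] at *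
    rcases h with h | h | h
    · apply hk
      omega
    · apply ht
      right; right
      exact ⟨⟨h.1.1, by omega⟩, trivial⟩
    · exact absurd h.2 (by decide)
  · intro hk ht h
    simp only [tip, ok, nb] at *
    split_ifs at h with h1
    · simp only [Prod.mk.injEq] at h
      rcases h with h | h | h <;> exact absurd h.2 (by decide)
    · simp only [Prod.mk.injEq] at h
      rcases h with h | h | h <;> exact absurd h.2 (by decide)
  · intro hk ht h
    simp only [tip, ok, nb] at *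
    split_ifs at h with h1
    · simp only [Prod.mk.injEq] at h
      rcases h with h | h | h <;> exact absurd h.2 (by decide)
    · simp only [Prod.mk.injEq] at h
      rcases h with h | h | h <;> exact absurd h.2 (by decide)

theorem nb_nb {h : HE} (hk : ok h.1) : nb (nb h) = h := by
  obtain ⟨⟨s, d⟩, k⟩ := h
  revert k
  refine fin4 _ ?_ ?_ ?_ ?_
  · intro hk
    simp only [nb, sub_add_cancel]
  · intro hk
    simp only [nb, add_sub_cancel_right]
  · intro hk
    simp only [ok] at hk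
    by_cases h1 : d < 0 ∧ s = 0
    · obtain ⟨h1, rfl⟩ := h1
      simp [nb, h1]
    · have h2 : ¬ (d < 0 ∧ s - 1 = -2) := by omega
      simp only [nb, if_neg h1, if_neg h2, sub_add_cancel]
  · intro hk
    simp only [ok] at hk
    by_cases h1 : d < 0 ∧ s = -2
    · obtain ⟨h1, rfl⟩ := h1
      simp [nb, h1]
    · have h2 : ¬ (d < 0 ∧ s + 1 = 0) := by omega
      simp only [nb, if_neg h1, if_neg h2, add_sub_cancel_right]

theorem nb_ne (h : HE) : nb h ≠ h := by
  obtain ⟨⟨s, d⟩, k⟩ := h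
  revert k
  refine fin4 _ ?_ ?_ ?_ ?_
  · intro h
    simp only [nb, Prod.mk.injEq] at h
    exact absurd h.2 (by decide)
  · intro h
    simp only [nb, Prod.mk.injEq] at h
    exact absurd h.2 (by decide)
  · intro h
    simp only [nb] at h
    split_ifs at h with h1
    · simp only [Prod.mk.injEq] at h
      exact absurd h.2 (by decide)
    · simp only [Prod.mk.injEq] at h
      exact absurd h.2 (by decide)
  · intro h
    simp only [nb] at h
    split_ifs at h with h1
    · simp only [Prod.mk.injEq] at h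
      exact absurd h.2 (by decide)
    · simp only [Prod.mk.injEq] at h
      exact absurd h.2 (by decide)

theorem co_congr {d d' j j' t t' : ℤ} (ht : t = t')
    (h : (if d < 0 ∧ j = 0 then j - 1 else j) = (if d' < 0 ∧ j' = 0 then j' - 1 else j')) :
    co d j t = co d' j' t' := by
  subst ht
  unfold co
  split_ifs at h ⊢ <;> rw [h]

theorem nb_P {h : HE} (hk : ok h.1) (ht : ¬ tip h) : P1 (nb h) = P1 h ∧ P2 (nb h) = P2 h := by
  obtain ⟨⟨s, d⟩, k⟩ := h
  revert k
  refine fin4 _ ?_ ?_ ?_ ?_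
  · intro hk ht
    simp only [tip, Prod.mk.injEq, ok, nb, P1, P2, and_true] at *
    constructor
    · apply co_congr (by ring)
      split_ifs <;> omega
    · apply co_congr (by ring)
      split_ifs <;> omega
  · intro hk ht
    simp only [tip, Prod.mk.injEq, ok, nb, P1, P2, and_true] at *
    constructor
    · apply co_congr (by ring)
      split_ifs <;> omega
    · apply co_congr (by ring)
      split_ifs <;> omega
  · intro hk ht
    simp only [ok] at hk
    by_cases h1 : d < 0 ∧ s = 0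
    · obtain ⟨h1, rfl⟩ := h1
      simp [nb, h1, P1, P2, co]
    · simp only [nb, if_neg h1, P1, P2, sub_add_cancel, and_self]
  · intro hk ht
    simp only [ok] at hk
    by_cases h1 : d < 0 ∧ s = -2
    · obtain ⟨h1, rfl⟩ := h1
      simp [nb, h1, P1, P2, co]
    · simp only [nb, if_neg h1, P1, P2, and_self]

/-! ### corners -/

theorem mem_zp {s d : ℤ} : edz s d ∈ zp {0} ↔ ¬ ok (s, d) := by
  unfold zp ok
  simp only [Set.mem_ofPred_eq, edz_s, edz_d, Set.mem_singleton_iff]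
  omega

/-- the two diagonals of a square -/
theorem diag (s d : ℤ) (c : ℤ) (h : (s + d) % 2 = c) :
    Dg {0} c (edz s d) (co d s d) (co d (s + 1) (d + 1)) ∧
    Dg {0} (1 - c) (edz s d) (co d s (d + 1)) (co d (s + 1) d) := by
  constructor
  · have h1 := Dg.rise (Z := {0}) (c := c) (e := edz s d) (by rw [edz_s, edz_d]; exact h)
    rw [edz_s, edz_d, nrm_eq, nrm_eq] at h1
    exact h1
  · have h1 := Dg.fall (Z := {0}) (c := 1 - c) (e := edz s d) (by rw [edz_s, edz_d]; omega)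
    rw [edz_s, edz_d, nrm_eq, nrm_eq] at h1
    exact h1

def Two (e : Edg) (x y : ℤ × ℤ) : Prop :=
  (Cor {0} 0 e x ∧ Cor {0} 1 e y) ∨ (Cor {0} 1 e x ∧ Cor {0} 0 e y)

theorem Two.symm {e : Edg} {x y : ℤ × ℤ} (h : Two e x y) : Two e y x := by
  rcases h with h | h
  · exact Or.inr ⟨h.2, h.1⟩
  · exact Or.inl ⟨h.2, h.1⟩

theorem two_P {h : HE} (hk : ok h.1) : Two (edz h.1.1 h.1.2) (P1 h) (P2 h) := by
  obtain ⟨⟨s, d⟩, k⟩ := h
  have hz : edz s d ∉ zp {0} := fun h => (mem_zp.1 h) hk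
  have key : ∀ c : ℤ, (s + d) % 2 = c →
      (Cor {0} c (edz s d) (co d s d) ∧ Cor {0} c (edz s d) (co d (s + 1) (d + 1))) ∧
      (Cor {0} (1 - c) (edz s d) (co d s (d + 1)) ∧ Cor {0} (1 - c) (edz s d) (co d (s + 1) d)) := by
    intro c hc
    obtain ⟨h1, h2⟩ := diag s d c hc
    exact ⟨⟨⟨hz, _, Or.inl h1⟩, ⟨hz, _, Or.inr h1⟩⟩, ⟨⟨hz, _, Or.inl h2⟩, ⟨hz, _, Or.inr h2⟩⟩⟩
  have hc : (s + d) % 2 = 0 ∨ (s + d) % 2 = 1 := by omega
  rcases hc with hc | hc
  · obtain ⟨⟨h1, h2⟩, ⟨h3, h4⟩⟩ := key 0 hc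
    rw [sub_zero] at h3 h4
    revert k
    refine fin4 _ ?_ ?_ ?_ ?_
    · intro _; exact Or.inl ⟨h1, h4⟩
    · intro _; exact Or.inr ⟨h3, h2⟩
    · intro _; exact Or.inl ⟨h1, h3⟩
    · intro _; exact Or.inr ⟨h4, h2⟩
  · obtain ⟨⟨h1, h2⟩, ⟨h3, h4⟩⟩ := key 1 hc
    rw [sub_self] at h3 h4
    revert k
    refine fin4 _ ?_ ?_ ?_ ?_
    · intro _; exact Or.inr ⟨h1, h4⟩
    · intro _; exact Or.inl ⟨h3, h2⟩
    · intro _; exact Or.inr ⟨h1, h3⟩
    · intro _; exact Or.inl ⟨h4, h2⟩

/-! ### links -/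

theorem link (B G : Set Edg) (s d : ℤ) (hB : edz s d ∈ B) (hk : ok (s, d)) :
    LZ {0} B G (co d s d) (co d (s + 1) (d + 1)) ∨ LZ {0} B G (co d s (d + 1)) (co d (s + 1) d) := by
  have hz : edz s d ∉ zp {0} := fun h => (mem_zp.1 h) hk
  have hc : (s + d) % 2 = 0 ∨ (s + d) % 2 = 1 := by omega
  rcases hc with hc | hc
  · obtain ⟨h1, h2⟩ := diag s d 0 hc
    rw [sub_zero] at h2
    by_cases hG : edz s d ∈ G
    · exact Or.inl ⟨_, hB, hz, Or.inl ⟨hG, h1⟩⟩
    · exact Or.inr ⟨_, hB, hz, Or.inr ⟨hG, h2⟩⟩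
  · obtain ⟨h1, h2⟩ := diag s d 1 hc
    rw [sub_self] at h2
    by_cases hG : edz s d ∈ G
    · exact Or.inr ⟨_, hB, hz, Or.inl ⟨hG, h2⟩⟩
    · exact Or.inl ⟨_, hB, hz, Or.inr ⟨hG, h1⟩⟩

/-- active pairs -/
def act (A D : ℤ × ℤ → Prop) (x y : ℤ × ℤ) : Prop := (A x ∧ D y) ∨ (A y ∧ D x)

open Classical in
/-- indicator -/
noncomputable def iv (P : Prop) : ZMod 2 := if P then 1 else 0

theorem iv_congr {P Q : Prop} (h : P ↔ Q) : iv P = iv Q := by
  rw [propext h]

/-- indicator -/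
noncomputable def ind (A D : ℤ × ℤ → Prop) (h : HE) : ZMod 2 := iv (act A D (P1 h) (P2 h))

theorem sum4 (A D : ℤ × ℤ → Prop) (s d : ℤ)
    (h : ((A (co d s d) ↔ A (co d (s + 1) (d + 1))) ∧ (D (co d s d) ↔ D (co d (s + 1) (d + 1)))) ∨
      ((A (co d s (d + 1)) ↔ A (co d (s + 1) d)) ∧ (D (co d s (d + 1)) ↔ D (co d (s + 1) d)))) :
    ∑ k : Fin 4, ind A D ((s, d), k) = 0 := by
  rw [Fin.sum_univ_four]
  simp only [ind, P1, P2]
  rcases h with ⟨h1, h2⟩ | ⟨h1, h2⟩
  · have e1 : act A D (co d s d) (co d (s + 1) d) ↔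
        act A D (co d (s + 1) d) (co d (s + 1) (d + 1)) := by
      unfold act; rw [h1, h2]; tauto
    have e2 : act A D (co d s d) (co d s (d + 1)) ↔
        act A D (co d s (d + 1)) (co d (s + 1) (d + 1)) := by
      unfold act; rw [h1, h2]; tauto
    rw [iv_congr e1, iv_congr e2]
    generalize iv (act A D (co d (s + 1) d) (co d (s + 1) (d + 1))) = a
    generalize iv (act A D (co d s (d + 1)) (co d (s + 1) (d + 1))) = b
    revert a b; decide
  · have e1 : act A D (co d s d) (co d (s + 1) d) ↔ act A D (co d s d) (co d s (d + 1)) := by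
      unfold act; rw [h1, h2]
    have e2 : act A D (co d (s + 1) d) (co d (s + 1) (d + 1)) ↔
        act A D (co d s (d + 1)) (co d (s + 1) (d + 1)) := by
      unfold act; rw [h1, h2]
    rw [iv_congr e1, iv_congr e2]
    generalize iv (act A D (co d s d) (co d s (d + 1))) = a
    generalize iv (act A D (co d s (d + 1)) (co d (s + 1) (d + 1))) = b
    revert a b; decide

theorem mem_box_bd {R : ℤ} {s d : ℤ} (h : edz s d ∈ bxz R) :
    -(2 * R + 1) ≤ s ∧ s ≤ 2 * R + 1 ∧ -(2 * R + 1) ≤ d ∧ d ≤ 2 * R + 1 := by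
  obtain ⟨h1, h2⟩ := h
  have hs := edz_s s d
  have hd := edz_d s d
  revert h1 h2 hs hd
  generalize edz s d = e
  intro h1 h2 hs hd
  obtain ⟨x, y, b⟩ := e
  unfold nm at h1 h2
  have h3 := (max_le_iff.1 h1)
  simp only [src_mk, abs_le] at h3
  unfold dco at hd
  simp only at hs hd
  cases b
  · simp only [Bool.false_eq_true, if_false] at hd
    omega
  · simp only [if_true] at hd
    omega

theorem tip_box {R : ℤ} (hR : 1 ≤ R) : edz (-1) 0 ∈ bxz R ∧ edz 0 0 ∈ bxz R ∧ edz 0 (-1) ∈ bxz R := by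
  have h1 : edz (-1) 0 = (0, -1, false) := by decide
  have h2 : edz 0 0 = (0, 0, true) := by decide
  have h3 : edz 0 (-1) = (0, 0, false) := by decide
  rw [h1, h2, h3]
  refine ⟨⟨?_, ?_⟩, ⟨?_, ?_⟩, ⟨?_, ?_⟩⟩ <;>
    simp only [src_mk, tgt_true, tgt_false, nm] <;> norm_num <;> omega

theorem main (R : ℕ) (G : Set Edg) (hR : 1 ≤ R)
    (hn : ∀ c d : ℕ, c < 3 → d < 3 → c ≠ d → ¬ RZ {0} (bxz R) G (scz 0 0 c) (scz 0 0 d))
    (c d : ℕ) (hc : c < 3) (hd : d < 3) (hcd : c ≠ d) :
    ∃ (x y : ℤ × ℤ) (e e' : Edg), e ∉ bxz R ∧ e' ∈ bxz R ∧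
    RZ {0} (bxz R) G (scz 0 0 c) x ∧ RZ {0} (bxz R) G (scz 0 0 d) y ∧ Two e x y ∧ Two e' x y := by
  classical
  by_contra hcon
  set A : ℤ × ℤ → Prop := RZ {0} (bxz R) G (scz 0 0 c) with hA
  set D : ℤ × ℤ → Prop := RZ {0} (bxz R) G (scz 0 0 d) with hD
  set Q : Finset (ℤ × ℤ) := (Finset.Icc (-(2 * (R : ℤ) + 1)) (2 * R + 1) ×ˢ
    Finset.Icc (-(2 * (R : ℤ) + 1)) (2 * R + 1)).filter
      (fun q => edz q.1 q.2 ∈ bxz (R : ℤ) ∧ ok q) with hQ
  have memQ : ∀ q : ℤ × ℤ, q ∈ Q ↔ edz q.1 q.2 ∈ bxz (R : ℤ) ∧ ok q := by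
    intro q
    rw [hQ, Finset.mem_filter, Finset.mem_product, Finset.mem_Icc, Finset.mem_Icc]
    constructor
    · exact fun h => h.2
    · intro h
      have := mem_box_bd h.1
      exact ⟨by omega, h⟩
  -- the sum over all the sides vanishes
  have hsum : ∑ h ∈ Q ×ˢ (Finset.univ : Finset (Fin 4)), ind A D h = 0 := by
    rw [Finset.sum_product]
    apply Finset.sum_eq_zero
    rintro ⟨s, t⟩ hq
    rw [memQ] at hq
    apply sum4
    rcases link (bxz (R : ℤ)) G s t hq.1 hq.2 with h | h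
    · left
      exact ⟨⟨fun h' => h'.trans _ _ _ (.rel _ _ h), fun h' => h'.trans _ _ _ (.symm _ _ (.rel _ _ h))⟩,
        ⟨fun h' => h'.trans _ _ _ (.rel _ _ h), fun h' => h'.trans _ _ _ (.symm _ _ (.rel _ _ h))⟩⟩
    · right
      exact ⟨⟨fun h' => h'.trans _ _ _ (.rel _ _ h), fun h' => h'.trans _ _ _ (.symm _ _ (.rel _ _ h))⟩,
        ⟨fun h' => h'.trans _ _ _ (.rel _ _ h), fun h' => h'.trans _ _ _ (.symm _ _ (.rel _ _ h))⟩⟩
  -- split
  rw [← Finset.sum_filter_add_sum_filter_not _ (fun h => tip h)] at hsum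
  -- the sides which are not at the tip
  have h2 : ∑ h ∈ (Q ×ˢ (Finset.univ : Finset (Fin 4))).filter (fun h => ¬ tip h), ind A D h = 0 := by
    have h3 : ∑ h ∈ (Q ×ˢ (Finset.univ : Finset (Fin 4))).filter (fun h => ¬ tip h), ind A D h =
        ∑ h ∈ ((Q ×ˢ (Finset.univ : Finset (Fin 4))).filter (fun h => ¬ tip h)).filter
          (fun h => act A D (P1 h) (P2 h)), (1 : ZMod 2) := by
      rw [Finset.sum_filter (fun h => act A D (P1 h) (P2 h))]
      apply Finset.sum_congr rfl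
      intro h _
      unfold ind iv
      rfl
    rw [h3]
    have hmem : ∀ h : HE, h ∈ ((Q ×ˢ (Finset.univ : Finset (Fin 4))).filter (fun h => ¬ tip h)).filter
          (fun h => act A D (P1 h) (P2 h)) ↔ (edz h.1.1 h.1.2 ∈ bxz (R : ℤ) ∧ ok h.1) ∧ ¬ tip h ∧
            act A D (P1 h) (P2 h) := by
      intro h
      rw [Finset.mem_filter, Finset.mem_filter, Finset.mem_product, memQ]
      simp only [Finset.mem_univ, and_true]
      tauto
    apply Finset.sum_involution (fun h _ => nb h)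
    · intro a ha; decide
    · intro a ha _; exact nb_ne a
    · intro h hh
      rw [hmem] at hh ⊢
      obtain ⟨⟨h4, h5⟩, h6, h7⟩ := hh
      have h8 := nb_ok h5 h6
      obtain ⟨h9, h10⟩ := nb_P h5 h6
      refine ⟨⟨?_, h8⟩, nb_tip h5 h6, ?_⟩
      · by_contra hout
        apply hcon
        have hT := two_P h5
        have hT' := two_P h8
        rw [h9, h10] at hT'
        rcases h7 with ⟨h7, h7'⟩ | ⟨h7, h7'⟩
        · exact ⟨_, _, _, _, hout, h4, h7, h7', hT', hT⟩
        · exact ⟨_, _, _, _, hout, h4, h7, h7', hT'.symm, hT.symm⟩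
      · rw [h9, h10]; exact h7
    · intro h hh
      rw [hmem] at hh
      exact nb_nb hh.1.2
  rw [h2, add_zero] at hsum
  -- the tip
  have hR' : (1 : ℤ) ≤ R := by exact_mod_cast hR
  obtain ⟨hb1, hb2, hb3⟩ := tip_box hR'
  have h4 : (Q ×ˢ (Finset.univ : Finset (Fin 4))).filter (fun h => tip h) =
      {((-1, 0), 0), ((0, 0), 0), ((0, -1), 1)} := by
    ext h
    rw [Finset.mem_filter, Finset.mem_product, memQ]
    simp only [Finset.mem_univ, and_true, Finset.mem_insert, Finset.mem_singleton]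
    constructor
    · exact fun h => h.2
    · intro h'
      refine ⟨?_, h'⟩
      rcases h' with rfl | rfl | rfl
      · exact ⟨hb1, by unfold ok; simp⟩
      · exact ⟨hb2, by unfold ok; simp⟩
      · exact ⟨hb3, by unfold ok; simp⟩
  rw [h4, Finset.sum_insert (by decide), Finset.sum_insert (by decide), Finset.sum_singleton] at hsum
  have hs0 : scz 0 0 0 = (-1, 0) := by simp [scz]
  have hs1 : scz 0 0 1 = (0, 0) := by simp [scz]
  have hs2 : scz 0 0 2 = (1, 0) := by simp [scz]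
  have e1 : P1 ((-1, 0), 0) = scz 0 0 0 := by rw [hs0]; decide
  have e2 : P2 ((-1, 0), 0) = scz 0 0 1 := by rw [hs1]; decide
  have e3 : P1 ((0, 0), 0) = scz 0 0 1 := by rw [hs1]; decide
  have e4 : P2 ((0, 0), 0) = scz 0 0 2 := by rw [hs2]; decide
  have e5 : P1 ((0, -1), 1) = scz 0 0 0 := by rw [hs0]; decide
  have e6 : P2 ((0, -1), 1) = scz 0 0 2 := by rw [hs2]; decide
  have hAv : ∀ i : ℕ, i < 3 → (A (scz 0 0 i) ↔ i = c) := by
    intro i hi
    constructor
    · intro h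
      by_contra hne
      exact hn c i hc hi (fun h => hne h.symm) h
    · rintro rfl; exact .refl _
  have hDv : ∀ i : ℕ, i < 3 → (D (scz 0 0 i) ↔ i = d) := by
    intro i hi
    constructor
    · intro h
      by_contra hne
      exact hn d i hd hi (fun h => hne h.symm) h
    · rintro rfl; exact .refl _
  simp only [ind, act, e1, e2, e3, e4, e5, e6, hAv 0 (by norm_num), hAv 1 (by norm_num),
    hAv 2 (by norm_num), hDv 0 (by norm_num), hDv 1 (by norm_num), hDv 2 (by norm_num)] at hsum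
  have hc' : c = 0 ∨ c = 1 ∨ c = 2 := by omega
  have hd' : d = 0 ∨ d = 1 ∨ d = 2 := by omega
  clear_value A D
  rcases hc' with rfl | rfl | rfl <;> rcases hd' with rfl | rfl | rfl
  · exact hcd rfl
  · simp [iv] at hsum
  · simp [iv] at hsum
  · simp [iv] at hsum
  · exact hcd rfl
  · simp [iv] at hsum
  · simp [iv] at hsum
  · simp [iv] at hsum
  · exact hcd rfl

end TADJ

theorem t_ADJ : S_ADJ := by
  intro R G hR hn c d hc hd hcd
  exact TADJ.main R G hR hn c d hc hd hcd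

end Pool.Agent.W808.KZ
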