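import Pool.Agent.W808.KZ.Stm
import Pool.Agent.H160R2.MU.T_BADP

/-!
Project KZ, task BADK: the bad events have small probability, for arbitrarily large `M3`
(copy of `MU.t_BADP'`).
-/

set_option autoImplicit false

namespace Pool.Agent.W808.KZ
open H974 H906.Cyl Finset
open H12S (Dir hbE segD rimE H4 Crs Nr PQ Win win_half win_arm_of win_blk
  H4_bound)
open H12S.EP2 (pr_biUnion choose_M)
open Pool.Agent.H160R2.MU Pool.Agent.H160R2.MU.TBADP

theorem t_BADK : S_BADK := by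
  intro N ν hN hν4 δ hδ K
  have hν : 1 ≤ ν := by omega
  obtain ⟨κ, hκ, hwin⟩ := win_half
  obtain ⟨C1, c1, hC1, hc1, harm⟩ := win_arm_of
    (by intro q κ n h m hm hmn c1 c2 S; exact win_blk h hm hmn c1 c2 S) κ hκ
  obtain ⟨C2, c2, hC2, hc2, hH4⟩ := H4_bound κ hκ
  obtain ⟨M3, hM3K, hM3'⟩ := choose_M ((ν * (5 * ν + 1)) / 16) 0 C1 16 (by positivity) le_rfl
    hC1.le (by norm_num) hc1 (half_pos hδ) (max 64 K)
  obtain ⟨M4, hM4, hM4'⟩ := choose_M (128 * ν ^ 2) (40 * ν) C2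
    (36 * M3) (by positivity) (by positivity) hC2.le (by positivity) hc2 (half_pos hδ) (64 * M3)
  have hM3 : 64 ≤ M3 := (le_max_left 64 K).trans hM3K
  have hMK : K ≤ M3 := (le_max_right 64 K).trans hM3K
  refine ⟨M3, M4, hMK, hM3, hM4, ?_⟩
  intro c r hc hr
  have h0 : (0 : ℝ) ≤ 1 / 2 := by norm_num
  have h1 : (1 / 2 : ℝ) ≤ 1 := by norm_num
  have ok := okq h0 h1
  have hM3p : 0 < M3 := by omega
  have hM4p : 0 < M4 := by omega
  set ρ := r / M3 with hρ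
  set l := r / M4 with hl
  set n := ν * r with hn
  set M := 4 * n with hM
  have hl1 : 1 ≤ l := (Nat.one_le_div_iff hM4p).2 hr
  have hlr : l * M4 ≤ r := Nat.div_mul_le_self r M4
  have hρr : ρ * M3 ≤ r := Nat.div_mul_le_self r M3
  have h64l : 64 * l ≤ ρ := by
    rw [hρ, Nat.le_div_iff_mul_le hM3p]
    calc 64 * l * M3 = l * (64 * M3) := by ring
      _ ≤ l * M4 := Nat.mul_le_mul_left _ hM4
      _ ≤ r := hlr
  have h64ρ : 64 * ρ ≤ r := by
    calc 64 * ρ = ρ * 64 := by ring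
      _ ≤ ρ * M3 := Nat.mul_le_mul_left _ hM3
      _ ≤ r := hρr
  have hr2l : r ≤ 2 * M4 * l := by
    have e1 := Nat.div_add_mod r M4
    have e2 := Nat.mod_lt r hM4p
    rw [← hl] at e1
    nlinarith
  have hr2ρ : r ≤ 2 * M3 * ρ := by
    have e1 := Nat.div_add_mod r M3
    have e2 := Nat.mod_lt r hM3p
    rw [← hρ] at e1
    nlinarith
  have hn4 : 4 * r ≤ n := by
    rw [hn]
    exact Nat.mul_le_mul_right _ (by omega)
  have hn0 : 0 < n := by omega
  let T1 : Finset (ℤ × ℤ) := Ico (0 : ℤ) ν ×ˢ Icc (-(2 * ν : ℤ)) (3 * ν)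
  let T2 : Finset (Dir × (ℤ × (ℤ × ℤ))) := (univ : Finset Dir) ×ˢ (Ico (0 : ℤ) ν ×ˢ
    (Icc (0 : ℤ) 1 ×ˢ Icc (-((8 * ν * M4 + 2 : ℕ) : ℤ)) ((8 * ν * M4 + 2 : ℕ) : ℤ)))
  let A : ℤ × ℤ → Finset Edg → Prop := fun ξ F =>
    Crs (r * ξ.1) (r * ξ.2) (4 * ρ) (r / 2) (Cc c n M F) ∧ |ξ.1 - ξ.2| ≤ 2 * ν
  let B : Dir × (ℤ × (ℤ × ℤ)) → Finset Edg → Prop := fun p F =>
    |(cn l r p.1 p.2.1 p.2.2.1 p.2.2.2).1 - (cn l r p.1 p.2.1 p.2.2.1 p.2.2.2).2| ≤
        2 * (n : ℤ) + l ∧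
      H4 p.1 (cn l r p.1 p.2.1 p.2.2.1 p.2.2.2).1 (cn l r p.1 p.2.1 p.2.2.1 p.2.2.2).2
        (9 * l) (ρ - l) (Cc c n M F)
  have hcover : PC n M (Bad c N r ρ l ν n M) ≤
      PC n M (fun F => (∃ ξ ∈ T1, A ξ F) ∨ ∃ p ∈ T2, B p F) := by
    unfold PC
    refine Pr_mono ok fun F _ hF => ?_
    rcases hF with ⟨ζ, hz, _, hcr⟩ | ⟨d, x0, y0, i, j, hxy, _, hor, hH⟩
    · left
      exact red1 hc (by omega) hz hcr
    · right
      exact red2 hc hν hl1 (by omega) hr2l (by omega) (by exact_mod_cast hxy) hor hH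
  have hfalse : ∀ X : Finset Edg → Prop, (∀ F, ¬ X F) → PC n M X = 0 := by
    intro X hX
    have k1 := Pr_true (p := fun _ : Edg => (1 / 2 : ℝ)) (CE n M) (A := fun _ => True)
      (fun _ _ => trivial)
    have k2 := Pr_not (p := fun _ : Edg => (1 / 2 : ℝ)) (CE n M) (fun _ => True)
    simp only [not_true_eq_false] at k2
    have k3 : PC n M X = Pr (fun _ => (1 / 2 : ℝ)) (CE n M) (fun _ => False) :=
      Pr_congr fun F _ => ⟨fun h => hX F h, fun h => h.elim⟩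
    rw [k3, k2, k1, sub_self]
  have hA : ∀ ξ ∈ T1, PC n M (A ξ) ≤ C1 * (16 / (M3:ℝ)) ^ c1 := by
    intro ξ _
    by_cases hx : |ξ.1 - ξ.2| ≤ 2 * (ν : ℤ)
    · have hdc : ∀ e ∈ RE ((r : ℤ) * ξ.1 - (r / 2 : ℕ)) (r * ξ.1 + (r / 2 : ℕ))
          (r * ξ.2 - (r / 2 : ℕ)) (r * ξ.2 + (r / 2 : ℕ)), -(M : ℤ) ≤ dco e ∧ dco e < M := by
        apply TBADP.RE_dco
        have e1 : (r : ℤ) * ξ.1 - r * ξ.2 = r * (ξ.1 - ξ.2) := by ring
        rw [e1, abs_mul, Nat.abs_cast]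
        have e2 : (r : ℤ) * |ξ.1 - ξ.2| ≤ r * (2 * ν) :=
          mul_le_mul_of_nonneg_left hx (by positivity)
        have e3 : (n : ℤ) = ν * r := by rw [hn]; push_cast; ring
        have e4 : (M : ℤ) = 4 * n := by rw [hM]; push_cast; ring
        have e5 : (r : ℤ) * (2 * ν) = 2 * n := by rw [e3]; ring
        have e6 : (4 : ℤ) * r ≤ n := by exact_mod_cast hn4
        have e7 : (64 : ℤ) ≤ r := by
          have : 64 ≤ r := by omega
          exact_mod_cast this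
        have e8 : 2 * (((r / 2 : ℕ) : ℤ)) ≤ r := by omega
        linarith
      have hinj : Set.InjOn (red n) (RE ((r : ℤ) * ξ.1 - (r / 2 : ℕ)) (r * ξ.1 + (r / 2 : ℕ))
          (r * ξ.2 - (r / 2 : ℕ)) (r * ξ.2 + (r / 2 : ℕ)) : Set Edg) := by
        apply red_inj_x
        omega
      have ht := transport hc hn0 hdc hinj (fun G => Crs (r * ξ.1) (r * ξ.2) (4 * ρ) (r / 2) G)
      have h5 : PC n M (A ξ) ≤ PC n M (fun F => Crs (r * ξ.1) (r * ξ.2) (4 * ρ) (r / 2)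
          (Cc c n M F ∩ ↑(RE ((r : ℤ) * ξ.1 - (r / 2 : ℕ)) (r * ξ.1 + (r / 2 : ℕ))
          (r * ξ.2 - (r / 2 : ℕ)) (r * ξ.2 + (r / 2 : ℕ))))) := by
        unfold PC
        exact Pr_mono ok fun F _ hF => Crs_loc (by omega) hF.1
      refine h5.trans ?_
      rw [ht]
      refine ((harm (1 / 2) (r / 2) (hwin _) (4 * ρ) (r / 2) (by omega) (by omega) le_rfl _ _
        _).1).trans ?_
      refine mul_le_mul_of_nonneg_left (Real.rpow_le_rpow (by positivity) ?_ hc1.le) hC1.le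
      have h3 : 0 < r / 2 := by omega
      rw [div_le_div_iff₀ (by exact_mod_cast h3) (by exact_mod_cast hM3p)]
      have h4 : 4 * ρ * M3 ≤ 16 * (r / 2) := by
        have : 4 * ρ * M3 = 4 * (ρ * M3) := by ring
        omega
      exact_mod_cast h4
    · rw [hfalse _ fun F hF => hx hF.2]
      positivity
  have hB : ∀ p ∈ T2, PC n M (B p) ≤ C2 * (36 * (M3:ℝ) / M4) ^ (1 + c2) := by
    rintro ⟨d, j, o, i⟩ _
    by_cases hx : |(cn l r d j o i).1 - (cn l r d j o i).2| ≤ 2 * (n : ℤ) + l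
    · set x0 := (cn l r d j o i).1 with hx0
      set y0 := (cn l r d j o i).2 with hy0
      have e4 : (M : ℤ) = 4 * n := by rw [hM]; push_cast; ring
      have e6 : (4 : ℤ) * r ≤ n := by exact_mod_cast hn4
      have hdc : ∀ e ∈ hbE d x0 y0 (ρ - l), -(M : ℤ) ≤ dco e ∧ dco e < M := by
        intro e he
        refine TBADP.RE_dco (a := x0) (b := y0) (R := ρ - l) ?_ e (hbE_RE d x0 y0 (ρ - l) he)
        omega
      have hinj : Set.InjOn (red n) (hbE d x0 y0 (ρ - l) : Set Edg) := by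
        refine (red_inj_x (n := n) (a := x0 - (ρ - l : ℕ)) (b := x0 + (ρ - l : ℕ))
          (c := y0 - (ρ - l : ℕ)) (d := y0 + (ρ - l : ℕ)) ?_).mono ?_
        · omega
        · exact_mod_cast hbE_RE d x0 y0 (ρ - l)
      have ht := transport hc hn0 hdc hinj (fun G => H4 d x0 y0 (9 * l) (ρ - l) G)
      have h5 : PC n M (B (d, j, o, i)) ≤ PC n M (fun F => H4 d x0 y0 (9 * l) (ρ - l)
          (Cc c n M F ∩ ↑(hbE d x0 y0 (ρ - l)))) := by
        unfold PC
        exact Pr_mono ok fun F _ hF => H4_loc.1 hF.2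
      refine h5.trans ?_
      rw [ht]
      refine (hH4 (1 / 2) (ρ - l) (hwin _) (9 * l) (ρ - l) (by omega) (by omega) le_rfl d
        x0 y0 _ (Finset.Subset.refl _)).trans ?_
      refine mul_le_mul_of_nonneg_left (Real.rpow_le_rpow (by positivity) ?_ (by linarith)) hC2.le
      have h3 : 0 < ρ - l := by omega
      rw [div_le_div_iff₀ (by exact_mod_cast h3) (by exact_mod_cast hM4p)]
      have h4 : 9 * l * M4 ≤ 36 * M3 * (ρ - l) := by
        have h6 : ρ ≤ 2 * (ρ - l) := by omega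
        calc 9 * l * M4 = 9 * (l * M4) := by ring
          _ ≤ 9 * r := by omega
          _ ≤ 9 * (2 * M3 * ρ) := by omega
          _ ≤ 9 * (2 * M3 * (2 * (ρ - l))) :=
            Nat.mul_le_mul_left _ (Nat.mul_le_mul_left _ h6)
          _ = 36 * M3 * (ρ - l) := by ring
      exact_mod_cast h4
    · rw [hfalse _ fun F hF => hx hF.1]
      positivity
  have hT1 : (T1.card : ℝ) = ν * (5 * ν + 1) := by
    have e1 : (Ico (0 : ℤ) ν).card = ν := by rw [Int.card_Ico]; omega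
    have e2 : (Icc (-(2 * ν : ℤ)) (3 * ν)).card = 5 * ν + 1 := by
      rw [Int.card_Icc]
      omega
    have e3 : T1.card = ν * (5 * ν + 1) := by
      simp only [T1, card_product, e1, e2]
    rw [e3]
    push_cast
    ring
  have hT2 : (T2.card : ℝ) = 4 * (ν * (2 * (16 * ν * M4 + 5))) := by
    have e1 : (Ico (0 : ℤ) ν).card = ν := by rw [Int.card_Ico]; omega
    have e2 : (Icc (-((8 * ν * M4 + 2 : ℕ):ℤ)) ((8 * ν * M4 + 2 : ℕ):ℤ)).card =
        2 * (8 * ν * M4 + 2) + 1 := by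
      rw [Int.card_Icc]
      omega
    have e3 : (univ : Finset Dir).card = 4 := rfl
    have e5 : (Icc (0 : ℤ) 1).card = 2 := by rw [Int.card_Icc]; rfl
    have e4 : T2.card = 4 * (ν * (2 * (2 * (8 * ν * M4 + 2) + 1))) := by
      simp only [T2, card_product, e1, e2, e3, e5]
    rw [e4]
    push_cast
    ring
  have s1 : PC n M (fun F => ∃ ξ ∈ T1, A ξ F) ≤ δ / 2 := by
    refine (pr_biUnion h0 h1 (CE n M) T1 A).trans ((Finset.sum_le_sum hA).trans ?_)
    rw [Finset.sum_const, nsmul_eq_mul, hT1]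
    refine le_trans (le_of_eq ?_) hM3'
    have hM3r : (0:ℝ) < M3 := by exact_mod_cast hM3p
    rw [Real.rpow_add (by positivity), Real.rpow_one]
    field_simp
    ring
  have s2 : PC n M (fun F => ∃ p ∈ T2, B p F) ≤ δ / 2 := by
    refine (pr_biUnion h0 h1 (CE n M) T2 B).trans ((Finset.sum_le_sum hB).trans ?_)
    rw [Finset.sum_const, nsmul_eq_mul, hT2]
    refine le_trans (le_of_eq ?_) hM4'
    ring
  have s3 := Pr_or_le ok (CE n M) (fun F => ∃ ξ ∈ T1, A ξ F) (fun F => ∃ p ∈ T2, B p F)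
  unfold PC at *
  linarith

end Pool.Agent.W808.KZ
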