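import Pool.Agent.W808.KZ.Stm

/-!
# Task BADZ: the bad events have small probability
-/

set_option autoImplicit false

namespace Pool.Agent.W808.KZ
open H974 H906.Cyl
open H12S (Dir hbE segD rimE H4 Crs Nr sqE)
open Pool.Agent.H160R2.ML (nm)
open Pool.Agent.H160R2.MU (Cel csq cpos prd shf BxS Bxs EP inSq PC Bad Cc)
open Pool.Agent.W808.HU (PTr)
open Pool.Agent.W801.OU

theorem t_BADZ : S_BADK → S_ZP → S_BADZ := by
  intro hB hZ N hN δ hδ
  obtain ⟨K, hK⟩ := hZ N hN (δ / 2) (by linarith)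
  obtain ⟨M3, M4, hK3, h64, h644, hbad⟩ := hB N (prd N N) (by omega)
    (by unfold prd; omega) (δ / 2) (by linarith) K
  refine ⟨M3, M4, h64, h644, fun c r hc hr n M hn hM => ?_⟩
  subst hn hM
  unfold PC
  refine le_trans (Pr_or_le (okq (q := 1/2) (by norm_num) (by norm_num)) _ _ _) ?_
  have h1 := hbad c r hc hr
  have hρ : 1 ≤ r / M3 := by
    rw [Nat.one_le_div_iff (by omega)]
    omega
  have hKr : K * (r / M3) ≤ r :=
    le_trans (Nat.mul_le_mul_right _ hK3) (Nat.mul_div_le r M3)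
  have h2 := hK (r / M3) r hρ hKr (prd N N * r) (4 * (prd N N * r)) rfl rfl
  unfold PC at h1 h2
  linarith

end Pool.Agent.W808.KZ
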