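import Pool.Agent.W808.KZ.T_MON

/-!
# DEC: the leg event implies the arm event in a smaller box (dislocated plane)
-/

set_option autoImplicit false

namespace Pool.Agent.W808.KZ
open H974 H906.Cyl
open Pool.Agent.H160R2.ML (nm)
open Pool.Agent.W801.OU
open Pool.Agent.H160R2.MU.TMON (nm_le_iff nm_tgt_le nm_src_le mem_box box_mono)

namespace TDEC

/-- near the tip there is only the zipper `0` -/
theorem mem_Zn_iff {n : ℕ} {j : ℤ} (h1 : -(2 * n : ℤ) < j) (h2 : j < 2 * n) :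
    j ∈ Zn n ↔ j ∈ ({0} : Set ℤ) := by
  rw [Set.mem_singleton_iff]
  show j % ((2 * n : ℕ) : ℤ) = 0 ↔ j = 0
  constructor
  · intro h
    obtain ⟨q, hq⟩ := Int.dvd_of_emod_eq_zero h
    push_cast at hq
    have hq0 : q = 0 := by
      by_contra hne
      rcases lt_or_gt_of_ne hne with h3 | h3
      · have : (2 * n : ℤ) * q ≤ 2 * n * (-1) :=
          mul_le_mul_of_nonneg_left (by omega) (by positivity)
        omega
      · have : (2 * n : ℤ) * 1 ≤ 2 * n * q :=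
          mul_le_mul_of_nonneg_left (by omega) (by positivity)
        omega
    rw [hq, hq0, mul_zero]
  · intro h
    rw [h]
    simp

theorem nrm_eq {n : ℕ} {d j t : ℤ} (h1 : -(2 * n : ℤ) < j) (h2 : j < 2 * n) :
    nrm (Zn n) d j t = nrm {0} d j t := by
  unfold nrm
  by_cases h3 : d < 0 ∧ j ∈ Zn n
  · rw [if_pos h3, if_pos ⟨h3.1, (mem_Zn_iff h1 h2).1 h3.2⟩]
  · rw [if_neg h3, if_neg (fun h4 => h3 ⟨h4.1, (mem_Zn_iff h1 h2).2 h4.2⟩)]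

theorem zp_iff {n : ℕ} {e : Edg} (h1 : -(2 * n : ℤ) < e.1 + e.2.1 + 1)
    (h2 : e.1 + e.2.1 + 1 < 2 * n) : e ∈ zp (Zn n) ↔ e ∈ zp {0} := by
  show (dco e < 0 ∧ _) ↔ (dco e < 0 ∧ _)
  rw [mem_Zn_iff h1 h2]

theorem Dg_iff {n : ℕ} {c : ℤ} {e : Edg} {x y : ℤ × ℤ} (h1 : -(2 * n : ℤ) < e.1 + e.2.1)
    (h2 : e.1 + e.2.1 + 1 < 2 * n) : Dg (Zn n) c e x y ↔ Dg {0} c e x y := by
  have e1 : ∀ t, nrm (Zn n) (dco e) (e.1 + e.2.1) t = nrm {0} (dco e) (e.1 + e.2.1) t :=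
    fun t => nrm_eq h1 (by omega)
  have e2 : ∀ t, nrm (Zn n) (dco e) (e.1 + e.2.1 + 1) t =
      nrm {0} (dco e) (e.1 + e.2.1 + 1) t := fun t => nrm_eq (by omega) h2
  constructor
  · rintro (h | h)
    · rw [e1, e2]; exact Dg.rise h
    · rw [e1, e2]; exact Dg.fall h
  · rintro (h | h)
    · rw [← e1, ← e2]; exact Dg.rise h
    · rw [← e1, ← e2]; exact Dg.fall h

theorem Cor_iff {n : ℕ} {c : ℤ} {e : Edg} {x : ℤ × ℤ} (h1 : -(2 * n : ℤ) < e.1 + e.2.1)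
    (h2 : e.1 + e.2.1 + 1 < 2 * n) : Cor (Zn n) c e x ↔ Cor {0} c e x := by
  unfold Pool.Agent.W801.OU.Cor
  rw [zp_iff (by omega) h2]
  simp only [Dg_iff h1 h2]

theorem nrm_fst {Z : Set ℤ} {d j t : ℤ} : (nrm Z d j t).1 = j ∨ (nrm Z d j t).1 = j - 1 := by
  unfold nrm
  split_ifs
  · exact Or.inr rfl
  · exact Or.inl rfl

theorem Dg_fst {Z : Set ℤ} {c : ℤ} {e : Edg} {x y : ℤ × ℤ} (h : Dg Z c e x y) :
    (e.1 + e.2.1 - 1 ≤ x.1 ∧ x.1 ≤ e.1 + e.2.1 + 1) ∧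
      (e.1 + e.2.1 - 1 ≤ y.1 ∧ y.1 ≤ e.1 + e.2.1 + 1) := by
  rcases h with h | h
  · have h1 := nrm_fst (Z := Z) (d := dco e) (j := e.1 + e.2.1) (t := dco e)
    have h2 := nrm_fst (Z := Z) (d := dco e) (j := e.1 + e.2.1 + 1) (t := dco e + 1)
    omega
  · have h1 := nrm_fst (Z := Z) (d := dco e) (j := e.1 + e.2.1) (t := dco e + 1)
    have h2 := nrm_fst (Z := Z) (d := dco e) (j := e.1 + e.2.1 + 1) (t := dco e)
    omega

theorem Cor_fst {Z : Set ℤ} {c : ℤ} {e : Edg} {x : ℤ × ℤ} (h : Cor Z c e x) :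
    e.1 + e.2.1 - 1 ≤ x.1 ∧ x.1 ≤ e.1 + e.2.1 + 1 := by
  obtain ⟨_, y, h1 | h1⟩ := h
  · exact (Dg_fst h1).1
  · exact (Dg_fst h1).2

theorem bxz_bd {R : ℕ} {e : Edg} (he : e ∈ bxz (R : ℤ)) :
    -(2 * R : ℤ) ≤ e.1 + e.2.1 ∧ e.1 + e.2.1 + 1 ≤ 2 * R := by
  have h1 := (nm_le_iff _ _).1 he.1
  have h2 := (nm_le_iff _ _).1 he.2
  obtain ⟨x, y, b⟩ := e
  cases b
  · have e1 : tgt (x, y, false) = (x, y + 1) := rfl
    rw [e1] at h2
    simp only [src] at h1 h2 ⊢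
    omega
  · have e1 : tgt (x, y, true) = (x + 1, y) := rfl
    rw [e1] at h2
    simp only [src] at h1 h2 ⊢
    omega

/-- in the box the two geometries agree -/
theorem LZ_eq {n R : ℕ} (hR : 1 ≤ R) (hn : 4 * R ≤ n) {G : Set Edg} :
    LZ {0} (bxz (R : ℤ)) G = LZ (Zn n) (bxz (R : ℤ)) G := by
  funext x y
  apply propext
  unfold LZ
  refine exists_congr fun e => ?_
  constructor
  · rintro ⟨he, h1, h2⟩
    have h3 := bxz_bd he
    refine ⟨he, fun h4 => h1 ((zp_iff (by omega) (by omega)).1 h4), ?_⟩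
    rwa [Dg_iff (by omega) (by omega), Dg_iff (by omega) (by omega)]
  · rintro ⟨he, h1, h2⟩
    have h3 := bxz_bd he
    refine ⟨he, fun h4 => h1 ((zp_iff (by omega) (by omega)).2 h4), ?_⟩
    rwa [Dg_iff (by omega) (by omega), Dg_iff (by omega) (by omega)] at h2

theorem RZ_eq {n R : ℕ} (hR : 1 ≤ R) (hn : 4 * R ≤ n) {G : Set Edg} :
    RZ {0} (bxz (R : ℤ)) G = RZ (Zn n) (bxz (R : ℤ)) G := by
  unfold RZ
  rw [LZ_eq hR hn]

/-- the clusters of the box stay near the box -/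
theorem near {n R : ℕ} {G : Set Edg} {x y : ℤ × ℤ} (h : RZ (Zn n) (bxz (R : ℤ)) G x y)
    (hx : |x.1| ≤ 2 * R + 1) : |y.1| ≤ 2 * R + 1 := by
  refine (TMON.RZ_inv (P := fun z => |z.1| ≤ 2 * R + 1) ?_ h).1 hx
  intro u v huv
  obtain ⟨e, he, ⟨h1, h2⟩, _⟩ := TMON.LZ_cor huv
  have h3 := bxz_bd he
  have h4 : e.1 + e.2.1 - 1 ≤ u.1 ∧ u.1 ≤ e.1 + e.2.1 + 1 := by
    rcases h1 with h1 | h1 <;> exact Cor_fst h1
  have h5 : e.1 + e.2.1 - 1 ≤ v.1 ∧ v.1 ≤ e.1 + e.2.1 + 1 := by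
    rcases h2 with h2 | h2 <;> exact Cor_fst h2
  have h6 : |u.1| ≤ 2 * R + 1 := abs_le.2 ⟨by omega, by omega⟩
  have h7 : |v.1| ≤ 2 * R + 1 := abs_le.2 ⟨by omega, by omega⟩
  exact ⟨fun _ => h7, fun _ => h6⟩

theorem scz0 (n c : ℕ) : scz 0 0 c = scz n 0 c := by
  simp [scz]

end TDEC

open TDEC in
theorem t_DEC : S_DEC := by
  intro n M R hR hn hM B F hB hF hBF hG
  have h1 : ∀ e ∈ bxz (R : ℤ), (e ∈ per n F ↔ e ∈ per n B) := fun e he =>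
    (hBF e (TMON.bxz_sub_box he)).symm
  have h2 : RZ {0} (bxz (R : ℤ)) (per n F) = RZ (Zn n) (bxz (R : ℤ)) (per n B) := by
    rw [RZ_eq hR hn, TMON.RZ_congr h1]
  refine ⟨fun c d hc hd hcd hcon => ?_, fun c hc => ?_⟩
  · rw [h2, scz0 n c, scz0 n d] at hcon
    exact hG.1 c d hc hd hcd (TMON.RZ_mono (Set.subset_univ _) hcon)
  · obtain ⟨s, hs, d, hd, hr⟩ := hG.2 c hc
    by_contra hno
    rw [h2, scz0 n c] at hno
    have hs0 : |(scz n 0 c).1| ≤ 2 * R + 1 := by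
      show |2 * (n : ℤ) * 0 + c - 1| ≤ 2 * R + 1
      have : 2 * (n : ℤ) * 0 + c - 1 = c - 1 := by ring
      rw [this]
      exact abs_le.2 ⟨by omega, by omega⟩
    have h3 : ∀ x, RZ (Zn n) (bxz (R : ℤ)) (per n B) (scz n 0 c) x → ∀ e, e ∉ bxz (R : ℤ) →
        ¬ (Cor (Zn n) 0 e x ∨ Cor (Zn n) 1 e x) := by
      intro x hx e he hcor
      have h4 := abs_le.1 (near hx hs0)
      have h5 : e.1 + e.2.1 - 1 ≤ x.1 ∧ x.1 ≤ e.1 + e.2.1 + 1 := by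
        rcases hcor with h | h <;> exact Cor_fst h
      rw [Cor_iff (by omega) (by omega), Cor_iff (by omega) (by omega)] at hcor
      exact hno ⟨x, hx, e, he, hcor⟩
    have h6 := TMON.exit h3 hr
    have h7 := abs_le.1 (near h6 hs0)
    have h8 : (scz n s d).1 = 2 * (n : ℤ) * s + d - 1 := rfl
    rw [h8] at h7
    rcases lt_or_gt_of_ne hs with h9 | h9
    · have : (2 * n : ℤ) * s ≤ 2 * n * (-1) :=
        mul_le_mul_of_nonneg_left (by omega) (by positivity)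
      omega
    · have : (2 * n : ℤ) * 1 ≤ 2 * n * s :=
        mul_le_mul_of_nonneg_left (by omega) (by positivity)
      omega

end Pool.Agent.W808.KZ
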