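import Pool.Agent.W808.KZ.Stm
import Pool.Agent.H160R2.MU.T_DET

/-!
Task DET of project KZ: landing implies the leg event.
-/

set_option autoImplicit false

namespace Pool.Agent.W808.KZ
open H974 H906.Cyl
open H12S (Dir hbE segD rimE H4 Crs Nr sqE)
open Pool.Agent.H160R2.ML (nm)
open Pool.Agent.H160R2.MU (Cel csq cpos prd shf BxS Bxs EP inSq PC Bad Cc)
open Pool.Agent.W808.HU (PTr)
open Pool.Agent.W801.OU
open Pool.Agent.H160R2.MU.TDET (she shv dco_she src_she tgt_she red_she red_eq red_of_mem csq_out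
  nm_le box_sq sq_near inSq_shift sqE_inSq sqE_shift shf_shf Bxs_shift EP_shift EP_shift_iff box_EP
  shv_sub)

namespace TDET

/-! ### translations of points -/

/-- translation of a point -/
def shp (n : ℕ) (q : ℤ) (x : ℤ × ℤ) : ℤ × ℤ := (x.1 + 2 * n * q, x.2)

theorem vp_shv (n : ℕ) (q : ℤ) (v : Vtx) : vp (shv n q v) = shp n q (vp v) := by
  simp only [vp, shv, shp, Prod.mk.injEq]
  constructor <;> ring

theorem scz_shp (n : ℕ) (q s : ℤ) (c : ℕ) : shp n q (scz n s c) = scz n (s + q) c := by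
  simp only [shp, scz, Prod.mk.injEq, and_true]
  ring

theorem scz_zero (n c : ℕ) : scz 0 0 c = scz n 0 c := by
  simp only [scz, Prod.mk.injEq, and_true]
  push_cast; ring

/-- the reference points of the closed region -/
def bb (n : ℕ) (s : ℤ) : ℤ × ℤ := (n + 1 + 2 * n * s, -(2 * n))

theorem bb_shp (n : ℕ) (q s : ℤ) : shp n q (bb n s) = bb n (s + q) := by
  simp only [shp, bb, Prod.mk.injEq, and_true]
  ring

theorem Zn_shift (n : ℕ) (j q : ℤ) : j + 2 * n * q ∈ Zn n ↔ j ∈ Zn n := by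
  show (j + 2 * n * q) % ((2 * n : ℕ) : ℤ) = 0 ↔ j % ((2 * n : ℕ) : ℤ) = 0
  rw [show (j + 2 * n * q) = j + ((2 * n : ℕ) : ℤ) * q by push_cast; ring,
    Int.add_mul_emod_self_left]

theorem nrm_shift (n : ℕ) (d j t q : ℤ) :
    nrm (Zn n) d (j + 2 * n * q) t = shp n q (nrm (Zn n) d j t) := by
  unfold nrm
  by_cases h : d < 0 ∧ j ∈ Zn n
  · rw [if_pos h, if_pos ⟨h.1, (Zn_shift n j q).2 h.2⟩]
    simp only [shp, Prod.mk.injEq, and_true]; ring
  · rw [if_neg h, if_neg (fun h' => h ⟨h'.1, (Zn_shift n j q).1 h'.2⟩)]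
    simp only [shp]

theorem col_she (n : ℕ) (q : ℤ) (e : Edg) :
    (she n q e).1 + (she n q e).2.1 = e.1 + e.2.1 + 2 * n * q := by
  simp only [she]; ring

theorem Dg_shift {n : ℕ} {c : ℤ} {e : Edg} {x y : ℤ × ℤ} (q : ℤ) (h : Dg (Zn n) c e x y) :
    Dg (Zn n) c (she n q e) (shp n q x) (shp n q y) := by
  have hm : ((she n q e).1 + (she n q e).2.1 + dco (she n q e)) % 2 =
      (e.1 + e.2.1 + dco e) % 2 := by
    rw [col_she, dco_she]
    rw [show e.1 + e.2.1 + 2 * n * q + dco e = e.1 + e.2.1 + dco e + 2 * (n * q) by ring,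
      Int.add_mul_emod_self_left]
  cases h with
  | rise hp =>
    have := Dg.rise (Z := Zn n) (c := c) (e := she n q e) (by rw [hm]; exact hp)
    rw [col_she, dco_she, show e.1 + e.2.1 + 2 * n * q + 1 = e.1 + e.2.1 + 1 + 2 * n * q by ring,
      nrm_shift, nrm_shift] at this
    exact this
  | fall hp =>
    have := Dg.fall (Z := Zn n) (c := c) (e := she n q e) (by rw [hm]; exact hp)
    rw [col_she, dco_she, show e.1 + e.2.1 + 2 * n * q + 1 = e.1 + e.2.1 + 1 + 2 * n * q by ring,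
      nrm_shift, nrm_shift] at this
    exact this

theorem zp_shift {n : ℕ} {e : Edg} (q : ℤ) : she n q e ∈ zp (Zn n) ↔ e ∈ zp (Zn n) := by
  show dco (she n q e) < 0 ∧ (she n q e).1 + (she n q e).2.1 + 1 ∈ Zn n ↔
    dco e < 0 ∧ e.1 + e.2.1 + 1 ∈ Zn n
  rw [dco_she, col_she, show e.1 + e.2.1 + 2 * n * q + 1 = e.1 + e.2.1 + 1 + 2 * n * q by ring,
    Zn_shift]

theorem RC_shift {n : ℕ} (hn : 0 < n) {F : Finset Edg} {x y : ℤ × ℤ} (q : ℤ)
    (h : RC n (per n F) x y) : RC n (per n F) (shp n q x) (shp n q y) := by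
  induction h with
  | rel x y h =>
    refine Relation.EqvGen.rel _ _ ?_
    obtain ⟨e, -, hz, h⟩ := h
    have hm : she n q e ∈ per n F ↔ e ∈ per n F := by
      show red n _ ∈ F ↔ red n _ ∈ F
      rw [red_she hn]
    refine ⟨she n q e, Set.mem_univ _, fun h => hz ((zp_shift q).1 h), ?_⟩
    rw [hm]
    rcases h with ⟨h1, h2⟩ | ⟨h1, h2⟩
    · exact Or.inl ⟨h1, Dg_shift q h2⟩
    · exact Or.inr ⟨h1, Dg_shift q h2⟩
  | refl x => exact Relation.EqvGen.refl _
  | symm x y _ ih => exact Relation.EqvGen.symm _ _ ih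
  | trans x y z _ _ ih1 ih2 => exact Relation.EqvGen.trans _ _ _ ih1 ih2

/-! ### the zipper of the box -/

theorem Zn_small {n : ℕ} {j : ℤ} (h1 : -(2 * (n : ℤ)) < j) (h2 : j < 2 * n) :
    j ∈ Zn n ↔ j ∈ ({0} : Set ℤ) := by
  show j % ((2 * n : ℕ) : ℤ) = 0 ↔ j = 0
  constructor
  · intro h
    exact Int.eq_zero_of_abs_lt_dvd (Int.dvd_of_emod_eq_zero h)
      (by push_cast; rw [abs_lt]; exact ⟨h1, h2⟩)
  · rintro rfl; simp

theorem nrm_small {n : ℕ} {d j t : ℤ} (h1 : -(2 * (n : ℤ)) < j) (h2 : j < 2 * n) :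
    nrm (Zn n) d j t = nrm {0} d j t := by
  unfold nrm
  by_cases h : d < 0 ∧ j ∈ ({0} : Set ℤ)
  · rw [if_pos h, if_pos ⟨h.1, (Zn_small h1 h2).2 h.2⟩]
  · rw [if_neg h, if_neg (fun h' => h ⟨h'.1, (Zn_small h1 h2).1 h'.2⟩)]

theorem Dg_small {n : ℕ} {c : ℤ} {e : Edg} {x y : ℤ × ℤ} (h1 : -(2 * (n : ℤ)) < e.1 + e.2.1)
    (h2 : e.1 + e.2.1 + 1 < 2 * n) (h : Dg {0} c e x y) : Dg (Zn n) c e x y := by
  cases h with
  | rise hp =>
    have := Dg.rise (Z := Zn n) (c := c) (e := e) hp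
    rw [nrm_small (by omega) (by omega), nrm_small (by omega) (by omega)] at this
    exact this
  | fall hp =>
    have := Dg.fall (Z := Zn n) (c := c) (e := e) hp
    rw [nrm_small (by omega) (by omega), nrm_small (by omega) (by omega)] at this
    exact this

/-! ### the configuration -/

/-- the data -/
structure D (N r : ℕ) (C : Cel) (n M : ℕ) (F : Finset Edg) : Prop where
  z2 : S_z2
  z3 : S_z3
  ex : S_EX
  hN : 16 ≤ N
  hr : 4 ≤ r
  hC : AdmZ N C
  hn : n = prd N N * r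
  hM : M = 4 * n
  hF : F ⊆ CE n M

variable {N r : ℕ} {C : Cel} {n M : ℕ} {F : Finset Edg}

theorem D.hnr (d : D N r C n M F) : (n : ℤ) = 20 * (N * r) := by
  rw [d.hn]; unfold prd; push_cast; ring

theorem D.Nr0 (d : D N r C n M F) : 64 ≤ (N : ℤ) * r := by
  have h1 := d.hN
  have h2 := d.hr
  have : 16 * 4 ≤ N * r := Nat.mul_le_mul h1 h2
  exact_mod_cast this

theorem D.n0 (d : D N r C n M F) : 0 < n := by
  have h1 := d.hnr
  have h2 := d.Nr0
  omega

theorem Bper (N : ℕ) : ∀ z ∈ Bxs N N, ∀ s, shf N N s z ∈ Bxs N N := fun _ h s => Bxs_shift s h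

theorem D.Tper (d : D N r C n M F) : ∀ z ∈ TubZ N C, ∀ s, shf N N s z ∈ TubZ N C :=
  fun z h s => (((d.z3 N C d.hN d.hC _ rfl).2.2.1 z s).2).1 h

theorem mem_FA {e : Edg} : e ∈ FA N r C n M F ↔ e ∈ CE n M ∧
    ((e ∈ EB N r ∧ e ∈ F) ∨ (e ∉ EB N r ∧ e ∈ ET N r C)) := by
  classical
  unfold FA
  simp only [Finset.mem_filter]

/-- the edges of the periodic configuration -/
theorem D.mem (d : D N r C n M F) {e : Edg} : e ∈ per n (FA N r C n M F) ↔
    red n e ∈ CE n M ∧ ((e ∈ EB N r ∧ e ∈ per n F) ∨ (e ∉ EB N r ∧ e ∈ ET N r C)) := by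
  show red n e ∈ FA N r C n M F ↔ _
  rw [mem_FA]
  have h3 := red_eq n e
  set q := -((e.1 + e.2.1) / (2 * (n : ℤ)))
  have h4 : e ∈ per n F ↔ red n e ∈ F := Iff.rfl
  rw [h4]
  rw [show (red n e ∈ EB N r ↔ e ∈ EB N r) by
    rw [h3, EP_shift_iff d.hn (Bper N)], show (red n e ∈ ET N r C ↔ e ∈ ET N r C) by
    rw [h3, EP_shift_iff d.hn d.Tper]]

/-- in a box -/
theorem D.mem_box (d : D N r C n M F) {e : Edg} (he : e ∈ EB N r) :
    e ∈ per n (FA N r C n M F) ↔ e ∈ per n F := by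
  rw [d.mem]
  constructor
  · rintro ⟨-, ⟨-, h⟩ | ⟨h, -⟩⟩
    · exact h
    · exact absurd he h
  · intro h
    exact ⟨d.hF h, Or.inl ⟨he, h⟩⟩

/-- connections of the box -/
theorem D.box (d : D N r C n M F) {x y : ℤ × ℤ}
    (h : RZ {0} (bxz (N * r : ℕ)) (per n F) x y) : RC n (per n (FA N r C n M F)) x y := by
  refine Relation.EqvGen.mono ?_ _ _ h
  rintro a b ⟨e, he, hz, h⟩
  have h1 := he.1
  have h2 := he.2
  have hN := d.hN
  have hr := d.hr
  have heB : e ∈ EB N r := box_EP (by omega) (by omega) h1 h2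
  have hnr := d.hnr
  have h64 := d.Nr0
  rw [nm_le] at h1 h2
  push_cast at h1 h2
  have h3 : (src e).1 = e.1 ∧ (src e).2 = e.2.1 := ⟨rfl, rfl⟩
  rw [h3.1, h3.2] at h1
  have c1 : -(2 * (n : ℤ)) < e.1 + e.2.1 := by omega
  have c2 : e.1 + e.2.1 + 1 < 2 * n := by omega
  refine ⟨e, Set.mem_univ _, ?_, ?_⟩
  · rintro ⟨k1, k2⟩
    exact hz ⟨k1, (Zn_small (by omega) (by omega)).1 k2⟩
  · rw [d.mem_box heB]
    rcases h with ⟨k1, k2⟩ | ⟨k1, k2⟩
    · exact Or.inl ⟨k1, Dg_small c1 c2 k2⟩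
    · exact Or.inr ⟨k1, Dg_small c1 c2 k2⟩

/-- connections of the closed region -/
theorem D.clo (d : D N r C n M F) {x y : ℤ × ℤ}
    (h : RZ (Zn n) {e | e ∉ EB N r ∧ e ∉ ET N r C} ∅ x y) :
    RC n (per n (FA N r C n M F)) x y := by
  refine Relation.EqvGen.mono ?_ _ _ h
  rintro a b ⟨e, he, hz, h⟩
  refine ⟨e, Set.mem_univ _, hz, Or.inr ⟨?_, ?_⟩⟩
  · rw [d.mem]
    rintro ⟨-, ⟨h, -⟩ | ⟨-, h⟩⟩
    · exact he.1 h
    · exact he.2 h
  · rcases h with ⟨h, -⟩ | ⟨-, h⟩
    · exact absurd h (Set.notMem_empty _)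
    · exact h

/-- the diagonal of class `0` away from the zippers -/
theorem Dg_vp {Z : Set ℤ} {e : Edg} (h1 : ¬ (dco e < 0 ∧ e.1 + e.2.1 ∈ Z))
    (h2 : ¬ (dco e < 0 ∧ e.1 + e.2.1 + 1 ∈ Z)) : Dg Z 0 e (vp (src e)) (vp (tgt e)) := by
  obtain ⟨x, y, _ | _⟩ := e
  · have h := Dg.fall (Z := Z) (c := 0) (e := (x, y, false))
      (by simp only [dco, Bool.false_eq_true, if_false]; omega)
    unfold nrm at h
    rw [if_neg h1, if_neg h2] at h
    simp only [dco, Bool.false_eq_true, if_false] at h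
    convert h using 1
    · simp only [vp, src_mk, Prod.mk.injEq, true_and]; ring
    · simp only [vp, tgt_false, Prod.mk.injEq]; constructor <;> ring
  · have h := Dg.rise (Z := Z) (c := 0) (e := (x, y, true))
      (by simp only [dco, if_true]; omega)
    unfold nrm at h
    rw [if_neg h1, if_neg h2] at h
    simp only [dco, if_true] at h
    have e1 : vp (src (x, y, true)) = (x + y, x - y) := rfl
    have e2 : vp (tgt (x, y, true)) = (x + y + 1, x - y + 1) := by
      simp only [vp, tgt_true, Prod.mk.injEq]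
      constructor <;> ring
    rw [e1, e2]
    exact h

/-- a vertex of the tube on a zipper column is on the positive side -/
theorem D.tube_far (d : D N r C n M F) {z : ℤ × ℤ} {v : Vtx} (hz : z ∈ TubZ N C)
    (hv : inSq r z v) (hc : v.1 + v.2 ∈ Zn n) : 2 ≤ v.1 - v.2 := by
  have hc' : (v.1 + v.2) % ((2 * n : ℕ) : ℤ) = 0 := hc
  set q : ℤ := (v.1 + v.2) / ((2 * n : ℕ) : ℤ) with hq
  have m2 := Int.mul_ediv_add_emod (v.1 + v.2) ((2 * n : ℕ) : ℤ)
  rw [← hq, hc', add_zero] at m2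
  rw [← inSq_shift d.hn z _ q] at hv
  have hx := (d.z3 N C d.hN d.hC _ rfl).2.2.2.2 z hz q
  generalize shf N N q z = w at hv hx
  obtain ⟨a1, a2, a3, a4⟩ := hv
  simp only at a1 a2 a3 a4
  have m3 : ((2 * n : ℕ) : ℤ) * q = 2 * (q * n) := by push_cast; ring
  rw [m3] at m2
  have hr : (4 : ℤ) ≤ r := by exact_mod_cast d.hr
  have hN : (16 : ℤ) ≤ N := by exact_mod_cast d.hN
  rcases hx with hx | hx | hx
  · have : (r : ℤ) * 16 ≤ r * w.1 - r * w.2 := by nlinarith
    omega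
  · have : (r : ℤ) * w.1 + r * w.2 ≤ -(6 * r) := by nlinarith
    omega
  · have : (5 : ℤ) * r ≤ (r : ℤ) * w.1 + r * w.2 := by nlinarith
    omega

/-- extent of the tube -/
theorem D.ext (d : D N r C n M F) {z : ℤ × ℤ} {e : Edg} (hz : z ∈ TubZ N C)
    (hez : e ∈ sqE r z) : -(M : ℤ) ≤ dco e ∧ dco e < M := by
  have hx := (d.z3 N C d.hN d.hC _ rfl).2.2.2.1 z (Or.inr hz)
  rw [abs_le] at hx
  obtain ⟨x1, x2⟩ := hx
  obtain ⟨h1, h2⟩ := sqE_inSq hez
  have hr' : (4 : ℤ) ≤ r := by exact_mod_cast d.hr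
  have hN' := d.hnr
  have b2 : (r : ℤ) * z.1 - r * z.2 ≤ 3 * (N * r) + 2 * r := by nlinarith
  have b1 : -(3 * ((N : ℤ) * r) + 2 * r) ≤ (r : ℤ) * z.1 - r * z.2 := by nlinarith
  have hN4 : (16 : ℤ) ≤ N := by have := d.hN; omega
  have b3 : (16 : ℤ) * r ≤ N * r := by nlinarith
  have hM := d.hM
  obtain ⟨a1, a2, a3, a4⟩ := h1
  obtain ⟨x, y, _ | _⟩ := e
  · simp only [src_mk, dco, Bool.false_eq_true, if_false] at *; omega
  · simp only [src_mk, dco, if_true] at *; omega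

/-- connections of the tube -/
theorem D.tube (d : D N r C n M F) {u v : Vtx} (h : Reach (ET N r C \ EB N r) u v) :
    RC n (per n (FA N r C n M F)) (vp u) (vp v) := by
  induction h with
  | refl => exact Relation.EqvGen.refl _
  | tail _ hs ih =>
    refine Relation.EqvGen.trans _ _ _ ih ?_
    obtain ⟨e, ⟨⟨z, hz, hez⟩, heB⟩, he⟩ := hs
    have hdc := d.ext hz hez
    obtain ⟨q1, q2⟩ := sqE_inSq hez
    have k1 : ¬ (dco e < 0 ∧ e.1 + e.2.1 ∈ Zn n) := by
      rintro ⟨h1, h2⟩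
      have := d.tube_far hz q1 h2
      obtain ⟨x, y, _ | _⟩ := e
      · simp only [src_mk, dco, Bool.false_eq_true, if_false] at h1 this; omega
      · simp only [src_mk, dco, if_true] at h1 this; omega
    have k2 : ¬ (dco e < 0 ∧ e.1 + e.2.1 + 1 ∈ Zn n) := by
      rintro ⟨h1, h2⟩
      have hc : (tgt e).1 + (tgt e).2 ∈ Zn n := by
        have : (tgt e).1 + (tgt e).2 = e.1 + e.2.1 + 1 := by
          obtain ⟨x, y, _ | _⟩ := e
          · simp only [tgt_false]; ring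
          · simp only [tgt_true]; ring
        rw [this]; exact h2
      have := d.tube_far hz q2 hc
      obtain ⟨x, y, _ | _⟩ := e
      · simp only [tgt_false, dco, Bool.false_eq_true, if_false] at h1 this; omega
      · simp only [tgt_true, dco, if_true] at h1 this; omega
    have hl : LZ (Zn n) Set.univ (per n (FA N r C n M F)) (vp (src e)) (vp (tgt e)) := by
      refine ⟨e, Set.mem_univ _, k2, Or.inl ⟨?_, Dg_vp k1 k2⟩⟩
      rw [d.mem]
      exact ⟨red_mem d.n0 hdc.1 hdc.2, Or.inr ⟨heB, z, hz, hez⟩⟩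
    rcases he with ⟨h1, h2⟩ | ⟨h1, h2⟩
    · rw [← h1, ← h2]; exact Relation.EqvGen.rel _ _ hl
    · rw [← h1, ← h2]; exact Relation.EqvGen.symm _ _ (Relation.EqvGen.rel _ _ hl)

end TDET

open TDET

theorem t_DET : S_TRIc → S_z1 → S_z2 → S_z3 → S_EX → S_DET := by
  intro gT _ g2 g3 gE N r C hN hr hC n M hn hM F hF hL
  have d : D N r C n M F :=
    { z2 := g2, z3 := g3, ex := gE, hN := hN, hr := hr, hC := hC, hn := hn, hM := hM, hF := hF }
  have hn0 := d.n0
  have hn2 : 2 ≤ n := by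
    have h1 := d.hnr
    have h2 := d.Nr0
    omega
  obtain ⟨i, j, k, hi, hj, hk, hij, hik, hjk, ⟨v, hv1, -, hv3⟩, ⟨p, hp1, hp2⟩, ⟨p', hp1', hp2'⟩⟩ := hL
  set GA : Set Edg := per n (FA N r C n M F) with hGA
  have hFA : FA N r C n M F ⊆ CE n M := fun e he => (mem_FA.1 he).1
  have symm : ∀ {x y : ℤ × ℤ}, RC n GA x y → RC n GA y x := fun h => Relation.EqvGen.symm _ _ h
  have trans : ∀ {x y z : ℤ × ℤ}, RC n GA x y → RC n GA y z → RC n GA x z :=
    fun h h' => Relation.EqvGen.trans _ _ _ h h'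
  have shift : ∀ {x y : ℤ × ℤ} (q : ℤ), RC n GA x y → RC n GA (shp n q x) (shp n q y) :=
    fun q h => RC_shift hn0 q h
  obtain ⟨ex1, ex2, ex3⟩ := gE N r C hN hr hC n M hn hM
  -- the sector `i`
  have hiv : RC n GA (scz n 0 i) (vp v) := by
    rw [← scz_zero n]; exact d.box hv3
  have hvs : ∀ s : ℤ, RC n GA (vp v) (vp (shv n s v)) := by
    intro s
    obtain ⟨g21, g22⟩ := g2 N C hN hC
    have e1 : shf N N s (shf N N (-s) (csq N C)) = csq N C := by
      rw [shf_shf]; simp [shf]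
    have e0 : shf N N 0 (csq N C) = csq N C := by simp [shf]
    have t1 := g22 0 _ e0
    have t2 := g22 s _ e1
    refine d.tube (g21 r _ _ v _ (by omega) t1 t2 hv1 ?_)
    rw [← inSq_shift hn _ _ s, e1, shv_sub]
    exact hv1
  have hii : ∀ s : ℤ, RC n GA (scz n 0 i) (scz n s i) := by
    intro s
    have h1 := shift s hiv
    rw [scz_shp, ← vp_shv, zero_add] at h1
    exact trans (trans hiv (hvs s)) (symm h1)
  have hOi : Outw n GA i := ⟨1, one_ne_zero, i, hi, hii 1⟩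
  -- the other sectors
  have hbb : ∀ (c : ℕ) (p : Vtx), OutF N r C p →
      RZ {0} (bxz (N * r : ℕ)) (per n F) (scz 0 0 c) (fp p) → ∃ s : ℤ, RC n GA (scz n 0 c) (bb n s) := by
    intro c p hp hcp
    have h1 : RC n GA (scz n 0 c) (fp p) := by
      rw [← scz_zero n]; exact d.box hcp
    rcases (ex2 p hp).2 with h | h
    · refine ⟨0, trans h1 ?_⟩
      have := d.clo h
      convert this using 1
      simp only [bb]; ring_nf
    · refine ⟨-1, trans h1 ?_⟩
      have := d.clo h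
      convert this using 1
      simp only [bb]; ring_nf
  obtain ⟨s, hs⟩ := hbb j p hp1 hp2
  obtain ⟨s', hs'⟩ := hbb k p' hp1' hp2'
  have hT := gT n M hn2 (FA N r C n M F) hFA
  have hG3 : G3 n GA := by
    rcases hT with hT | ⟨t, a, b, ht, ha, hb, hta, htb, hab, hRab, hRta, hOt, hOa⟩
    · exact hT
    exfalso
    by_cases hss : s = s'
    · subst hss
      have hjk' : RC n GA (scz n 0 j) (scz n 0 k) := trans hs (symm hs')
      have hti : t ≠ i := by rintro rfl; exact hOt hOi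
      -- `t ∈ {j, k}`
      have key : RC n GA (scz n 0 t) (scz n 0 a) := by
        have hsym : RC n GA (scz n 0 b) (scz n 0 a) := symm hRab
        by_cases hai : a = i
        · -- `b` is the other one
          subst hai
          have htb' : (t = j ∧ b = k) ∨ (t = k ∧ b = j) := by omega
          rcases htb' with ⟨rfl, rfl⟩ | ⟨rfl, rfl⟩
          · exact trans hjk' hsym
          · exact trans (symm hjk') hsym
        · have hta' : (t = j ∧ a = k) ∨ (t = k ∧ a = j) := by omega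
          rcases hta' with ⟨rfl, rfl⟩ | ⟨rfl, rfl⟩
          · exact hjk'
          · exact symm hjk'
      exact hRta key
    · -- all the sectors are connected to other tips
      have hOj : Outw n GA j := by
        refine ⟨s - s', sub_ne_zero.2 hss, k, hk, ?_⟩
        have h1 := shift (s - s') hs'
        rw [scz_shp, bb_shp, zero_add, show s' + (s - s') = s by ring] at h1
        exact trans hs (symm h1)
      have hOk : Outw n GA k := by
        refine ⟨s' - s, sub_ne_zero.2 (Ne.symm hss), j, hj, ?_⟩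
        have h1 := shift (s' - s) hs
        rw [scz_shp, bb_shp, zero_add, show s + (s' - s) = s' by ring] at h1
        exact trans hs' (symm h1)
      have ht3 : t = i ∨ t = j ∨ t = k := by omega
      rcases ht3 with rfl | rfl | rfl
      · exact hOt hOi
      · exact hOt hOj
      · exact hOt hOk
  refine ⟨hG3, i, hi, ?_⟩
  intro x hx hix
  rcases lt_or_ge x.2 ((3 * N + 1) * r) with hlt | hge
  · obtain ⟨q, hq⟩ := ex1 x hx hlt
    have h1 : RC n GA (scz n 0 i) (bb n q) := trans hix (d.clo hq)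
    have h2 := shift (q - s) hs
    rw [scz_shp, bb_shp, zero_add, show s + (q - s) = q by ring] at h2
    have h3 : RC n GA (scz n (q - s) i) (scz n (q - s) j) :=
      trans (trans (symm (hii (q - s))) h1) (symm h2)
    have h4 := shift (-(q - s)) h3
    rw [scz_shp, scz_shp, add_neg_cancel] at h4
    exact hG3.1 i j hi hj hij h4
  · have h1 := ex3 F hF x _ hx hge (symm hix)
    have h2 : (scz n 0 i).2 = 0 := rfl
    rw [h2] at h1
    have h3 : (0 : ℤ) ≤ (3 * N + 1) * r := by positivity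
    omega

end Pool.Agent.W808.KZ
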