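import Pool.Agent.W347.KZEX.A

/-!
# KZ-EX: connectivity of the closed region (helper347)
-/

set_option autoImplicit false

namespace Pool.Agent.W808.KZ
open H974 H906.Cyl
open Pool.Agent.H160R2.MU (Cel csq cpos prd shf BxS Bxs EP inSq PC Bad Cc)
open Pool.Agent.W801.OU

namespace TEX

section moves
variable {N r : ℕ} {C : Cel} {n : ℕ}

/-- faces of the window next to the diagonal `-1` of coarse squares, off the zipper -/
theorem nzj (hN : 16 ≤ N) (hr : 0 < r) (hn : n = prd N N * r) (j : ℤ) (h0 : j ≠ 0)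
    (h1 : -(2 * r : ℤ) ≤ j) (h2 : j ≤ 2 * r) : j ∉ Zn n := by
  intro hj
  have hN' : (16 : ℤ) ≤ N := by exact_mod_cast hN
  have hr' : (1 : ℤ) ≤ r := by exact_mod_cast hr
  have e3 : (r : ℤ) * 16 ≤ r * N := mul_le_mul_of_nonneg_left hN' (by omega)
  have e7 : ((N * r : ℕ) : ℤ) = r * N := by push_cast; ring
  exact h0 (Zn_win hr hn hj (by rw [e7]; omega) (by rw [e7]; omega))

/-- vertical moves off the zipper, in two coarse squares -/
theorem gv (hN : 16 ≤ N) (hr : 0 < r) (hC : AdmZ N C) (hn : n = prd N N * r) (σ x b : ℤ) (m : ℕ)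
    (h : ∀ i : ℤ, 0 ≤ i → i ≤ m → L C.1 C.2 N (x / (r : ℤ)) ((b + i) / (r : ℤ)))
    (hz : ∀ i : ℤ, 1 ≤ i → i ≤ m → x + (b + i) + 1 ∉ Zn n) :
    Cn N r C n σ (x, b) (x, b + m) := by
  induction m with
  | zero => simpa using Cn.rf _
  | succ m ih =>
    have h1 := ih (fun i hi hi2 => h i hi (by push_cast; omega))
      (fun i hi hi2 => hz i hi (by push_cast; omega))
    have h2 := h m (by omega) (by push_cast; omega)
    have h3 := h (m + 1 : ℕ) (by omega) (le_refl _)
    have h4 := hz (m + 1 : ℕ) (by push_cast; omega) (le_refl _)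
    have e : b + (m : ℤ) = b + (m + 1 : ℕ) - 1 := by push_cast; ring
    refine h1.tr ?_
    have := mvv hN hr hC hn σ x (b + (m + 1 : ℕ)) (by rw [← e]; exact h2) h3
      (fun h => absurd h h4)
    rw [← e] at this
    exact this

theorem gh (hN : 16 ≤ N) (hr : 0 < r) (hC : AdmZ N C) (hn : n = prd N N * r) (σ y a : ℤ) (m : ℕ)
    (h : ∀ i : ℤ, 0 ≤ i → i ≤ m → L C.1 C.2 N ((a + i) / (r : ℤ)) (y / (r : ℤ)))
    (hz : ∀ i : ℤ, 1 ≤ i → i ≤ m → (a + i) + y + 1 ∉ Zn n) :
    Cn N r C n σ (a, y) (a + m, y) := by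
  induction m with
  | zero => simpa using Cn.rf _
  | succ m ih =>
    have h1 := ih (fun i hi hi2 => h i hi (by push_cast; omega))
      (fun i hi hi2 => hz i hi (by push_cast; omega))
    have h2 := h m (by omega) (by push_cast; omega)
    have h3 := h (m + 1 : ℕ) (by omega) (le_refl _)
    have h4 := hz (m + 1 : ℕ) (by push_cast; omega) (le_refl _)
    have e : a + (m : ℤ) = a + (m + 1 : ℕ) - 1 := by push_cast; ring
    refine h1.tr ?_
    have := mvh hN hr hC hn σ (a + (m + 1 : ℕ)) y (by rw [← e]; exact h2) h3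
      (fun h => absurd h h4)
    rw [← e] at this
    exact this

/-- every free face of the window which is not on the zipper is connected to one of the two
representatives -/
theorem fineL (hN : 16 ≤ N) (hr : 0 < r) (hC : AdmZ N C) (hn : n = prd N N * r) (σ x y : ℤ)
    (hL : L C.1 C.2 N (x / (r : ℤ)) (y / (r : ℤ)))
    (h0 : -(20 * (N : ℤ)) ≤ x / (r : ℤ) + y / (r : ℤ))
    (h1 : x / (r : ℤ) + y / (r : ℤ) < 20 * (N : ℤ))
    (hz : x + y + 1 ≠ 0 ∨ 1 ≤ x / (r : ℤ) - y / (r : ℤ)) :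
    Cn N r C n σ (x, y) (r * (-(10 * N)), r * (30 * N)) ∨
      Cn N r C n σ (x, y) (r * (-(30 * N)), r * (10 * N)) := by
  by_cases hcut : x / (r : ℤ) + y / (r : ℤ) = -1 ∧ x / (r : ℤ) - y / (r : ℤ) < 1
  · obtain ⟨c1, c2⟩ := hcut
    have hr' : (0 : ℤ) < r := by exact_mod_cast hr
    have hN' : (16 : ℤ) ≤ N := by exact_mod_cast hN
    obtain ⟨a1, a2⟩ := cb hr x
    obtain ⟨b1, b2⟩ := cb hr y
    obtain ⟨k1, k2, k3⟩ := hC
    have hz' : x + y + 1 ≠ 0 := by omega
    set u := x / (r : ℤ) with hu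
    set v := y / (r : ℤ) with hv
    have huv : (r : ℤ) * u + r * v = -r := by
      have : (r : ℤ) * u + r * v = r * (u + v) := by ring
      rw [this, c1]; ring
    obtain ⟨l1, l2, l3, l4, l5⟩ := hL
    have hv1 : (N : ℤ) ≤ v := by
      by_contra hlt
      exact l1 ⟨by omega, by omega, by omega, by omega⟩
    rcases lt_or_gt_of_ne hz' with h | h
    · -- move to the left
      have hS : S C.1 C.2 N (u - 1) v := by
        refine ⟨by omega, ?_, by omega, by omega, by omega, by omega⟩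
        unfold Ar at l2 ⊢
        omega
      have hw : (r * u - 1) / (r : ℤ) = u - 1 := by
        apply dv hr'
        · have : (r : ℤ) * (u - 1) = r * u - r := by ring
          omega
        · have : (r : ℤ) * (u - 1) = r * u - r := by ring
          omega
      have hm := gh hN hr ⟨k1, k2, k3⟩ hn σ y (r * u - 1) (x - (r * u - 1)).toNat ?_ ?_
      · have e1 : r * u - 1 + ((x - (r * u - 1)).toNat : ℤ) = x := by omega
        rw [e1] at hm
        have hf := fineS hN hr ⟨k1, k2, k3⟩ hn σ (r * u - 1) y (by rw [hw, ← hv]; exact hS)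
          (by rw [hw, ← hv]; omega) (by rw [hw, ← hv]; omega)
        rcases hf with hf | hf
        · exact Or.inl (hm.sy.tr hf)
        · exact Or.inr (hm.sy.tr hf)
      · intro i i0 i1
        rcases eq_or_lt_of_le i0 with h | h
        · rw [← h, add_zero, hw, ← hv]
          exact L_of_S hS
        · rw [dv (z := u) hr' (by omega) (by omega), ← hv]
          exact ⟨l1, l2, l3, l4, l5⟩
      · intro i i0 i1
        apply nzj hN hr hn
        · omega
        · omega
        · omega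
    · -- move up
      have hS : S C.1 C.2 N u (v + 1) := by
        refine ⟨by omega, ?_, by omega, by omega, by omega, by omega⟩
        unfold Ar at l2 ⊢
        omega
      have hw : (r * v + r) / (r : ℤ) = v + 1 := by
        apply dv hr'
        · have : (r : ℤ) * (v + 1) = r * v + r := by ring
          omega
        · have : (r : ℤ) * (v + 1) = r * v + r := by ring
          omega
      have hm := gv hN hr ⟨k1, k2, k3⟩ hn σ x y (r * v + r - y).toNat ?_ ?_
      · have e1 : y + ((r * v + r - y).toNat : ℤ) = r * v + r := by omega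
        rw [e1] at hm
        have hf := fineS hN hr ⟨k1, k2, k3⟩ hn σ x (r * v + r) (by rw [hw, ← hu]; exact hS)
          (by rw [hw, ← hu]; omega) (by rw [hw, ← hu]; omega)
        rcases hf with hf | hf
        · exact Or.inl (hm.tr hf)
        · exact Or.inr (hm.tr hf)
      · intro i i0 i1
        rcases eq_or_lt_of_le (show i ≤ r * v + r - y by omega) with h | h
        · have e : y + i = r * v + r := by omega
          rw [e, hw, ← hu]
          exact L_of_S hS
        · rw [dv (y := y + i) (z := v) hr' (by omega) (by omega), ← hu]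
          exact ⟨l1, l2, l3, l4, l5⟩
      · intro i i0 i1
        apply nzj hN hr hn
        · omega
        · omega
        · omega
  · exact fineS hN hr hC hn σ x y ⟨hL.1, hL.2.1, hL.2.2.1, hL.2.2.2.1, hL.2.2.2.2, by omega⟩ h0
      h1.le

theorem nf_snd (n : ℕ) (p : ℤ × ℤ) : (nf n p).2 = p.1 - p.2 := by
  unfold nf nrm
  split_ifs <;> rfl

theorem nf_off {n : ℕ} {p : ℤ × ℤ} (h : p.1 + p.2 + 1 ∉ Zn n ∨ 0 ≤ p.1 - p.2) :
    nf n p = (p.1 + p.2 + 1, p.1 - p.2) := by
  unfold nf nrm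
  rw [if_neg]
  rintro ⟨h1, h2⟩
  rcases h with h | h
  · exact h h2
  · omega

theorem Zn_succ {n : ℕ} {j : ℤ} (h : j ∈ Zn n) : j + 1 ∉ Zn n := by
  intro h'
  obtain ⟨q, hq⟩ := mem_Zn.1 h
  obtain ⟨q', hq'⟩ := mem_Zn.1 h'
  omega

/-- the two faces of an edge -/
theorem cor1 {n : ℕ} {e : Edg} {x : ℤ × ℤ} (h : Cor (Zn n) 1 e x) : e ∉ zp (Zn n) ∧
    ((∃ X Y : ℤ, e = (X, Y, false) ∧ (x = nf n (X - 1, Y) ∨ x = nf n (X, Y))) ∨
      (∃ X Y : ℤ, e = (X, Y, true) ∧ (x = nf n (X, Y - 1) ∨ x = nf n (X, Y)))) := by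
  obtain ⟨h0, y, hy⟩ := h
  refine ⟨h0, ?_⟩
  obtain ⟨X, Y, b⟩ := e
  cases b
  · left
    refine ⟨X, Y, rfl, ?_⟩
    have hd : dco ((X, Y, false) : Edg) = X - Y - 1 := by simp [dco]
    have e1 : nrm (Zn n) (X - Y - 1) (X + Y) (X - Y - 1) = nf n (X - 1, Y) := by
      have := nrm_eq n (X - 1) Y (X - Y - 1) (by omega)
      have e : X - 1 + Y + 1 = X + Y := by ring
      have e' : X - 1 - Y = X - Y - 1 := by ring
      rw [e, e'] at this
      exact this
    have e2 : nrm (Zn n) (X - Y - 1) (X + Y + 1) (X - Y - 1 + 1) = nf n (X, Y) := by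
      have := nrm_eq n X Y (X - Y - 1) (by omega)
      have e' : X - Y - 1 + 1 = X - Y := by ring
      rw [e']
      exact this
    have key : ∀ u v : ℤ × ℤ, Dg (Zn n) 1 ((X, Y, false) : Edg) u v →
        u = nf n (X - 1, Y) ∧ v = nf n (X, Y) := by
      intro u v huv
      cases huv with
      | rise hp =>
        rw [hd]
        exact ⟨e1, e2⟩
      | fall hp =>
        exfalso
        rw [hd] at hp
        simp only at hp
        omega
    rcases hy with hy | hy
    · exact Or.inl (key _ _ hy).1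
    · exact Or.inr (key _ _ hy).2
  · right
    refine ⟨X, Y, rfl, ?_⟩
    have hd : dco ((X, Y, true) : Edg) = X - Y := by simp [dco]
    have e1 : nrm (Zn n) (X - Y) (X + Y) (X - Y + 1) = nf n (X, Y - 1) := by
      have := nrm_eq n X (Y - 1) (X - Y) (by omega)
      have e : X + (Y - 1) + 1 = X + Y := by ring
      have e' : X - (Y - 1) = X - Y + 1 := by ring
      rw [e, e'] at this
      exact this
    have e2 : nrm (Zn n) (X - Y) (X + Y + 1) (X - Y) = nf n (X, Y) :=
      nrm_eq n X Y (X - Y) (by omega)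
    have key : ∀ u v : ℤ × ℤ, Dg (Zn n) 1 ((X, Y, true) : Edg) u v →
        u = nf n (X, Y - 1) ∧ v = nf n (X, Y) := by
      intro u v huv
      cases huv with
      | fall hp =>
        rw [hd]
        exact ⟨e1, e2⟩
      | rise hp =>
        exfalso
        rw [hd] at hp
        simp only at hp
        omega
    rcases hy with hy | hy
    · exact Or.inl (key _ _ hy).1
    · exact Or.inr (key _ _ hy).2

/-- a free face -/
def Fr (N r : ℕ) (C : Cel) (p : ℤ × ℤ) : Prop :=
  (p.1 / (r : ℤ), p.2 / (r : ℤ)) ∉ Bxs N N ∧ (p.1 / (r : ℤ), p.2 / (r : ℤ)) ∉ TubZ N C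

theorem xe0 {a b x : ℤ × ℤ} (ha : Fr N r C a) (hb : Fr N r C b)
    (hab : RZ (Zn n) {e | e ∉ EB N r ∧ e ∉ ET N r C} ∅ (nf n a) (nf n b))
    (hj : b.1 + b.2 = a.1 + a.2 + 1) (hd : a.1 - a.2 ≤ b.1 - b.2 + 1)
    (hd' : b.1 - b.2 ≤ a.1 - a.2 + 1) (hx : x = nf n a ∨ x = nf n b) :
    ∃ p q : ℤ × ℤ, x = nf n p ∧ Fr N r C p ∧ Fr N r C q ∧
      q.1 + q.2 + 1 ∉ Zn n ∧ q.1 - q.2 ≤ p.1 - p.2 + 1 ∧
      RZ (Zn n) {e | e ∉ EB N r ∧ e ∉ ET N r C} ∅ (nf n p) (nf n q) := by
  have hba := Relation.EqvGen.symm _ _ hab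
  by_cases hz : a.1 + a.2 + 1 ∈ Zn n
  · have hz' := Zn_succ hz
    rw [← hj] at hz'
    have hz2 : b.1 + b.2 + 1 ∉ Zn n := by
      rw [hj]
      rw [← hj]
      have := Zn_succ hz
      rw [← hj] at this
      intro h
      have h3 : b.1 + b.2 + 1 = a.1 + a.2 + 1 + 1 := by omega
      rw [h3] at h
      exact Zn_succ hz h
    rcases hx with hx | hx
    · exact ⟨a, b, hx, ha, hb, hz2, hd', hab⟩
    · exact ⟨b, b, hx, hb, hb, hz2, by omega, Relation.EqvGen.refl _⟩
  · rcases hx with hx | hx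
    · exact ⟨a, a, hx, ha, ha, hz, by omega, Relation.EqvGen.refl _⟩
    · exact ⟨b, a, hx, hb, ha, hz, hd, hba⟩

/-- points of class `1` of the closed region -/
theorem xe1 (hr : 0 < r) {x : ℤ × ℤ} (hx : XE N r C n x) : ∃ p q : ℤ × ℤ, x = nf n p ∧
    Fr N r C p ∧ Fr N r C q ∧ q.1 + q.2 + 1 ∉ Zn n ∧ q.1 - q.2 ≤ p.1 - p.2 + 1 ∧
    RZ (Zn n) {e | e ∉ EB N r ∧ e ∉ ET N r C} ∅ (nf n p) (nf n q) := by
  obtain ⟨e, he1, he2, hc⟩ := hx
  obtain ⟨hz, ⟨X, Y, rfl, hx⟩ | ⟨X, Y, rfl, hx⟩⟩ := cor1 hc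
  · have f1 : ((X - 1) / (r : ℤ), Y / (r : ℤ)) ∉ Bxs N N := fun h => he1 (iEP_h hr _ _ (Or.inl h))
    have f2 : (X / (r : ℤ), Y / (r : ℤ)) ∉ Bxs N N := fun h => he1 (iEP_h hr _ _ (Or.inr h))
    have f3 : ((X - 1) / (r : ℤ), Y / (r : ℤ)) ∉ TubZ N C := fun h => he2 (iEP_h hr _ _ (Or.inl h))
    have f4 : (X / (r : ℤ), Y / (r : ℤ)) ∉ TubZ N C := fun h => he2 (iEP_h hr _ _ (Or.inr h))
    have hl : RZ (Zn n) {e | e ∉ EB N r ∧ e ∉ ET N r C} ∅ (nf n (X - 1, Y)) (nf n (X, Y)) :=
      Relation.EqvGen.rel _ _ (lz_h X Y ⟨he1, he2⟩ hz)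
    exact xe0 ⟨f1, f3⟩ ⟨f2, f4⟩ hl (by simp only; ring) (by simp only; omega) (by simp only; omega) hx
  · have f1 : (X / (r : ℤ), (Y - 1) / (r : ℤ)) ∉ Bxs N N := fun h => he1 (iEP_v hr _ _ (Or.inl h))
    have f2 : (X / (r : ℤ), Y / (r : ℤ)) ∉ Bxs N N := fun h => he1 (iEP_v hr _ _ (Or.inr h))
    have f3 : (X / (r : ℤ), (Y - 1) / (r : ℤ)) ∉ TubZ N C := fun h => he2 (iEP_v hr _ _ (Or.inl h))
    have f4 : (X / (r : ℤ), Y / (r : ℤ)) ∉ TubZ N C := fun h => he2 (iEP_v hr _ _ (Or.inr h))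
    have hl : RZ (Zn n) {e | e ∉ EB N r ∧ e ∉ ET N r C} ∅ (nf n (X, Y - 1)) (nf n (X, Y)) :=
      Relation.EqvGen.rel _ _ (lz_v X Y ⟨he1, he2⟩ hz)
    exact xe0 ⟨f1, f3⟩ ⟨f2, f4⟩ hl (by simp only; ring) (by simp only; omega) (by simp only; omega) hx

/-- the representatives -/
theorem rep1 (hN : 16 ≤ N) (hr : 0 < r) (hn : n = prd N N * r) (σ : ℤ) :
    nf n (r * (-(10 * N)) + σ * n, r * (30 * N) + σ * n) =
      ((n : ℤ) + 1 + 2 * n * σ, -(2 * (n : ℤ))) := by
  have hn' : (n : ℤ) = 20 * (r * N) := by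
    rw [hn]; push_cast; rw [prdz]; ring
  have hr' : (1 : ℤ) ≤ r := by exact_mod_cast hr
  have hN' : (16 : ℤ) ≤ N := by exact_mod_cast hN
  have h16 : (r : ℤ) * 16 ≤ r * N := mul_le_mul_of_nonneg_left hN' (by omega)
  have e1 : (r : ℤ) * (-(10 * N)) = -(10 * (r * N)) := by ring
  have e2 : (r : ℤ) * (30 * N) = 30 * (r * N) := by ring
  have e3 : 2 * (n : ℤ) * σ = 2 * (σ * n) := by ring
  rw [nf_off]
  · simp only [e1, e2, e3]
    ext
    · simp only; omega
    · simp only; omega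
  · left
    simp only [e1, e2]
    intro h
    obtain ⟨q, hq⟩ := mem_Zn.1 h
    have hq2 : (n : ℤ) + 1 = 2 * (n * (q - σ)) := by
      have : 2 * ((n : ℤ) * (q - σ)) = 2 * (n * q) - 2 * (σ * n) := by ring
      omega
    rcases le_or_gt (q - σ) 0 with h1 | h1
    · have : (n : ℤ) * (q - σ) ≤ n * 0 := mul_le_mul_of_nonneg_left h1 (by omega)
      omega
    · have : (n : ℤ) * 1 ≤ n * (q - σ) := mul_le_mul_of_nonneg_left h1 (by omega)
      omega

theorem rep2 (hN : 16 ≤ N) (hr : 0 < r) (hn : n = prd N N * r) (σ : ℤ) :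
    nf n (r * (-(30 * N)) + σ * n, r * (10 * N) + σ * n) =
      ((n : ℤ) + 1 + 2 * n * (σ - 1), -(2 * (n : ℤ))) := by
  have hn' : (n : ℤ) = 20 * (r * N) := by
    rw [hn]; push_cast; rw [prdz]; ring
  have hr' : (1 : ℤ) ≤ r := by exact_mod_cast hr
  have hN' : (16 : ℤ) ≤ N := by exact_mod_cast hN
  have h16 : (r : ℤ) * 16 ≤ r * N := mul_le_mul_of_nonneg_left hN' (by omega)
  have e1 : (r : ℤ) * (-(30 * N)) = -(30 * (r * N)) := by ring
  have e2 : (r : ℤ) * (10 * N) = 10 * (r * N) := by ring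
  have e3 : 2 * (n : ℤ) * (σ - 1) = 2 * (σ * n) - 2 * n := by ring
  rw [nf_off]
  · simp only [e1, e2, e3]
    ext
    · simp only; omega
    · simp only; omega
  · left
    simp only [e1, e2]
    intro h
    obtain ⟨q, hq⟩ := mem_Zn.1 h
    have hq2 : (n : ℤ) + 1 = 2 * (n * (q - σ + 1)) := by
      have : 2 * ((n : ℤ) * (q - σ + 1)) = 2 * (n * q) - 2 * (σ * n) + 2 * n := by ring
      omega
    rcases le_or_gt (q - σ + 1) 0 with h1 | h1
    · have : (n : ℤ) * (q - σ + 1) ≤ n * 0 := mul_le_mul_of_nonneg_left h1 (by omega)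
      omega
    · have : (n : ℤ) * 1 ≤ n * (q - σ + 1) := mul_le_mul_of_nonneg_left h1 (by omega)
      omega

/-- connection of free faces -/
theorem glob (hN : 16 ≤ N) (hr : 0 < r) (hC : AdmZ N C) (hn : n = prd N N * r) (p : ℤ × ℤ)
    (hp : Fr N r C p) (hz : p.1 + p.2 + 1 ∉ Zn n)
    (h1 : p.1 / (r : ℤ) - p.2 / (r : ℤ) < 3 * N) (σ : ℤ)
    (h2 : -(20 * (N : ℤ)) ≤ p.1 / (r : ℤ) + p.2 / (r : ℤ) - σ * (40 * N))
    (h3 : p.1 / (r : ℤ) + p.2 / (r : ℤ) - σ * (40 * N) < 20 * N) :
    RZ (Zn n) {e | e ∉ EB N r ∧ e ∉ ET N r C} ∅ (nf n p) (n + 1 + 2 * n * σ, -(2 * n)) ∨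
    RZ (Zn n) {e | e ∉ EB N r ∧ e ∉ ET N r C} ∅ (nf n p)
      (n + 1 + 2 * n * (σ - 1), -(2 * n)) := by
  have hN' : (16 : ℤ) ≤ N := by exact_mod_cast hN
  have e1 : (p.1 - σ * n) / (r : ℤ) = p.1 / (r : ℤ) - σ * (20 * N) := by
    have := sh_div hr hn (-σ) p.1
    rw [show p.1 - σ * n = p.1 + -σ * n by ring, this]
    ring
  have e2 : (p.2 - σ * n) / (r : ℤ) = p.2 / (r : ℤ) - σ * (20 * N) := by
    have := sh_div hr hn (-σ) p.2
    rw [show p.2 - σ * n = p.2 + -σ * n by ring, this]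
    ring
  have e3 : σ * (40 * (N : ℤ)) = 2 * (σ * (20 * N)) := by ring
  have hL : L C.1 C.2 N ((p.1 - σ * n) / (r : ℤ)) ((p.2 - σ * n) / (r : ℤ)) := by
    rw [e1, e2]
    refine lg σ _ _ ?_ ?_ (by omega) (by omega) (by omega)
    · rw [sub_add_cancel, sub_add_cancel]
      exact hp.1
    · rw [sub_add_cancel, sub_add_cancel]
      exact hp.2
  have hzz : p.1 - σ * n + (p.2 - σ * n) + 1 ≠ 0 := by
    intro h
    apply hz
    refine mem_Zn.2 ⟨σ, ?_⟩
    have : 2 * ((n : ℤ) * σ) = 2 * (σ * n) := by ring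
    omega
  have hf := fineL hN hr hC hn σ (p.1 - σ * n) (p.2 - σ * n) hL
    (by rw [e1, e2]; omega) (by rw [e1, e2]; omega) (Or.inl hzz)
  rcases hf with hf | hf
  · left
    unfold Cn at hf
    simp only [sub_add_cancel] at hf
    rw [rep1 hN hr hn σ] at hf
    exact hf
  · right
    unfold Cn at hf
    simp only [sub_add_cancel] at hf
    rw [rep2 hN hr hn σ] at hf
    exact hf

theorem dg_h (n : ℕ) (x y : ℤ) :
    Dg (Zn n) 1 ((x, y, false) : Edg) (nf n (x - 1, y)) (nf n (x, y)) := by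
  have hd : dco ((x, y, false) : Edg) = x - y - 1 := by simp [dco]
  have h := Dg.rise (Z := Zn n) (c := 1) (e := ((x, y, false) : Edg))
    (by rw [hd]; show (x + y + (x - y - 1)) % 2 = 1; omega)
  rw [hd] at h
  have e1 : nrm (Zn n) (x - y - 1) (x + y) (x - y - 1) = nf n (x - 1, y) := by
    have := nrm_eq n (x - 1) y (x - y - 1) (by omega)
    have e : x - 1 + y + 1 = x + y := by ring
    have e' : x - 1 - y = x - y - 1 := by ring
    rw [e, e'] at this
    exact this
  have e2 : nrm (Zn n) (x - y - 1) (x + y + 1) (x - y - 1 + 1) = nf n (x, y) := by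
    have := nrm_eq n x y (x - y - 1) (by omega)
    have e' : x - y - 1 + 1 = x - y := by ring
    rw [e']
    exact this
  rw [← e1, ← e2]
  exact h

theorem mle {r a b : ℤ} (hr : 0 < r) (h : r * a ≤ r * b) : a ≤ b := le_of_mul_le_mul_left h hr

theorem mlt {r a b : ℤ} (hr : 0 < r) (h : r * a < r * b) : a < b := lt_of_mul_lt_mul_left h hr.le

/-- faces next to the box -/
theorem out1 (hN : 16 ≤ N) (hr : 4 ≤ r) (hC : AdmZ N C) (_hn : n = prd N N * r) (p : Vtx)
    (hp : OutF N r C p) : L C.1 C.2 N (p.1 / (r : ℤ)) (p.2 / (r : ℤ)) ∧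
      (4 * (r : ℤ) ≤ p.1 + p.2 ∨ p.1 + p.2 ≤ -(4 * r : ℤ) - 1) ∧
      -(2 * (r * N : ℤ)) - 1 ≤ p.1 + p.2 ∧ p.1 + p.2 ≤ 2 * (r * N : ℤ) ∧
      -(2 * (N : ℤ)) ≤ p.1 / (r : ℤ) + p.2 / (r : ℤ) ∧
      p.1 / (r : ℤ) + p.2 / (r : ℤ) ≤ 2 * N := by
  have hr' : (0 : ℤ) < r := by omega
  have hr4 : (4 : ℤ) ≤ r := by exact_mod_cast hr
  have hN' : (16 : ℤ) ≤ N := by exact_mod_cast hN
  obtain ⟨x, y⟩ := p
  obtain ⟨ho, hc⟩ := hp
  obtain ⟨a1, a2⟩ := cb (r := r) (by omega) x
  obtain ⟨b1, b2⟩ := cb (r := r) (by omega) y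
  simp only at ho hc ⊢
  have eNr : (N : ℤ) * r = r * N := by ring
  rw [eNr] at ho
  set u := x / (r : ℤ) with hu
  set v := y / (r : ℤ) with hv
  obtain ⟨k1, k2, k3⟩ := hC
  have hcs : ¬ (u = (csq N C).1 ∧ v = (csq N C).2) := by
    rintro ⟨h1, h2⟩
    rw [← h1, ← h2] at hc
    exact hc ⟨a1, a2, b1, b2⟩
  unfold csq at hcs
  rcases ho with ⟨h1, h2⟩ | ⟨h1, h2⟩
  · have h3 := (abs_le.1 (show |x| ≤ r * N - 4 * r by omega)).1
    have h4 := (abs_le.1 (show |x| ≤ r * N - 4 * r by omega)).2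
    have u1 : u ≤ N - 4 := mle hr' (by
      have : (r : ℤ) * (N - 4) = r * N - 4 * r := by ring
      omega)
    have u2 : -(N : ℤ) + 4 ≤ u := by
      have : (-(N : ℤ) + 4) < u + 1 := mlt hr' (by
        have e1 : (r : ℤ) * (-(N : ℤ) + 4) = -(r * N) + 4 * r := by ring
        have e2 : (r : ℤ) * (u + 1) = r * u + r := by ring
        omega)
      omega
    rcases h1 with h1 | h1
    · have v1 : v = N := dv hr' (by omega) (by omega)
      refine ⟨⟨by omega, ?_, by omega, by omega, by omega⟩, by omega, by omega, by omega,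
        by omega, by omega⟩
      have hcs' : ¬ (C.1 = 0 ∧ u = C.2) := by
        rintro ⟨g1, g2⟩
        rw [if_pos g1] at hcs
        exact hcs ⟨g2, v1⟩
      unfold Ar
      omega
    · have v1 : v = -(N : ℤ) - 1 := dv hr' (by
        have : (r : ℤ) * (-(N : ℤ) - 1) = -(r * N) - r := by ring
        omega) (by
        have : (r : ℤ) * (-(N : ℤ) - 1) = -(r * N) - r := by ring
        omega)
      refine ⟨⟨by omega, ?_, by omega, by omega, by omega⟩, by omega, by omega, by omega,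
        by omega, by omega⟩
      have hcs' : ¬ (C.1 = 2 ∧ u = C.2) := by
        rintro ⟨g1, g2⟩
        rw [if_neg (by omega), if_neg (by omega), if_pos g1] at hcs
        exact hcs ⟨g2, v1⟩
      unfold Ar
      omega
  · have h3 := (abs_le.1 (show |y| ≤ r * N - 4 * r by omega)).1
    have h4 := (abs_le.1 (show |y| ≤ r * N - 4 * r by omega)).2
    have u1 : v ≤ N - 4 := mle hr' (by
      have : (r : ℤ) * (N - 4) = r * N - 4 * r := by ring
      omega)
    have u2 : -(N : ℤ) + 4 ≤ v := by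
      have : (-(N : ℤ) + 4) < v + 1 := mlt hr' (by
        have e1 : (r : ℤ) * (-(N : ℤ) + 4) = -(r * N) + 4 * r := by ring
        have e2 : (r : ℤ) * (v + 1) = r * v + r := by ring
        omega)
      omega
    rcases h1 with h1 | h1
    · have v1 : u = N := dv hr' (by omega) (by omega)
      refine ⟨⟨by omega, ?_, by omega, by omega, by omega⟩, by omega, by omega, by omega,
        by omega, by omega⟩
      have hcs' : ¬ (C.1 = 1 ∧ v = C.2) := by
        rintro ⟨g1, g2⟩
        rw [if_neg (by omega), if_pos g1] at hcs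
        exact hcs ⟨v1, g2⟩
      unfold Ar
      omega
    · have v1 : u = -(N : ℤ) - 1 := dv hr' (by
        have : (r : ℤ) * (-(N : ℤ) - 1) = -(r * N) - r := by ring
        omega) (by
        have : (r : ℤ) * (-(N : ℤ) - 1) = -(r * N) - r := by ring
        omega)
      refine ⟨⟨by omega, ?_, by omega, by omega, by omega⟩, by omega, by omega, by omega,
        by omega, by omega⟩
      have hcs' : ¬ (C.1 = 3 ∧ v = C.2) := by
        rintro ⟨g1, g2⟩
        rw [if_neg (by omega), if_neg (by omega), if_neg (by omega)] at hcs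
        exact hcs ⟨v1, g2⟩
      unfold Ar
      omega

theorem out2 (hN : 16 ≤ N) (hr : 4 ≤ r) (hC : AdmZ N C) (hn : n = prd N N * r) (p : Vtx)
    (hp : OutF N r C p) : Fr N r C p ∧ p.1 + p.2 + 1 ∉ Zn n ∧ p.1 + p.2 + 2 ∉ Zn n := by
  obtain ⟨h1, h2, h3, h4, h5, h6⟩ := out1 hN hr hC hn p hp
  have hr4 : (4 : ℤ) ≤ r := by exact_mod_cast hr
  have hN' : (16 : ℤ) ≤ N := by exact_mod_cast hN
  have h16 : (r : ℤ) * 16 ≤ r * N := mul_le_mul_of_nonneg_left hN' (by omega)
  have e7 : ((N * r : ℕ) : ℤ) = r * N := by push_cast; ring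
  have g := gl hN hC 0 _ _ h1
  simp only [zero_mul, add_zero] at g
  refine ⟨g, fun h => ?_, fun h => ?_⟩
  · have := Zn_win (by omega) hn h (by rw [e7]; omega) (by rw [e7]; omega)
    omega
  · have := Zn_win (by omega) hn h (by rw [e7]; omega) (by rw [e7]; omega)
    omega

/-- edges of the middle of the ring -/
theorem edT (hN : 16 ≤ N) (hr : 0 < r) (e : Edg) (he : dco e = (3 * N + 1) * r) :
    e ∉ EB N r ∧ e ∈ ET N r C := by
  have hr' : (0 : ℤ) < r := by exact_mod_cast hr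
  have hN' : (16 : ℤ) ≤ N := by exact_mod_cast hN
  have h16 : (r : ℤ) * 16 ≤ r * N := mul_le_mul_of_nonneg_left hN' (by omega)
  obtain ⟨X, Y, b⟩ := e
  obtain ⟨a1, a2⟩ := cb hr X
  obtain ⟨b1, b2⟩ := cb hr Y
  have eT : ((3 : ℤ) * N + 1) * r = r * (3 * N + 1) := by ring
  constructor
  · rintro ⟨z, ⟨s, hs⟩, hz⟩
    obtain ⟨s1, s2, s3, s4⟩ := hs
    simp only [shf] at s1 s2 s3 s4
    unfold H12S.sqE at hz
    have hzz : (r : ℤ) * (z.1 - z.2) ≤ r * (2 * N) := mul_le_mul_of_nonneg_left (by omega) hr'.le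
    have e1 : (r : ℤ) * (z.1 - z.2) = r * z.1 - r * z.2 := by ring
    have e2 : (r : ℤ) * (3 * N + 1) = 3 * (r * N) + r := by ring
    have e3 : (r : ℤ) * (2 * N) = 2 * (r * N) := by ring
    rw [eT, e2] at he
    cases b
    · rw [mem_RE_false] at hz
      have hd : dco ((X, Y, false) : Edg) = X - Y - 1 := by simp [dco]
      rw [hd] at he
      omega
    · rw [mem_RE_true] at hz
      have hd : dco ((X, Y, true) : Edg) = X - Y := by simp [dco]
      rw [hd] at he
      omega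
  · set u := X / (r : ℤ) with hu
    set v := Y / (r : ℤ) with hv
    have ring : ∀ D : ℤ, X - Y = D → r * (3 * N + 1) ≤ D → D ≤ r * (3 * N + 1) + 1 →
        (u, v) ∈ TubZ N C := by
      intro D hD h1 h2
      left
      have g1 : 3 * (N : ℤ) + 1 < u - v + 1 := mlt hr' (by
        have e1 : (r : ℤ) * (u - v + 1) = r * u - r * v + r := by ring
        omega)
      have g2 : u - v - 1 < 3 * (N : ℤ) + 1 + 1 := mlt hr' (by
        have e1 : (r : ℤ) * (u - v - 1) = r * u - r * v - r := by ring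
        have e2 : (r : ℤ) * (3 * (N : ℤ) + 1 + 1) = r * (3 * N + 1) + r := by ring
        omega)
      constructor
      · show _ ≤ u - v
        omega
      · show u - v ≤ _
        omega
    rw [eT] at he
    cases b
    · have hd : dco ((X, Y, false) : Edg) = X - Y - 1 := by simp [dco]
      rw [hd] at he
      exact iEP_h hr _ _ (Or.inr (ring _ rfl (by omega) (by omega)))
    · have hd : dco ((X, Y, true) : Edg) = X - Y := by simp [dco]
      rw [hd] at he
      exact iEP_v hr _ _ (Or.inr (ring _ rfl (by omega) (by omega)))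

end moves

end TEX

open TEX in
theorem t_EX : S_z1 → S_z3 → S_EX := by
  intro _ _ N r C hN hr hC n M hn hM
  have hr0 : 0 < r := by omega
  have hr' : (0 : ℤ) < r := by omega
  have hr4 : (4 : ℤ) ≤ r := by exact_mod_cast hr
  have hN' : (16 : ℤ) ≤ N := by exact_mod_cast hN
  have h16 : (r : ℤ) * 16 ≤ r * N := mul_le_mul_of_nonneg_left hN' (by omega)
  have eT : ((3 : ℤ) * N + 1) * r = r * (3 * N + 1) := by ring
  have eT2 : (r : ℤ) * (3 * N + 1) = 3 * (r * N) + r := by ring
  have hnZ : (n : ℤ) = 20 * (r * N) := by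
    rw [hn]; push_cast; rw [prdz]; ring
  refine ⟨?_, ?_, ?_⟩
  · intro x hx hxt
    obtain ⟨p, q, hxp, hp, hq, hz, hd, hl⟩ := xe1 hr0 hx
    have hx2 : x.2 = p.1 - p.2 := by rw [hxp, nf_snd]
    rw [eT] at hxt
    obtain ⟨a1, a2⟩ := cb hr0 q.1
    obtain ⟨b1, b2⟩ := cb hr0 q.2
    have hD : q.1 / (r : ℤ) - q.2 / (r : ℤ) < 3 * N := by
      have g1 : q.1 / (r : ℤ) - q.2 / (r : ℤ) < 3 * N + 1 + 1 := mlt hr' (by
        have e1 : (r : ℤ) * (q.1 / (r : ℤ) - q.2 / (r : ℤ)) =
          r * (q.1 / (r : ℤ)) - r * (q.2 / (r : ℤ)) := by ring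
        have e2 : (r : ℤ) * (3 * N + 1 + 1) = r * (3 * N + 1) + r := by ring
        omega)
      by_contra hge
      exact hq.2 (Or.inl ⟨by show _ ≤ q.1 / (r : ℤ) - q.2 / (r : ℤ); omega,
        by show q.1 / (r : ℤ) - q.2 / (r : ℤ) ≤ _; omega⟩)
    set m := q.1 / (r : ℤ) + q.2 / (r : ℤ) with hm
    have hN40 : (0 : ℤ) < 40 * N := by omega
    have d1 := Int.mul_ediv_self_le (x := m + 20 * N) (k := (40 * N : ℤ)) hN40.ne'
    have d2 := Int.lt_mul_ediv_self_add (x := m + 20 * N) hN40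
    set σ := (m + 20 * N) / (40 * N : ℤ) with hσ
    have e40 : (40 * (N : ℤ)) * σ = σ * (40 * N) := by ring
    rw [e40] at d1 d2
    rcases glob hN hr0 hC hn q hq hz hD σ (by omega) (by omega) with h | h
    · exact ⟨σ, hxp ▸ Relation.EqvGen.trans _ _ _ hl h⟩
    · exact ⟨σ - 1, hxp ▸ Relation.EqvGen.trans _ _ _ hl h⟩
  · intro p hp
    obtain ⟨h1, h2, h3, h4, h5, h6⟩ := out1 hN hr hC hn p hp
    obtain ⟨g1, g2, g3⟩ := out2 hN hr hC hn p hp
    have hfp : fp p = nf n p := by
      rw [nf_off (Or.inl g2)]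
      rfl
    constructor
    · obtain ⟨a1, a2⟩ := cb hr0 p.1
      by_cases hc : p.1 + 1 < r * (p.1 / (r : ℤ)) + r
      · have hdv : (p.1 + 1) / (r : ℤ) = p.1 / (r : ℤ) := dv hr' (by omega) (by omega)
        refine ⟨(p.1 + 1, p.2, false), ?_, ?_, ?_, ?_⟩
        · apply nEP_h hr0
          · rw [add_sub_cancel_right]; exact g1.1
          · rw [hdv]; exact g1.1
        · apply nEP_h hr0
          · rw [add_sub_cancel_right]; exact g1.2
          · rw [hdv]; exact g1.2
        · rintro ⟨-, hz⟩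
          apply g3
          have e : p.1 + p.2 + 2 = p.1 + 1 + p.2 + 1 := by ring
          rw [e]
          exact hz
        · refine ⟨nf n (p.1 + 1, p.2), Or.inl ?_⟩
          have := dg_h n (p.1 + 1) p.2
          rw [add_sub_cancel_right] at this
          rw [hfp]
          exact this
      · have hdv : (p.1 - 1) / (r : ℤ) = p.1 / (r : ℤ) := dv hr' (by omega) (by omega)
        refine ⟨(p.1, p.2, false), ?_, ?_, ?_, ?_⟩
        · apply nEP_h hr0
          · rw [hdv]; exact g1.1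
          · exact g1.1
        · apply nEP_h hr0
          · rw [hdv]; exact g1.2
          · exact g1.2
        · rintro ⟨-, hz⟩
          exact g2 hz
        · refine ⟨nf n (p.1 - 1, p.2), Or.inr ?_⟩
          rw [hfp]
          exact dg_h n p.1 p.2
    · have := glob hN hr0 hC hn p g1 g2 h1.2.2.1 0 (by omega) (by omega)
      rw [hfp]
      rcases this with h | h
      · left
        convert h using 2
        ring
      · right
        convert h using 2
        ring
  · intro F hF x y hx hxt hxy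
    rw [eT] at hxt ⊢
    have hst : (x.1 + x.2) % 2 = 1 ∧ r * (3 * (N : ℤ) + 1) < x.2 := by
      obtain ⟨p, q, hxp, hp, -⟩ := xe1 hr0 hx
      have hx2 : x.2 = p.1 - p.2 := by rw [hxp, nf_snd]
      have hxe : x = (p.1 + p.2 + 1, p.1 - p.2) := by
        rw [hxp, nf_off (Or.inr (by omega))]
      refine ⟨?_, ?_⟩
      · rw [hxe]
        simp only
        omega
      · rcases eq_or_lt_of_le hxt with h | h
        · exfalso
          obtain ⟨a1, a2⟩ := cb hr0 p.1
          obtain ⟨b1, b2⟩ := cb hr0 p.2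
          set u := p.1 / (r : ℤ) with hu
          set v := p.2 / (r : ℤ) with hv
          have g1 : 3 * (N : ℤ) + 1 < u - v + 1 := mlt hr' (by
            have e1 : (r : ℤ) * (u - v + 1) = r * u - r * v + r := by ring
            omega)
          have g2 : u - v - 1 < 3 * (N : ℤ) + 1 := mlt hr' (by
            have e1 : (r : ℤ) * (u - v - 1) = r * u - r * v - r := by ring
            omega)
          exact hp.2 (Or.inl ⟨by show _ ≤ u - v; omega, by show u - v ≤ _; omega⟩)
        · exact h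
    have hedge : ∀ e : Edg, dco e = r * (3 * N + 1) → e ∈ per n (FA N r C n M F) := by
      intro e he
      show red n e ∈ FA N r C n M F
      unfold FA
      classical
      rw [Finset.mem_filter]
      have hdr := dco_red n e
      have hn0 : 0 < n := by omega
      refine ⟨red_mem hn0 (by omega) (by omega), Or.inr ?_⟩
      exact edT hN hr0 (red n e) (by rw [hdr, he, eT])
    have hT0 : 0 < (r : ℤ) * (3 * N + 1) := by omega
    generalize hTd : (r : ℤ) * (3 * N + 1) = T at *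
    have n2 : ∀ d j t : ℤ, (nrm (Zn n) d j t).2 = t := by
      intro d j t
      unfold nrm
      split_ifs <;> rfl
    have n1 : ∀ d j t : ℤ, 0 ≤ d → nrm (Zn n) d j t = (j, t) := by
      intro d j t hd
      unfold nrm
      rw [if_neg]
      rintro ⟨h, -⟩
      omega
    have inv : ∀ a b : ℤ × ℤ, RZ (Zn n) Set.univ (per n (FA N r C n M F)) a b →
        (((a.1 + a.2) % 2 = 1 ∧ T < a.2) ↔ ((b.1 + b.2) % 2 = 1 ∧ T < b.2)) := by
      intro a b hab
      induction hab with
      | rel a b h =>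
        obtain ⟨e, -, -, h | h⟩ := h
        · obtain ⟨he, hD⟩ := h
          cases hD with
          | rise hp =>
            rcases lt_or_ge (dco e) 0 with hd | hd
            · rw [n2, n2]
              constructor <;> rintro ⟨-, h⟩ <;> omega
            · rw [n1 _ _ _ hd, n1 _ _ _ hd]
              simp only
              omega
          | fall hp =>
            rcases lt_or_ge (dco e) 0 with hd | hd
            · rw [n2, n2]
              constructor <;> rintro ⟨-, h⟩ <;> omega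
            · rw [n1 _ _ _ hd, n1 _ _ _ hd]
              simp only
              omega
        · obtain ⟨he, hD⟩ := h
          have hdT : dco e ≠ T := fun h => he (hedge e h)
          cases hD with
          | rise hp =>
            rcases lt_or_ge (dco e) 0 with hd | hd
            · rw [n2, n2]
              constructor <;> rintro ⟨-, h⟩ <;> omega
            · rw [n1 _ _ _ hd, n1 _ _ _ hd]
              simp only
              omega
          | fall hp =>
            rcases lt_or_ge (dco e) 0 with hd | hd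
            · rw [n2, n2]
              constructor <;> rintro ⟨-, h⟩ <;> omega
            · rw [n1 _ _ _ hd, n1 _ _ _ hd]
              simp only
              omega
      | refl a => exact Iff.rfl
      | symm a b _ ih => exact ih.symm
      | trans a b d _ _ ih1 ih2 => exact ih1.trans ih2
    exact ((inv x y hxy).1 hst).2

end Pool.Agent.W808.KZ
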