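import Pool.Agent.W808.KZ.T_LAND5

/-! LAND: the clusters of the box of the dislocated plane land (helper352). -/

set_option autoImplicit false

namespace Pool.Agent.W808.KZ
open H974 H906.Cyl
open H12S (Dir hbE segD rimE H4 Crs Nr sqE)
open Pool.Agent.H160R2.ML (nm)
open Pool.Agent.H160R2.MU (Cel csq cpos prd shf BxS Bxs EP inSq PC Bad Cc)
open Pool.Agent.W801.OU

open TLAND in
open Pool.Agent.H160R2.MU.TLAND (ok2) in
open Pool.Agent.H160R2.MU (TMON.box_mono) in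
theorem t_LAND : S_ADJ → S_NC → S_ZC → S_LAND := by
  classical
  intro hADJ hNC hZC δ hδ
  obtain ⟨N, B, hN, hB, hNB, hP⟩ := probz hZC δ hδ
  refine ⟨N, hN, (Finset.range 4 ×ˢ Finset.Ico (-(N : ℤ)) N).filter (AdmZ N),
    fun c hc => (Finset.mem_filter.1 hc).2, 1, ?_⟩
  intro r hr
  set Cs := (Finset.range 4 ×ˢ Finset.Ico (-(N : ℤ)) N).filter (AdmZ N) with hCs
  have h1 : 64 * r ≤ B * r := Nat.mul_le_mul_right r hB
  have h2 : 256 * (B * r) ≤ N * r := by
    calc 256 * (B * r) = 256 * B * r := by ring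
      _ ≤ N * r := Nat.mul_le_mul_right r hNB
  have hcov : uR (N * r) ≤ Pr (fun _ => (1 / 2 : ℝ)) (boxE (N * r)) (fun F =>
      (SE3 (N * r / 2 : ℕ) (↑F : Set Edg) ∧ BadZ r (B * r) (N * r) (↑F : Set Edg)) ∨
      ∃ c ∈ Cs, LandZ N r c (↑F : Set Edg)) := by
    unfold uR
    refine Pr_mono ok2 fun F _ hF => ?_
    by_cases hb : BadZ r (B * r) (N * r) (↑F : Set Edg)
    · exact Or.inl ⟨se3_mono (by exact_mod_cast Nat.div_le_self _ _) hF, hb⟩
    · right
      obtain ⟨c, hc, hc'⟩ := det_z hADJ hNC hr h1 h2 hb hF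
      refine ⟨c, ?_, hc'⟩
      rw [hCs, Finset.mem_filter]
      refine ⟨?_, hc⟩
      unfold AdmZ at hc
      rw [Finset.mem_product, Finset.mem_range, Finset.mem_Ico]
      omega
  have hind : Pr (fun _ => (1 / 2 : ℝ)) (boxE (N * r)) (fun F =>
      (SE3 (N * r / 2 : ℕ) (↑F : Set Edg) ∧ BadZ r (B * r) (N * r) (↑F : Set Edg))) =
      Pr (fun _ => (1 / 2 : ℝ)) (boxE (N * r)) (fun F => SE3 (N * r / 2 : ℕ) (↑F : Set Edg)) *
      Pr (fun _ => (1 / 2 : ℝ)) (boxE (N * r))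
        (fun F => BadZ r (B * r) (N * r) (↑F : Set Edg)) := by
    refine Pr_indep (S := boxE (N * r / 2)) (T := boxE (N * r) \ boxE (N * r / 2))
      (TMON.box_mono (Nat.div_le_self _ _)) Finset.sdiff_subset Finset.disjoint_sdiff
      (fun F _ => se3_local F) (fun F _ => ?_)
    apply bad_local (by omega)
    intro e he1 he2
    rw [Finset.mem_coe, Finset.mem_coe, Finset.mem_inter, Finset.mem_sdiff]
    exact ⟨fun h => ⟨h, he1, he2⟩, fun h => h.1⟩
  have hsp : Pr (fun _ => (1 / 2 : ℝ)) (boxE (N * r))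
      (fun F => SE3 (N * r / 2 : ℕ) (↑F : Set Edg)) = uR (N * r / 2) :=
    Pr_local (TMON.box_mono (Nat.div_le_self _ _)) fun F _ => se3_local F
  have hsp0 : 0 ≤ uR (N * r / 2) := Pr_nonneg ok2 _ _
  refine hcov.trans ((Pr_or_le ok2 _ _ _).trans (add_le_add ?_ (Pr_exists_le ok2 _ _ _)))
  rw [hind, hsp, mul_comm]
  exact mul_le_mul_of_nonneg_right (hP r hr) hsp0

end Pool.Agent.W808.KZ
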