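import Pool.Agent.W808.KZ.Stm
import Pool.Agent.H160R2.MU.T_MON

/-!
# MON: monotonicity of the probability of the three arm event of the dislocated plane, locality
-/

set_option autoImplicit false

namespace Pool.Agent.W808.KZ
open H974 H906.Cyl
open Pool.Agent.H160R2.ML (nm)
open Pool.Agent.W801.OU
open Pool.Agent.H160R2.MU.TMON (nm_le_iff nm_tgt_le nm_src_le mem_box box_mono)

namespace TMON

theorem bxz_sub_box {R : ℕ} {e : Edg} (he : e ∈ bxz (R : ℤ)) : e ∈ boxE R :=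
  mem_box he.1 he.2

theorem bxz_mono {R R' : ℤ} (h : R ≤ R') : bxz R ⊆ bxz R' :=
  fun _ he => ⟨he.1.trans h, he.2.trans h⟩

theorem LZ_mono {Z : Set ℤ} {B B' G : Set Edg} (h : B ⊆ B') {x y : ℤ × ℤ} (hxy : LZ Z B G x y) :
    LZ Z B' G x y := by
  obtain ⟨e, he, h1⟩ := hxy
  exact ⟨e, h he, h1⟩

theorem RZ_mono {Z : Set ℤ} {B B' G : Set Edg} (h : B ⊆ B') {x y : ℤ × ℤ} (hxy : RZ Z B G x y) :
    RZ Z B' G x y := by
  have h1 : Relation.EqvGen (LZ Z B G) ≤ Relation.EqvGen (LZ Z B' G) :=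
    Relation.EqvGen.mono fun _ _ h' => LZ_mono h h'
  exact h1 x y hxy

theorem LZ_congr {Z : Set ℤ} {B G G' : Set Edg} (h : ∀ e ∈ B, (e ∈ G ↔ e ∈ G')) :
    LZ Z B G = LZ Z B G' := by
  funext x y
  apply propext
  constructor
  · rintro ⟨e, he, h1, h2 | h2⟩
    · exact ⟨e, he, h1, Or.inl ⟨(h e he).1 h2.1, h2.2⟩⟩
    · exact ⟨e, he, h1, Or.inr ⟨fun h3 => h2.1 ((h e he).2 h3), h2.2⟩⟩
  · rintro ⟨e, he, h1, h2 | h2⟩
    · exact ⟨e, he, h1, Or.inl ⟨(h e he).2 h2.1, h2.2⟩⟩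
    · exact ⟨e, he, h1, Or.inr ⟨fun h3 => h2.1 ((h e he).1 h3), h2.2⟩⟩

theorem RZ_congr {Z : Set ℤ} {B G G' : Set Edg} (h : ∀ e ∈ B, (e ∈ G ↔ e ∈ G')) :
    RZ Z B G = RZ Z B G' := by
  unfold RZ
  rw [LZ_congr h]

/-- a property preserved by the links is preserved by the connection -/
theorem RZ_inv {Z : Set ℤ} {B G : Set Edg} {P : ℤ × ℤ → Prop}
    (h : ∀ x y, LZ Z B G x y → (P x ↔ P y)) {x y : ℤ × ℤ} (hxy : RZ Z B G x y) : P x ↔ P y := by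
  induction hxy with
  | rel x y h1 => exact h x y h1
  | refl x => exact Iff.rfl
  | symm x y _ ih => exact ih.symm
  | trans x y z _ _ ih1 ih2 => exact ih1.trans ih2

/-- the ends of a link are corners -/
theorem LZ_cor {Z : Set ℤ} {B G : Set Edg} {x y : ℤ × ℤ} (h : LZ Z B G x y) :
    ∃ e ∈ B, ((Cor Z 0 e x ∨ Cor Z 1 e x) ∧ (Cor Z 0 e y ∨ Cor Z 1 e y)) ∧
      (∀ B' : Set Edg, e ∈ B' → LZ Z B' G x y) := by
  obtain ⟨e, he, h1, h2⟩ := h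
  refine ⟨e, he, ?_, fun B' he' => ⟨e, he', h1, h2⟩⟩
  rcases h2 with h2 | h2
  · exact ⟨Or.inl ⟨h1, y, Or.inl h2.2⟩, Or.inl ⟨h1, x, Or.inr h2.2⟩⟩
  · exact ⟨Or.inr ⟨h1, y, Or.inl h2.2⟩, Or.inr ⟨h1, x, Or.inr h2.2⟩⟩

/-- first exit from the box `B` -/
theorem exit {Z : Set ℤ} {B B' G : Set Edg} {a : ℤ × ℤ}
    (h : ∀ x, RZ Z B G a x → ∀ e, e ∉ B → ¬ (Cor Z 0 e x ∨ Cor Z 1 e x)) {y : ℤ × ℤ}
    (hy : RZ Z B' G a y) : RZ Z B G a y := by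
  refine (RZ_inv (P := fun x => RZ Z B G a x) ?_ hy).1 (Relation.EqvGen.refl _)
  intro x z hxz
  obtain ⟨e, _, ⟨h1, h2⟩, h3⟩ := LZ_cor hxz
  by_cases he : e ∈ B
  · have h4 : RZ Z B G x z := Relation.EqvGen.rel _ _ (h3 B he)
    exact ⟨fun h5 => Relation.EqvGen.trans _ _ _ h5 h4,
      fun h5 => Relation.EqvGen.trans _ _ _ h5 (Relation.EqvGen.symm _ _ h4)⟩
  · exact ⟨fun h5 => absurd h1 (h x h5 e he), fun h5 => absurd h2 (h z h5 e he)⟩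

theorem se3_mono {R R' : ℤ} (hR : R ≤ R') {G : Set Edg} (h : SE3 R' G) : SE3 R G := by
  refine ⟨fun c d hc hd hcd hcon => h.1 c d hc hd hcd (RZ_mono (bxz_mono hR) hcon),
    fun c hc => ?_⟩
  by_contra hno
  obtain ⟨x, hx, e, he, hcor⟩ := h.2 c hc
  have h1 : ∀ x, RZ {0} (bxz R) G (scz 0 0 c) x → ∀ e, e ∉ bxz R →
      ¬ (Cor {0} 0 e x ∨ Cor {0} 1 e x) :=
    fun x hx e he hc' => hno ⟨x, hx, e, he, hc'⟩
  exact h1 x (exit h1 hx) e (fun h2 => he (bxz_mono hR h2)) hcor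

theorem se3_congr {R : ℤ} {G G' : Set Edg} (h : ∀ e ∈ bxz R, (e ∈ G ↔ e ∈ G')) :
    SE3 R G ↔ SE3 R G' := by
  unfold SE3
  rw [RZ_congr h]

theorem se3_local {R : ℕ} (F : Finset Edg) :
    SE3 (R : ℤ) (↑F : Set Edg) ↔ SE3 (R : ℤ) (↑(F ∩ boxE R) : Set Edg) := by
  refine se3_congr fun e he => ?_
  rw [Finset.mem_coe, Finset.mem_coe, Finset.mem_inter]
  exact ⟨fun h => ⟨h, bxz_sub_box he⟩, fun h => h.1⟩

end TMON

theorem t_MON : S_MON := by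
  intro R R' _ hR
  have ok : Ok (fun _ : Edg => (1 / 2 : ℝ)) := fun _ => ⟨by norm_num, by norm_num⟩
  have hR' : (R : ℤ) ≤ R' := by exact_mod_cast hR
  unfold uR
  refine (Pr_mono ok fun F _ h => TMON.se3_mono hR' h).trans (le_of_eq ?_)
  exact Pr_local (box_mono hR) fun F _ => TMON.se3_local F

end Pool.Agent.W808.KZ
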