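import Pool.Agent.W808.KZ.Stm

/-!
# Not all three sectors touch the outside of the box in class 1
-/

set_option autoImplicit false

namespace Pool.Agent.W808.KZ
open H974 H906.Cyl
open Pool.Agent.H160R2.ML (nm)
open Pool.Agent.W801.OU

namespace TNC

theorem edz_s (s d : ℤ) : (edz s d).1 + (edz s d).2.1 = s := by
  unfold edz
  split_ifs with h
  · show (s + d) / 2 + (s - d) / 2 = s
    omega
  · show (s + d + 1) / 2 + (s - d - 1) / 2 = s
    omega

theorem edz_d (s d : ℤ) : dco (edz s d) = d := by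
  unfold edz dco
  by_cases h : (s + d) % 2 = 0
  · simp only [if_pos h, if_true]
    omega
  · simp only [if_neg h, Bool.false_eq_true, if_false]
    omega

theorem bxz_iff (R : ℤ) (e : Edg) : e ∈ bxz R ↔
    (-(2 * R) - 1 ≤ e.1 + e.2.1 + dco e ∧ e.1 + e.2.1 + dco e ≤ 2 * R - 1) ∧
      (-(2 * R) ≤ e.1 + e.2.1 - dco e ∧ e.1 + e.2.1 - dco e ≤ 2 * R) := by
  obtain ⟨x, y, _ | _⟩ := e
  · simp only [bxz, Set.mem_setOf_eq, nm, src_mk, tgt_false, max_le_iff, abs_le, dco,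
      Bool.false_eq_true, if_false]
    omega
  · simp only [bxz, Set.mem_setOf_eq, nm, src_mk, tgt_true, max_le_iff, abs_le, dco, if_true]
    omega

theorem boxE_iff (R : ℕ) (e : Edg) : e ∈ boxE R ↔ e ∈ bxz R := by
  obtain ⟨x, y, _ | _⟩ := e
  · simp only [boxE, RE, Finset.mem_filter, Finset.mem_product, Finset.mem_Icc, Finset.mem_univ,
      bxz, Set.mem_setOf_eq, nm, src_mk, tgt_false, max_le_iff, abs_le,
      Bool.false_eq_true, if_false, and_true]
    omega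
  · simp only [boxE, RE, Finset.mem_filter, Finset.mem_product, Finset.mem_Icc, Finset.mem_univ,
      bxz, Set.mem_setOf_eq, nm, src_mk, tgt_true, max_le_iff, abs_le, if_true, and_true]
    omega

/-! ### the configuration -/

open Classical in
/-- the edges of the box, repeated -/
noncomputable def FF (n R : ℕ) (G : Set Edg) : Finset Edg :=
  ((boxE R).filter (fun e => e ∈ G)).image (red n)

theorem mem_FF {n R : ℕ} {G : Set Edg} {e : Edg} :
    e ∈ per n (FF n R G) ↔ ∃ e' ∈ bxz R, e' ∈ G ∧ red n e' = red n e := by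
  classical
  show red n e ∈ FF n R G ↔ _
  unfold FF
  simp only [Finset.mem_image, Finset.mem_filter, boxE_iff, and_assoc]

theorem FF_sub {n R : ℕ} {G : Set Edg} (h : 2 * R + 2 ≤ n) : FF n R G ⊆ CE n n := by
  classical
  intro e he
  unfold FF at he
  simp only [Finset.mem_image, Finset.mem_filter, boxE_iff] at he
  obtain ⟨e', ⟨h1, -⟩, rfl⟩ := he
  rw [bxz_iff] at h1
  apply red_mem (by omega) <;> omega

theorem dvd_small (n : ℕ) (a m : ℤ) (h : a = n * m) (h1 : -(n : ℤ) < a) (h2 : a < n) : a = 0 := by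
  rcases lt_trichotomy m 0 with h0 | h0 | h0
  · exfalso
    have : (n : ℤ) * m ≤ n * (-1) := mul_le_mul_of_nonneg_left (by omega) (by positivity)
    omega
  · rw [h, h0, mul_zero]
  · exfalso
    have : (n : ℤ) * 1 ≤ n * m := mul_le_mul_of_nonneg_left (by omega) (by positivity)
    omega

/-- inside the box the configuration is `G` -/
theorem FF_box {n R : ℕ} {G : Set Edg} (h : 2 * R + 2 ≤ n) {e : Edg} (he : e ∈ bxz R) :
    e ∈ per n (FF n R G) ↔ e ∈ G := by
  rw [mem_FF]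
  constructor
  · rintro ⟨e', h1, h2, h3⟩
    have : e' = e := by
      obtain ⟨x, y, b⟩ := e
      obtain ⟨x', y', b'⟩ := e'
      simp only [red, Prod.mk.injEq] at h3
      obtain ⟨ha, hb, hc⟩ := h3
      subst hc
      simp only [bxz, Set.mem_setOf_eq, nm, src_mk, max_le_iff, abs_le] at he h1
      have h4 : x' - x = n * ((x' + y') / (2 * n) - (x + y) / (2 * n)) := by linarith
      have h5 : y' - y = n * ((x' + y') / (2 * n) - (x + y) / (2 * n)) := by linarith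
      have h6 := dvd_small n _ _ h4 (by omega) (by omega)
      have h7 := dvd_small n _ _ h5 (by omega) (by omega)
      have h8 : x' = x := by omega
      have h9 : y' = y := by omega
      rw [h8, h9]
    rwa [this] at h2
  · intro h1
    exact ⟨e, he, h1, rfl⟩

/-- a square far from the diagonals of the box is closed -/
theorem FF_out {n R : ℕ} {G : Set Edg} {e : Edg}
    (h : ((e.1 + e.2.1 + dco e ≤ -(2 * R) - 2 ∨ 2 * R ≤ e.1 + e.2.1 + dco e) ∧
        -(2 * n : ℤ) + 2 * R + 2 ≤ e.1 + e.2.1 + dco e ∧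
        e.1 + e.2.1 + dco e ≤ 2 * n - 2 * R - 2) ∨
      ((e.1 + e.2.1 - dco e ≤ -(2 * R) - 1 ∨ 2 * R + 1 ≤ e.1 + e.2.1 - dco e) ∧
        -(2 * n : ℤ) + 2 * R + 2 ≤ e.1 + e.2.1 - dco e ∧
        e.1 + e.2.1 - dco e ≤ 2 * n - 2 * R - 2) ∨ 2 * R ≤ dco e) :
    e ∉ per n (FF n R G) := by
  rw [mem_FF]
  rintro ⟨e', h1, -, h3⟩
  rw [bxz_iff] at h1
  have hd : dco e' = dco e := by
    rw [← dco_red n e', h3, dco_red]
  have hs : e'.1 + e'.2.1 - 2 * (n * ((e'.1 + e'.2.1) / (2 * n))) =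
      e.1 + e.2.1 - 2 * (n * ((e.1 + e.2.1) / (2 * n))) := by
    simp only [red, Prod.mk.injEq] at h3
    obtain ⟨ha, hb, -⟩ := h3
    linarith
  obtain ⟨k, hk⟩ : ∃ k : ℤ, e.1 + e.2.1 = e'.1 + e'.2.1 + 2 * (n * k) := by
    refine ⟨(e.1 + e.2.1) / (2 * n) - (e'.1 + e'.2.1) / (2 * n), ?_⟩
    rw [mul_sub]
    linarith
  rcases lt_trichotomy k 0 with h0 | h0 | h0
  · have : (n : ℤ) * k ≤ n * (-1) := mul_le_mul_of_nonneg_left (by omega) (by positivity)
    omega
  · rw [h0, mul_zero] at hk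
    omega
  · have : (n : ℤ) * 1 ≤ n * k := mul_le_mul_of_nonneg_left (by omega) (by positivity)
    omega

/-! ### zippers -/

theorem Zn_small {n : ℕ} {j : ℤ} (h1 : -(2 * n : ℤ) < j) (h2 : j < 2 * n) :
    j ∈ Zn n ↔ j = 0 := by
  show j % ((2 * n : ℕ) : ℤ) = 0 ↔ j = 0
  constructor
  · intro h
    exact Int.eq_zero_of_abs_lt_dvd (Int.dvd_of_emod_eq_zero h) (by
      rw [abs_lt]; push_cast; constructor <;> omega)
  · rintro rfl; simp

theorem nrm_eq {n : ℕ} {d j t : ℤ} (h1 : -(2 * n : ℤ) < j) (h2 : j < 2 * n) :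
    nrm {0} d j t = nrm (Zn n) d j t := by
  unfold nrm
  have := Zn_small h1 h2
  simp only [Set.mem_singleton_iff, this]

theorem zp_eq {n : ℕ} {e : Edg} (h1 : -(2 * n : ℤ) < e.1 + e.2.1 + 1)
    (h2 : e.1 + e.2.1 + 1 < 2 * n) : e ∈ zp {0} ↔ e ∈ zp (Zn n) := by
  have := Zn_small h1 h2
  simp only [zp, Set.mem_setOf_eq, Set.mem_singleton_iff, this]

theorem Dg_eq {n : ℕ} {c : ℤ} {e : Edg} {x y : ℤ × ℤ} (h1 : -(2 * n : ℤ) < e.1 + e.2.1)
    (h2 : e.1 + e.2.1 + 1 < 2 * n) (h : Dg {0} c e x y) : Dg (Zn n) c e x y := by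
  cases h with
  | rise hp =>
    rw [nrm_eq (n := n) (by omega) (by omega), nrm_eq (n := n) (by omega) (by omega)]
    exact Dg.rise hp
  | fall hp =>
    rw [nrm_eq (n := n) (by omega) (by omega), nrm_eq (n := n) (by omega) (by omega)]
    exact Dg.fall hp

/-- connections in the box are connections of the cylinder -/
theorem RZ_RC {n R : ℕ} {G : Set Edg} (h : 2 * R + 2 ≤ n) {x y : ℤ × ℤ}
    (hxy : RZ {0} (bxz R) G x y) : RC n (per n (FF n R G)) x y := by
  refine Relation.EqvGen.mono (r := LZ {0} (bxz R) G) ?_ _ _ hxy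
  rintro a b ⟨e, he, hz, hl⟩
  have hb := he
  rw [bxz_iff] at hb
  refine ⟨e, trivial, ?_, ?_⟩
  · rw [← zp_eq (n := n) (by omega) (by omega)]
    exact hz
  · rcases hl with ⟨h1, h2⟩ | ⟨h1, h2⟩
    · exact Or.inl ⟨(FF_box h he).2 h1, Dg_eq (by omega) (by omega) h2⟩
    · exact Or.inr ⟨fun h3 => h1 ((FF_box h he).1 h3), Dg_eq (by omega) (by omega) h2⟩

/-! ### closed squares -/

variable {n : ℕ} {G : Set Edg}

theorem lk_rise {s d : ℤ} (hG : edz s d ∉ G) (hz : ¬ (d < 0 ∧ s + 1 ∈ Zn n))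
    (hp : (s + d) % 2 = 1) (h1 : ¬ (d < 0 ∧ s ∈ Zn n)) : RC n G (s, d) (s + 1, d + 1) := by
  refine Relation.EqvGen.rel _ _ ⟨edz s d, trivial, ?_, Or.inr ⟨hG, ?_⟩⟩
  · simp only [zp, Set.mem_setOf_eq, edz_s, edz_d]
    exact hz
  · have := Dg.rise (Z := Zn n) (c := 1) (e := edz s d) (by rw [edz_s, edz_d]; exact hp)
    rw [edz_s, edz_d] at this
    simp only [nrm, if_neg hz, if_neg h1] at this
    exact this

theorem lk_fall {s d : ℤ} (hG : edz s d ∉ G) (hz : ¬ (d < 0 ∧ s + 1 ∈ Zn n))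
    (hp : (s + d) % 2 = 0) (h1 : ¬ (d < 0 ∧ s ∈ Zn n)) : RC n G (s, d + 1) (s + 1, d) := by
  refine Relation.EqvGen.rel _ _ ⟨edz s d, trivial, ?_, Or.inr ⟨hG, ?_⟩⟩
  · simp only [zp, Set.mem_setOf_eq, edz_s, edz_d]
    exact hz
  · have := Dg.fall (Z := Zn n) (c := 1) (e := edz s d) (by rw [edz_s, edz_d]; simpa using hp)
    rw [edz_s, edz_d] at this
    simp only [nrm, if_neg hz, if_neg h1] at this
    exact this

/-- the row of closed squares -/
theorem row {T : ℤ} (hT : 0 ≤ T) (hc : ∀ s, edz s T ∉ G) (j j' : ℤ) :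
    RC n G (j, T + (j + T + 1) % 2) (j', T + (j' + T + 1) % 2) := by
  have step : ∀ j : ℤ, RC n G (j, T + (j + T + 1) % 2) (j + 1, T + (j + 1 + T + 1) % 2) := by
    intro j
    rcases Int.emod_two_eq_zero_or_one (j + T) with h | h
    · have e1 : (j + T + 1) % 2 = 1 := by omega
      have e2 : (j + 1 + T + 1) % 2 = 0 := by omega
      rw [e1, e2, add_zero]
      exact lk_fall (hc j) (by omega) h (by omega)
    · have e1 : (j + T + 1) % 2 = 0 := by omega
      have e2 : (j + 1 + T + 1) % 2 = 1 := by omega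
      rw [e1, e2, add_zero]
      exact lk_rise (hc j) (by omega) h (by omega)
  have key : ∀ (k : ℕ) (j : ℤ), RC n G (j, T + (j + T + 1) % 2)
      (j + k, T + (j + k + T + 1) % 2) := by
    intro k
    induction k with
    | zero => intro j; simp only [Nat.cast_zero, add_zero, sub_zero]; exact Relation.EqvGen.refl _
    | succ k ih =>
      intro j
      have h1 := ih j
      have h2 := step (j + k)
      have e : j + ((k + 1 : ℕ) : ℤ) = j + k + 1 := by push_cast; ring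
      rw [e]
      exact Relation.EqvGen.trans _ _ _ h1 h2
  rcases le_total j j' with h | h
  · obtain ⟨k, hk⟩ := Int.eq_ofNat_of_zero_le (sub_nonneg.2 h)
    have := key k j
    rw [show j + (k : ℤ) = j' by omega] at this
    exact this
  · obtain ⟨k, hk⟩ := Int.eq_ofNat_of_zero_le (sub_nonneg.2 h)
    have := key k j'
    rw [show j' + (k : ℤ) = j by omega] at this
    exact Relation.EqvGen.symm _ _ this

/-! ### the paths to the row `T` -/

theorem pathR {R : ℕ} {G : Set Edg} {T : ℤ} : ∀ (k : ℕ) (j t : ℤ), t + k = T → (j + t) % 2 = 1 →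
    (j - t ≤ -(2 * R) - 1 ∨ 2 * R + 1 ≤ j - t) → -(2 * n : ℤ) + 2 * R + 2 ≤ j - t →
    j - t ≤ 2 * n - 2 * R - 2 → (t < 0 → 1 ≤ j) →
    RC n (per n (FF n R G)) (j, t) (j + k, T) := by
  intro k
  induction k with
  | zero =>
    intro j t hT _ _ _ _ _
    have : t = T := by simpa using hT
    subst this
    simp only [Nat.cast_zero, add_zero, sub_zero]; exact Relation.EqvGen.refl _
  | succ k ih =>
    intro j t hT hp h1 h2 h3 h4
    have hc : edz j t ∉ per n (FF n R G) := by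
      apply FF_out
      rw [edz_s, edz_d]
      exact Or.inr (Or.inl ⟨h1, h2, h3⟩)
    have l1 := lk_rise hc
      (by
        rintro ⟨h5, h6⟩
        rw [Zn_small (n := n) (by omega) (by omega)] at h6
        omega) hp
      (by
        rintro ⟨h5, h6⟩
        rw [Zn_small (n := n) (by omega) (by omega)] at h6
        omega)
    have l2 := ih (j + 1) (t + 1) (by push_cast at hT; omega) (by omega) (by omega) (by omega)
      (by omega) (by omega)
    have e : j + ((k + 1 : ℕ) : ℤ) = j + 1 + k := by push_cast; ring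
    rw [e]
    exact Relation.EqvGen.trans _ _ _ l1 l2

theorem pathL {R : ℕ} {G : Set Edg} {T : ℤ} : ∀ (k : ℕ) (j t : ℤ), t + k = T → (j + t) % 2 = 1 →
    (j - 1 + t ≤ -(2 * R) - 2 ∨ 2 * R ≤ j - 1 + t) → -(2 * n : ℤ) + 2 * R + 2 ≤ j - 1 + t →
    j - 1 + t ≤ 2 * n - 2 * R - 2 → (t < 0 → j ≤ -1) →
    RC n (per n (FF n R G)) (j, t) (j - k, T) := by
  intro k
  induction k with
  | zero =>
    intro j t hT _ _ _ _ _
    have : t = T := by simpa using hT
    subst this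
    simp only [Nat.cast_zero, add_zero, sub_zero]; exact Relation.EqvGen.refl _
  | succ k ih =>
    intro j t hT hp h1 h2 h3 h4
    have hc : edz (j - 1) t ∉ per n (FF n R G) := by
      apply FF_out
      rw [edz_s, edz_d]
      exact Or.inl ⟨h1, h2, h3⟩
    have l1 := lk_fall hc
      (by
        rintro ⟨h5, h6⟩
        rw [Zn_small (n := n) (by omega) (by omega)] at h6
        omega) (by omega)
      (by
        rintro ⟨h5, h6⟩
        rw [Zn_small (n := n) (by omega) (by omega)] at h6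
        omega)
    rw [show j - 1 + 1 = j by ring] at l1
    have l2 := ih (j - 1) (t + 1) (by push_cast at hT; omega) (by omega) (by omega) (by omega)
      (by omega) (by omega)
    have e : j - ((k + 1 : ℕ) : ℤ) = j - 1 - k := by push_cast; ring
    rw [e]
    exact Relation.EqvGen.trans _ _ _ (Relation.EqvGen.symm _ _ l1) l2

/-- the right corner of class `1` -/
theorem rcor {R : ℕ} {G : Set Edg} {T : ℤ} (hT : T = 2 * R + 10) (hn : 10 * R + 20 ≤ n) {e : Edg}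
    (he : e ∉ bxz R) (hz : e ∉ zp (Zn n)) (hs : -(2 * R + 5 : ℤ) ≤ e.1 + e.2.1)
    (hs' : e.1 + e.2.1 ≤ 2 * R + 5) (hd : -(2 * R + 5 : ℤ) ≤ dco e) (hd' : dco e ≤ 2 * R + 5)
    {t : ℤ} (ht : t = dco e + (e.1 + e.2.1 + dco e) % 2) :
    RC n (per n (FF n R G)) (e.1 + e.2.1 + 1, t) (0, T + (0 + T + 1) % 2) := by
  have hrow : ∀ j j' : ℤ, RC n (per n (FF n R G)) (j, T + (j + T + 1) % 2)
      (j', T + (j' + T + 1) % 2) := by
    apply row (by omega)
    intro s
    apply FF_out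
    rw [edz_s, edz_d]
    exact Or.inr (Or.inr (by omega))
  rw [bxz_iff] at he
  have hz' : ¬ (dco e < 0 ∧ e.1 + e.2.1 + 1 ∈ Zn n) := hz
  have hz2 : dco e < 0 → e.1 + e.2.1 + 1 ≠ 0 := by
    intro h1 h2
    exact hz' ⟨h1, by rw [Zn_small (n := n) (by omega) (by omega)]; exact h2⟩
  generalize dco e = d at *
  generalize e.1 + e.2.1 = s at *
  obtain ⟨k, hk⟩ := Int.eq_ofNat_of_zero_le (show 0 ≤ T - t by omega)
  have hR : (s + 1 - t ≤ -(2 * R) - 1 ∨ 2 * R + 1 ≤ s + 1 - t) → (t < 0 → 1 ≤ s + 1) →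
      RC n (per n (FF n R G)) (s + 1, t) (0, T + (0 + T + 1) % 2) := by
    intro h1 h2
    have l1 := pathR (n := n) (R := R) (G := G) (T := T) k (s + 1) t (by omega) (by omega) h1
      (by omega) (by omega) h2
    have l2 := hrow (s + 1 + k) 0
    rw [show T + (s + 1 + k + T + 1) % 2 = T by omega] at l2
    exact Relation.EqvGen.trans _ _ _ l1 l2
  have hL : (s + 1 - 1 + t ≤ -(2 * R) - 2 ∨ 2 * R ≤ s + 1 - 1 + t) → (t < 0 → s + 1 ≤ -1) →
      RC n (per n (FF n R G)) (s + 1, t) (0, T + (0 + T + 1) % 2) := by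
    intro h1 h2
    have l1 := pathL (n := n) (R := R) (G := G) (T := T) k (s + 1) t (by omega) (by omega) h1
      (by omega) (by omega) h2
    have l2 := hrow (s + 1 - k) 0
    rw [show T + (s + 1 - k + T + 1) % 2 = T by omega] at l2
    exact Relation.EqvGen.trans _ _ _ l1 l2
  rcases lt_or_ge d 0 with h0 | h0
  · rcases lt_or_ge s 0 with h1 | h1
    · have := hz2 h0
      exact hL (by omega) (by omega)
    · exact hR (by omega) (by omega)
  · by_cases h1 : s - d ≤ -(2 * R) - 1 ∨ 2 * R + 1 ≤ s - d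
    · exact hR (by omega) (by omega)
    · exact hL (by omega) (by omega)

theorem Dg_right {Z : Set ℤ} {e : Edg} {a b : ℤ × ℤ} (hz : e ∉ zp Z) (h : Dg Z 1 e a b) :
    b = (e.1 + e.2.1 + 1, dco e + (e.1 + e.2.1 + dco e) % 2) := by
  have hz' : ¬ (dco e < 0 ∧ e.1 + e.2.1 + 1 ∈ Z) := hz
  cases h with
  | rise hp => simp only [nrm, if_neg hz', hp]
  | fall hp =>
    have : (e.1 + e.2.1 + dco e) % 2 = 0 := by simpa using hp
    simp only [nrm, if_neg hz', this, add_zero]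

theorem Dg_bd {Z : Set ℤ} {c : ℤ} {e : Edg} {a b : ℤ × ℤ} (h : Dg Z c e a b) :
    ((e.1 + e.2.1 - 1 ≤ a.1 ∧ a.1 ≤ e.1 + e.2.1 + 1) ∧ dco e ≤ a.2 ∧ a.2 ≤ dco e + 1) ∧
    ((e.1 + e.2.1 - 1 ≤ b.1 ∧ b.1 ≤ e.1 + e.2.1 + 1) ∧ dco e ≤ b.2 ∧ b.2 ≤ dco e + 1) := by
  cases h with
  | rise hp =>
    unfold nrm
    split_ifs <;> refine ⟨⟨⟨?_, ?_⟩, ?_, ?_⟩, ⟨?_, ?_⟩, ?_, ?_⟩ <;> dsimp only <;> omega
  | fall hp =>
    unfold nrm
    split_ifs <;> refine ⟨⟨⟨?_, ?_⟩, ?_, ?_⟩, ⟨?_, ?_⟩, ?_, ?_⟩ <;> dsimp only <;> omega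

/-- the points of a box cluster of a sector are bounded -/
theorem bounded {R : ℕ} {G : Set Edg} {x y : ℤ × ℤ} (h : RZ {0} (bxz R) G x y)
    (hx : (-(2 * R + 3 : ℤ) ≤ x.1 ∧ x.1 ≤ 2 * R + 3) ∧ -(2 * R + 3 : ℤ) ≤ x.2 ∧ x.2 ≤ 2 * R + 3) :
    (-(2 * R + 3 : ℤ) ≤ y.1 ∧ y.1 ≤ 2 * R + 3) ∧ -(2 * R + 3 : ℤ) ≤ y.2 ∧ y.2 ≤ 2 * R + 3 := by
  have key : ((-(2 * R + 3 : ℤ) ≤ x.1 ∧ x.1 ≤ 2 * R + 3) ∧
      -(2 * R + 3 : ℤ) ≤ x.2 ∧ x.2 ≤ 2 * R + 3) ↔
      ((-(2 * R + 3 : ℤ) ≤ y.1 ∧ y.1 ≤ 2 * R + 3) ∧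
      -(2 * R + 3 : ℤ) ≤ y.2 ∧ y.2 ≤ 2 * R + 3) := by
    clear hx
    induction h with
    | rel a b hab =>
      obtain ⟨e, he, -, hl⟩ := hab
      rw [bxz_iff] at he
      have hb : ∃ c : ℤ, Dg {0} c e a b := by
        rcases hl with ⟨-, h2⟩ | ⟨-, h2⟩
        · exact ⟨0, h2⟩
        · exact ⟨1, h2⟩
      obtain ⟨c, hc⟩ := hb
      have := Dg_bd hc
      constructor <;> intro _ <;> omega
    | refl a => exact Iff.rfl
    | symm a b _ ih => exact ih.symm
    | trans a b c _ _ ih1 ih2 => exact ih1.trans ih2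
  exact key.1 hx

/-- a sector which touches the outside in class `1` is connected to the row -/
theorem touch {R : ℕ} {G : Set Edg} {T : ℤ} (hT : T = 2 * R + 10) (hn : 10 * R + 20 ≤ n)
    {c : ℕ} (hc : c < 3) {x : ℤ × ℤ} {e : Edg} (he : e ∉ bxz R) (hx : Cor {0} 1 e x)
    (hr : RZ {0} (bxz R) G (scz 0 0 c) x) :
    RC n (per n (FF n R G)) (scz n 0 c) (0, T + (0 + T + 1) % 2) := by
  have e1 : scz 0 0 c = scz n 0 c := by simp [scz]
  have hb := bounded hr (by
    simp only [scz]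
    push_cast
    omega)
  obtain ⟨hz, y, hy⟩ := hx
  have hbd : (-(2 * R + 5 : ℤ) ≤ e.1 + e.2.1 ∧ e.1 + e.2.1 ≤ 2 * R + 5) ∧
      -(2 * R + 5 : ℤ) ≤ dco e ∧ dco e ≤ 2 * R + 5 := by
    rcases hy with hy | hy <;> have := Dg_bd hy <;> omega
  obtain ⟨⟨b1, b2⟩, b3, b4⟩ := hbd
  have hz' : e ∉ zp (Zn n) := by
    rw [← zp_eq (n := n) (by omega) (by omega)]
    exact hz
  have hcl : e ∉ per n (FF n R G) := by
    apply FF_out
    rw [bxz_iff] at he
    by_cases h1 : e.1 + e.2.1 + dco e ≤ -(2 * R) - 2 ∨ 2 * (R : ℤ) ≤ e.1 + e.2.1 + dco e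
    · exact Or.inl ⟨h1, by omega, by omega⟩
    · refine Or.inr (Or.inl ⟨by omega, by omega, by omega⟩)
  have hB := rcor (G := G) hT hn he hz' b1 b2 b3 b4 rfl
  have h2 := RZ_RC (n := n) (by omega) hr
  rw [e1] at h2
  refine Relation.EqvGen.trans _ _ _ h2 ?_
  rcases hy with hy | hy
  · have hy' := Dg_eq (n := n) (by omega) (by omega) hy
    have h3 := Dg_right hz' hy'
    have l : RC n (per n (FF n R G)) x y :=
      Relation.EqvGen.rel _ _ ⟨e, trivial, hz', Or.inr ⟨hcl, hy'⟩⟩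
    refine Relation.EqvGen.trans _ _ _ l ?_
    rw [h3]
    exact hB
  · have hy' := Dg_eq (n := n) (by omega) (by omega) hy
    have h3 := Dg_right hz' hy'
    rw [h3]
    exact hB

end TNC

theorem t_NC (hT : S_TRIc) : S_NC := by
  intro R G hR
  by_contra hne
  push Not at hne
  have key : ∀ c : ℕ, c < 3 → RC (10 * R + 20) (per (10 * R + 20) (TNC.FF (10 * R + 20) R G))
      (scz (10 * R + 20) 0 c) (0, (2 * R + 10 : ℤ) + (0 + (2 * R + 10 : ℤ) + 1) % 2) := by
    intro c hc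
    obtain ⟨x, e, h1, h2, h3⟩ := hne c hc
    exact TNC.touch rfl le_rfl hc h1 h2 h3
  have all : ∀ c d : ℕ, c < 3 → d < 3 →
      RC (10 * R + 20) (per (10 * R + 20) (TNC.FF (10 * R + 20) R G))
        (scz (10 * R + 20) 0 c) (scz (10 * R + 20) 0 d) := fun c d hc hd =>
    Relation.EqvGen.trans _ _ _ (key c hc) (Relation.EqvGen.symm _ _ (key d hd))
  rcases hT (10 * R + 20) (10 * R + 20) (by omega) (TNC.FF (10 * R + 20) R G)
      (TNC.FF_sub (by omega)) with h | ⟨t, a, b, h1, h2, h3, h4, h5, h6, h7, h8, h9⟩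
  · exact h.1 0 1 (by norm_num) (by norm_num) (by norm_num) (all 0 1 (by norm_num) (by norm_num))
  · exact h8 (all t a h1 h2)

end Pool.Agent.W808.KZ
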