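import Pool.Agent.W808.KZ.Stm
import Pool.Agent.H160R2.MU.T_SEPA

/-! SEPA for the dislocated plane, step A: class 1, different clusters are far from each other at the
boundary of the tube (port of `Pool.Agent.W808.KU.T_SEPA`). -/

set_option autoImplicit false

namespace Pool.Agent.W808.KZ
open H974 H906.Cyl
open H12S (Dir hbE segD rimE H4 Crs Nr sqE fl)
open Pool.Agent.H160R2.ML (nm)
open Pool.Agent.H160R2.MU (Cel csq cpos rad prd shf BxS Bxs EP inSq PC Bad Trap Cc)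
open Pool.Agent.W808.HU (PTr)
open Pool.Agent.W801.OU

namespace TSEPA

open Pool.Agent.H160R2.MU.TSEPA (div_iff fl_iff EP_iff sh fl_sh Bxs_sh P_sh red_eq pe pe_eq mem_Cc
  EP_union hseg vseg btw adj_dist Bv red_EPB inBox QQ QQ_div nz nz_QQ tc hc inn pj inn_c ext_c adj_c bal
  hb_iff seg_iff rim_iff bp dist_c cr1 cr2 col near_line lineH lineV)

/-! ### squares away from the zippers -/

/-- the squares away from the zippers -/
def Es (n : ℕ) : Set Edg := {e | 0 ≤ dco e ∨ (e.1 + e.2.1 ∉ Zn n ∧ e.1 + e.2.1 + 1 ∉ Zn n)}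

theorem Zn_iff {n : ℕ} {j : ℤ} : j ∈ Zn n ↔ ∃ q : ℤ, j = 2 * (q * n) := by
  unfold Zn
  rw [Set.mem_ofPred_eq]
  constructor
  · intro h
    obtain ⟨q, hq⟩ := Int.dvd_of_emod_eq_zero h
    refine ⟨q, ?_⟩
    rw [hq]
    push_cast
    ring
  · rintro ⟨q, hq⟩
    apply Int.emod_eq_zero_of_dvd
    refine ⟨q, ?_⟩
    rw [hq]
    push_cast
    ring

theorem Es_zp {n : ℕ} {e : Edg} (h : e ∈ Es n) : e ∉ zp (Zn n) := by
  rintro ⟨h1, h2⟩
  rcases h with h | h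
  · omega
  · exact h.2 h2

theorem Es_nrm {n : ℕ} {e : Edg} (h : e ∈ Es n) (t : ℤ) :
    nrm (Zn n) (dco e) (e.1 + e.2.1) t = (e.1 + e.2.1, t) ∧
      nrm (Zn n) (dco e) (e.1 + e.2.1 + 1) t = (e.1 + e.2.1 + 1, t) := by
  unfold nrm
  rcases h with h | h
  · rw [if_neg (fun h1 => by omega), if_neg (fun h1 => by omega)]
    exact ⟨rfl, rfl⟩
  · rw [if_neg (fun h1 => h.1 h1.2), if_neg (fun h1 => h.2 h1.2)]
    exact ⟨rfl, rfl⟩

theorem fp_inj {v w : Vtx} (h : fp v = fp w) : v = w := by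
  unfold fp at h
  simp only [Prod.mk.injEq] at h
  obtain ⟨h1, h2⟩ := h
  ext <;> omega

theorem fp_par (v : Vtx) : ¬ ((fp v).1 + (fp v).2) % 2 = 0 := by
  unfold fp
  simp only
  omega

theorem pe_mk (x y : ℤ) : pe (x, y, false) = (x, y + 1, true) ∧ pe (x, y, true) = (x + 1, y, false) := by
  constructor
  · unfold pe edz dco
    simp only [Bool.false_eq_true, if_false]
    rw [if_pos (by omega)]
    simp only [Prod.mk.injEq, and_true]
    omega
  · unfold pe edz dco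
    simp only [if_true]
    rw [if_neg (by omega)]
    simp only [Prod.mk.injEq, and_true]
    omega

theorem pe_col (e : Edg) : (pe e).1 + (pe e).2.1 = e.1 + e.2.1 + 1 := by
  obtain ⟨x, y, b⟩ := e
  cases b
  · rw [(pe_mk x y).1]
    simp only
    omega
  · rw [(pe_mk x y).2]
    simp only
    omega

theorem Dg_pe {n : ℕ} (e : Edg) (h : pe e ∈ Es n) :
    Dg (Zn n) 1 (pe e) (fp (src e)) (fp (tgt e)) := by
  obtain ⟨p1, p2, p3⟩ := pe_eq e
  have hc := pe_col e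
  by_cases hb : e.2.2 = true
  · have e1 : fp (src e) = nrm (Zn n) (dco (pe e)) ((pe e).1 + (pe e).2.1) (dco (pe e)) := by
      rw [(Es_nrm h _).1, hc, p3]
      obtain ⟨x, y, b⟩ := e
      simp only at hb
      subst hb
      simp only [src_mk, fp, dco, if_true]
    have e2 : fp (tgt e) = nrm (Zn n) (dco (pe e)) ((pe e).1 + (pe e).2.1 + 1) (dco (pe e) + 1) := by
      rw [(Es_nrm h _).2, hc, p3]
      obtain ⟨x, y, b⟩ := e
      simp only at hb
      subst hb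
      simp only [tgt_true, fp, dco, if_true]
      ext <;> simp only <;> ring
    rw [e1, e2]
    apply Dg.rise
    rw [hc, p3]
    obtain ⟨x, y, b⟩ := e
    simp only at hb
    subst hb
    simp only [dco, if_true]
    omega
  · have hb' : e.2.2 = false := by simpa using hb
    have e1 : fp (src e) = nrm (Zn n) (dco (pe e)) ((pe e).1 + (pe e).2.1) (dco (pe e) + 1) := by
      rw [(Es_nrm h _).1, hc, p3]
      obtain ⟨x, y, b⟩ := e
      simp only at hb'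
      subst hb'
      simp only [src_mk, fp, dco, Bool.false_eq_true, if_false]
      ext <;> simp only <;> ring
    have e2 : fp (tgt e) = nrm (Zn n) (dco (pe e)) ((pe e).1 + (pe e).2.1 + 1) (dco (pe e)) := by
      rw [(Es_nrm h _).2, hc, p3]
      obtain ⟨x, y, b⟩ := e
      simp only at hb'
      subst hb'
      simp only [tgt_false, fp, dco, Bool.false_eq_true, if_false]
      ext <;> simp only <;> ring
    rw [e1, e2]
    apply Dg.fall
    rw [hc, p3]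
    obtain ⟨x, y, b⟩ := e
    simp only at hb'
    subst hb'
    simp only [dco, Bool.false_eq_true, if_false]
    omega

theorem pe_surj (E : Edg) : ∃ e, pe e = E := by
  obtain ⟨x, y, b⟩ := E
  cases b
  · exact ⟨(x - 1, y, true), by rw [(pe_mk _ _).2]; simp⟩
  · exact ⟨(x, y - 1, false), by rw [(pe_mk _ _).1]; simp⟩

theorem Dg_uniq {Z : Set ℤ} {c : ℤ} (_hc : c = 0 ∨ c = 1) {E : Edg} {a b a' b' : ℤ × ℤ}
    (h : Dg Z c E a b) (h' : Dg Z c E a' b') : a = a' ∧ b = b' := by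
  cases h with
  | rise h1 =>
    cases h' with
    | rise h2 => exact ⟨rfl, rfl⟩
    | fall h2 => omega
  | fall h1 =>
    cases h' with
    | rise h2 => omega
    | fall h2 => exact ⟨rfl, rfl⟩

theorem Dg_inv {n : ℕ} {E : Edg} (h : E ∈ Es n) {a b : ℤ × ℤ} (hD : Dg (Zn n) 1 E a b) :
    ∃ e, pe e = E ∧ a = fp (src e) ∧ b = fp (tgt e) := by
  obtain ⟨e, he⟩ := pe_surj E
  subst he
  obtain ⟨h1, h2⟩ := Dg_uniq (Or.inr rfl) hD (Dg_pe e h)
  exact ⟨e, rfl, h1, h2⟩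

theorem Dg_par0 {n : ℕ} {E : Edg} (h : E ∈ Es n) {a b : ℤ × ℤ} (hD : Dg (Zn n) 0 E a b) :
    (a.1 + a.2) % 2 = 0 ∧ (b.1 + b.2) % 2 = 0 := by
  cases hD with
  | rise h1 =>
    rw [(Es_nrm h _).1, (Es_nrm h _).2]
    simp only
    constructor <;> omega
  | fall h1 =>
    rw [(Es_nrm h _).1, (Es_nrm h _).2]
    simp only
    constructor <;> omega

section K

variable {N r : ℕ} {C : Cel} {n M : ℕ} {F : Finset Edg}

/-- faces of boxes and tubes -/
def Pv (N r : ℕ) (C : Cel) (v : Vtx) : Prop := fl r v ∈ Bxs N N ∪ TubZ N C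

theorem red_EPP (hr : 1 ≤ r) (hn : n = prd N N * r)
    (hP : ∀ (z : ℤ × ℤ) (s : ℤ), z ∈ Bxs N N ∪ TubZ N C ↔ shf N N s z ∈ Bxs N N ∪ TubZ N C)
    (e : Edg) : red n e ∈ EP r (Bxs N N ∪ TubZ N C) ↔
      fl r (dsrc e) ∈ Bxs N N ∪ TubZ N C ∨ fl r (dtgt e) ∈ Bxs N N ∪ TubZ N C := by
  obtain ⟨q, h1, h2⟩ := red_eq n e
  rw [EP_iff r hr, h1, h2, hn, fl_sh r hr, fl_sh r hr, P_sh hP, P_sh hP]

theorem mem_FA (e : Edg) : e ∈ FA N r C n M F ↔ e ∈ CE n M ∧ ((e ∈ EP r (Bxs N N) ∧ e ∈ F) ∨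
    (e ∉ EP r (Bxs N N) ∧ e ∈ EP r (Bxs N N ∪ TubZ N C))) := by
  classical
  unfold FA
  rw [Finset.mem_filter, EP_union]
  tauto

/-- abbreviation for the connection -/
abbrev RA (N r : ℕ) (C : Cel) (n M : ℕ) (F : Finset Edg) : ℤ × ℤ → ℤ × ℤ → Prop :=
  RC n (per n (FA N r C n M F))

/-- abbreviation for the planar configuration -/
abbrev KK (N r : ℕ) (C : Cel) (n M : ℕ) (F : Finset Edg) : Set Edg :=
  Cc 1 n M (FA N r C n M F) ∩ {g | pe g ∈ Es n}

theorem K_iff0 (hr : 1 ≤ r) (hn0 : 0 < n) (hn : n = prd N N * r)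
    (hP : ∀ (z : ℤ × ℤ) (s : ℤ), z ∈ Bxs N N ∪ TubZ N C ↔ shf N N s z ∈ Bxs N N ∪ TubZ N C)
    (g : Edg) : g ∈ Cc 1 n M (FA N r C n M F) ↔ -(M : ℤ) ≤ dco g ∧ dco g < M ∧
      ((Bv N r N (src g) ∨ Bv N r N (tgt g)) → red n (pe g) ∉ F) ∧
      (¬ Bv N r N (src g) → ¬ Bv N r N (tgt g) → ¬ Pv N r C (src g) ∧ ¬ Pv N r C (tgt g)) := by
  obtain ⟨p1, p2, p3⟩ := pe_eq g
  rw [mem_Cc, mem_FA, red_EPB hr hn, red_EPP hr hn hP, p1, p2]
  unfold Bv Pv
  constructor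
  · rintro ⟨h1, h2, h3⟩
    have h4 : red n (pe g) ∈ CE n M := red_mem hn0 (by rw [p3]; exact h1) (by rw [p3]; exact h2)
    refine ⟨h1, h2, ?_, ?_⟩
    · intro h5 h6
      exact h3 ⟨h4, Or.inl ⟨h5, h6⟩⟩
    · intro h5 h6
      by_contra h7
      apply h3
      refine ⟨h4, Or.inr ⟨by tauto, by tauto⟩⟩
  · rintro ⟨h1, h2, h3, h4⟩
    refine ⟨h1, h2, ?_⟩
    rintro ⟨-, ⟨h5, h6⟩ | ⟨h5, h6⟩⟩
    · exact h3 h5 h6
    · tauto

theorem K_iff (hr : 1 ≤ r) (hn0 : 0 < n) (hn : n = prd N N * r)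
    (hP : ∀ (z : ℤ × ℤ) (s : ℤ), z ∈ Bxs N N ∪ TubZ N C ↔ shf N N s z ∈ Bxs N N ∪ TubZ N C)
    (g : Edg) : g ∈ KK N r C n M F ↔ pe g ∈ Es n ∧ -(M : ℤ) ≤ dco g ∧ dco g < M ∧
      ((Bv N r N (src g) ∨ Bv N r N (tgt g)) → red n (pe g) ∉ F) ∧
      (¬ Bv N r N (src g) → ¬ Bv N r N (tgt g) → ¬ Pv N r C (src g) ∧ ¬ Pv N r C (tgt g)) := by
  have h0 : g ∈ KK N r C n M F ↔ pe g ∈ Es n ∧ g ∈ Cc 1 n M (FA N r C n M F) := by
    constructor
    · rintro ⟨h1, h2⟩; exact ⟨h2, h1⟩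
    · rintro ⟨h1, h2⟩; exact ⟨h2, h1⟩
  rw [h0, K_iff0 hr hn0 hn hP]

theorem dco_src (g : Edg) : dco g = (src g).1 - (src g).2 ∨ dco g = (src g).1 - (src g).2 - 1 := by
  obtain ⟨x, y, b⟩ := g
  cases b <;> simp [dco, src]

/-- far from the zippers -/
def Far (n : ℕ) (v : Vtx) : Prop := ∀ s : ℤ, 2 ≤ v.1 - v.2 ∨ v.1 + v.2 - 2 * (s * n) ≤ -4 ∨
  4 ≤ v.1 + v.2 - 2 * (s * n)

theorem Es_far {n : ℕ} (e : Edg) {v : Vtx} (hv : Far n v) (h : src e = v ∨ tgt e = v) :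
    pe e ∈ Es n := by
  obtain ⟨p1, p2, p3⟩ := pe_eq e
  by_cases h0 : 0 ≤ dco e
  · left
    rw [p3]
    exact h0
  right
  have hcol := pe_col e
  rw [hcol]
  constructor
  · intro hz
    obtain ⟨q, hq⟩ := Zn_iff.1 hz
    have h1 := hv q
    obtain ⟨x, y, b⟩ := e
    cases b
    · simp only [dco, Bool.false_eq_true, if_false] at h0
      simp only [src_mk, tgt_false] at h
      rcases h with rfl | rfl <;> simp only at h1 hq <;> omega
    · simp only [dco, if_true] at h0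
      simp only [src_mk, tgt_true] at h
      rcases h with rfl | rfl <;> simp only at h1 hq <;> omega
  · intro hz
    obtain ⟨q, hq⟩ := Zn_iff.1 hz
    have h1 := hv q
    obtain ⟨x, y, b⟩ := e
    cases b
    · simp only [dco, Bool.false_eq_true, if_false] at h0
      simp only [src_mk, tgt_false] at h
      rcases h with rfl | rfl <;> simp only at h1 hq <;> omega
    · simp only [dco, if_true] at h0
      simp only [src_mk, tgt_true] at h
      rcases h with rfl | rfl <;> simp only at h1 hq <;> omega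

/-- squares at a far face are away from the zippers -/
theorem Es_of_Dg {n : ℕ} {c : ℤ} {E : Edg} {v : Vtx} (hv : Far n v) (hz : E ∉ zp (Zn n))
    {y : ℤ × ℤ} (h : Dg (Zn n) c E (fp v) y ∨ Dg (Zn n) c E y (fp v)) : E ∈ Es n := by
  by_contra hE
  unfold Es at hE
  simp only [Set.mem_ofPred_eq, not_or, not_and_or, not_not] at hE
  obtain ⟨h1, h2⟩ := hE
  have h3 : E.1 + E.2.1 ∈ Zn n := by
    rcases h2 with h2 | h2
    · exact h2
    · exact absurd ⟨by omega, h2⟩ hz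
  obtain ⟨q, hq⟩ := Zn_iff.1 h3
  have h4 := hv q
  have key : ∀ t : ℤ, t ≤ 0 → (fp v = nrm (Zn n) (dco E) (E.1 + E.2.1) t ∨
      fp v = nrm (Zn n) (dco E) (E.1 + E.2.1 + 1) t) → False := by
    intro t ht h5
    have h6 : ¬ (E.1 + E.2.1 + 1 ∈ Zn n) := fun h6 => hz ⟨by omega, h6⟩
    rcases h5 with h5 | h5
    · unfold nrm fp at h5
      rw [if_pos ⟨by omega, h3⟩] at h5
      simp only [Prod.mk.injEq] at h5
      omega
    · unfold nrm fp at h5
      rw [if_neg (fun h7 => h6 h7.2)] at h5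
      simp only [Prod.mk.injEq] at h5
      omega
  generalize hx : fp v = x at h key
  rcases h with h | h
  · cases h with
    | rise h7 => exact key _ (by omega) (Or.inl rfl)
    | fall h7 => exact key _ (by omega) (Or.inl rfl)
  · cases h with
    | rise h7 => exact key _ (by omega) (Or.inr rfl)
    | fall h7 => exact key _ (by omega) (Or.inr rfl)

theorem LZ_far {n : ℕ} {G : Set Edg} {v : Vtx} {y : ℤ × ℤ} (hv : Far n v)
    (h : LZ (Zn n) Set.univ G (fp v) y ∨ LZ (Zn n) Set.univ G y (fp v)) :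
    ∃ (w : Vtx) (e : Edg), y = fp w ∧ pe e ∈ Es n ∧ pe e ∉ G ∧
      ((src e = v ∧ tgt e = w) ∨ (src e = w ∧ tgt e = v)) := by
  rcases h with ⟨E, -, hz, ⟨hG, hD⟩ | ⟨hG, hD⟩⟩ | ⟨E, -, hz, ⟨hG, hD⟩ | ⟨hG, hD⟩⟩
  · exfalso
    have := Dg_par0 (Es_of_Dg hv hz (Or.inl hD)) hD
    exact fp_par v this.1
  · have hE := Es_of_Dg hv hz (Or.inl hD)
    obtain ⟨e, e1, e2, e3⟩ := Dg_inv hE hD
    refine ⟨tgt e, e, e3, e1 ▸ hE, e1 ▸ hG, Or.inl ⟨(fp_inj e2).symm, rfl⟩⟩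
  · exfalso
    have := Dg_par0 (Es_of_Dg hv hz (Or.inr hD)) hD
    exact fp_par v this.2
  · have hE := Es_of_Dg hv hz (Or.inr hD)
    obtain ⟨e, e1, e2, e3⟩ := Dg_inv hE hD
    refine ⟨src e, e, e2, e1 ▸ hE, e1 ▸ hG, Or.inr ⟨rfl, (fp_inj e3).symm⟩⟩

theorem dco_lt (g : Edg) (v : Vtx) (K : ℤ) (hv : src g = v ∨ tgt g = v) (h : |v.1 - v.2| + 2 < K) :
    -K ≤ dco g ∧ dco g < K := by
  have h' := abs_le.1 (le_refl |v.1 - v.2|)
  obtain ⟨x, y, b⟩ := g
  cases b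
  · simp only [src_mk, tgt_false] at hv
    simp only [dco, Bool.false_eq_true, if_false]
    rcases hv with rfl | rfl <;> simp only at h h' <;> constructor <;> linarith [h'.1, h'.2]
  · simp only [src_mk, tgt_true] at hv
    simp only [dco, if_true]
    rcases hv with rfl | rfl <;> simp only at h h' <;> constructor <;> linarith [h'.1, h'.2]

end K

section K2

variable {N r : ℕ} {C : Cel} {n M : ℕ}

theorem near_face (e : Edg) :
    |(src e).1 - (tgt e).1| ≤ 1 ∧ |(src e).2 - (tgt e).2| ≤ 1 := by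
  obtain ⟨x, y, b⟩ := e
  cases b <;> simp

theorem U_facts (hr : 1 ≤ r) {u : Vtx} (h : ∃ e : Edg, pe e ∉ EP r (Bxs N N) ∧
      pe e ∈ EP r (TubZ N C) ∧ (src e = u ∨ tgt e = u)) :
    ¬ Bv N r N u ∧ ∃ U2 : Vtx, |u.1 - U2.1| ≤ 1 ∧ |u.2 - U2.2| ≤ 1 ∧ fl r U2 ∈ TubZ N C := by
  obtain ⟨e, h1, h2, hw⟩ := h
  obtain ⟨p1, p2, p3⟩ := pe_eq e
  rw [EP_iff r hr, p1, p2] at h1 h2
  obtain ⟨n1, n2⟩ := near_face e
  have hB : ¬ Bv N r N (src e) ∧ ¬ Bv N r N (tgt e) := by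
    unfold Bv
    tauto
  refine ⟨?_, ?_⟩
  · rcases hw with hw | hw
    · exact hw ▸ hB.1
    · exact hw ▸ hB.2
  · rcases h2 with h | h
    · refine ⟨src e, ?_, ?_, h⟩
      · rcases hw with hw | hw <;> rw [← hw]
        · simp
        · rw [abs_sub_comm]; exact n1
      · rcases hw with hw | hw <;> rw [← hw]
        · simp
        · rw [abs_sub_comm]; exact n2
    · refine ⟨tgt e, ?_, ?_, h⟩
      · rcases hw with hw | hw <;> rw [← hw]
        · exact n1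
        · simp
      · rcases hw with hw | hw <;> rw [← hw]
        · exact n2
        · simp

/-- a marked point near a far face is a face outside boxes and tube -/
theorem XA_far (hr : 1 ≤ r) {x : ℤ × ℤ} (h : XA N r C n x) {p : Vtx} (hx : x = fp p)
    (hp : Far n p) : ¬ Pv N r C p := by
  subst hx
  rcases h with ⟨s, c, hc, h⟩ | ⟨E, h1, h2, hz, y, hD⟩ | ⟨E, h1, h2, hz, y, hD⟩
  · exfalso
    have h3 := hp s
    unfold fp scz at h
    simp only [Prod.mk.injEq] at h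
    obtain ⟨h4, h5⟩ := h
    have h6 : (2 : ℤ) * n * s = 2 * (s * n) := by ring
    rw [h6] at h4
    have h7 : (c : ℤ) < 3 := by exact_mod_cast hc
    have h8 : (0 : ℤ) ≤ c := by positivity
    omega
  · have hE := Es_of_Dg hp hz hD
    have key : ∃ e : Edg, pe e = E ∧ (src e = p ∨ tgt e = p) := by
      rcases hD with hD | hD
      · obtain ⟨e, e1, e2, e3⟩ := Dg_inv hE hD
        exact ⟨e, e1, Or.inl (fp_inj e2).symm⟩
      · obtain ⟨e, e1, e2, e3⟩ := Dg_inv hE hD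
        exact ⟨e, e1, Or.inr (fp_inj e3).symm⟩
    obtain ⟨e, rfl, hw⟩ := key
    obtain ⟨p1, p2, p3⟩ := pe_eq e
    rw [EP_iff r hr, p1, p2] at h1 h2
    unfold Pv
    rintro (h | h)
    · apply h1
      rcases hw with hw | hw <;> rw [← hw] at h
      · exact Or.inl h
      · exact Or.inr h
    · apply h2
      rcases hw with hw | hw <;> rw [← hw] at h
      · exact Or.inl h
      · exact Or.inr h
  · exfalso
    have hE := Es_of_Dg hp hz hD
    rcases hD with hD | hD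
    · exact fp_par p (Dg_par0 hE hD).1
    · exact fp_par p (Dg_par0 hE hD).2

end K2

/-! ### the outer region -/

section K3

variable {N r : ℕ} {C : Cel} {n M : ℕ} {F : Finset Edg}

/-- near a face -/
def Ne (r : ℕ) (u w : Vtx) : Prop := 4 * |w.1 - u.1| ≤ 3 * r ∧ 4 * |w.2 - u.2| ≤ 3 * r

/-- the outer region -/
def R0 (N r : ℕ) (C : Cel) (u : Vtx) (D : ℤ) (w : Vtx) : Prop :=
  ¬ Pv N r C w ∧ |w.1 - w.2| ≤ D ∧ Ne r u w

theorem Pv_of_Bv {v : Vtx} (h : Bv N r N v) : Pv N r C v := Or.inl h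

theorem K_outer (hr : 1 ≤ r) (hn0 : 0 < n) (hn : n = prd N N * r)
    (hP : ∀ (z : ℤ × ℤ) (s : ℤ), z ∈ Bxs N N ∪ TubZ N C ↔ shf N N s z ∈ Bxs N N ∪ TubZ N C)
    {u : Vtx} (hfar : ∀ w, Ne r u w → Far n w) {D : ℤ} (hD : D + 1 < M) (g : Edg) (h1 : R0 N r C u D (src g)) (h2 : R0 N r C u D (tgt g)) :
    g ∈ KK N r C n M F ∩ {g | R0 N r C u D (src g) ∧ R0 N r C u D (tgt g)} := by
  refine ⟨?_, h1, h2⟩
  rw [K_iff hr hn0 hn hP]
  have h3 := h1.2.1
  rw [abs_le] at h3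
  have h4 := dco_src g
  refine ⟨Es_far g (hfar _ h1.2.2) (Or.inl rfl), by omega, by omega, ?_, fun _ _ => ⟨h1.1, h2.1⟩⟩
  rintro (h | h)
  · exact absurd (Pv_of_Bv h) h1.1
  · exact absurd (Pv_of_Bv h) h2.1

theorem Lsh (hr : 1 ≤ r) (hn0 : 0 < n) (hn : n = prd N N * r)
    (hP : ∀ (z : ℤ × ℤ) (s : ℤ), z ∈ Bxs N N ∪ TubZ N C ↔ shf N N s z ∈ Bxs N N ∪ TubZ N C)
    {u : Vtx} (hfar : ∀ w, Ne r u w → Far n w) {D : ℤ} (hD : D + 1 < M) (v v' : Vtx) (hv : ¬ Pv N r C v) (hv' : ¬ Pv N r C v')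
    (hm : ¬ Pv N r C (v'.1, v.2))
    (h1 : |v.1 / (r : ℤ) - v'.1 / r| ≤ 1) (h2 : |v.2 / (r : ℤ) - v'.2 / r| ≤ 1)
    (hd : |v.1 - v.2| + 4 * r ≤ D) (q1 : Ne r u v) (q2 : Ne r u v') :
    Reach (KK N r C n M F ∩ {g | R0 N r C u D (src g) ∧ R0 N r C u D (tgt g)}) v v' := by
  have a1 := adj_dist r hr h1
  have a2 := adj_dist r hr h2
  have hH : ∀ w : ℤ, min v.1 v'.1 ≤ w → w ≤ max v.1 v'.1 → R0 N r C u D (w, v.2) := by
    intro w h3 h4
    refine ⟨?_, ?_, ?_⟩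
    · rcases btw r hr h1 h3 h4 with h | h
      · have e : fl r (w, v.2) = fl r v := by
          unfold H12S.fl
          simp only [h]
        unfold Pv
        rw [e]
        exact hv
      · have e : fl r (w, v.2) = fl r (v'.1, v.2) := by
          unfold H12S.fl
          simp only [h]
        unfold Pv
        rw [e]
        exact hm
    · simp only
      rw [abs_le] at a1 a2 ⊢
      have := abs_le.1 (le_refl |v.1 - v.2|)
      have h5 : |w - v.1| ≤ 2 * r := by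
        rw [abs_le]
        rcases le_total v.1 v'.1 with h6 | h6
        · rw [min_eq_left h6] at h3; rw [max_eq_right h6] at h4
          constructor <;> linarith
        · rw [min_eq_right h6] at h3; rw [max_eq_left h6] at h4
          constructor <;> linarith
      rw [abs_le] at h5
      constructor <;> linarith [this.1, this.2, h5.1, h5.2]
    · refine ⟨?_, q1.2⟩
      simp only
      have k1 := q1.1
      have k2 := q2.1
      have a3 := abs_le.1 (le_refl |v.1 - u.1|)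
      have a4 := abs_le.1 (le_refl |v'.1 - u.1|)
      have : |w - u.1| ≤ max |v.1 - u.1| |v'.1 - u.1| := by
        rw [abs_le]
        rcases le_total v.1 v'.1 with h6 | h6
        · rw [min_eq_left h6] at h3; rw [max_eq_right h6] at h4
          constructor
          · linarith [le_max_left |v.1 - u.1| |v'.1 - u.1|, a3.1]
          · linarith [le_max_right |v.1 - u.1| |v'.1 - u.1|, a4.2]
        · rw [min_eq_right h6] at h3; rw [max_eq_left h6] at h4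
          constructor
          · linarith [le_max_right |v.1 - u.1| |v'.1 - u.1|, a4.1]
          · linarith [le_max_left |v.1 - u.1| |v'.1 - u.1|, a3.2]
      rcases max_choice |v.1 - u.1| |v'.1 - u.1| with h7 | h7 <;> rw [h7] at this <;> linarith
  have hV : ∀ w : ℤ, min v.2 v'.2 ≤ w → w ≤ max v.2 v'.2 → R0 N r C u D (v'.1, w) := by
    intro w h3 h4
    refine ⟨?_, ?_, ?_⟩
    · rcases btw r hr h2 h3 h4 with h | h
      · have e : fl r (v'.1, w) = fl r (v'.1, v.2) := by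
          unfold H12S.fl
          simp only [h]
        unfold Pv
        rw [e]
        exact hm
      · have e : fl r (v'.1, w) = fl r v' := by
          unfold H12S.fl
          simp only [h]
        unfold Pv
        rw [e]
        exact hv'
    · simp only
      rw [abs_le] at a1 a2 ⊢
      have := abs_le.1 (le_refl |v.1 - v.2|)
      have h5 : |w - v.2| ≤ 2 * r := by
        rw [abs_le]
        rcases le_total v.2 v'.2 with h6 | h6
        · rw [min_eq_left h6] at h3; rw [max_eq_right h6] at h4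
          constructor <;> linarith
        · rw [min_eq_right h6] at h3; rw [max_eq_left h6] at h4
          constructor <;> linarith
      rw [abs_le] at h5
      constructor <;> linarith [this.1, this.2, h5.1, h5.2]
    · refine ⟨q2.1, ?_⟩
      simp only
      have k1 := q1.2
      have k2 := q2.2
      have a3 := abs_le.1 (le_refl |v.2 - u.2|)
      have a4 := abs_le.1 (le_refl |v'.2 - u.2|)
      have : |w - u.2| ≤ max |v.2 - u.2| |v'.2 - u.2| := by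
        rw [abs_le]
        rcases le_total v.2 v'.2 with h6 | h6
        · rw [min_eq_left h6] at h3; rw [max_eq_right h6] at h4
          constructor
          · linarith [le_max_left |v.2 - u.2| |v'.2 - u.2|, a3.1]
          · linarith [le_max_right |v.2 - u.2| |v'.2 - u.2|, a4.2]
        · rw [min_eq_right h6] at h3; rw [max_eq_left h6] at h4
          constructor
          · linarith [le_max_right |v.2 - u.2| |v'.2 - u.2|, a4.1]
          · linarith [le_max_left |v.2 - u.2| |v'.2 - u.2|, a3.2]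
      rcases max_choice |v.2 - u.2| |v'.2 - u.2| with h7 | h7 <;> rw [h7] at this <;> linarith
  have p1 : Reach (KK N r C n M F ∩ {g | R0 N r C u D (src g) ∧ R0 N r C u D (tgt g)})
      (v.1, v.2) (v'.1, v.2) := by
    apply hseg
    intro w h3 h4
    apply K_outer hr hn0 hn hP hfar hD
    · exact hH w h3 h4.le
    · exact hH (w + 1) (by omega) (by omega)
  have p2 : Reach (KK N r C n M F ∩ {g | R0 N r C u D (src g) ∧ R0 N r C u D (tgt g)})
      (v'.1, v.2) (v'.1, v'.2) := by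
    apply vseg
    intro w h3 h4
    apply K_outer hr hn0 hn hP hfar hD
    · exact hV w h3 h4.le
    · exact hV (w + 1) (by omega) (by omega)
  exact p1.trans p2

theorem RR (hr : 1 ≤ r) (hn0 : 0 < n) (hn : n = prd N N * r)
    (hP : ∀ (z : ℤ × ℤ) (s : ℤ), z ∈ Bxs N N ∪ TubZ N C ↔ shf N N s z ∈ Bxs N N ∪ TubZ N C)
    (hc1 : ∀ x y : ℤ, (x, y) ∉ Bxs N N ∪ TubZ N C → (x + 1, y + 1) ∉ Bxs N N ∪ TubZ N C →
      (x + 1, y) ∉ Bxs N N ∪ TubZ N C ∨ (x, y + 1) ∉ Bxs N N ∪ TubZ N C)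
    (hc2 : ∀ x y : ℤ, (x + 1, y) ∉ Bxs N N ∪ TubZ N C → (x, y + 1) ∉ Bxs N N ∪ TubZ N C →
      (x, y) ∉ Bxs N N ∪ TubZ N C ∨ (x + 1, y + 1) ∉ Bxs N N ∪ TubZ N C)
    {u : Vtx} (hfar : ∀ w, Ne r u w → Far n w) {D : ℤ} (hD : D + 1 < M) (v v' : Vtx) (hv : ¬ Pv N r C v) (hv' : ¬ Pv N r C v')
    (h1 : |v.1 / (r : ℤ) - v'.1 / r| ≤ 1) (h2 : |v.2 / (r : ℤ) - v'.2 / r| ≤ 1)
    (hd : |v.1 - v.2| + 8 * r ≤ D) (q1 : Ne r u v) (q2 : Ne r u v') :
    Reach (KK N r C n M F ∩ {g | R0 N r C u D (src g) ∧ R0 N r C u D (tgt g)}) v v' := by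
  have hr0 : (0 : ℤ) < r := by exact_mod_cast hr
  have a1 := adj_dist r hr h1
  have a2 := adj_dist r hr h2
  have hd' : |v'.1 - v'.2| + 4 * r ≤ D := by
    have h3 := abs_le.1 (le_refl |v.1 - v.2|)
    rw [abs_le] at a1 a2
    have : |v'.1 - v'.2| ≤ |v.1 - v.2| + 4 * r := by
      rw [abs_le]
      constructor <;> linarith [h3.1, h3.2, a1.1, a1.2, a2.1, a2.2]
    linarith
  have key : ¬ Pv N r C (v'.1, v.2) ∨ ¬ Pv N r C (v.1, v'.2) := by
    have ha := hv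
    have hb := hv'
    unfold Pv H12S.fl at ha hb ⊢
    simp only at ha hb ⊢
    rw [abs_le] at h1 h2
    set a := v.1 / (r : ℤ)
    set b := v.2 / (r : ℤ)
    set a' := v'.1 / (r : ℤ)
    set b' := v'.2 / (r : ℤ)
    by_cases e1 : a = a'
    · left; rw [← e1]; exact ha
    by_cases e2 : b = b'
    · left; rw [e2]; exact hb
    by_cases e3 : a' = a + 1
    · by_cases e4 : b' = b + 1
      · rw [e3, e4] at hb ⊢
        exact hc1 a b ha hb
      · have e5 : b = b' + 1 := by omega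
        rw [e3] at hb ⊢
        rw [e5] at ha ⊢
        exact (hc2 a b' hb ha).symm
    · have e6 : a = a' + 1 := by omega
      by_cases e4 : b' = b + 1
      · rw [e6] at ha ⊢
        rw [e4] at hb ⊢
        exact hc2 a' b ha hb
      · have e5 : b = b' + 1 := by omega
        rw [e6, e5] at ha ⊢
        exact (hc1 a' b' hb ha).symm
  rcases key with h | h
  · exact Lsh hr hn0 hn hP hfar hD v v' hv hv' h h1 h2 (by linarith) q1 q2
  · refine (Lsh hr hn0 hn hP hfar hD v' v hv' hv h ?_ ?_ hd' q2 q1).symm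
    · rw [abs_sub_comm]; exact h1
    · rw [abs_sub_comm]; exact h2

end K3

/-! ### the context -/

structure Ctx (N r ρ l : ℕ) (C : Cel) (n M : ℕ) (F : Finset Edg) : Prop where
  hN : 16 ≤ N
  hl : 1 ≤ l
  hlρ : 32 * l ≤ ρ
  hρr : 32 * ρ ≤ r
  hn : n = prd N N * r
  hM : M = 4 * n
  hF : F ⊆ CE n M
  hbad : ¬ Bad 1 N r ρ l (prd N N) n M F
  hP : ∀ (z : ℤ × ℤ) (s : ℤ), z ∈ Bxs N N ∪ TubZ N C ↔ shf N N s z ∈ Bxs N N ∪ TubZ N C
  hc1 : ∀ x y : ℤ, (x, y) ∉ Bxs N N ∪ TubZ N C → (x + 1, y + 1) ∉ Bxs N N ∪ TubZ N C →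
      (x + 1, y) ∉ Bxs N N ∪ TubZ N C ∨ (x, y + 1) ∉ Bxs N N ∪ TubZ N C
  hc2 : ∀ x y : ℤ, (x + 1, y) ∉ Bxs N N ∪ TubZ N C → (x, y + 1) ∉ Bxs N N ∪ TubZ N C →
      (x, y) ∉ Bxs N N ∪ TubZ N C ∨ (x + 1, y + 1) ∉ Bxs N N ∪ TubZ N C
  hband : ∀ z ∈ Bxs N N ∪ TubZ N C, |z.1 - z.2| ≤ 3 * N + 2
  htube : ∀ z ∈ TubZ N C, ∀ s : ℤ, (N : ℤ) ≤ (shf N N s z).1 - (shf N N s z).2 ∨
    (shf N N s z).1 + (shf N N s z).2 ≤ -6 ∨ 5 ≤ (shf N N s z).1 + (shf N N s z).2

section C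

variable {N r ρ l : ℕ} {C : Cel} {n M : ℕ} {F : Finset Edg}

theorem Ctx.r1 (h : Ctx N r ρ l C n M F) : 1024 ≤ r := by
  have := h.hl; have := h.hlρ; have := h.hρr
  omega

theorem Ctx.ν1 (_h : Ctx N r ρ l C n M F) : 20 * N = prd N N := by
  unfold prd; ring

theorem Ctx.nZ (h : Ctx N r ρ l C n M F) : (n : ℤ) = prd N N * r := by exact_mod_cast h.hn

theorem Ctx.n1 (h : Ctx N r ρ l C n M F) : (prd N N : ℤ) * 1024 ≤ n ∧ 24 * (r : ℤ) ≤ n ∧
    56 ≤ (prd N N : ℤ) ∧ (prd N N : ℤ) * r = n := by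
  have h1 := h.r1
  have h2 := h.ν1
  have h3 := h.hN
  have h5 := h.nZ
  have h6 : (56 : ℤ) ≤ (prd N N : ℤ) := by
    have : 56 ≤ prd N N := by omega
    exact_mod_cast this
  have h7 : (1024 : ℤ) ≤ r := by exact_mod_cast h1
  rw [h5]
  refine ⟨by nlinarith, by nlinarith, h6, rfl⟩

/-- at distance about `4 r` from the slits -/
def Fr (n r : ℕ) (U : Vtx) : Prop := ∀ s : ℤ, 4 * (r : ℤ) - 4 ≤ U.1 - U.2 ∨
  U.1 + U.2 - 2 * (s * n) ≤ -(4 * r) + 4 ∨ 4 * (r : ℤ) - 4 ≤ U.1 + U.2 - 2 * (s * n)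

/-- vertices near a face of a tube -/
theorem near_ok (h : Ctx N r ρ l C n M F) {U : Vtx} (hU : Fr n r U)
    (hb : |U.1 - U.2| + 16 * r ≤ 2 * n) (v : Vtx) (h1 : 4 * |v.1 - U.1| ≤ 3 * r)
    (h2 : 4 * |v.2 - U.2| ≤ 3 * r) :
    |v.1 - v.2| + 2 < M ∧ Far n v := by
  obtain ⟨n1, n2, n3, n4⟩ := h.n1
  have hM : (M : ℤ) = 4 * n := by exact_mod_cast h.hM
  have hr : (1024 : ℤ) ≤ r := by exact_mod_cast h.r1
  have a1 := abs_le.1 (le_refl |v.1 - U.1|)
  have a2 := abs_le.1 (le_refl |v.2 - U.2|)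
  have a3 := abs_le.1 (le_refl |U.1 - U.2|)
  constructor
  · rw [hM]
    have : |v.1 - v.2| ≤ |U.1 - U.2| + 2 * r := by
      rw [abs_le]
      constructor <;> linarith [a1.1, a1.2, a2.1, a2.2, a3.1, a3.2]
    linarith
  · intro s
    have hρr : 32 * (ρ : ℤ) ≤ r := by exact_mod_cast h.hρr
    rcases hU s with h3 | h3 | h3
    · left
      linarith [a1.1, a1.2, a2.1, a2.2]
    · right; left
      linarith [a1.1, a1.2, a2.1, a2.2]
    · right; right
      linarith [a1.1, a1.2, a2.1, a2.2]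

theorem Ctx.kn (h : Ctx N r ρ l C n M F) : 1 ≤ n ∧ 1 ≤ n := by
  obtain ⟨n1, n2, n3, n4⟩ := h.n1
  have : (1 : ℤ) ≤ n := by linarith
  exact ⟨by exact_mod_cast this, by exact_mod_cast this⟩

/-- a boundary point connected to a marked point -/
structure Pnt (N r : ℕ) (C : Cel) (n M : ℕ) (F : Finset Edg) (u : Vtx) (x : ℤ × ℤ) :
    Prop where
  nB : ¬ Bv N r N u
  dg : Fr n r u
  band : |u.1 - u.2| + 16 * r ≤ 2 * n
  mark : XA N r C n x
  con : RA N r C n M F x (fp u)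

/-- exit -/
theorem exit' (h : Ctx N r ρ l C n M F) {u : Vtx} {x : ℤ × ℤ}
    (hp : Pnt N r C n M F u x) (P : Vtx → Prop) (hPu : P u) (hPp : ∀ p, x = fp p → ¬ P p)
    (hPn : ∀ v, P v → 4 * |v.1 - u.1| ≤ 3 * r ∧ 4 * |v.2 - u.2| ≤ 3 * r) :
    ∃ v w : Vtx, Reach (KK N r C n M F ∩ {e | P (src e) ∧ P (tgt e)}) u v ∧ P v ∧ ¬ P w ∧
      ∃ e ∈ KK N r C n M F, (src e = v ∧ tgt e = w) ∨ (src e = w ∧ tgt e = v) := by
  by_contra hcon
  have hok : ∀ v, P v → |v.1 - v.2| + 2 < M ∧ Far n v := fun v hv =>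
    near_ok h hp.dg hp.band v (hPn v hv).1 (hPn v hv).2
  have hdl : ∀ e : Edg, pe e ∈ Es n → pe e ∉ per n (FA N r C n M F) → P (src e) ∨ P (tgt e) →
      e ∈ KK N r C n M F := by
    intro e he1 he2 hor
    refine ⟨?_, he1⟩
    rw [mem_Cc]
    have hb : -(M : ℤ) ≤ dco e ∧ dco e < M := by
      rcases hor with h1 | h1
      · exact dco_lt e (src e) M (Or.inl rfl) (hok _ h1).1
      · exact dco_lt e (tgt e) M (Or.inr rfl) (hok _ h1).1
    exact ⟨hb.1, hb.2, he2⟩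
  set T : ℤ × ℤ → Prop := fun z => ∃ v, z = fp v ∧
    Reach (KK N r C n M F ∩ {e | P (src e) ∧ P (tgt e)}) u v ∧ P v with hT
  have step : ∀ a b, (LZ (Zn n) Set.univ (per n (FA N r C n M F)) a b ∨
      LZ (Zn n) Set.univ (per n (FA N r C n M F)) b a) → T a → T b := by
    rintro a b hab ⟨v, rfl, hv1, hv2⟩
    obtain ⟨w, e, rfl, he1, he2, hew⟩ := LZ_far (hok v hv2).2 hab
    have heK : e ∈ KK N r C n M F := by
      refine hdl e he1 he2 ?_
      rcases hew with ⟨h1, h2⟩ | ⟨h1, h2⟩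
      · exact Or.inl (h1 ▸ hv2)
      · exact Or.inr (h2 ▸ hv2)
    by_cases hw : P w
    · refine ⟨w, rfl, hv1.trans (Relation.ReflTransGen.single ⟨e, ⟨heK, ?_⟩, hew⟩), hw⟩
      rcases hew with ⟨h1, h2⟩ | ⟨h1, h2⟩
      · exact ⟨h1 ▸ hv2, h2 ▸ hw⟩
      · exact ⟨h1 ▸ hw, h2 ▸ hv2⟩
    · exact absurd ⟨v, w, hv1, hv2, hw, e, heK, hew⟩ hcon
  have key : ∀ a b, RA N r C n M F a b → (T a ↔ T b) := by
    intro a b hab
    induction hab with
    | rel a b hab => exact ⟨step a b (Or.inl hab), step b a (Or.inr hab)⟩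
    | refl a => exact Iff.rfl
    | symm a b _ ih => exact ih.symm
    | trans a b c _ _ ih1 ih2 => exact ih1.trans ih2
  obtain ⟨p, hp1, hp2, hp3⟩ := (key _ _ hp.con).2 ⟨u, rfl, Reach.refl _ _, hPu⟩
  exact hPp p hp1 hp3

/-- lift -/
theorem lift' {P : Vtx → Prop} {u y : Vtx}
    (hR : Reach (KK N r C n M F ∩ {e | P (src e) ∧ P (tgt e)}) u y) :
    RA N r C n M F (fp u) (fp y) := by
  induction hR with
  | refl => exact Relation.EqvGen.refl _
  | @tail a b hab hb ih =>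
    refine ih.trans _ _ _ ?_
    obtain ⟨e, ⟨⟨he1, he2⟩, -⟩, hab'⟩ := hb
    rw [mem_Cc] at he1
    have hd : LZ (Zn n) Set.univ (per n (FA N r C n M F)) (fp (src e)) (fp (tgt e)) :=
      ⟨pe e, Set.mem_univ _, Es_zp he2, Or.inr ⟨he1.2.2, Dg_pe e he2⟩⟩
    rcases hab' with ⟨h1, h2⟩ | ⟨h1, h2⟩
    · rw [h1, h2] at hd
      exact Relation.EqvGen.rel _ _ hd
    · rw [h1, h2] at hd
      exact Relation.EqvGen.symm _ _ (Relation.EqvGen.rel _ _ hd)

theorem outer (h : Ctx N r ρ l C n M F) {u : Vtx} {p : ℤ × ℤ} (hp : Pnt N r C n M F u p)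
    {y y' : Vtx} (hv : ¬ Pv N r C y)
    (hv' : ¬ Pv N r C y')
    (h1 : |y.1 / (r : ℤ) - y'.1 / r| ≤ 1) (h2 : |y.2 / (r : ℤ) - y'.2 / r| ≤ 1)
    (hb : |y.1 - y.2| + 12 * r ≤ 2 * n) (q1 : Ne r u y) (q2 : Ne r u y') :
    RA N r C n M F (fp y) (fp y') := by
  obtain ⟨n1, n2⟩ := h.kn
  obtain ⟨m1, m2, m3, m4⟩ := h.n1
  have hM : (M : ℤ) = 4 * n := by exact_mod_cast h.hM
  have hr : (1024 : ℤ) ≤ r := by exact_mod_cast h.r1
  have hr1 : 1 ≤ r := by have := h.r1; omega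
  have hR := RR (F := F) (M := M) hr1 (by omega) h.hn h.hP h.hc1 h.hc2
    (fun w hw => (near_ok h hp.dg hp.band w hw.1 hw.2).2) (D := (M : ℤ) - 3)
    (by linarith) y y' hv hv' h1 h2 (by linarith) q1 q2
  exact lift' hR

theorem zeta_ok (h : Ctx N r ρ l C n M F) {U : Vtx} (hB : ¬ Bv N r N U) (hU : Pv N r C U)
    {ζ : ℤ × ℤ} (hz : QQ r ζ U) : |ζ.1 - ζ.2| ≤ 2 * (prd N N : ℤ) ∧
      ∀ s : ℤ, (N : ℤ) ≤ |ζ.1 - s * prd N N| ∨ (N : ℤ) ≤ |ζ.2 - s * prd N N| := by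
  have hr1 : 1 ≤ r := by have := h.r1; omega
  obtain ⟨h1, h2⟩ := QQ_div hr1 hz
  obtain ⟨m1, m2, m3, m4⟩ := h.n1
  have hν : (20 : ℤ) * N = prd N N := by exact_mod_cast h.ν1
  have hN2 : (16 : ℤ) ≤ N := by exact_mod_cast h.hN
  have hb := h.hband _ hU
  unfold H12S.fl at hb
  simp only at hb
  rw [abs_le] at hb
  constructor
  · rw [abs_le]; omega
  · intro s
    by_contra hcon
    push Not at hcon
    obtain ⟨h3, h4⟩ := hcon
    apply hB
    refine ⟨s, ?_⟩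
    simp only [BxS, shf, H12S.fl, Set.mem_ofPred_eq]
    rw [abs_lt] at h3 h4
    omega

/-- everything near a coarse vertex near a tube is near the face -/
theorem QQ_near (h : Ctx N r ρ l C n M F) {ζ : ℤ × ℤ} {u v : Vtx}
    (hz : nz r (4 * ρ) ζ u) (hv : QQ r ζ v) : Ne r u v := by
  have hr : (1024 : ℤ) ≤ r := by exact_mod_cast h.r1
  have hρ : (32 : ℤ) * ρ ≤ r := by exact_mod_cast h.hρr
  obtain ⟨⟨h1, h2⟩, h3, h4⟩ := hv
  obtain ⟨h9, h10⟩ := hz
  have a1 := abs_le.1 h9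
  have a2 := abs_le.1 h10
  have hr2 : 2 * ((r / 2 : ℕ) : ℤ) ≤ r := by push_cast; omega
  constructor
  · have : |v.1 - u.1| ≤ (r / 2 : ℕ) + 4 * ρ := by
      rw [abs_le]; constructor <;> linarith [a1.1, a1.2]
    linarith
  · have : |v.2 - u.2| ≤ (r / 2 : ℕ) + 4 * ρ := by
      rw [abs_le]; constructor <;> linarith [a2.1, a2.2]
    linarith

theorem QQ_band (h : Ctx N r ρ l C n M F) {ζ : ℤ × ℤ} {U v : Vtx} (hU : QQ r ζ U)
    (hb : |U.1 - U.2| + 16 * r ≤ 2 * n) (hv : QQ r ζ v) : |v.1 - v.2| + 12 * r ≤ 2 * n := by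
  have hr : (1024 : ℤ) ≤ r := by exact_mod_cast h.r1
  obtain ⟨⟨h1, h2⟩, h3, h4⟩ := hU
  obtain ⟨⟨h5, h6⟩, h7, h8⟩ := hv
  have a3 := abs_le.1 (le_refl |U.1 - U.2|)
  have : 2 * ((r / 2 : ℕ) : ℤ) ≤ r := by push_cast; omega
  have : |v.1 - v.2| ≤ |U.1 - U.2| + 4 * r := by
    rw [abs_le]
    constructor <;> linarith [a3.1, a3.2]
  linarith

/-- near a coarse vertex the cluster reaches the outer region -/
theorem lemE (h : Ctx N r ρ l C n M F) {u : Vtx} {p : ℤ × ℤ}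
    (hp : Pnt N r C n M F u p) (hU : Pv N r C u) (ζ : ℤ × ℤ)
    (hz : nz r (4 * ρ) ζ u) : ∃ y : Vtx, ¬ Pv N r C y ∧
      QQ r ζ y ∧ RA N r C n M F (fp u) (fp y) := by
  have hρ := h.hρr
  have hlρ := h.hlρ
  have hl := h.hl
  have hr := h.r1
  have hr1 : 1 ≤ r := by omega
  obtain ⟨n1, n2⟩ := h.kn
  have hQu : QQ r ζ u := nz_QQ hz (by push_cast; omega)
  have hnear : ∀ v, QQ r ζ v → 4 * |v.1 - u.1| ≤ 3 * r ∧ 4 * |v.2 - u.2| ≤ 3 * r := by
    rintro v ⟨⟨h1, h2⟩, h3, h4⟩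
    obtain ⟨h5, h6⟩ := hz
    have h5' := abs_le.1 h5
    have h6' := abs_le.1 h6
    have hr2 : 2 * ((r / 2 : ℕ) : ℤ) ≤ r := by push_cast; omega
    have hρ' : (32 : ℤ) * ρ ≤ r := by exact_mod_cast hρ
    constructor
    · have : |v.1 - u.1| ≤ (r / 2 : ℕ) + 4 * ρ := by
        rw [abs_le]; constructor <;> linarith [h5'.1, h5'.2]
      linarith
    · have : |v.2 - u.2| ≤ (r / 2 : ℕ) + 4 * ρ := by
        rw [abs_le]; constructor <;> linarith [h6'.1, h6'.2]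
      linarith
  by_cases hq : ∃ q : Vtx, p = fp q ∧ QQ r ζ q
  · obtain ⟨q, hpq, hq⟩ := hq
    refine ⟨q, ?_, hq, ?_⟩
    · have h4 := hnear _ hq
      have h5 := (near_ok h hp.dg hp.band _ h4.1 h4.2).2
      exact XA_far hr1 hp.mark hpq h5
    · rw [← hpq]
      exact Relation.EqvGen.symm _ _ hp.con
  · obtain ⟨v, w, hR, hv, hw, e, he, hew⟩ := exit' h hp (QQ r ζ) hQu
      (fun q h1 h2 => hq ⟨q, h1, h2⟩) hnear
    have key : ∀ v, Reach (KK N r C n M F ∩ {e | QQ r ζ (src e) ∧ QQ r ζ (tgt e)}) u v →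
        (∃ g, Reach (KK N r C n M F ∩ {e | QQ r ζ (src e) ∧ QQ r ζ (tgt e)}) u g ∧
          ¬ Pv N r C g ∧ QQ r ζ g) ∨ (Reach (Cc 1 n M F) u v ∧ Pv N r C v) := by
      intro v hR
      induction hR with
      | refl => exact Or.inr ⟨Reach.refl _ _, hU⟩
      | @tail a b hab hb ih =>
        rcases ih with ih | ⟨ih1, ih2⟩
        · exact Or.inl ih
        · obtain ⟨e, ⟨he1, he2, he3⟩, hab'⟩ := hb
          by_cases hbP : Pv N r C b
          · right
            refine ⟨ih1.trans (Relation.ReflTransGen.single ⟨e, ?_, hab'⟩), hbP⟩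
            obtain ⟨-, k1, k2, k3, k4⟩ := (K_iff hr1 (by omega) h.hn h.hP e).1 he1
            rw [mem_Cc]
            refine ⟨k1, k2, k3 ?_⟩
            by_contra hcon
            push Not at hcon
            have k5 := k4 hcon.1 hcon.2
            rcases hab' with ⟨h1, h2⟩ | ⟨h1, h2⟩
            · exact k5.1 (h1 ▸ ih2)
            · exact k5.2 (h2 ▸ ih2)
          · left
            refine ⟨b, hab.trans (Relation.ReflTransGen.single ⟨e, ⟨he1, he2, he3⟩, hab'⟩), hbP, ?_⟩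
            rcases hab' with ⟨h1, h2⟩ | ⟨h1, h2⟩
            · exact h2 ▸ he3
            · exact h1 ▸ he2
    rcases key v hR with ⟨g, hg1, hg2, hg3⟩ | ⟨hv1, hv2⟩
    · exact ⟨g, hg2, hg3, lift' hg1⟩
    · exfalso
      apply h.hbad
      left
      obtain ⟨z1, z2⟩ := zeta_ok h hp.nB hU hQu
      refine ⟨ζ, z1, z2, u, w, ?_, ?_, ?_⟩
      · obtain ⟨h5, h6⟩ := hz
        rw [abs_le] at h5 h6
        unfold inR
        push_cast
        refine ⟨⟨by linarith, by linarith⟩, by linarith, by linarith⟩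
      · by_contra hcon
        apply hw
        push Not at hcon
        obtain ⟨h5, h6, h7, h8⟩ := hcon
        exact ⟨⟨h5, h6⟩, h7, h8⟩
      · refine hv1.trans (Relation.ReflTransGen.single ⟨e, ?_, hew⟩)
        obtain ⟨-, k1, k2, k3, k4⟩ := (K_iff hr1 (by omega) h.hn h.hP e).1 he
        rw [mem_Cc]
        refine ⟨k1, k2, k3 ?_⟩
        by_contra hcon
        push Not at hcon
        have k5 := k4 hcon.1 hcon.2
        rcases hew with ⟨h1, h2⟩ | ⟨h1, h2⟩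
        · exact k5.1 (h1 ▸ hv2)
        · exact k5.2 (h2 ▸ hv2)

theorem RA_chain {p u y y' u' p' : ℤ × ℤ} (h1 : RA N r C n M F p u)
    (h2 : RA N r C n M F u y) (h3 : RA N r C n M F y y')
    (h4 : RA N r C n M F u' y') (h5 : RA N r C n M F p' u') :
    RA N r C n M F p p' :=
  (((h1.trans _ _ _ h2).trans _ _ _ h3).trans _ _ _ (Relation.EqvGen.symm _ _ h4)).trans _ _ _
    (Relation.EqvGen.symm _ _ h5)

/-- both near a coarse vertex -/
theorem two (h : Ctx N r ρ l C n M F) {u u' : Vtx} {p p' : ℤ × ℤ}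
    (hp : Pnt N r C n M F u p) (hp' : Pnt N r C n M F u' p')
    (hU : Pv N r C u) (hU' : Pv N r C u') (ζ : ℤ × ℤ)
    (hz : nz r (4 * ρ) ζ u) (hz' : nz r (4 * ρ) ζ u') :
    RA N r C n M F p p' := by
  have hρ := h.hρr
  have hr := h.r1
  have hr1 : 1 ≤ r := by omega
  obtain ⟨y, y2, y3, y4⟩ := lemE h hp hU ζ hz
  obtain ⟨y', y2', y3', y4'⟩ := lemE h hp' hU' ζ hz'
  refine RA_chain hp.con y4 (outer h hp y2 y2' ?_ ?_ ?_ (QQ_near h hz y3)
    (QQ_near h hz y3')) y4' hp'.con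
  · have a1 := (QQ_div hr1 y3).1
    have a2 := (QQ_div hr1 y3').1
    rw [abs_le]; omega
  · have a1 := (QQ_div hr1 y3).2
    have a2 := (QQ_div hr1 y3').2
    rw [abs_le]; omega
  · exact QQ_band h (nz_QQ hz (by push_cast; omega)) hp.band y3

/-- one near a coarse vertex, the other in the outer region -/
theorem mixed (h : Ctx N r ρ l C n M F) {u u' : Vtx} {p p' : ℤ × ℤ}
    (hp : Pnt N r C n M F u p) (hp' : Pnt N r C n M F u' p')
    (hU : Pv N r C u) (hU' : ¬ Pv N r C u') (ζ : ℤ × ℤ)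
    (hz : nz r (4 * ρ) ζ u) (hz' : nz r (4 * ρ) ζ u') :
    RA N r C n M F p p' := by
  have hρ := h.hρr
  have hr := h.r1
  have hr1 : 1 ≤ r := by omega
  obtain ⟨y, y2, y3, y4⟩ := lemE h hp hU ζ hz
  have y3' : QQ r ζ u' := nz_QQ hz' (by push_cast; omega)
  refine RA_chain hp.con y4 (outer h hp y2 hU' ?_ ?_ ?_ (QQ_near h hz y3)
    (QQ_near h hz y3')) (Relation.EqvGen.refl _) hp'.con
  · have a1 := (QQ_div hr1 y3).1
    have a2 := (QQ_div hr1 y3').1
    rw [abs_le]; omega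
  · have a1 := (QQ_div hr1 y3).2
    have a2 := (QQ_div hr1 y3').2
    rw [abs_le]; omega
  · exact QQ_band h (nz_QQ hz (by push_cast; omega)) hp.band y3

/-! ### the neighbour of a tube face in a box -/

theorem nb (h : Ctx N r ρ l C n M F) {u : Vtx} {p : ℤ × ℤ}
    (hp : Pnt N r C n M F u p) (hU : Pv N r C u) :
    ∃ w : Vtx, Bv N r N w ∧ (∃ e ∈ KK N r C n M F, (src e = u ∧ tgt e = w) ∨
      (src e = w ∧ tgt e = u)) := by
  have hr1 : 1 ≤ r := by have := h.r1; omega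
  obtain ⟨n1, n2⟩ := h.kn
  have hr : (1024 : ℤ) ≤ r := by exact_mod_cast h.r1
  have hne : ∀ q, p = fp q → ¬ (q = u) := by
    rintro q h1 rfl
    exact XA_far hr1 hp.mark h1 (near_ok h hp.dg hp.band q (by simp) (by simp)).2 hU
  obtain ⟨v, w, hR, hv, hw, e, he, hew⟩ := exit' h hp (fun v => v = u) rfl hne
    (fun v hv => by rw [hv]; simp)
  subst hv
  refine ⟨w, ?_, e, he, hew⟩
  by_contra hB
  obtain ⟨-, k1, k2, k3, k4⟩ := (K_iff hr1 (by omega) h.hn h.hP e).1 he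
  rcases hew with ⟨h1, h2⟩ | ⟨h1, h2⟩
  · have := k4 (by rw [h1]; exact hp.nB) (by rw [h2]; exact hB)
    rw [h1] at this
    exact this.1 hU
  · have := k4 (by rw [h1]; exact hB) (by rw [h2]; exact hp.nB)
    rw [h2] at this
    exact this.2 hU

end C

/-! ### half balls -/

section D

variable {N r ρ l : ℕ} {C : Cel} {n M : ℕ} {F : Finset Edg}

theorem KC (h : Ctx N r ρ l C n M F) {e : Edg} (he : e ∈ KK N r C n M F)
    (hB : Bv N r N (src e) ∨ Bv N r N (tgt e)) : e ∈ Cc 1 n M F := by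
  obtain ⟨n1, n2⟩ := h.kn
  obtain ⟨-, k1, k2, k3, k4⟩ := (K_iff (by have := h.r1; omega) (by omega) h.hn h.hP e).1 he
  rw [mem_Cc]
  exact ⟨k1, k2, k3 hB⟩

theorem CK (h : Ctx N r ρ l C n M F) {e : Edg} (he : e ∈ Cc 1 n M F) (hd : pe e ∈ Es n)
    (hB : Bv N r N (src e) ∨ Bv N r N (tgt e)) : e ∈ KK N r C n M F := by
  obtain ⟨n1, n2⟩ := h.kn
  rw [mem_Cc] at he
  refine (K_iff (by have := h.r1; omega) (by omega) h.hn h.hP e).2
    ⟨hd, he.1, he.2.1, fun _ => he.2.2, ?_⟩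
  intro h1 h2
  rcases hB with h3 | h3
  · exact absurd h3 h1
  · exact absurd h3 h2

/-- a half ball below a cell -/
structure HBc (N r : ℕ) (C : Cel) (d : Dir) (x0 y0 : ℤ) (ρ : ℕ) : Prop where
  ball : ∀ v, bal d x0 y0 ρ v → Bv N r N v
  row : ∀ v, (-(ρ : ℤ) - 1 ≤ tc d x0 y0 v ∧ tc d x0 y0 v ≤ ρ + 1) →
    (hc d x0 y0 v = -1 ∨ hc d x0 y0 v = -2) → Pv N r C v ∧ ¬ Bv N r N v

theorem pj_reach (h : Ctx N r ρ l C n M F) {d : Dir} {x0 y0 : ℤ} (hb : HBc N r C d x0 y0 ρ)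
    {a b : Vtx} (hR : Reach (KK N r C n M F ∩ {e | bp d x0 y0 ρ (src e) ∧ bp d x0 y0 ρ (tgt e)}) a b) :
    Reach (Cc 1 n M F ∩ ↑(hbE d x0 y0 ρ)) (pj d x0 y0 a) (pj d x0 y0 b) := by
  obtain ⟨n1, n2⟩ := h.kn
  have key : ∀ e ∈ KK N r C n M F, bp d x0 y0 ρ (src e) → bp d x0 y0 ρ (tgt e) →
      Reach (Cc 1 n M F ∩ ↑(hbE d x0 y0 ρ)) (pj d x0 y0 (src e)) (pj d x0 y0 (tgt e)) := by
    intro e he h1 h2
    obtain ⟨-, k1, k2, k3, k4⟩ := (K_iff (by have := h.r1; omega) (by omega) h.hn h.hP e).1 he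
    have hadj := adj_c d x0 y0 e
    unfold pj
    by_cases c1 : hc d x0 y0 (src e) = -1
    · by_cases c2 : hc d x0 y0 (tgt e) = -1
      · exfalso
        have r1 := hb.row (src e) ⟨by linarith [h1.1.1], by linarith [h1.1.2]⟩ (Or.inl c1)
        have r2 := hb.row (tgt e) ⟨by linarith [h2.1.1], by linarith [h2.1.2]⟩ (Or.inl c2)
        exact (k4 r1.2 r2.2).1 r1.1
      · rw [if_pos c1, if_neg c2]
        have e1 : inn d (src e) = tgt e := by
          obtain ⟨i1, i2⟩ := inn_c d x0 y0 (src e)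
          apply ext_c d x0 y0
          · rw [i1]; obtain ⟨-, h3, -⟩ := h2; omega
          · rw [i2]; obtain ⟨-, h3, -⟩ := h2; omega
        rw [e1]
        exact Reach.refl _ _
    · by_cases c2 : hc d x0 y0 (tgt e) = -1
      · rw [if_neg c1, if_pos c2]
        have e1 : inn d (tgt e) = src e := by
          obtain ⟨i1, i2⟩ := inn_c d x0 y0 (tgt e)
          apply ext_c d x0 y0
          · rw [i1]; obtain ⟨-, h3, -⟩ := h1; omega
          · rw [i2]; obtain ⟨-, h3, -⟩ := h1; omega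
        rw [e1]
        exact Reach.refl _ _
      · rw [if_neg c1, if_neg c2]
        have b1 : bal d x0 y0 ρ (src e) := ⟨h1.1, by obtain ⟨-, h3, h4⟩ := h1; omega, h1.2.2⟩
        have b2 : bal d x0 y0 ρ (tgt e) := ⟨h2.1, by obtain ⟨-, h3, h4⟩ := h2; omega, h2.2.2⟩
        refine Relation.ReflTransGen.single ⟨e, ⟨KC h he (Or.inl (hb.ball _ b1)), ?_⟩, Or.inl ⟨rfl, rfl⟩⟩
        rw [Finset.mem_coe, hb_iff]
        exact ⟨b1, b2⟩
  induction hR with
  | refl => exact Reach.refl _ _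
  | tail _ hs ih =>
    refine ih.trans ?_
    obtain ⟨e, ⟨he1, he2, he3⟩, ⟨h1, h2⟩ | ⟨h1, h2⟩⟩ := hs
    · rw [← h1, ← h2]
      exact key e he1 he2 he3
    · rw [← h1, ← h2]
      exact (key e he1 he2 he3).symm

theorem bp_near (h : Ctx N r ρ l C n M F) {u : Vtx} {d : Dir} {x0 y0 : ℤ}
    (ht : -(ρ : ℤ) ≤ tc d x0 y0 u ∧ tc d x0 y0 u ≤ ρ) (hh : hc d x0 y0 u = -1) {v : Vtx}
    (hv : bp d x0 y0 ρ v) : 4 * |v.1 - u.1| ≤ 3 * r ∧ 4 * |v.2 - u.2| ≤ 3 * r := by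
  have hρ' : (32 : ℤ) * ρ ≤ r := by exact_mod_cast h.hρr
  have hrr : (1024 : ℤ) ≤ r := by exact_mod_cast h.r1
  have hdc := dist_c d x0 y0 v u (2 * ρ + 1)
    (by
      rw [abs_le]
      obtain ⟨⟨a1, a2⟩, -⟩ := hv
      obtain ⟨a3, a4⟩ := ht
      constructor <;> omega)
    (by
      rw [abs_le, hh]
      obtain ⟨-, a1, a2⟩ := hv
      constructor <;> omega)
  constructor
  · linarith [hdc.1]
  · linarith [hdc.2]

/-- the cluster of a tube face reaches the rim -/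
theorem to_rim (h : Ctx N r ρ l C n M F) {u : Vtx} {p : ℤ × ℤ}
    (hp : Pnt N r C n M F u p) {d : Dir} {x0 y0 : ℤ} (hb : HBc N r C d x0 y0 ρ)
    (ht : -(ρ : ℤ) ≤ tc d x0 y0 u ∧ tc d x0 y0 u ≤ ρ)
    (hh : hc d x0 y0 u = -1) :
    (∃ b ∈ rimE d x0 y0 ρ, Reach (Cc 1 n M F ∩ ↑(hbE d x0 y0 ρ)) (inn d u) b) ∧
      (∃ e ∈ KK N r C n M F, (src e = u ∧ tgt e = inn d u) ∨
        (src e = inn d u ∧ tgt e = u)) := by
  obtain ⟨n1, n2⟩ := h.kn
  have hρ := h.hρr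
  have hr1 : 1 ≤ r := by have := h.r1; omega
  have hrow := hb.row u ⟨by linarith [ht.1], by linarith [ht.2]⟩ (Or.inl hh)
  constructor
  · have hPu : bp d x0 y0 ρ u := ⟨ht, by rw [hh], by rw [hh]; omega⟩
    have hnear : ∀ v, bp d x0 y0 ρ v → 4 * |v.1 - u.1| ≤ 3 * r ∧ 4 * |v.2 - u.2| ≤ 3 * r :=
      fun v hv => bp_near h ht hh hv
    have hPp : ∀ q, p = fp q → ¬ bp d x0 y0 ρ q := by
      intro q hpq hv
      have h4 := hnear _ hv
      have h5 := (near_ok h hp.dg hp.band _ h4.1 h4.2).2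
      apply XA_far hr1 hp.mark hpq h5
      by_cases c1 : hc d x0 y0 q = -1
      · exact (hb.row _ ⟨by linarith [hv.1.1], by linarith [hv.1.2]⟩ (Or.inl c1)).1
      · exact Pv_of_Bv (hb.ball _ ⟨hv.1, by obtain ⟨-, h3, h4⟩ := hv; omega, hv.2.2⟩)
    obtain ⟨v, w, hR, hv, hw, e, he, hew⟩ := exit' h hp (bp d x0 y0 ρ) hPu hPp hnear
    have hv1 : hc d x0 y0 v ≠ -1 := by
      intro c1
      have rv := hb.row v ⟨by linarith [hv.1.1], by linarith [hv.1.2]⟩ (Or.inl c1)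
      have hadj := adj_c d x0 y0 e
      have hw2 : hc d x0 y0 w = -1 ∨ hc d x0 y0 w = -2 := by
        by_contra hcon
        apply hw
        unfold bp at hv ⊢
        rcases hew with ⟨h1, h2⟩ | ⟨h1, h2⟩ <;> rw [h1, h2] at hadj <;> omega
      have rw' := hb.row w (by
        unfold bp at hv
        rcases hew with ⟨h1, h2⟩ | ⟨h1, h2⟩ <;> rw [h1, h2] at hadj <;> omega) hw2
      obtain ⟨-, k1, k2, k3, k4⟩ := (K_iff hr1 (by omega) h.hn h.hP e).1 he
      rcases hew with ⟨h1, h2⟩ | ⟨h1, h2⟩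
      · rw [h1, h2] at k4
        exact (k4 rv.2 rw'.2).1 rv.1
      · rw [h1, h2] at k4
        exact (k4 rw'.2 rv.2).1 rw'.1
    refine ⟨v, ?_, ?_⟩
    · rw [rim_iff]
      have hadj := adj_c d x0 y0 e
      unfold bp at hv hw
      unfold bal
      rcases hew with ⟨h1, h2⟩ | ⟨h1, h2⟩ <;> rw [h1, h2] at hadj <;> omega
    · have := pj_reach h hb hR
      rw [pj, if_pos hh, pj, if_neg hv1] at this
      exact this
  · obtain ⟨w, hwB, e, he, hew⟩ := nb h hp hrow.1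
    have hadj := adj_c d x0 y0 e
    have hwe : w = inn d u := by
      obtain ⟨i1, i2⟩ := inn_c d x0 y0 u
      have hcon : ¬ (hc d x0 y0 w = -1 ∨ hc d x0 y0 w = -2) := by
        intro hcon
        have rw' := hb.row w (by
          rcases hew with ⟨h1, h2⟩ | ⟨h1, h2⟩ <;> rw [h1, h2] at hadj <;> omega) hcon
        exact rw'.2 hwB
      apply ext_c d x0 y0
      · rw [i1]
        rcases hew with ⟨h1, h2⟩ | ⟨h1, h2⟩ <;> rw [h1, h2] at hadj <;> omega
      · rw [i2]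
        rcases hew with ⟨h1, h2⟩ | ⟨h1, h2⟩ <;> rw [h1, h2] at hadj <;> omega
    rw [← hwe]
    exact ⟨e, he, hew⟩

/-- two tube faces in the middle of a cell -/
theorem middle (h : Ctx N r ρ l C n M F) {u u' : Vtx} {p p' : ℤ × ℤ}
    (hp : Pnt N r C n M F u p) (hp' : Pnt N r C n M F u' p')
    {d : Dir} {x0 y0 : ℤ} (hb : HBc N r C d x0 y0 ρ)
    (ht : -(8 * l : ℤ) ≤ tc d x0 y0 u ∧ tc d x0 y0 u ≤ 8 * l)
    (hh : hc d x0 y0 u = -1)
    (ht' : -(8 * l : ℤ) ≤ tc d x0 y0 u' ∧ tc d x0 y0 u' ≤ 8 * l)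
    (hh' : hc d x0 y0 u' = -1)
    (hcen : ∃ i j : ℤ, ((d = Dir.up ∨ d = Dir.dn) ∧ x0 = l * i ∧ (y0 = r * j ∨ y0 = r * j - 1)) ∨
      ((d = Dir.rt ∨ d = Dir.lf) ∧ y0 = l * i ∧ (x0 = r * j ∨ x0 = r * j - 1))) :
    RA N r C n M F p p' := by
  obtain ⟨n1, n2⟩ := h.kn
  have hρ := h.hρr
  have hlρ := h.hlρ
  have hl := h.hl
  have hr1 : 1 ≤ r := by have := h.r1; omega
  obtain ⟨⟨b, hb1, hb2⟩, e, he, hew⟩ := to_rim h hp hb (by omega) hh
  obtain ⟨⟨b', hb1', hb2'⟩, e', he', hew'⟩ := to_rim h hp' hb (by omega) hh'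
  obtain ⟨i1, i2⟩ := inn_c d x0 y0 u
  obtain ⟨i1', i2'⟩ := inn_c d x0 y0 u'
  have hcon : Reach (Cc 1 n M F ∩ ↑(hbE d x0 y0 ρ)) (inn d u) (inn d u') := by
    by_contra hcon
    apply h.hbad
    right
    obtain ⟨i, j, hij⟩ := hcen
    obtain ⟨m1, m2, m3, m4⟩ := h.n1
    have hd0 : |x0 - u.1| ≤ 8 * l + 1 ∧ |y0 - u.2| ≤ 8 * l + 1 := by
      rw [abs_le, abs_le]
      cases d <;> simp only [tc, hc] at ht hh <;> omega
    refine ⟨d, x0, y0, i, j, ?_, ?_, hij, ?_⟩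
    · have hband := hp.band
      obtain ⟨a1, a2⟩ := abs_le.1 (le_refl |u.1 - u.2|)
      obtain ⟨b1, b2⟩ := abs_le.1 hd0.1
      obtain ⟨b3, b4⟩ := abs_le.1 hd0.2
      have c1 : (32 : ℤ) * l ≤ ρ := by exact_mod_cast hlρ
      have c2 : (32 : ℤ) * ρ ≤ r := by exact_mod_cast hρ
      have c3 : (1 : ℤ) ≤ l := by exact_mod_cast hl
      rw [abs_le]
      constructor <;> linarith
    · intro s
      by_contra hc2
      push Not at hc2
      obtain ⟨h3, h4⟩ := hc2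
      -- the outer neighbour of the centre
      obtain ⟨z, hz1, hz2, hz3⟩ : ∃ z : Vtx, (|z.1 - x0| ≤ 1 ∧ |z.2 - y0| ≤ 1) ∧
          tc d x0 y0 z = 0 ∧ hc d x0 y0 z = -1 := by
        cases d
        · exact ⟨(x0, y0 - 1), by simp, by simp [tc], by simp [hc]⟩
        · exact ⟨(x0, y0 + 1), by simp, by simp [tc], by simp [hc]⟩
        · exact ⟨(x0 - 1, y0), by simp, by simp [tc], by simp [hc]⟩
        · exact ⟨(x0 + 1, y0), by simp, by simp [tc], by simp [hc]⟩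
      have hrow := hb.row z ⟨by rw [hz2]; omega, by rw [hz2]; omega⟩ (Or.inl hz3)
      apply hrow.2
      rw [abs_lt] at h3 h4
      rw [abs_le, abs_le] at hz1
      apply inBox hr1 h.hn z s <;> linarith [hz1.1.1, hz1.1.2, hz1.2.1, hz1.2.2, h3.1, h3.2, h4.1, h4.2]
    · refine ⟨inn d u, ?_, inn d u', ?_, ⟨b, hb1, hb2⟩, ⟨b', hb1', hb2'⟩, hcon⟩
      · rw [seg_iff, i1, i2, hh]
        refine ⟨⟨?_, ?_⟩, by norm_num⟩ <;> push_cast <;> omega
      · rw [seg_iff, i1', i2', hh']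
        refine ⟨⟨?_, ?_⟩, by norm_num⟩ <;> push_cast <;> omega
  -- lift
  have hPu : bp d x0 y0 ρ u := ⟨by omega, by rw [hh], by rw [hh]; omega⟩
  have hPu' : bp d x0 y0 ρ u' := ⟨by omega, by rw [hh'], by rw [hh']; omega⟩
  have hPi : bp d x0 y0 ρ (inn d u) := ⟨by rw [i1]; omega, by rw [i2, hh]; omega, by rw [i2, hh]; omega⟩
  have hPi' : bp d x0 y0 ρ (inn d u') := ⟨by rw [i1']; omega, by rw [i2', hh']; omega, by rw [i2', hh']; omega⟩
  have hpos : ∀ v, bp d x0 y0 ρ v → Far n v := by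
    intro v hv
    have h1 := bp_near h ⟨by omega, by omega⟩ hh hv
    exact (near_ok h hp.dg hp.band v h1.1 h1.2).2
  have hR : Reach (KK N r C n M F ∩ {e | bp d x0 y0 ρ (src e) ∧ bp d x0 y0 ρ (tgt e)})
      u u' := by
    have r1 : Reach (KK N r C n M F ∩ {e | bp d x0 y0 ρ (src e) ∧ bp d x0 y0 ρ (tgt e)})
        u (inn d u) := by
      refine Relation.ReflTransGen.single ⟨e, ⟨he, ?_⟩, hew⟩
      rcases hew with ⟨h1, h2⟩ | ⟨h1, h2⟩
      · exact ⟨h1 ▸ hPu, h2 ▸ hPi⟩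
      · exact ⟨h1 ▸ hPi, h2 ▸ hPu⟩
    have r2 : Reach (KK N r C n M F ∩ {e | bp d x0 y0 ρ (src e) ∧ bp d x0 y0 ρ (tgt e)})
        u' (inn d u') := by
      refine Relation.ReflTransGen.single ⟨e', ⟨he', ?_⟩, hew'⟩
      rcases hew' with ⟨h1, h2⟩ | ⟨h1, h2⟩
      · exact ⟨h1 ▸ hPu', h2 ▸ hPi'⟩
      · exact ⟨h1 ▸ hPi', h2 ▸ hPu'⟩
    have r3 : Reach (KK N r C n M F ∩ {e | bp d x0 y0 ρ (src e) ∧ bp d x0 y0 ρ (tgt e)})
        (inn d u) (inn d u') := by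
      refine Reach.mono ?_ hcon
      rintro e ⟨he1, he2⟩
      rw [Finset.mem_coe, hb_iff] at he2
      have hs : bp d x0 y0 ρ (src e) := ⟨he2.1.1, by linarith [he2.1.2.1], he2.1.2.2⟩
      have ht2 : bp d x0 y0 ρ (tgt e) := ⟨he2.2.1, by linarith [he2.2.2.1], he2.2.2.2⟩
      exact ⟨CK h he1 (Es_far e (hpos _ hs) (Or.inl rfl)) (Or.inl (hb.ball _ he2.1)), hs, ht2⟩
    exact (r1.trans r3).trans r2.symm
  have := lift' hR
  exact (hp.con.trans _ _ _ this).trans _ _ _ (Relation.EqvGen.symm _ _ hp'.con)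


theorem Ctx.nums (h : Ctx N r ρ l C n M F) : (32 : ℤ) * l ≤ ρ ∧ (32 : ℤ) * ρ ≤ r ∧ (1 : ℤ) ≤ l :=
  ⟨by exact_mod_cast h.hlρ, by exact_mod_cast h.hρr, by exact_mod_cast h.hl⟩

/-- the direction -/
theorem dirn (h : Ctx N r ρ l C n M F) {u : Vtx} {p : ℤ × ℤ}
    (hp : Pnt N r C n M F u p) (hU : Pv N r C u) :
    ∃ d : Dir, Bv N r N (inn d u) := by
  obtain ⟨w, hw, e, -, hew⟩ := nb h hp hU
  obtain ⟨x, y, b⟩ := e
  rcases hew with ⟨h1, h2⟩ | ⟨h1, h2⟩
  · cases b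
    · refine ⟨Dir.up, ?_⟩
      rw [src_mk] at h1; rw [tgt_false] at h2
      rw [← h1]; rw [← h2] at hw; exact hw
    · refine ⟨Dir.rt, ?_⟩
      rw [src_mk] at h1; rw [tgt_true] at h2
      rw [← h1]; rw [← h2] at hw; exact hw
  · cases b
    · refine ⟨Dir.dn, ?_⟩
      rw [src_mk] at h1; rw [tgt_false] at h2
      rw [← h2]; rw [← h1] at hw
      simpa [inn] using hw
    · refine ⟨Dir.lf, ?_⟩
      rw [src_mk] at h1; rw [tgt_true] at h2
      rw [← h2]; rw [← h1] at hw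
      simpa [inn] using hw

theorem caseB (h : Ctx N r ρ l C n M F) {u u' : Vtx} {p p' : ℤ × ℤ}
    (hp : Pnt N r C n M F u p) (hp' : Pnt N r C n M F u' p')
    (hU : Pv N r C u) (hU' : ¬ Pv N r C u')
    (d1 : |u.1 - u'.1| ≤ 4 * l) (d2 : |u.2 - u'.2| ≤ 4 * l) :
    RA N r C n M F p p' := by
  have hr1 : 1 ≤ r := by have := h.r1; omega
  obtain ⟨c1, c2, c3⟩ := h.nums
  obtain ⟨d, hd⟩ := dirn h hp hU
  have e1 := abs_le.1 d1
  have e2 := abs_le.1 d2
  by_cases hdH : d = Dir.dn ∨ d = Dir.up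
  · obtain ⟨j, hj, hfl⟩ := lineH hr1 hp.nB hdH hd
    have ej := abs_le.1 hj
    have hl' := near_line (r := r) hr1 (y := u'.2) (j := j) (by linarith [e2.1, e2.2, ej.1, ej.2])
      (by linarith [e2.1, e2.2, ej.1, ej.2])
    have hne : u.1 / (r : ℤ) ≠ u'.1 / r := by
      intro he
      apply hU'
      have : fl r u' = (u.1 / (r : ℤ), u'.2 / (r : ℤ)) := by
        unfold H12S.fl
        rw [he]
      unfold Pv
      rw [this]
      rcases hfl with ⟨-, -, f1, f2⟩ | ⟨-, -, f1, f2⟩ <;> rcases hl' with hl' | hl' <;> rw [hl']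
      · rw [← f1]; exact hU
      · rw [← f2]; exact Pv_of_Bv hd
      · rw [← f2]; exact Pv_of_Bv hd
      · rw [← f1]; exact hU
    obtain ⟨i, i1, i2⟩ := col hr1 hne d1
    have ei1 := abs_le.1 i1
    have ei2 := abs_le.1 i2
    refine mixed h hp hp' hU hU' (i, j) ⟨?_, ?_⟩ ⟨?_, ?_⟩ <;> simp only <;> rw [abs_le] <;>
      constructor <;> linarith [e2.1, e2.2, ej.1, ej.2, ei1.1, ei1.2, ei2.1, ei2.2]
  · have hdV : d = Dir.lf ∨ d = Dir.rt := by cases d <;> simp_all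
    obtain ⟨i, hi, hfl⟩ := lineV hr1 hp.nB hdV hd
    have ei := abs_le.1 hi
    have hl' := near_line (r := r) hr1 (y := u'.1) (j := i) (by linarith [e1.1, e1.2, ei.1, ei.2])
      (by linarith [e1.1, e1.2, ei.1, ei.2])
    have hne : u.2 / (r : ℤ) ≠ u'.2 / r := by
      intro he
      apply hU'
      have : fl r u' = (u'.1 / (r : ℤ), u.2 / (r : ℤ)) := by
        unfold H12S.fl
        rw [he]
      unfold Pv
      rw [this]
      rcases hfl with ⟨-, -, f1, f2⟩ | ⟨-, -, f1, f2⟩ <;> rcases hl' with hl' | hl' <;> rw [hl']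
      · rw [← f1]; exact hU
      · rw [← f2]; exact Pv_of_Bv hd
      · rw [← f2]; exact Pv_of_Bv hd
      · rw [← f1]; exact hU
    obtain ⟨j, i1, i2⟩ := col hr1 hne d2
    have ei1 := abs_le.1 i1
    have ei2 := abs_le.1 i2
    refine mixed h hp hp' hU hU' (i, j) ⟨?_, ?_⟩ ⟨?_, ?_⟩ <;> simp only <;> rw [abs_le] <;>
      constructor <;> linarith [e1.1, e1.2, ei.1, ei.2, ei1.1, ei1.2, ei2.1, ei2.2]


theorem sameDn (h : Ctx N r ρ l C n M F) {u u' : Vtx} {p p' : ℤ × ℤ}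
    (hp : Pnt N r C n M F u p) (hp' : Pnt N r C n M F u' p')
    (hU : Pv N r C u) (hU' : Pv N r C u')
    (d1 : |u.1 - u'.1| ≤ 4 * l) {a j : ℤ}
    (hj : u.2 = r * j) (hj' : u'.2 = r * j)
    (f1 : fl r u = (a, j)) (f1' : fl r u' = (a, j))
    (f2 : fl r (inn Dir.dn u) = (a, j - 1)) (hB : Bv N r N (inn Dir.dn u)) :
    RA N r C n M F p p' := by
  have hr1 : 1 ≤ r := by have := h.r1; omega
  obtain ⟨c1, c2, c3⟩ := h.nums
  have e1 := abs_le.1 d1
  obtain ⟨⟨g1, g2⟩, -⟩ := (fl_iff r hr1 _ _).1 f1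
  simp only at g1 g2
  by_cases h1 : u.1 - r * a ≤ 2 * ρ
  · refine two h hp hp' hU hU' (a, j) ⟨?_, ?_⟩ ⟨?_, ?_⟩ <;> simp only <;> rw [abs_le] <;>
      constructor <;> linarith [e1.1, e1.2]
  by_cases h2 : r * a + r - u.1 ≤ 2 * ρ
  · have e : (r : ℤ) * (a + 1) = r * a + r := by ring
    refine two h hp hp' hU hU' (a + 1, j) ⟨?_, ?_⟩ ⟨?_, ?_⟩ <;> simp only <;> rw [abs_le] <;>
      constructor <;> linarith [e1.1, e1.2]
  push Not at h1 h2
  have hl1 : 1 ≤ l := h.hl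
  obtain ⟨g3, g4⟩ := (div_iff l hl1 u.1 _).1 rfl
  have er : (r : ℤ) * (j - 1) = r * j - r := by ring
  refine middle h hp hp' (d := Dir.dn) (x0 := l * (u.1 / (l : ℤ))) (y0 := r * j - 1)
    ⟨?_, ?_⟩ ?_ ?_ ?_ ?_ ⟨_, j, Or.inl ⟨Or.inr rfl, rfl, Or.inr rfl⟩⟩
  · intro v hv
    unfold bal at hv
    simp only [tc, hc] at hv
    obtain ⟨⟨v1, v2⟩, v3, v4⟩ := hv
    have : fl r v = (a, j - 1) := by
      rw [fl_iff r hr1]
      simp only
      rw [er]
      refine ⟨⟨by linarith, by linarith⟩, by linarith, by linarith⟩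
    unfold Bv
    rw [this, ← f2]
    exact hB
  · intro v hv hv'
    simp only [tc, hc] at hv hv'
    have : fl r v = fl r u := by
      rw [f1, fl_iff r hr1]
      simp only
      rcases hv' with hv' | hv' <;>
        exact ⟨⟨by linarith [hv.1, hv.2], by linarith [hv.1, hv.2]⟩, by linarith, by linarith⟩
    unfold Pv Bv
    rw [this]
    exact ⟨hU, hp.nB⟩
  · simp only [tc]
    constructor <;> linarith
  · simp only [hc]
    linarith
  · simp only [tc]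
    constructor <;> linarith [e1.1, e1.2]
  · simp only [hc]
    linarith

theorem sameUp (h : Ctx N r ρ l C n M F) {u u' : Vtx} {p p' : ℤ × ℤ}
    (hp : Pnt N r C n M F u p) (hp' : Pnt N r C n M F u' p')
    (hU : Pv N r C u) (hU' : Pv N r C u')
    (d1 : |u.1 - u'.1| ≤ 4 * l) {a j : ℤ}
    (hj : u.2 + 1 = r * j) (hj' : u'.2 + 1 = r * j)
    (f1 : fl r u = (a, j - 1)) (f1' : fl r u' = (a, j - 1))
    (f2 : fl r (inn Dir.up u) = (a, j)) (hB : Bv N r N (inn Dir.up u)) :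
    RA N r C n M F p p' := by
  have hr1 : 1 ≤ r := by have := h.r1; omega
  obtain ⟨c1, c2, c3⟩ := h.nums
  have e1 := abs_le.1 d1
  obtain ⟨⟨g1, g2⟩, -⟩ := (fl_iff r hr1 _ _).1 f1
  simp only at g1 g2
  by_cases h1 : u.1 - r * a ≤ 2 * ρ
  · refine two h hp hp' hU hU' (a, j) ⟨?_, ?_⟩ ⟨?_, ?_⟩ <;> simp only <;> rw [abs_le] <;>
      constructor <;> linarith [e1.1, e1.2]
  by_cases h2 : r * a + r - u.1 ≤ 2 * ρ
  · have e : (r : ℤ) * (a + 1) = r * a + r := by ring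
    refine two h hp hp' hU hU' (a + 1, j) ⟨?_, ?_⟩ ⟨?_, ?_⟩ <;> simp only <;> rw [abs_le] <;>
      constructor <;> linarith [e1.1, e1.2]
  push Not at h1 h2
  have hl1 : 1 ≤ l := h.hl
  obtain ⟨g3, g4⟩ := (div_iff l hl1 u.1 _).1 rfl
  have er : (r : ℤ) * (j - 1) = r * j - r := by ring
  refine middle h hp hp' (d := Dir.up) (x0 := l * (u.1 / (l : ℤ))) (y0 := r * j)
    ⟨?_, ?_⟩ ?_ ?_ ?_ ?_ ⟨_, j, Or.inl ⟨Or.inl rfl, rfl, Or.inl rfl⟩⟩
  · intro v hv
    unfold bal at hv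
    simp only [tc, hc] at hv
    obtain ⟨⟨v1, v2⟩, v3, v4⟩ := hv
    have : fl r v = (a, j) := by
      rw [fl_iff r hr1]
      simp only
      refine ⟨⟨by linarith, by linarith⟩, by linarith, by linarith⟩
    unfold Bv
    rw [this, ← f2]
    exact hB
  · intro v hv hv'
    simp only [tc, hc] at hv hv'
    have : fl r v = fl r u := by
      rw [f1, fl_iff r hr1]
      simp only
      rw [er]
      rcases hv' with hv' | hv' <;>
        exact ⟨⟨by linarith [hv.1, hv.2], by linarith [hv.1, hv.2]⟩, by linarith, by linarith⟩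
    unfold Pv Bv
    rw [this]
    exact ⟨hU, hp.nB⟩
  · simp only [tc]
    constructor <;> linarith
  · simp only [hc]
    linarith
  · simp only [tc]
    constructor <;> linarith [e1.1, e1.2]
  · simp only [hc]
    linarith

theorem sameLf (h : Ctx N r ρ l C n M F) {u u' : Vtx} {p p' : ℤ × ℤ}
    (hp : Pnt N r C n M F u p) (hp' : Pnt N r C n M F u' p')
    (hU : Pv N r C u) (hU' : Pv N r C u')
    (d1 : |u.2 - u'.2| ≤ 4 * l) {a j : ℤ}
    (hj : u.1 = r * j) (hj' : u'.1 = r * j)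
    (f1 : fl r u = (j, a)) (f1' : fl r u' = (j, a))
    (f2 : fl r (inn Dir.lf u) = (j - 1, a)) (hB : Bv N r N (inn Dir.lf u)) :
    RA N r C n M F p p' := by
  have hr1 : 1 ≤ r := by have := h.r1; omega
  obtain ⟨c1, c2, c3⟩ := h.nums
  have e1 := abs_le.1 d1
  obtain ⟨-, g1, g2⟩ := (fl_iff r hr1 _ _).1 f1
  simp only at g1 g2
  by_cases h1 : u.2 - r * a ≤ 2 * ρ
  · refine two h hp hp' hU hU' (j, a) ⟨?_, ?_⟩ ⟨?_, ?_⟩ <;> simp only <;> rw [abs_le] <;>
      constructor <;> linarith [e1.1, e1.2]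
  by_cases h2 : r * a + r - u.2 ≤ 2 * ρ
  · have e : (r : ℤ) * (a + 1) = r * a + r := by ring
    refine two h hp hp' hU hU' (j, a + 1) ⟨?_, ?_⟩ ⟨?_, ?_⟩ <;> simp only <;> rw [abs_le] <;>
      constructor <;> linarith [e1.1, e1.2]
  push Not at h1 h2
  have hl1 : 1 ≤ l := h.hl
  obtain ⟨g3, g4⟩ := (div_iff l hl1 u.2 _).1 rfl
  have er : (r : ℤ) * (j - 1) = r * j - r := by ring
  refine middle h hp hp' (d := Dir.lf) (x0 := r * j - 1) (y0 := l * (u.2 / (l : ℤ)))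
    ⟨?_, ?_⟩ ?_ ?_ ?_ ?_ ⟨_, j, Or.inr ⟨Or.inr rfl, rfl, Or.inr rfl⟩⟩
  · intro v hv
    unfold bal at hv
    simp only [tc, hc] at hv
    obtain ⟨⟨v1, v2⟩, v3, v4⟩ := hv
    have : fl r v = (j - 1, a) := by
      rw [fl_iff r hr1]
      simp only
      rw [er]
      refine ⟨⟨by linarith, by linarith⟩, by linarith, by linarith⟩
    unfold Bv
    rw [this, ← f2]
    exact hB
  · intro v hv hv'
    simp only [tc, hc] at hv hv'
    have : fl r v = fl r u := by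
      rw [f1, fl_iff r hr1]
      simp only
      rcases hv' with hv' | hv' <;>
        exact ⟨⟨by linarith, by linarith⟩, by linarith [hv.1, hv.2], by linarith [hv.1, hv.2]⟩
    unfold Pv Bv
    rw [this]
    exact ⟨hU, hp.nB⟩
  · simp only [tc]
    constructor <;> linarith
  · simp only [hc]
    linarith
  · simp only [tc]
    constructor <;> linarith [e1.1, e1.2]
  · simp only [hc]
    linarith

theorem sameRt (h : Ctx N r ρ l C n M F) {u u' : Vtx} {p p' : ℤ × ℤ}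
    (hp : Pnt N r C n M F u p) (hp' : Pnt N r C n M F u' p')
    (hU : Pv N r C u) (hU' : Pv N r C u')
    (d1 : |u.2 - u'.2| ≤ 4 * l) {a j : ℤ}
    (hj : u.1 + 1 = r * j) (hj' : u'.1 + 1 = r * j)
    (f1 : fl r u = (j - 1, a)) (f1' : fl r u' = (j - 1, a))
    (f2 : fl r (inn Dir.rt u) = (j, a)) (hB : Bv N r N (inn Dir.rt u)) :
    RA N r C n M F p p' := by
  have hr1 : 1 ≤ r := by have := h.r1; omega
  obtain ⟨c1, c2, c3⟩ := h.nums
  have e1 := abs_le.1 d1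
  obtain ⟨-, g1, g2⟩ := (fl_iff r hr1 _ _).1 f1
  simp only at g1 g2
  by_cases h1 : u.2 - r * a ≤ 2 * ρ
  · refine two h hp hp' hU hU' (j, a) ⟨?_, ?_⟩ ⟨?_, ?_⟩ <;> simp only <;> rw [abs_le] <;>
      constructor <;> linarith [e1.1, e1.2]
  by_cases h2 : r * a + r - u.2 ≤ 2 * ρ
  · have e : (r : ℤ) * (a + 1) = r * a + r := by ring
    refine two h hp hp' hU hU' (j, a + 1) ⟨?_, ?_⟩ ⟨?_, ?_⟩ <;> simp only <;> rw [abs_le] <;>
      constructor <;> linarith [e1.1, e1.2]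
  push Not at h1 h2
  have hl1 : 1 ≤ l := h.hl
  obtain ⟨g3, g4⟩ := (div_iff l hl1 u.2 _).1 rfl
  have er : (r : ℤ) * (j - 1) = r * j - r := by ring
  refine middle h hp hp' (d := Dir.rt) (x0 := r * j) (y0 := l * (u.2 / (l : ℤ)))
    ⟨?_, ?_⟩ ?_ ?_ ?_ ?_ ⟨_, j, Or.inr ⟨Or.inl rfl, rfl, Or.inl rfl⟩⟩
  · intro v hv
    unfold bal at hv
    simp only [tc, hc] at hv
    obtain ⟨⟨v1, v2⟩, v3, v4⟩ := hv
    have : fl r v = (j, a) := by
      rw [fl_iff r hr1]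
      simp only
      refine ⟨⟨by linarith, by linarith⟩, by linarith, by linarith⟩
    unfold Bv
    rw [this, ← f2]
    exact hB
  · intro v hv hv'
    simp only [tc, hc] at hv hv'
    have : fl r v = fl r u := by
      rw [f1, fl_iff r hr1]
      simp only
      rw [er]
      rcases hv' with hv' | hv' <;>
        exact ⟨⟨by linarith, by linarith⟩, by linarith [hv.1, hv.2], by linarith [hv.1, hv.2]⟩
    unfold Pv Bv
    rw [this]
    exact ⟨hU, hp.nB⟩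
  · simp only [tc]
    constructor <;> linarith
  · simp only [hc]
    linarith
  · simp only [tc]
    constructor <;> linarith [e1.1, e1.2]
  · simp only [hc]
    linarith

/-- two lines at distance less than `r` coincide -/
theorem line_eq (hr : 1 ≤ r) {j j' : ℤ} (h1 : (r : ℤ) * j - r * j' < r) (h2 : (r : ℤ) * j' - r * j < r) :
    j = j' := by
  have hr0 : (0 : ℤ) < r := by exact_mod_cast hr
  by_contra hne
  rcases lt_or_gt_of_ne hne with h3 | h3
  · have : j + 1 ≤ j' := h3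
    nlinarith
  · have : j' + 1 ≤ j := h3
    nlinarith

theorem caseC (h : Ctx N r ρ l C n M F) {u u' : Vtx} {p p' : ℤ × ℤ}
    (hp : Pnt N r C n M F u p) (hp' : Pnt N r C n M F u' p')
    (hU : Pv N r C u) (hU' : Pv N r C u')
    (d1 : |u.1 - u'.1| ≤ 4 * l) (d2 : |u.2 - u'.2| ≤ 4 * l) :
    RA N r C n M F p p' := by
  have hr1 : 1 ≤ r := by have := h.r1; omega
  obtain ⟨c1, c2, c3⟩ := h.nums
  obtain ⟨d, hd⟩ := dirn h hp hU
  obtain ⟨d', hd'⟩ := dirn h hp' hU'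
  have e1 := abs_le.1 d1
  have e2 := abs_le.1 d2
  by_cases hdH : d = Dir.dn ∨ d = Dir.up
  · obtain ⟨j, hj, hfl⟩ := lineH hr1 hp.nB hdH hd
    have ej := abs_le.1 hj
    by_cases hdH' : d' = Dir.dn ∨ d' = Dir.up
    · obtain ⟨j', hj', hfl'⟩ := lineH hr1 hp'.nB hdH' hd'
      have ej' := abs_le.1 hj'
      by_cases hne : u.1 / (r : ℤ) = u'.1 / r
      · have hjj : j = j' := line_eq hr1 (by linarith [e2.1, e2.2, ej.1, ej.2, ej'.1, ej'.2])
          (by linarith [e2.1, e2.2, ej.1, ej.2, ej'.1, ej'.2])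
        subst hjj
        rw [← hne] at hfl'
        rcases hfl with ⟨rfl, f0, f1, f2⟩ | ⟨rfl, f0, f1, f2⟩ <;>
          rcases hfl' with ⟨rfl, f0', f1', f2'⟩ | ⟨rfl, f0', f1', f2'⟩
        · exact sameDn h hp hp' hU hU' d1 f0 f0' f1 f1' f2 hd
        · exfalso
          apply hp'.nB
          unfold Bv
          rw [f1', ← f2]
          exact hd
        · exfalso
          apply hp'.nB
          unfold Bv
          rw [f1', ← f2]
          exact hd
        · exact sameUp h hp hp' hU hU' d1 f0 f0' f1 f1' f2 hd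
      · obtain ⟨i, i1, i2⟩ := col hr1 hne d1
        have ei1 := abs_le.1 i1
        have ei2 := abs_le.1 i2
        refine two h hp hp' hU hU' (i, j) ⟨?_, ?_⟩ ⟨?_, ?_⟩ <;> simp only <;> rw [abs_le] <;>
          constructor <;> linarith [e2.1, e2.2, ej.1, ej.2, ei1.1, ei1.2, ei2.1, ei2.2]
    · have hdV' : d' = Dir.lf ∨ d' = Dir.rt := by cases d' <;> simp_all
      obtain ⟨i, hi, -⟩ := lineV hr1 hp'.nB hdV' hd'
      have ei := abs_le.1 hi
      refine two h hp hp' hU hU' (i, j) ⟨?_, ?_⟩ ⟨?_, ?_⟩ <;> simp only <;> rw [abs_le] <;>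
        constructor <;> linarith [e1.1, e1.2, e2.1, e2.2, ej.1, ej.2, ei.1, ei.2]
  · have hdV : d = Dir.lf ∨ d = Dir.rt := by cases d <;> simp_all
    obtain ⟨j, hj, hfl⟩ := lineV hr1 hp.nB hdV hd
    have ej := abs_le.1 hj
    by_cases hdH' : d' = Dir.dn ∨ d' = Dir.up
    · obtain ⟨i, hi, -⟩ := lineH hr1 hp'.nB hdH' hd'
      have ei := abs_le.1 hi
      refine two h hp hp' hU hU' (j, i) ⟨?_, ?_⟩ ⟨?_, ?_⟩ <;> simp only <;> rw [abs_le] <;>
        constructor <;> linarith [e1.1, e1.2, e2.1, e2.2, ej.1, ej.2, ei.1, ei.2]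
    · have hdV' : d' = Dir.lf ∨ d' = Dir.rt := by cases d' <;> simp_all
      obtain ⟨j', hj', hfl'⟩ := lineV hr1 hp'.nB hdV' hd'
      have ej' := abs_le.1 hj'
      by_cases hne : u.2 / (r : ℤ) = u'.2 / r
      · have hjj : j = j' := line_eq hr1 (by linarith [e1.1, e1.2, ej.1, ej.2, ej'.1, ej'.2])
          (by linarith [e1.1, e1.2, ej.1, ej.2, ej'.1, ej'.2])
        subst hjj
        rw [← hne] at hfl'
        rcases hfl with ⟨rfl, f0, f1, f2⟩ | ⟨rfl, f0, f1, f2⟩ <;>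
          rcases hfl' with ⟨rfl, f0', f1', f2'⟩ | ⟨rfl, f0', f1', f2'⟩
        · exact sameLf h hp hp' hU hU' d2 f0 f0' f1 f1' f2 hd
        · exfalso
          apply hp'.nB
          unfold Bv
          rw [f1', ← f2]
          exact hd
        · exfalso
          apply hp'.nB
          unfold Bv
          rw [f1', ← f2]
          exact hd
        · exact sameRt h hp hp' hU hU' d2 f0 f0' f1 f1' f2 hd
      · obtain ⟨i, i1, i2⟩ := col hr1 hne d2
        have ei1 := abs_le.1 i1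
        have ei2 := abs_le.1 i2
        refine two h hp hp' hU hU' (j, i) ⟨?_, ?_⟩ ⟨?_, ?_⟩ <;> simp only <;> rw [abs_le] <;>
          constructor <;> linarith [e1.1, e1.2, ej.1, ej.2, ei1.1, ei1.2, ei2.1, ei2.2]

theorem caseA (h : Ctx N r ρ l C n M F) {u u' : Vtx} {p p' : ℤ × ℤ}
    (hp : Pnt N r C n M F u p) (hp' : Pnt N r C n M F u' p')
    (hU : ¬ Pv N r C u) (hU' : ¬ Pv N r C u')
    (d1 : |u.1 - u'.1| ≤ 4 * l) (d2 : |u.2 - u'.2| ≤ 4 * l) :
    RA N r C n M F p p' := by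
  have hr1 : 1 ≤ r := by have := h.r1; omega
  have hrr : (1024 : ℤ) ≤ r := by exact_mod_cast h.r1
  obtain ⟨c1, c2, c3⟩ := h.nums
  have hr0 : (0 : ℤ) < r := by exact_mod_cast hr1
  have key : ∀ x x' : ℤ, |x - x'| ≤ 4 * l → |x / (r : ℤ) - x' / r| ≤ 1 := by
    intro x x' hx
    have h1 := (div_iff r hr1 x _).1 rfl
    have h2 := (div_iff r hr1 x' _).1 rfl
    have h3 := abs_le.1 hx
    rw [abs_le]
    constructor
    · by_contra hcon
      have h4 : x / (r : ℤ) + 2 ≤ x' / r := by omega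
      nlinarith
    · by_contra hcon
      have h4 : x' / (r : ℤ) + 2 ≤ x / r := by omega
      nlinarith
  have e1 := abs_le.1 d1
  have e2 := abs_le.1 d2
  have hN : Ne r u u' := by
    constructor
    · rw [abs_sub_comm]; linarith
    · rw [abs_sub_comm]; linarith
  exact RA_chain hp.con (outer h hp hU hU' (key _ _ d1) (key _ _ d2)
    (by linarith [hp.band]) ⟨by simp, by simp⟩ hN)
    (Relation.EqvGen.refl _) (Relation.EqvGen.refl _) hp'.con

end D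

end TSEPA

open Pool.Agent.H160R2.MU.TSEPA (fl_iff EP_iff pe pe_eq) in
open TSEPA in
/-- **step A: different clusters of class 1 are far from each other at the boundary of the tube** -/
theorem t_SEPA : S_z1 → S_z2 → S_z3 → S_SEPA := by
  intro _ _ hg3 N r ρ l C hN hAdm hl hlρ hρr n M hn hM F hF hbad x x' y y'
    hXx hXx' hxy hxy' hy hy' hNr
  obtain ⟨g1, g2, g3, g4, g5⟩ := hg3 N C hN hAdm _ rfl
  have hP : ∀ (z : ℤ × ℤ) (s : ℤ), z ∈ Bxs N N ∪ TubZ N C ↔ shf N N s z ∈ Bxs N N ∪ TubZ N C := by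
    intro z s
    obtain ⟨h1, h2⟩ := g3 z s
    rw [Set.mem_union, Set.mem_union, h1, h2]
  have h : Ctx N r ρ l C n M F := ⟨hN, hl, hlρ, by omega, hn, hM, hF, hbad, hP, g1, g2, g4, g5⟩
  have hr1 : 1 ≤ r := by have := h.r1; omega
  -- faces near the tube
  have tub : ∀ U2 : Vtx, fl r U2 ∈ TubZ N C → ∀ u : Vtx, |u.1 - U2.1| ≤ 1 → |u.2 - U2.2| ≤ 1 →
      Fr n r u ∧ |u.1 - u.2| + 16 * r ≤ 2 * n := by
    intro U2 a5 u a3 a4
    have b := abs_le.1 (g4 _ (Or.inr a5))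
    have b0 := g5 _ a5
    obtain ⟨⟨z1, z2⟩, z3, z4⟩ := (fl_iff r hr1 U2 _).1 rfl
    have hr0 : (0 : ℤ) < r := by exact_mod_cast hr1
    have hrr : (1024 : ℤ) ≤ r := by exact_mod_cast h.r1
    have hnZ := h.nZ
    have hν : (20 : ℤ) * N = prd N N := by exact_mod_cast h.ν1
    have hN2 : (16 : ℤ) ≤ N := by exact_mod_cast hN
    have e3 := abs_le.1 a3
    have e4 := abs_le.1 a4
    have m1 : (r : ℤ) * (fl r U2).1 - r * (fl r U2).2 ≤ (3 * N + 2) * r := by nlinarith [b.2]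
    have m2 : (r : ℤ) * (fl r U2).2 - r * (fl r U2).1 ≤ (3 * N + 2) * r := by nlinarith [b.1]
    have m3 : ((3 * N + 2) * r : ℤ) + 17 * r + 4 ≤ 2 * n := by
      have : (n : ℤ) = 20 * N * r := by rw [hnZ, ← hν]
      nlinarith
    constructor
    · intro s
      have b1 := b0 s
      simp only [shf] at b1
      rcases b1 with b1 | b1 | b1
      · left
        have m0 : 6 * (r : ℤ) ≤ r * (fl r U2).1 - r * (fl r U2).2 := by nlinarith
        linarith [e3.1, e3.2, e4.1, e4.2]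
      · right; left
        have m0 : r * (fl r U2).1 + r * (fl r U2).2 - 2 * (s * n) ≤ -(6 * (r : ℤ)) := by
          rw [hnZ]; nlinarith
        linarith [e3.1, e3.2, e4.1, e4.2]
      · right; right
        have m0 : 5 * (r : ℤ) ≤ r * (fl r U2).1 + r * (fl r U2).2 - 2 * (s * n) := by
          rw [hnZ]; nlinarith
        linarith [e3.1, e3.2, e4.1, e4.2]
    · have : |u.1 - u.2| ≤ (3 * N + 2) * r + r + 2 := by
        rw [abs_le]
        constructor <;> linarith [e3.1, e3.2, e4.1, e4.2]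
      linarith
  have mk : ∀ y x : ℤ × ℤ, XA N r C n x → RC n (per n (FA N r C n M F)) x y → DeA N r C n y →
      ∃ u : Vtx, y = fp u ∧ Pnt N r C n M F u x := by
    rintro y x hX hR ⟨E, h1, h2, hz, w, hD⟩
    obtain ⟨E', rfl⟩ := pe_surj E
    have hE : pe E' ∈ Es n := by
      have h2' := h2
      rw [EP_iff r hr1] at h2'
      obtain ⟨p1, p2, p3⟩ := pe_eq E'
      rw [p1, p2] at h2'
      have hfar : ∀ U2 : Vtx, fl r U2 ∈ TubZ N C → Far n U2 := by
        intro U2 hU2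
        obtain ⟨b1, b2⟩ := tub U2 hU2 U2 (by simp) (by simp)
        exact (near_ok h b1 b2 U2 (by simp) (by simp)).2
      rcases h2' with h3 | h3
      · exact Es_far E' (hfar _ h3) (Or.inl rfl)
      · exact Es_far E' (hfar _ h3) (Or.inr rfl)
    have key : ∃ e : Edg, pe e = pe E' ∧ (y = fp (src e) ∨ y = fp (tgt e)) := by
      rcases hD with hD | hD
      · obtain ⟨e, e1, e2, e3⟩ := Dg_inv hE hD
        exact ⟨e, e1, Or.inl e2⟩
      · obtain ⟨e, e1, e2, e3⟩ := Dg_inv hE hD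
        exact ⟨e, e1, Or.inr e3⟩
    obtain ⟨e, he, hw⟩ := key
    rw [← he] at h1 h2
    obtain ⟨u, hu, hye⟩ : ∃ u : Vtx, (src e = u ∨ tgt e = u) ∧ y = fp u := by
      rcases hw with hw | hw
      · exact ⟨_, Or.inl rfl, hw⟩
      · exact ⟨_, Or.inr rfl, hw⟩
    refine ⟨u, hye, ?_⟩
    obtain ⟨a2, U2, a3, a4, a5⟩ := U_facts hr1 ⟨e, h1, h2, hu⟩
    obtain ⟨b1, b2⟩ := tub U2 a5 u a3 a4
    exact ⟨a2, b1, b2, hX, hye ▸ hR⟩
  obtain ⟨u, rfl, hp⟩ := mk y x hXx hxy hy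
  obtain ⟨u', rfl, hp'⟩ := mk y' x' hXx' hxy' hy'
  obtain ⟨d1', d2'⟩ := hNr
  have d1 : |u.1 - u'.1| ≤ 4 * l := by
    unfold fp at d1'
    simp only at d1'
    rw [abs_le] at d1' ⊢
    constructor <;> linarith [d1'.1, d1'.2]
  have d2 : |u.2 - u'.2| ≤ 4 * l := by
    unfold fp at d2'
    simp only at d2'
    rw [abs_le] at d2' ⊢
    constructor <;> linarith [d2'.1, d2'.2]
  by_cases hU : Pv N r C u
  · by_cases hU' : Pv N r C u'
    · exact caseC h hp hp' hU hU' d1 d2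
    · exact caseB h hp hp' hU hU' d1 d2
  · by_cases hU' : Pv N r C u'
    · refine Relation.EqvGen.symm _ _ (caseB h hp' hp hU' hU ?_ ?_)
      · rw [abs_sub_comm]; exact d1
      · rw [abs_sub_comm]; exact d2
    · exact caseA h hp hp' hU hU' d1 d2

end Pool.Agent.W808.KZ
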