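import Pool.Agent.W808.KZ.Stm
import Pool.Agent.H12R2.Sep.WinHalf
import Pool.Agent.H12R2.Sep.Win1
import Pool.Agent.H12R2.Sep.Win2

/-!
# Crossings around a point of the zipper
-/

set_option autoImplicit false

namespace Pool.Agent.W808.KZ
open H974 H906.Cyl
open Pool.Agent.H160R2.ML (nm)
open Pool.Agent.W801.OU

namespace TZC

/-! ### probabilities at one half -/

theorem pr_half {E : Type*} [DecidableEq E] (S : Finset E) (A : Finset E → Prop) :
    Pr (fun _ => (1 / 2 : ℝ)) S A = (1 / 2) ^ S.card * ∑ F ∈ S.powerset, ind (A F) := by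
  unfold Pr Ex
  rw [Finset.mul_sum]
  apply Finset.sum_congr rfl
  intro F hF
  rw [Finset.mem_powerset] at hF
  congr 1
  rw [Finset.prod_const, Finset.prod_const, show (1 - 1 / 2 : ℝ) = 1 / 2 by norm_num, ← pow_add]
  congr 1
  have := Finset.card_sdiff_add_card_eq_card hF
  omega

theorem pr_transfer {E E' : Type*} [DecidableEq E] [DecidableEq E'] (S : Finset E)
    (S' : Finset E') (hcard : S.card = S'.card) (g : Finset E → Finset E')
    (hg : ∀ F, F ⊆ S → g F ⊆ S') (hinj : ∀ F, F ⊆ S → ∀ G, G ⊆ S → g F = g G → F = G)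
    (A : Finset E → Prop) (A' : Finset E' → Prop) (hA : ∀ F, F ⊆ S → A F → A' (g F)) :
    Pr (fun _ => (1 / 2 : ℝ)) S A ≤ Pr (fun _ => (1 / 2 : ℝ)) S' A' := by
  rw [pr_half, pr_half, hcard]
  apply mul_le_mul_of_nonneg_left _ (by positivity)
  calc ∑ F ∈ S.powerset, ind (A F) ≤ ∑ F ∈ S.powerset, ind (A' (g F)) := by
        apply Finset.sum_le_sum
        intro F hF
        exact ind_mono (hA F (Finset.mem_powerset.1 hF))
    _ = ∑ F ∈ S.powerset.image g, ind (A' F) := by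
        rw [Finset.sum_image]
        intro F hF G hG h
        exact hinj F (Finset.mem_powerset.1 hF) G (Finset.mem_powerset.1 hG) h
    _ ≤ ∑ F ∈ S'.powerset, ind (A' F) := by
        apply Finset.sum_le_sum_of_subset_of_nonneg
        · intro F hF
          rw [Finset.mem_image] at hF
          obtain ⟨G, hG, rfl⟩ := hF
          exact Finset.mem_powerset.2 (hg G (Finset.mem_powerset.1 hG))
        · intro F _ _
          exact ind_nonneg _

/-! ### the new coordinates -/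

theorem edz_s (s d : ℤ) : (edz s d).1 + (edz s d).2.1 = s := by
  unfold edz
  split_ifs with h
  · simp only; omega
  · simp only; omega

theorem edz_d (s d : ℤ) : dco (edz s d) = d := by
  unfold edz dco
  split_ifs with h h1 h1
  · simp only; omega
  · simp at h1
  · simp at h1
  · simp only; omega

theorem edz_eta (e : Edg) : edz (e.1 + e.2.1) (dco e) = e := by
  obtain ⟨x, y, b⟩ := e
  unfold edz dco
  cases b
  · simp only [Bool.false_eq_true, if_false]
    rw [if_neg (by omega)]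
    simp only [Prod.mk.injEq, and_true]
    omega
  · simp only [if_true]
    rw [if_pos (by omega)]
    simp only [Prod.mk.injEq, and_true]
    omega

/-- new to old -/
def φ (e : Edg) : Edg := if e.1 + e.2.1 ≤ -2 then e else edz (e.1 + e.2.1 + 1) (dco e)

/-- old to new -/
def T (e : Edg) : Edg := if e.1 + e.2.1 ≤ -1 then e else edz (e.1 + e.2.1 - 1) (dco e)

theorem φT {e : Edg} (h : e.1 + e.2.1 ≠ -1) : φ (T e) = e := by
  unfold T
  split_ifs with h1
  · unfold φ
    rw [if_pos (by omega)]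
  · unfold φ
    rw [edz_s, edz_d, if_neg (by omega), sub_add_cancel, edz_eta]

theorem T_low {e : Edg} (h : e.1 + e.2.1 ≤ -2) : T e = e := by
  unfold T; rw [if_pos (by omega)]

theorem T_up {e : Edg} (h : 0 ≤ e.1 + e.2.1) : (T e).1 + (T e).2.1 = e.1 + e.2.1 - 1 := by
  unfold T; rw [if_neg (by omega), edz_s]

theorem T_d (e : Edg) : dco (T e) = dco e := by
  unfold T
  split_ifs
  · rfl
  · rw [edz_d]

open Classical in
/-- squares of the new plane -/
noncomputable def S0 (S : Finset Edg) : Finset Edg := S.filter (fun e => e.1 + e.2.1 ≠ -1)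

noncomputable def S1 (S : Finset Edg) : Finset Edg := (S0 S).image T

open Classical in
/-- the new configuration -/
noncomputable def g (S F : Finset Edg) : Finset Edg :=
  (S1 S).filter (fun e => (e.1 + e.2.1 ≤ -2 ∧ φ e ∈ F) ∨ (-1 ≤ e.1 + e.2.1 ∧ φ e ∉ F))

theorem mem_S0 {S : Finset Edg} {e : Edg} : e ∈ S0 S ↔ e ∈ S ∧ e.1 + e.2.1 ≠ -1 := by
  unfold S0; rw [Finset.mem_filter]

theorem T_mem {S : Finset Edg} {e : Edg} (h : e ∈ S0 S) : T e ∈ S1 S :=
  Finset.mem_image_of_mem _ h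

theorem card_S1 (S : Finset Edg) : (S0 S).card = (S1 S).card := by
  unfold S1
  rw [Finset.card_image_of_injOn]
  intro e he e' he' h
  have h1 := φT (mem_S0.1 he).2
  have h2 := φT (mem_S0.1 he').2
  rw [← h1, ← h2]
  exact congrArg φ h

theorem g_low {S F : Finset Edg} {e : Edg} (h : e ∈ S0 S) (hs : e.1 + e.2.1 ≤ -2) :
    T e ∈ g S F ↔ e ∈ F := by
  unfold g
  rw [Finset.mem_filter, φT (mem_S0.1 h).2, T_low hs]
  constructor
  · rintro ⟨_, h1 | h1⟩
    · exact h1.2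
    · omega
  · intro h1
    refine ⟨?_, Or.inl ⟨hs, h1⟩⟩
    have := T_mem h
    rwa [T_low hs] at this

theorem g_up {S F : Finset Edg} {e : Edg} (h : e ∈ S0 S) (hs : 0 ≤ e.1 + e.2.1) :
    T e ∈ g S F ↔ e ∉ F := by
  unfold g
  rw [Finset.mem_filter, φT (mem_S0.1 h).2, T_up hs]
  constructor
  · rintro ⟨_, h1 | h1⟩
    · omega
    · exact h1.2
  · intro h1
    exact ⟨T_mem h, Or.inr ⟨by omega, h1⟩⟩

theorem g_inj (S F G : Finset Edg) (hF : F ⊆ S0 S) (hG : G ⊆ S0 S) (h : g S F = g S G) :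
    F = G := by
  ext e
  by_cases he : e ∈ S0 S
  · have h0 := (mem_S0.1 he).2
    have h1 : e.1 + e.2.1 ≤ -2 ∨ 0 ≤ e.1 + e.2.1 := by omega
    rcases h1 with h1 | h1
    · rw [← g_low he h1, h, g_low he h1]
    · have h2 : e ∉ F ↔ e ∉ G := by rw [← g_up he h1, h, g_up he h1]
      tauto
  · exact ⟨fun h => absurd (hF h) he, fun h => absurd (hG h) he⟩

/-! ### points -/

def vv (p : ℤ × ℤ) : Vtx := ((p.1 + p.2) / 2, (p.1 - p.2) / 2)
def ff (p : ℤ × ℤ) : Vtx := ((p.1 - 1 + p.2) / 2, (p.1 - 1 - p.2) / 2)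

/-- old to new -/
def π (p : ℤ × ℤ) : ℤ × ℤ := if 1 ≤ p.1 then (p.1 - 1, p.2) else p

theorem adj_even {e : Edg} (h : (e.1 + e.2.1 + dco e) % 2 = 0) :
    vv (e.1 + e.2.1, dco e) = src e ∧ vv (e.1 + e.2.1 + 1, dco e + 1) = tgt e ∧
    ff (e.1 + e.2.1, dco e + 1) = dsrc e ∧ ff (e.1 + e.2.1 + 1, dco e) = dtgt e := by
  obtain ⟨x, y, b⟩ := e
  cases b
  · simp only [dco, Bool.false_eq_true, if_false] at h; omega
  · simp only [dco, if_true, vv, ff, src_mk, tgt_true, dsrc_true, dtgt_mk, Prod.mk.injEq] at *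
    omega

theorem adj_odd {e : Edg} (h : (e.1 + e.2.1 + dco e) % 2 = 1) :
    vv (e.1 + e.2.1, dco e + 1) = src e ∧ vv (e.1 + e.2.1 + 1, dco e) = tgt e ∧
    ff (e.1 + e.2.1, dco e) = dsrc e ∧ ff (e.1 + e.2.1 + 1, dco e + 1) = dtgt e := by
  obtain ⟨x, y, b⟩ := e
  cases b
  · simp only [dco, Bool.false_eq_true, if_false, vv, ff, src_mk, tgt_false, dsrc_false, dtgt_mk,
      Prod.mk.injEq] at *
    omega
  · simp only [dco, if_true] at h; omega

/-- connection in the new plane -/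
def RN (G H : Set Edg) (p q : ℤ × ℤ) : Prop :=
  ((p.1 + p.2) % 2 = 0 ∧ (q.1 + q.2) % 2 = 0 ∧ Reach G (vv p) (vv q)) ∨
  ((p.1 + p.2) % 2 = 1 ∧ (q.1 + q.2) % 2 = 1 ∧ DReach H (ff p) (ff q))

theorem reach_symm {G : Set Edg} {u v : Vtx} (h : Reach G u v) : Reach G v u := by
  induction h with
  | refl => exact Relation.ReflTransGen.refl
  | tail _ h ih => exact Relation.ReflTransGen.head (Adj.symm h) ih

theorem dreach_symm {G : Set Edg} {u v : Vtx} (h : DReach G u v) : DReach G v u := by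
  induction h with
  | refl => exact Relation.ReflTransGen.refl
  | tail _ h ih => exact Relation.ReflTransGen.head (DAdj.symm h) ih

theorem RN.refl (G H : Set Edg) (p : ℤ × ℤ) : RN G H p p := by
  have : (p.1 + p.2) % 2 = 0 ∨ (p.1 + p.2) % 2 = 1 := by omega
  rcases this with h | h
  · exact Or.inl ⟨h, h, Relation.ReflTransGen.refl⟩
  · exact Or.inr ⟨h, h, Relation.ReflTransGen.refl⟩

theorem RN.symm {G H : Set Edg} {p q : ℤ × ℤ} (h : RN G H p q) : RN G H q p := by
  rcases h with ⟨h1, h2, h3⟩ | ⟨h1, h2, h3⟩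
  · exact Or.inl ⟨h2, h1, reach_symm h3⟩
  · exact Or.inr ⟨h2, h1, dreach_symm h3⟩

theorem RN.trans {G H : Set Edg} {p q r : ℤ × ℤ} (h : RN G H p q) (h' : RN G H q r) :
    RN G H p r := by
  rcases h with ⟨h1, h2, h3⟩ | ⟨h1, h2, h3⟩ <;> rcases h' with ⟨h4, h5, h6⟩ | ⟨h4, h5, h6⟩
  · exact Or.inl ⟨h1, h5, Relation.ReflTransGen.trans h3 h6⟩
  · omega
  · omega
  · exact Or.inr ⟨h1, h5, Relation.ReflTransGen.trans h3 h6⟩

/-- a new open square -/
theorem new0 {G H : Set Edg} {e : Edg} (he : e ∈ G) :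
    ((e.1 + e.2.1 + dco e) % 2 = 0 → RN G H (e.1 + e.2.1, dco e) (e.1 + e.2.1 + 1, dco e + 1)) ∧
    ((e.1 + e.2.1 + dco e) % 2 = 1 → RN G H (e.1 + e.2.1, dco e + 1) (e.1 + e.2.1 + 1, dco e)) := by
  constructor
  · intro h
    obtain ⟨h1, h2, _, _⟩ := adj_even h
    refine Or.inl ⟨by simp only; omega, by simp only; omega, Relation.ReflTransGen.single ?_⟩
    rw [h1, h2]
    exact ⟨e, he, Or.inl ⟨rfl, rfl⟩⟩
  · intro h
    obtain ⟨h1, h2, _, _⟩ := adj_odd h
    refine Or.inl ⟨by simp only; omega, by simp only; omega, Relation.ReflTransGen.single ?_⟩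
    rw [h1, h2]
    exact ⟨e, he, Or.inl ⟨rfl, rfl⟩⟩

/-- a new closed square -/
theorem new1 {G H : Set Edg} {e : Edg} (he : e ∈ H) :
    ((e.1 + e.2.1 + dco e) % 2 = 1 → RN G H (e.1 + e.2.1, dco e) (e.1 + e.2.1 + 1, dco e + 1)) ∧
    ((e.1 + e.2.1 + dco e) % 2 = 0 → RN G H (e.1 + e.2.1, dco e + 1) (e.1 + e.2.1 + 1, dco e)) := by
  constructor
  · intro h
    obtain ⟨_, _, h1, h2⟩ := adj_odd h
    refine Or.inr ⟨by simp only; omega, by simp only; omega, Relation.ReflTransGen.single ?_⟩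
    rw [h1, h2]
    exact ⟨e, he, Or.inl ⟨rfl, rfl⟩⟩
  · intro h
    obtain ⟨_, _, h1, h2⟩ := adj_even h
    refine Or.inr ⟨by simp only; omega, by simp only; omega, Relation.ReflTransGen.single ?_⟩
    rw [h1, h2]
    exact ⟨e, he, Or.inl ⟨rfl, rfl⟩⟩

theorem π_low {d j t : ℤ} (h : j ≤ -1) : π (nrm {0} d j t) = (j, t) := by
  have h1 : nrm {0} d j t = (j, t) := by
    unfold nrm
    simp only [Set.mem_singleton_iff]
    rw [if_neg (show ¬ (d < 0 ∧ j = 0) by omega)]
  rw [h1]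
  unfold π
  rw [if_neg (by simp only; omega)]

theorem π_up {d j t : ℤ} (hd : d < 0) (h : 0 ≤ j) : π (nrm {0} d j t) = (j - 1, t) := by
  by_cases h0 : j = 0
  · have h1 : nrm {0} d j t = (j - 1, t) := by
      unfold nrm
      simp only [Set.mem_singleton_iff]
      rw [if_pos ⟨hd, h0⟩]
    rw [h1]
    unfold π
    rw [if_neg (by simp only; omega)]
  · have h1 : nrm {0} d j t = (j, t) := by
      unfold nrm
      simp only [Set.mem_singleton_iff]
      rw [if_neg (show ¬ (d < 0 ∧ j = 0) by omega)]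
    rw [h1]
    unfold π
    rw [if_pos (by simp only; omega)]

theorem link {S F : Finset Edg} {B : Set Edg} (hBS : ∀ e ∈ B, e ∈ S) (hd : ∀ e ∈ B, dco e < 0)
    {x y : ℤ × ℤ} (h : LZ {0} B (↑F : Set Edg) x y) :
    RN (↑(g S F) : Set Edg) (↑(S1 S \ g S F) : Set Edg) (π x) (π y) := by
  obtain ⟨e, heB, hez, h⟩ := h
  have hd0 := hd e heB
  have hs : e.1 + e.2.1 ≠ -1 := by
    intro h0
    apply hez
    refine ⟨hd0, ?_⟩
    rw [h0]
    rfl
  have he0 : e ∈ S0 S := mem_S0.2 ⟨hBS e heB, hs⟩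
  have hcase : e.1 + e.2.1 ≤ -2 ∨ 0 ≤ e.1 + e.2.1 := by omega
  rcases hcase with hc | hc
  · have hT := T_low hc
    have hgl := g_low (F := F) he0 hc
    have hTm := T_mem he0
    rw [hT] at hgl hTm
    rcases h with ⟨hF, hD⟩ | ⟨hF, hD⟩
    · have hG : e ∈ (↑(g S F) : Set Edg) := Finset.mem_coe.2 (hgl.2 hF)
      have hn := new0 (H := (↑(S1 S \ g S F) : Set Edg)) hG
      cases hD with
      | rise hp =>
        rw [π_low (by omega), π_low (by omega)]
        exact hn.1 hp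
      | fall hp =>
        rw [π_low (by omega), π_low (by omega)]
        exact hn.2 (by omega)
    · have hG : e ∈ (↑(S1 S \ g S F) : Set Edg) :=
        Finset.mem_coe.2 (Finset.mem_sdiff.2 ⟨hTm, fun h => hF (hgl.1 h)⟩)
      have hn := new1 (G := (↑(g S F) : Set Edg)) hG
      cases hD with
      | rise hp =>
        rw [π_low (by omega), π_low (by omega)]
        exact hn.1 hp
      | fall hp =>
        rw [π_low (by omega), π_low (by omega)]
        exact hn.2 (by omega)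
  · have hT := T_up hc
    have hTd := T_d e
    have hgu := g_up (F := F) he0 hc
    have hTm := T_mem he0
    rcases h with ⟨hF, hD⟩ | ⟨hF, hD⟩
    · have hG : T e ∈ (↑(S1 S \ g S F) : Set Edg) :=
        Finset.mem_coe.2 (Finset.mem_sdiff.2 ⟨hTm, fun h => (hgu.1 h) hF⟩)
      have hn := new1 (G := (↑(g S F) : Set Edg)) hG
      rw [hT, hTd] at hn
      cases hD with
      | rise hp =>
        rw [π_up hd0 (by omega), π_up hd0 (by omega)]
        have := hn.1 (by omega)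
        simpa only [sub_add_cancel, add_sub_cancel_right] using this
      | fall hp =>
        rw [π_up hd0 (by omega), π_up hd0 (by omega)]
        have := hn.2 (by omega)
        simpa only [sub_add_cancel, add_sub_cancel_right] using this
    · have hG : T e ∈ (↑(g S F) : Set Edg) := Finset.mem_coe.2 (hgu.2 hF)
      have hn := new0 (H := (↑(S1 S \ g S F) : Set Edg)) hG
      rw [hT, hTd] at hn
      cases hD with
      | rise hp =>
        rw [π_up hd0 (by omega), π_up hd0 (by omega)]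
        have := hn.1 (by omega)
        simpa only [sub_add_cancel, add_sub_cancel_right] using this
      | fall hp =>
        rw [π_up hd0 (by omega), π_up hd0 (by omega)]
        have := hn.2 (by omega)
        simpa only [sub_add_cancel, add_sub_cancel_right] using this

theorem path {S F : Finset Edg} {B : Set Edg} (hBS : ∀ e ∈ B, e ∈ S) (hd : ∀ e ∈ B, dco e < 0)
    {x y : ℤ × ℤ} (h : RZ {0} B (↑F : Set Edg) x y) :
    RN (↑(g S F) : Set Edg) (↑(S1 S \ g S F) : Set Edg) (π x) (π y) := by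
  induction h with
  | rel x y h => exact link hBS hd h
  | refl x => exact RN.refl _ _ _
  | symm x y _ ih => exact ih.symm
  | trans x y z _ _ ih1 ih2 => exact ih1.trans ih2

theorem π_1 (p : ℤ × ℤ) : (π p).1 = if 1 ≤ p.1 then p.1 - 1 else p.1 := by
  unfold π; split_ifs <;> rfl

theorem π_2 (p : ℤ × ℤ) : (π p).2 = p.2 := by
  unfold π; split_ifs <;> rfl

theorem cross {S F : Finset Edg} {B : Set Edg} (hBS : ∀ e ∈ B, e ∈ S) (hd : ∀ e ∈ B, dco e < 0)
    {a b : ℕ} {t0 : ℤ} (ha : 1 ≤ a) (hb : 16 ≤ b)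
    (h : ZCr {0} B (↑F : Set Edg) t0 a b) :
    H12S.Crs (t0 / 2) (-(t0 / 2)) (2 * a) (b / 4) (↑(g S F) : Set Edg) ∨
    H12S.DCrs (t0 / 2) (-(t0 / 2)) (2 * a) (b / 4) (↑(S1 S \ g S F) : Set Edg) := by
  obtain ⟨x, y, hx1, hx2, hy, hR⟩ := h
  have hp := path hBS hd hR
  rw [abs_le] at hx1 hx2
  have hx1' : -(a : ℤ) ≤ (π x).1 ∧ (π x).1 ≤ a := by
    rw [π_1]; split_ifs <;> omega
  have hx2' : -(a : ℤ) ≤ (π x).2 - t0 ∧ (π x).2 - t0 ≤ a := by
    rw [π_2]; exact hx2
  have hy' : ((b : ℤ) - 1 ≤ (π y).1 ∨ (π y).1 ≤ -((b : ℤ) - 1)) ∨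
      ((b : ℤ) ≤ (π y).2 - t0 ∨ (π y).2 - t0 ≤ -(b : ℤ)) := by
    rw [le_abs, le_abs] at hy
    rw [π_1, π_2]
    rcases hy with hy | hy
    · left; split_ifs <;> omega
    · right; omega
  generalize hu : π x = u at hp hx1' hx2'
  generalize hw : π y = w at hp hy'
  rcases hp with ⟨h1, h2, h3⟩ | ⟨h1, h2, h3⟩
  · left
    refine ⟨_, _, ?_, ?_, h3⟩
    · simp only [inR, vv]
      push_cast
      omega
    · simp only [vv]
      push_cast
      omega
  · right
    refine ⟨_, _, ?_, ?_, h3⟩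
    · simp only [inR, ff]
      push_cast
      omega
    · simp only [ff]
      push_cast
      omega

theorem RZ_local {B : Set Edg} {G G' : Set Edg} (h : ∀ e ∈ B, e ∉ zp {0} → (e ∈ G ↔ e ∈ G'))
    {x y : ℤ × ℤ} (hR : RZ {0} B G x y) : RZ {0} B G' x y := by
  induction hR with
  | rel x y hl =>
    obtain ⟨e, heB, hez, hl⟩ := hl
    refine .rel _ _ ⟨e, heB, hez, ?_⟩
    rw [h e heB hez] at hl
    exact hl
  | refl x => exact .refl _
  | symm x y _ ih => exact .symm _ _ ih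
  | trans x y z _ _ ih1 ih2 => exact .trans _ _ _ ih1 ih2

theorem exists_K {C c δ : ℝ} (hC : 0 < C) (hc : 0 < c) (hδ : 0 < δ) :
    ∃ K : ℕ, 16 ≤ K ∧ 2 * C * ((16 : ℝ) / K) ^ c ≤ δ := by
  set x : ℝ := (δ / (2 * C)) ^ (1 / c) with hx
  have hx0 : 0 < x := Real.rpow_pos_of_pos (by positivity) _
  obtain ⟨n, hn⟩ := exists_nat_ge (16 / x)
  refine ⟨max n 16, le_max_right _ _, ?_⟩
  have hK : (0 : ℝ) < (max n 16 : ℕ) := by
    have : 0 < max n 16 := lt_of_lt_of_le (by norm_num) (le_max_right _ _)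
    exact_mod_cast this
  have h1 : (16 : ℝ) / (max n 16 : ℕ) ≤ x := by
    rw [div_le_iff₀ hK]
    have h2 : (n : ℝ) ≤ (max n 16 : ℕ) := by exact_mod_cast le_max_left n 16
    have h3 : 16 ≤ x * n := by
      rw [div_le_iff₀ hx0] at hn
      linarith
    nlinarith
  have h2 : ((16 : ℝ) / (max n 16 : ℕ)) ^ c ≤ x ^ c :=
    Real.rpow_le_rpow (by positivity) h1 hc.le
  have h3 : x ^ c = δ / (2 * C) := by
    rw [hx, ← Real.rpow_mul (by positivity), one_div, inv_mul_cancel₀ hc.ne', Real.rpow_one]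
  rw [h3] at h2
  calc 2 * C * ((16 : ℝ) / (max n 16 : ℕ)) ^ c ≤ 2 * C * (δ / (2 * C)) :=
        mul_le_mul_of_nonneg_left h2 (by positivity)
    _ = δ := by field_simp

end TZC

open TZC in
theorem t_ZC : S_ZC := by
  intro δ hδ
  obtain ⟨κ, hκ, hwin⟩ := H12S.win_half
  obtain ⟨C, c, hC, hc, harm⟩ := H12S.win_arm_of
    (by intro q κ n h m hm hmn c1 c2 S; exact H12S.win_blk h hm hmn c1 c2 S) κ hκ
  obtain ⟨K, hK, hKδ⟩ := exists_K hC hc hδ
  refine ⟨K, by omega, ?_⟩
  intro a b t0 ha hb ht0 S B hBS hB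
  have hb16 : 16 * a ≤ b := le_trans (Nat.mul_le_mul_right a hK) hb
  have hd : ∀ e ∈ B, dco e < 0 := by
    intro e he
    have h1 := (hB e he).2
    rw [abs_le] at h1
    omega
  have hOk : Ok (fun _ : Edg => (1 / 2 : ℝ)) := fun _ => by norm_num
  have hS0 : S0 S ⊆ S := by unfold S0; exact Finset.filter_subset _ _
  have hloc : Pr (fun _ => (1 / 2 : ℝ)) S (fun F => ZCr {0} B (↑F : Set Edg) t0 a b) =
      Pr (fun _ => (1 / 2 : ℝ)) (S0 S) (fun F => ZCr {0} B (↑F : Set Edg) t0 a b) := by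
    apply Pr_local hS0
    intro F _
    have hiff : ∀ e ∈ B, e ∉ zp {0} → (e ∈ (↑F : Set Edg) ↔ e ∈ (↑(F ∩ S0 S) : Set Edg)) := by
      intro e he hz
      rw [Finset.mem_coe, Finset.mem_coe, Finset.mem_inter]
      refine ⟨fun h => ⟨h, mem_S0.2 ⟨hBS e he, fun h0 => hz ⟨hd e he, ?_⟩⟩⟩, fun h => h.1⟩
      rw [h0]; rfl
    constructor
    · rintro ⟨x, y, h1, h2, h3, h4⟩
      exact ⟨x, y, h1, h2, h3, RZ_local hiff h4⟩
    · rintro ⟨x, y, h1, h2, h3, h4⟩
      exact ⟨x, y, h1, h2, h3, RZ_local (fun e he hz => (hiff e he hz).symm) h4⟩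
  rw [hloc]
  have htr := pr_transfer (S0 S) (S1 S) (card_S1 S) (g S)
    (fun F _ => by unfold g; exact Finset.filter_subset _ _)
    (fun F hF G hG h => g_inj S F G hF hG h)
    (fun F => ZCr {0} B (↑F : Set Edg) t0 a b)
    (fun F => H12S.Crs (t0 / 2) (-(t0 / 2)) (2 * a) (b / 4) (↑F : Set Edg) ∨
      H12S.DCrs (t0 / 2) (-(t0 / 2)) (2 * a) (b / 4) (↑(S1 S \ F) : Set Edg))
    (fun F _ h => cross hBS hd ha (by omega) h)
  refine htr.trans ((Pr_or_le hOk _ _ _).trans ?_)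
  obtain ⟨h1, h2⟩ := harm (1 / 2) (b / 4) (hwin (b / 4)) (2 * a) (b / 4) (by omega) (by omega)
    le_rfl (t0 / 2) (-(t0 / 2)) (S1 S)
  have h3 : ((2 * a : ℕ) : ℝ) / (b / 4 : ℕ) ≤ 16 / K := by
    have hK0 : (0 : ℝ) < K := by
      have : 0 < K := by omega
      exact_mod_cast this
    have hb4 : 0 < b / 4 := by omega
    have hb4' : (0 : ℝ) < (b / 4 : ℕ) := by exact_mod_cast hb4
    rw [div_le_div_iff₀ hb4' hK0]
    have h5 : 2 * a * K ≤ 16 * (b / 4) := by
      have h6 : b ≤ 8 * (b / 4) := by omega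
      have h7 : a * K ≤ b := by rw [mul_comm]; exact hb
      have h8 : 2 * a * K = 2 * (a * K) := by ring
      omega
    exact_mod_cast h5
  have h4 : (((2 * a : ℕ) : ℝ) / (b / 4 : ℕ)) ^ c ≤ (16 / (K : ℝ)) ^ c :=
    Real.rpow_le_rpow (by positivity) h3 hc.le
  have h5 := mul_le_mul_of_nonneg_left h4 hC.le
  have h6 := h1.trans h5
  have h7 := h2.trans h5
  have h8 := add_le_add h6 h7
  refine h8.trans ?_
  linarith

end Pool.Agent.W808.KZ
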