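import Pool.Agent.W808.KZ.Stm

/-!
# Task ZP: crossings around the points where the zippers leave the boxes
-/

set_option autoImplicit false

namespace Pool.Agent.W808.KZ
open H974 H906.Cyl
open H12S (Dir hbE segD rimE H4 Crs Nr sqE)
open Pool.Agent.H160R2.ML (nm)
open Pool.Agent.H160R2.MU (Cel csq cpos prd shf BxS Bxs EP inSq PC Bad Cc)
open Pool.Agent.W808.HU (PTr)
open Pool.Agent.W801.OU

namespace TZP

/-- a path which leaves `D` contains an initial piece whose links touch `D` and which ends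
outside `D` -/
theorem exit {α : Type} {R : α → α → Prop} {D : α → Prop} {x y : α} (h : Relation.EqvGen R x y) :
    (D x → (D y ∧ Relation.EqvGen (fun u v => R u v ∧ (D u ∨ D v)) x y) ∨
      ∃ z, ¬ D z ∧ Relation.EqvGen (fun u v => R u v ∧ (D u ∨ D v)) x z) ∧
    (D y → (D x ∧ Relation.EqvGen (fun u v => R u v ∧ (D u ∨ D v)) x y) ∨
      ∃ z, ¬ D z ∧ Relation.EqvGen (fun u v => R u v ∧ (D u ∨ D v)) y z) := by
  induction h with
  | rel x y h =>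
    constructor
    · intro hx
      by_cases hy : D y
      · exact Or.inl ⟨hy, Relation.EqvGen.rel _ _ ⟨h, Or.inl hx⟩⟩
      · exact Or.inr ⟨y, hy, Relation.EqvGen.rel _ _ ⟨h, Or.inl hx⟩⟩
    · intro hy
      by_cases hx : D x
      · exact Or.inl ⟨hx, Relation.EqvGen.rel _ _ ⟨h, Or.inl hx⟩⟩
      · exact Or.inr ⟨x, hx, Relation.EqvGen.symm _ _ (Relation.EqvGen.rel _ _ ⟨h, Or.inr hy⟩)⟩
  | refl x =>
    exact ⟨fun hx => Or.inl ⟨hx, Relation.EqvGen.refl _⟩, fun hx => Or.inl ⟨hx, Relation.EqvGen.refl _⟩⟩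
  | symm x y _ ih =>
    obtain ⟨i1, i2⟩ := ih
    constructor
    · intro hy
      rcases i2 hy with ⟨h1, h2⟩ | h1
      · exact Or.inl ⟨h1, Relation.EqvGen.symm _ _ h2⟩
      · exact Or.inr h1
    · intro hx
      rcases i1 hx with ⟨h1, h2⟩ | h1
      · exact Or.inl ⟨h1, Relation.EqvGen.symm _ _ h2⟩
      · exact Or.inr h1
  | trans x y z _ _ ih1 ih2 =>
    obtain ⟨i1, i2⟩ := ih1
    obtain ⟨j1, j2⟩ := ih2
    constructor
    · intro hx
      rcases i1 hx with ⟨hy, h2⟩ | h1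
      · rcases j1 hy with ⟨hz, h3⟩ | ⟨w, hw, h3⟩
        · exact Or.inl ⟨hz, Relation.EqvGen.trans _ _ _ h2 h3⟩
        · exact Or.inr ⟨w, hw, Relation.EqvGen.trans _ _ _ h2 h3⟩
      · exact Or.inr h1
    · intro hz
      rcases j2 hz with ⟨hy, h2⟩ | h1
      · rcases i2 hy with ⟨hx, h3⟩ | ⟨w, hw, h3⟩
        · exact Or.inl ⟨hx, Relation.EqvGen.trans _ _ _ h3 h2⟩
        · exact Or.inr ⟨w, hw, Relation.EqvGen.trans _ _ _ (Relation.EqvGen.symm _ _ h2) h3⟩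
      · exact Or.inr h1

theorem mono {α : Type} {R R' : α → α → Prop} (h : ∀ u v, R u v → R' u v) {x y : α}
    (hxy : Relation.EqvGen R x y) : Relation.EqvGen R' x y := by
  induction hxy with
  | rel x y h' => exact Relation.EqvGen.rel _ _ (h _ _ h')
  | refl x => exact Relation.EqvGen.refl _
  | symm x y _ ih => exact Relation.EqvGen.symm _ _ ih
  | trans x y z _ _ ih1 ih2 => exact Relation.EqvGen.trans _ _ _ ih1 ih2

/-- the normal form moves a point by at most one to the left -/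
theorem nrm_bd (Z : Set ℤ) (d j t : ℤ) :
    (nrm Z d j t).2 = t ∧ j - 1 ≤ (nrm Z d j t).1 ∧ (nrm Z d j t).1 ≤ j := by
  unfold nrm
  split_ifs <;> refine ⟨rfl, ?_, ?_⟩ <;> simp only <;> omega

/-- the ends of a diagonal are near the square -/
theorem dg_bd {Z : Set ℤ} {c : ℤ} {e : Edg} {x y : ℤ × ℤ} (h : Dg Z c e x y) :
    (e.1 + e.2.1 - 1 ≤ x.1 ∧ x.1 ≤ e.1 + e.2.1 + 1 ∧ dco e ≤ x.2 ∧ x.2 ≤ dco e + 1) ∧
    (e.1 + e.2.1 - 1 ≤ y.1 ∧ y.1 ≤ e.1 + e.2.1 + 1 ∧ dco e ≤ y.2 ∧ y.2 ≤ dco e + 1) := by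
  cases h with
  | rise hc =>
    obtain ⟨a1, a2, a3⟩ := nrm_bd Z (dco e) (e.1 + e.2.1) (dco e)
    obtain ⟨b1, b2, b3⟩ := nrm_bd Z (dco e) (e.1 + e.2.1 + 1) (dco e + 1)
    omega
  | fall hc =>
    obtain ⟨a1, a2, a3⟩ := nrm_bd Z (dco e) (e.1 + e.2.1) (dco e + 1)
    obtain ⟨b1, b2, b3⟩ := nrm_bd Z (dco e) (e.1 + e.2.1 + 1) (dco e)
    omega

theorem nrm_eq {Z Z' : Set ℤ} {d j t : ℤ} (h : j ∈ Z ↔ j ∈ Z') : nrm Z d j t = nrm Z' d j t := by
  unfold nrm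
  by_cases h1 : d < 0 ∧ j ∈ Z
  · rw [if_pos h1, if_pos ⟨h1.1, h.1 h1.2⟩]
  · rw [if_neg h1, if_neg (fun h2 => h1 ⟨h2.1, h.2 h2.2⟩)]

theorem dg_eq {Z Z' : Set ℤ} {c : ℤ} {e : Edg} {x y : ℤ × ℤ} (h1 : e.1 + e.2.1 ∈ Z ↔ e.1 + e.2.1 ∈ Z')
    (h2 : e.1 + e.2.1 + 1 ∈ Z ↔ e.1 + e.2.1 + 1 ∈ Z') (h : Dg Z c e x y) : Dg Z' c e x y := by
  cases h with
  | rise hc =>
    rw [nrm_eq h1, nrm_eq h2]
    exact Dg.rise hc
  | fall hc =>
    rw [nrm_eq h1, nrm_eq h2]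
    exact Dg.fall hc

theorem zn_zero {n : ℕ} {j : ℤ} (h : |j| < 2 * n) : j ∈ Zn n ↔ j ∈ ({0} : Set ℤ) := by
  unfold Zn
  rw [Set.mem_ofPred_eq, Set.mem_singleton_iff]
  constructor
  · intro h1
    have h2 : ((2 * n : ℕ) : ℤ) ∣ j := Int.dvd_of_emod_eq_zero h1
    refine Int.eq_zero_of_abs_lt_dvd h2 ?_
    push_cast
    exact h
  · rintro rfl
    simp

theorem red_inj {n : ℕ} {b : ℤ} (hb : 2 * b < 2 * n) {e e' : Edg} (h1 : |e.1 + e.2.1| ≤ b)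
    (h2 : |e'.1 + e'.2.1| ≤ b) (h : red n e = red n e') : e = e' := by
  obtain ⟨x, y, bo⟩ := e
  obtain ⟨x', y', bo'⟩ := e'
  simp only [red, Prod.mk.injEq] at h
  obtain ⟨h4, h5, h6⟩ := h
  subst h6
  simp only at h1 h2
  rw [abs_le] at h1 h2
  set K := (x + y) / (2 * (n : ℤ))
  set K' := (x' + y') / (2 * (n : ℤ))
  have hK : K = K' := by
    by_contra hne
    rcases lt_or_gt_of_ne hne with h7 | h7
    · have : (n : ℤ) * (K' - K) ≥ n := by nlinarith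
      nlinarith
    · have : (n : ℤ) * (K - K') ≥ n := by nlinarith
      nlinarith
  rw [hK] at h4 h5
  simp only [Prod.mk.injEq, and_true]
  constructor <;> linarith

end TZP

open TZP in
theorem t_ZP : S_ZC → S_ZP := by
  classical
  intro hZC N hN δ hδ
  obtain ⟨K, hK, h⟩ := hZC δ hδ
  refine ⟨64 * K, fun ρ r hρ hr n M hn hM => ?_⟩
  -- numbers
  set b : ℕ := r / 2 with hb
  have hKρ : 1 * ρ ≤ K * ρ := Nat.mul_le_mul_right ρ hK
  have hr' : 64 * (K * ρ) ≤ r := by rw [← mul_assoc]; exact hr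
  have hab : K * (16 * ρ) ≤ b := by
    have : K * (16 * ρ) = 16 * (K * ρ) := by ring
    omega
  have hNr : 16 * r ≤ N * r := Nat.mul_le_mul_right r hN
  have hn' : n = 20 * (N * r) := by rw [hn, prd]; ring
  have hb2 : 2 * b ≤ r := by omega
  have h16 : 16 * ρ < b := by omega
  set t0 : ℤ := -(2 * N * r) with ht0
  have ht0' : t0 = -(2 * ((N * r : ℕ) : ℤ)) := by rw [ht0]; push_cast; ring
  set B : Set Edg := {e | |e.1 + e.2.1| ≤ 2 * b ∧ |dco e - t0| ≤ 2 * b} with hB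
  set S : Finset Edg := ((Finset.Icc (-(2 * b : ℤ)) (2 * b)) ×ˢ
    (Finset.Icc (t0 - 2 * b) (t0 + 2 * b))).image (fun p => edz p.1 p.2) with hS
  have hBS : ∀ e ∈ B, e ∈ S := by
    rintro e ⟨h1, h2⟩
    rw [abs_le] at h1 h2
    rw [hS, Finset.mem_image]
    refine ⟨(e.1 + e.2.1, dco e), ?_, edz_of e⟩
    rw [Finset.mem_product, Finset.mem_Icc, Finset.mem_Icc]
    simp only
    omega
  have hSB : ∀ e ∈ S, e ∈ B := by
    intro e he
    rw [hS, Finset.mem_image] at he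
    obtain ⟨⟨s, d⟩, hp, hpe⟩ := he
    rw [Finset.mem_product, Finset.mem_Icc, Finset.mem_Icc] at hp
    simp only at hp hpe
    have h1 : e.1 + e.2.1 = s ∧ dco e = d := by
      have := edz_of e
      rw [← hpe] at this ⊢
      exact edz_inj this
    rw [hB]
    simp only [Set.mem_ofPred_eq]
    rw [abs_le, abs_le, h1.1, h1.2]
    omega
  have hmain := h (16 * ρ) b t0 (by omega) hab (by omega) S B hBS (fun e he => he)
  have hred := Pr_red (n := n) (q := 1 / 2) (S := CE n M) (B := S)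
    (by
      intro e he e' he' hee
      have h1 := hSB e he
      have h2 := hSB e' he'
      exact red_inj (b := 2 * b) (by omega) h1.1 h2.1 hee)
    (by
      intro e he
      obtain ⟨e', he', rfl⟩ := Finset.mem_image.1 he
      have h1 := (hSB e' he').2
      rw [abs_le] at h1
      exact red_mem (by omega) (by omega) (by omega))
    (fun F => ZCr {0} B (↑F : Set Edg) t0 ((16 * ρ : ℕ) : ℤ) (b : ℤ))
  rw [← hred] at hmain
  refine le_trans ?_ hmain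
  unfold PC
  apply Pr_mono (okq (q := 1/2) (by norm_num) (by norm_num))
  rintro F - ⟨x, y, hx1, hx2, hy, hxy⟩
  have hbz : ((b : ℕ) : ℤ) = (r : ℤ) / 2 := by rw [hb]; push_cast; rfl
  rw [← hbz, ← ht0] at hy
  rw [← ht0] at hx2
  -- the near points
  set D : ℤ × ℤ → Prop := fun p => |p.1| < b ∧ |p.2 - t0| < b with hD
  have hDx : D x := by
    refine ⟨lt_of_le_of_lt hx1 ?_, lt_of_le_of_lt hx2 ?_⟩ <;> omega
  have hDy : ¬ D y := by
    rintro ⟨h1, h2⟩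
    rcases hy with h3 | h3 <;> omega
  have hex := (exit (D := D) hxy).1 hDx
  have hlk : ∀ u v : ℤ × ℤ, (LZ (Zn n) {e | |e.1 + e.2.1| ≤ r ∧ |dco e + 2 * N * r| ≤ r} (per n F) u v
      ∧ (D u ∨ D v)) → LZ {0} B (↑(S.filter (fun e => red n e ∈ F)) : Set Edg) u v := by
    rintro u v ⟨⟨e, -, hez, he⟩, hDD⟩
    have hbd : (e.1 + e.2.1 - 1 ≤ u.1 ∧ u.1 ≤ e.1 + e.2.1 + 1 ∧ dco e ≤ u.2 ∧ u.2 ≤ dco e + 1) ∧
        (e.1 + e.2.1 - 1 ≤ v.1 ∧ v.1 ≤ e.1 + e.2.1 + 1 ∧ dco e ≤ v.2 ∧ v.2 ≤ dco e + 1) := by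
      rcases he with ⟨-, he⟩ | ⟨-, he⟩
      · exact dg_bd he
      · exact dg_bd he
    have hnear : |e.1 + e.2.1| ≤ b ∧ |dco e - t0| ≤ b := by
      rw [abs_le, abs_le]
      rcases hDD with ⟨h1, h2⟩ | ⟨h1, h2⟩ <;> rw [abs_lt] at h1 h2 <;> omega
    have heB : e ∈ B := by
      refine ⟨le_trans hnear.1 ?_, le_trans hnear.2 ?_⟩ <;> omega
    have z1 : e.1 + e.2.1 ∈ Zn n ↔ e.1 + e.2.1 ∈ ({0} : Set ℤ) :=
      zn_zero (lt_of_le_of_lt hnear.1 (by omega))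
    have z2 : e.1 + e.2.1 + 1 ∈ Zn n ↔ e.1 + e.2.1 + 1 ∈ ({0} : Set ℤ) := by
      refine zn_zero ?_
      have := hnear.1
      rw [abs_le] at this
      rw [abs_lt]
      omega
    refine ⟨e, heB, fun hz => hez ⟨hz.1, z2.2 hz.2⟩, ?_⟩
    have hmem : e ∈ (↑(S.filter (fun e => red n e ∈ F)) : Set Edg) ↔ e ∈ per n F := by
      rw [Finset.mem_coe, Finset.mem_filter]
      exact ⟨fun h => h.2, fun h => ⟨hBS e heB, h⟩⟩
    rcases he with ⟨h1, h2⟩ | ⟨h1, h2⟩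
    · exact Or.inl ⟨hmem.2 h1, dg_eq z1 z2 h2⟩
    · exact Or.inr ⟨fun h3 => h1 (hmem.1 h3), dg_eq z1 z2 h2⟩
  have hpush : ((16 * ρ : ℕ) : ℤ) = 16 * (ρ : ℤ) := by push_cast; rfl
  rcases hex with ⟨h1, -⟩ | ⟨z, hz, hxz⟩
  · exact absurd h1 hDy
  · refine ⟨x, z, ?_, ?_, ?_, mono hlk hxz⟩
    · rw [hpush]; exact hx1
    · rw [hpush]; exact hx2
    · by_contra hcon
      push Not at hcon
      exact hz hcon

end Pool.Agent.W808.KZ
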