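import Pool.Agent.W808.KZ.Stm

/-!
# The tube touches the boxes only at its cells (task KZ-z1, helper790)
-/

set_option autoImplicit false

namespace Pool.Agent.W808.KZ
open H974 H906.Cyl
open Pool.Agent.H160R2.MU (Cel csq cpos prd shf BxS Bxs EP inSq PC Bad Cc)

namespace Tz1

/-- the box -/
def B0 (N : ℕ) (z : ℤ × ℤ) : Prop :=
  -(N : ℤ) ≤ z.1 ∧ z.1 < N ∧ -(N : ℤ) ≤ z.2 ∧ z.2 < N

lemma prd_eq (N : ℕ) : ((prd N N : ℕ) : ℤ) = 20 * N := by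
  unfold prd; push_cast; ring

lemma shf_eq (N : ℕ) (s : ℤ) (z : ℤ × ℤ) :
    shf N N s z = (z.1 - 20 * (s * N), z.2 - 20 * (s * N)) := by
  unfold shf
  rw [prd_eq]
  ext <;> simp only <;> ring

lemma adm4 {N : ℕ} {C : Cel} (h : AdmZ N C) :
    (C.1 = 0 ∨ C.1 = 1 ∨ C.1 = 2 ∨ C.1 = 3) ∧ -(N : ℤ) + 6 ≤ C.2 ∧ C.2 + 7 ≤ N := by
  obtain ⟨h1, h2, h3⟩ := h
  refine ⟨by omega, h2, h3⟩

/-- extent of the arm and of the box -/
lemma bd {N : ℕ} {C : Cel} (hN : 16 ≤ N) (hC : AdmZ N C) {z : ℤ × ℤ}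
    (hz : B0 N z ∨ z ∈ ArmZ N C) :
    -(4 * N : ℤ) - 5 ≤ z.1 ∧ z.1 ≤ 4 * N + 5 ∧ -(4 * N : ℤ) - 5 ≤ z.2 ∧ z.2 ≤ 4 * N + 5 := by
  obtain ⟨c1, c2⟩ := C
  obtain ⟨x, y⟩ := z
  obtain ⟨h4, h5, h6⟩ := adm4 hC
  simp only [B0, ArmZ, Set.mem_ofPred_eq] at hz h4 h5 h6 ⊢
  rcases h4 with rfl | rfl | rfl | rfl <;> norm_num at hz <;> omega

/-- shifts of near points -/
lemma same {N : ℕ} (hN : 16 ≤ N) {s s' : ℤ} {u v : ℤ × ℤ}
    (hu : -(4 * N : ℤ) - 5 ≤ u.1 - 20 * (s * N) ∧ u.1 - 20 * (s * N) ≤ 4 * N + 5)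
    (hv : -(4 * N : ℤ) - 5 ≤ v.1 - 20 * (s' * N) ∧ v.1 - 20 * (s' * N) ≤ 4 * N + 5)
    (h1 : |u.1 - v.1| ≤ 1) : s = s' := by
  rw [abs_le] at h1
  have hN' : (16 : ℤ) ≤ N := by exact_mod_cast hN
  rcases lt_trichotomy s s' with h | h | h
  · exfalso
    have h3 : s * N + N ≤ s' * N := by
      have : s + 1 ≤ s' := by omega
      nlinarith
    omega
  · exact h
  · exfalso
    have h3 : s' * N + N ≤ s * N := by
      have : s' + 1 ≤ s := by omega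
      nlinarith
    omega

end Tz1

open Tz1

theorem t_z1 : S_z1 := by
  intro N C hN hC s z b hz hb h1 h2
  have hN' : (16 : ℤ) ≤ N := by exact_mod_cast hN
  have hb' : B0 N (shf N N s b) := hb
  rcases hz with hz | ⟨s', hz⟩
  · exfalso
    simp only [RingZ, Set.mem_ofPred_eq] at hz
    rw [shf_eq] at hb'
    simp only [B0] at hb'
    rw [abs_le] at h1 h2
    omega
  · have hz1 := bd hN hC (Or.inr hz)
    have hb1 := bd hN hC (Or.inl hb')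
    rw [shf_eq] at hz1 hb1
    have hs : s' = s := same hN ⟨hz1.1, hz1.2.1⟩ ⟨hb1.1, hb1.2.1⟩ h1
    subst hs
    obtain ⟨h4, h5, h6⟩ := adm4 hC
    rw [shf_eq] at hz hb' ⊢
    rw [abs_le] at h1 h2
    generalize 20 * (s' * (N : ℤ)) = D at *
    obtain ⟨c1, c2⟩ := C
    obtain ⟨x, y⟩ := z
    obtain ⟨x', y'⟩ := b
    simp only [B0, ArmZ, Set.mem_ofPred_eq] at hz hb' h4 h5 h6 h1 h2
    rcases h4 with rfl | rfl | rfl | rfl <;> norm_num at hz <;> simp [csq] <;> omega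

end Pool.Agent.W808.KZ
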