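import Pool.Agent.W808.KZ.Stm
import Pool.Agent.H160R2.MU.T_g3

/-! z2 (helper839): the tube is connected and contains its cells. -/

set_option autoImplicit false

namespace Pool.Agent.W808.KZ

open H974 H906.Cyl
open H12S (Dir hbE segD rimE H4 Crs Nr sqE)
open Pool.Agent.H160R2.ML (nm)
open Pool.Agent.H160R2.MU (Cel csq cpos prd shf BxS Bxs EP inSq PC Bad Cc)
open Pool.Agent.W801.OU

namespace Tz2

open Pool.Agent.H160R2.MU.Tg3 (K Kh Kv shf_bk bk_shf bk adj mem_sq full close top left bottom right)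

lemma prd_eq (N : ℕ) : (prd N N : ℤ) = 20 * N := by unfold prd; push_cast; ring

/-! ### the ring -/

lemma ring_bk {N : ℕ} {z : ℤ × ℤ} (s : ℤ) (h : z ∈ RingZ N) : bk N N s z ∈ RingZ N := by
  obtain ⟨x, y⟩ := z
  obtain ⟨h1, h2⟩ := h
  refine ⟨?_, ?_⟩
  · show (3 * N : ℤ) ≤ (x + s * prd N N) - (y + s * prd N N)
    simp only at h1
    omega
  · show (x + s * prd N N) - (y + s * prd N N) ≤ (3 * N + 2 : ℤ)
    simp only at h2
    omega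

lemma ringK {N : ℕ} {T : Set (ℤ × ℤ)} (hT : RingZ N ⊆ T) {z : ℤ × ℤ} (hz : z ∈ RingZ N) :
    K T z (3 * (N : ℤ), 0) := by
  obtain ⟨x, y⟩ := z
  obtain ⟨h1, h2⟩ := hz
  simp only at h1 h2
  obtain ⟨d, hd⟩ : ∃ d : ℤ, d = x - y := ⟨_, rfl⟩
  have hx : x = d + y := by omega
  subst hx
  have hmem : ∀ t : ℤ, ((d + t, t) : ℤ × ℤ) ∈ RingZ N := by
    intro t
    refine ⟨?_, ?_⟩
    · show (3 * N : ℤ) ≤ d + t - t
      omega
    · show d + t - t ≤ (3 * N + 2 : ℤ)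
      omega
  have step : ∀ t : ℤ, K T (d + (t + 1), t + 1) (d + t, t) := by
    intro t
    refine Relation.ReflTransGen.single ⟨hT (hmem (t + 1)), hT (hmem t), ?_, ?_⟩
    · show |d + (t + 1) - (d + t)| ≤ 1
      rw [abs_le]
      omega
    · show |t + 1 - t| ≤ 1
      rw [abs_le]
      omega
  have h3 : K T (d + y, y) (d + 0, 0) := by
    induction y using Int.induction_on with
    | zero => exact K.refl _ _
    | succ n ih =>
      exact (step n).trans (ih (by omega) (by omega) (by omega))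
    | pred n ih =>
      have h4 := step (-(n : ℤ) - 1)
      rw [sub_add_cancel] at h4
      exact h4.symm.trans (ih (by omega) (by omega) (by omega))
  refine h3.trans ?_
  rw [add_zero]
  refine (Kh (by omega) fun t h4 h5 => hT ?_).symm
  refine ⟨?_, ?_⟩
  · show (3 * N : ℤ) ≤ t - 0
    omega
  · show t - 0 ≤ (3 * N + 2 : ℤ)
    omega

/-! ### the arm -/

lemma armK {N : ℕ} {C : Cel} (hC : AdmZ N C) :
    ∃ E ∈ RingZ N, (∀ z ∈ ArmZ N C, K (ArmZ N C) z E) ∧ csq N C ∈ ArmZ N C := by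
  obtain ⟨c1, c2⟩ := C
  obtain ⟨hc1, hc2, hc3⟩ := hC
  simp only at hc1 hc2 hc3
  have hN0 : (0 : ℤ) ≤ N := by positivity
  obtain ⟨T, hT⟩ : ∃ T : Set (ℤ × ℤ), T = ArmZ N (c1, c2) := ⟨_, rfl⟩
  have hmem : ∀ z : ℤ × ℤ, z ∈ T ↔
      (c1 = 0 ∧ z.1 = c2 ∧ (N : ℤ) ≤ z.2 ∧ z.2 ≤ N + 2) ∨
      (c1 = 0 ∧ z.2 = (N : ℤ) + 2 ∧ c2 ≤ z.1 ∧ z.1 - z.2 ≤ 3 * N + 2) ∨
      (c1 = 1 ∧ z.2 = c2 ∧ (N : ℤ) ≤ z.1 ∧ z.1 - z.2 ≤ 3 * N + 2) ∨
      (c1 = 2 ∧ z.1 = c2 ∧ z.2 ≤ -(N : ℤ) - 1 ∧ z.1 - z.2 ≤ 3 * N + 2) ∨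
      (c1 = 3 ∧ z.2 = c2 ∧ -(N : ℤ) - 3 ≤ z.1 ∧ z.1 ≤ -N - 1) ∨
      (c1 = 3 ∧ z.1 = -(N : ℤ) - 3 ∧ z.2 ≤ c2 ∧ z.1 - z.2 ≤ 3 * N + 2) := by
    intro z
    rw [hT]
    exact Iff.rfl
  rw [← hT]
  have hc : c1 = 0 ∨ c1 = 1 ∨ c1 = 2 ∨ c1 = 3 := by omega
  rcases hc with h | h | h | h
  · subst h
    have m1 : ∀ t : ℤ, (N : ℤ) ≤ t → t ≤ N + 2 → ((c2, t) : ℤ × ℤ) ∈ T :=
      fun t h1 h2 => (hmem _).2 (Or.inl ⟨rfl, rfl, h1, h2⟩)
    have m2 : ∀ t : ℤ, c2 ≤ t → t ≤ 4 * N + 4 → ((t, (N : ℤ) + 2) : ℤ × ℤ) ∈ T :=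
      fun t h1 h2 => (hmem _).2 (Or.inr (Or.inl ⟨rfl, rfl, h1, by
        show t - ((N : ℤ) + 2) ≤ 3 * N + 2
        omega⟩))
    refine ⟨(4 * (N : ℤ) + 4, (N : ℤ) + 2), ⟨by
      show (3 * N : ℤ) ≤ 4 * N + 4 - (N + 2)
      omega, by
      show (4 * N + 4 - (N + 2) : ℤ) ≤ 3 * N + 2
      omega⟩, ?_, m1 N le_rfl (by omega)⟩
    have e2 : ∀ t : ℤ, c2 ≤ t → t ≤ 4 * N + 4 →
        K T (t, (N : ℤ) + 2) (4 * (N : ℤ) + 4, (N : ℤ) + 2) :=
      fun t h1 h2 => Kh h2 fun t' h3 h4 => m2 t' (h1.trans h3) h4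
    rintro ⟨x, y⟩ hz
    rcases (hmem _).1 hz with ⟨g0, g1, g2, g3⟩ | ⟨g0, g1, g2, g3⟩ | ⟨g0, -⟩ | ⟨g0, -⟩ |
      ⟨g0, -⟩ | ⟨g0, -⟩
    · simp only at g1 g2 g3
      rw [g1]
      exact (Kv g3 fun t' h3 h4 => m1 t' (g2.trans h3) h4).trans (e2 c2 le_rfl (by omega))
    · simp only at g1 g2 g3
      rw [g1]
      exact e2 x g2 (by omega)
    all_goals omega
  · subst h
    have m1 : ∀ t : ℤ, (N : ℤ) ≤ t → t ≤ 3 * N + 2 + c2 → ((t, c2) : ℤ × ℤ) ∈ T :=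
      fun t h1 h2 => (hmem _).2 (Or.inr (Or.inr (Or.inl ⟨rfl, rfl, h1, by
        show t - c2 ≤ 3 * N + 2
        omega⟩)))
    refine ⟨(3 * (N : ℤ) + 2 + c2, c2), ⟨by
      show (3 * N : ℤ) ≤ 3 * N + 2 + c2 - c2
      omega, by
      show (3 * N + 2 + c2 - c2 : ℤ) ≤ 3 * N + 2
      omega⟩, ?_, m1 N le_rfl (by omega)⟩
    rintro ⟨x, y⟩ hz
    rcases (hmem _).1 hz with ⟨g0, -⟩ | ⟨g0, -⟩ | ⟨g0, g1, g2, g3⟩ | ⟨g0, -⟩ |
      ⟨g0, -⟩ | ⟨g0, -⟩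
    · omega
    · omega
    · simp only at g1 g2 g3
      rw [g1]
      exact Kh (by omega) fun t' h3 h4 => m1 t' (g2.trans h3) h4
    all_goals omega
  · subst h
    have m1 : ∀ t : ℤ, c2 - 3 * N - 2 ≤ t → t ≤ -(N : ℤ) - 1 → ((c2, t) : ℤ × ℤ) ∈ T :=
      fun t h1 h2 => (hmem _).2 (Or.inr (Or.inr (Or.inr (Or.inl ⟨rfl, rfl, h2, by
        show c2 - t ≤ 3 * N + 2
        omega⟩))))
    refine ⟨(c2, c2 - 3 * (N : ℤ) - 2), ⟨by
      show (3 * N : ℤ) ≤ c2 - (c2 - 3 * N - 2)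
      omega, by
      show (c2 - (c2 - 3 * N - 2) : ℤ) ≤ 3 * N + 2
      omega⟩, ?_, m1 (-(N : ℤ) - 1) (by omega) le_rfl⟩
    rintro ⟨x, y⟩ hz
    rcases (hmem _).1 hz with ⟨g0, -⟩ | ⟨g0, -⟩ | ⟨g0, -⟩ | ⟨g0, g1, g2, g3⟩ |
      ⟨g0, -⟩ | ⟨g0, -⟩
    · omega
    · omega
    · omega
    · simp only at g1 g2 g3
      rw [g1]
      exact (Kv (by omega) fun t' h3 h4 => m1 t' h3 (h4.trans g2)).symm
    all_goals omega
  · subst h
    have m1 : ∀ t : ℤ, -(N : ℤ) - 3 ≤ t → t ≤ -(N : ℤ) - 1 → ((t, c2) : ℤ × ℤ) ∈ T :=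
      fun t h1 h2 => (hmem _).2 (Or.inr (Or.inr (Or.inr (Or.inr (Or.inl ⟨rfl, rfl, h1, h2⟩)))))
    have m2 : ∀ t : ℤ, -(4 * N : ℤ) - 5 ≤ t → t ≤ c2 → ((-(N : ℤ) - 3, t) : ℤ × ℤ) ∈ T :=
      fun t h1 h2 => (hmem _).2 (Or.inr (Or.inr (Or.inr (Or.inr (Or.inr ⟨rfl, rfl, h2, by
        show -(N : ℤ) - 3 - t ≤ 3 * N + 2
        omega⟩)))))
    refine ⟨(-(N : ℤ) - 3, -(4 * N : ℤ) - 5), ⟨by
      show (3 * N : ℤ) ≤ -(N : ℤ) - 3 - (-(4 * N : ℤ) - 5)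
      omega, by
      show -(N : ℤ) - 3 - (-(4 * N : ℤ) - 5) ≤ (3 * N + 2 : ℤ)
      omega⟩, ?_, m1 (-(N : ℤ) - 1) (by omega) le_rfl⟩
    have e2 : ∀ t : ℤ, -(4 * N : ℤ) - 5 ≤ t → t ≤ c2 →
        K T (-(N : ℤ) - 3, t) (-(N : ℤ) - 3, -(4 * N : ℤ) - 5) :=
      fun t h1 h2 => (Kv h1 fun t' h3 h4 => m2 t' h3 (h4.trans h2)).symm
    rintro ⟨x, y⟩ hz
    rcases (hmem _).1 hz with ⟨g0, -⟩ | ⟨g0, -⟩ | ⟨g0, -⟩ | ⟨g0, -⟩ |
      ⟨g0, g1, g2, g3⟩ | ⟨g0, g1, g2, g3⟩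
    · omega
    · omega
    · omega
    · omega
    · simp only at g1 g2 g3
      rw [g1]
      exact ((Kh g2 fun t' h3 h4 => m1 t' h3 (h4.trans g3)).symm).trans
        (e2 c2 (by omega) le_rfl)
    · simp only at g1 g2 g3
      rw [g1]
      exact e2 y (by omega) g2

lemma liftZ {N : ℕ} {s : ℤ} {P T : Set (ℤ × ℤ)} (h : ∀ z ∈ P, bk N N s z ∈ T) {a b : ℤ × ℤ}
    (hab : K P a b) : K T (bk N N s a) (bk N N s b) :=
  Pool.Agent.H160R2.MU.Tg3.lift h hab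

/-- the tube is a chain -/
lemma tube {N : ℕ} {C : Cel} (hC : AdmZ N C) :
    ∀ z ∈ TubZ N C, K (TubZ N C) z (3 * (N : ℤ), 0) := by
  obtain ⟨E, hE, h1, h2⟩ := armK hC
  have hR : RingZ N ⊆ TubZ N C := fun z hz => Or.inl hz
  rintro z (hz | ⟨s, hz⟩)
  · exact ringK hR hz
  · have hsub : ∀ w ∈ ArmZ N C, bk N N s w ∈ TubZ N C := fun w hw =>
      Or.inr ⟨s, by rw [shf_bk]; exact hw⟩
    have h3 := liftZ hsub (h1 _ hz)
    rw [bk_shf] at h3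
    exact h3.trans (ringK hR (ring_bk s hE))

/-- the squares of the tube are connected inside -/
lemma inner (h2 : S_z1) {N : ℕ} {C : Cel} (hN : 16 ≤ N) (hA : AdmZ N C) {r : ℕ} (hr : 1 ≤ r)
    {z : ℤ × ℤ} (hz : z ∈ TubZ N C) {u v : Vtx} (hu : inSq r z u) (hv : inSq r z v) :
    Reach (ET N r C \ EB N r) u v := by
  have hg2 := h2 N C hN hA
  by_cases hb : ∃ (s : ℤ) (b : ℤ × ℤ), b ∈ BxS N N s ∧ |z.1 - b.1| ≤ 1 ∧ |z.2 - b.2| ≤ 1
  · obtain ⟨s, b, hbs, hb1, hb2⟩ := hb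
    have hac := hg2 s z b hz hbs hb1 hb2
    have hprd := prd_eq N
    have hcs : -(N : ℤ) - 1 ≤ (csq N C).1 ∧ (csq N C).1 ≤ N := by
      obtain ⟨e1, e2, e3⟩ := hA
      unfold csq
      split_ifs <;> simp only <;> constructor <;> omega
    have hN' : (16 : ℤ) ≤ N := by exact_mod_cast hN
    -- boxes near `z` are the box `s`
    have huniq : ∀ (s' : ℤ) (b' : ℤ × ℤ), b' ∈ BxS N N s' → |z.1 - b'.1| ≤ 1 → |z.2 - b'.2| ≤ 1 →
        s' = s := by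
      intro s' b' hb' h3 h4
      have hac' := hg2 s' z b' hz hb' h3 h4
      have k1 : z.1 - s * prd N N = (csq N C).1 := congrArg Prod.fst hac
      have k2 : z.1 - s' * prd N N = (csq N C).1 := congrArg Prod.fst hac'
      have k5 : (s' - s) * (prd N N : ℤ) = 0 := by
        have : (s' - s) * (prd N N : ℤ) = (z.1 - s * prd N N) - (z.1 - s' * prd N N) := by ring
        rw [this, k1, k2, sub_self]
      rcases mul_eq_zero.mp k5 with h5 | h5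
      · omega
      · rw [hprd] at h5
        omega
    have hbox : ∀ e ∈ sqE r z, e ∈ EP r (Bxs N N) → ∃ b' : ℤ × ℤ, b' ∈ BxS N N s ∧
        inSq r b' (src e) ∧ inSq r b' (tgt e) := by
      rintro e he ⟨b', ⟨s', hb's⟩, heb⟩
      have q1 := mem_sq he
      have q2 := mem_sq heb
      have q3 := close hr q1.1 q2.1
      have := huniq s' b' hb's q3.1 q3.2
      subst this
      exact ⟨b', hb's, q2.1, q2.2⟩
    have hr' : (1 : ℤ) ≤ r := by exact_mod_cast hr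
    obtain ⟨e1, e2, e3⟩ := hA
    have k1 : z.1 - s * prd N N = (csq N C).1 := congrArg Prod.fst hac
    have k2 : z.2 - s * prd N N = (csq N C).2 := congrArg Prod.snd hac
    have key : ∀ e ∈ sqE r z, e ∉ EP r (Bxs N N) → e ∈ ET N r C \ EB N r :=
      fun e he hn => ⟨⟨z, hz, he⟩, hn⟩
    unfold csq at k1 k2
    split_ifs at k1 k2 with g0 g1 g2
    · refine bottom hr (fun e he hne => key e he fun hB => hne ?_) hu hv
      obtain ⟨b', hb', p1, p2⟩ := hbox e he hB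
      obtain ⟨q1, q2⟩ := mem_sq he
      have w1 : b'.2 - s * prd N N < N := hb'.2.2.2
      have w2 : b'.2 + 1 ≤ z.2 := by simp only at k2; omega
      have w3 : (r : ℤ) * (b'.2 + 1) ≤ r * z.2 := mul_le_mul_of_nonneg_left w2 (by omega)
      have w4 : (r : ℤ) * (b'.2 + 1) = r * b'.2 + r := by ring
      have := p1.2.2.2
      have := p2.2.2.2
      have := q1.2.2.1
      have := q2.2.2.1
      constructor <;> omega
    · refine left hr (fun e he hne => key e he fun hB => hne ?_) hu hv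
      obtain ⟨b', hb', p1, p2⟩ := hbox e he hB
      obtain ⟨q1, q2⟩ := mem_sq he
      have w1 : b'.1 - s * prd N N < N := hb'.2.1
      have w2 : b'.1 + 1 ≤ z.1 := by simp only at k1; omega
      have w3 : (r : ℤ) * (b'.1 + 1) ≤ r * z.1 := mul_le_mul_of_nonneg_left w2 (by omega)
      have w4 : (r : ℤ) * (b'.1 + 1) = r * b'.1 + r := by ring
      have := p1.2.1
      have := p2.2.1
      have := q1.1
      have := q2.1
      constructor <;> omega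
    · refine top hr (fun e he hne => key e he fun hB => hne ?_) hu hv
      obtain ⟨b', hb', p1, p2⟩ := hbox e he hB
      obtain ⟨q1, q2⟩ := mem_sq he
      have w1 : -(N : ℤ) ≤ b'.2 - s * prd N N := hb'.2.2.1
      have w2 : z.2 + 1 ≤ b'.2 := by simp only at k2; omega
      have w3 : (r : ℤ) * (z.2 + 1) ≤ r * b'.2 := mul_le_mul_of_nonneg_left w2 (by omega)
      have w4 : (r : ℤ) * (z.2 + 1) = r * z.2 + r := by ring
      have := p1.2.2.1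
      have := p2.2.2.1
      have := q1.2.2.2
      have := q2.2.2.2
      constructor <;> omega
    · refine right hr (fun e he hne => key e he fun hB => hne ?_) hu hv
      obtain ⟨b', hb', p1, p2⟩ := hbox e he hB
      obtain ⟨q1, q2⟩ := mem_sq he
      have w1 : -(N : ℤ) ≤ b'.1 - s * prd N N := hb'.1
      have w2 : z.1 + 1 ≤ b'.1 := by simp only at k1; omega
      have w3 : (r : ℤ) * (z.1 + 1) ≤ r * b'.1 := mul_le_mul_of_nonneg_left w2 (by omega)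
      have w4 : (r : ℤ) * (z.1 + 1) = r * z.1 + r := by ring
      have := p1.1
      have := p2.1
      have := q1.2.1
      have := q2.2.1
      constructor <;> omega
  · refine full (F := ET N r C \ EB N r) (fun e he => ⟨⟨z, hz, he⟩, ?_⟩) hu hv
    rintro ⟨b, ⟨s, hbs⟩, heb⟩
    have q3 := close hr (mem_sq he).1 (mem_sq heb).1
    exact hb ⟨s, b, hbs, q3.1, q3.2⟩

end Tz2

/-- the tube is connected and contains its cells -/
theorem t_z2 (h1 : S_z1) : S_z2 := by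
  intro N C hN hC
  refine ⟨?_, ?_⟩
  · intro r z z' u v hr hz hz' hu hv
    exact Pool.Agent.H160R2.MU.Tg3.K.reach
      (fun w hw x y hx hy => Tz2.inner h1 hN hC hr hw hx hy)
      ((Tz2.tube hC z hz).trans (Tz2.tube hC z' hz').symm) hz u v hu hv
  · intro s z hz
    obtain ⟨E, -, -, h2⟩ := Tz2.armK hC
    exact Or.inr ⟨s, by rw [hz]; exact h2⟩

end Pool.Agent.W808.KZ
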