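import Pool.Agent.W808.KZ.Stm
import Pool.Agent.W808.KZ.T_z1

/-!
# No checkerboard, periodicity, extent; the tube is far from the zippers (task KZ-z3, helper790)
-/

set_option autoImplicit false

namespace Pool.Agent.W808.KZ
open H974 H906.Cyl
open Pool.Agent.H160R2.MU (Cel csq cpos prd shf BxS Bxs EP inSq PC Bad Cc)

namespace Tz3
open Tz1

/-- box, arm and ring -/
def QQ (N : ℕ) (C : Cel) (z : ℤ × ℤ) : Prop := B0 N z ∨ z ∈ ArmZ N C ∨ z ∈ RingZ N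

lemma ring_shf {N : ℕ} (s : ℤ) (z : ℤ × ℤ) : shf N N s z ∈ RingZ N ↔ z ∈ RingZ N := by
  rw [shf_eq]
  simp only [RingZ, Set.mem_ofPred_eq]
  constructor <;> intro h <;> omega

lemma shf_shf (N : ℕ) (s s' : ℤ) (z : ℤ × ℤ) :
    shf N N s (shf N N s' z) = shf N N (s + s') z := by
  rw [shf_eq, shf_eq, shf_eq]
  ext <;> simp only <;> ring

lemma shf_zero (N : ℕ) (z : ℤ × ℤ) : shf N N 0 z = z := by
  rw [shf_eq]
  ext <;> simp

lemma mem_P {N : ℕ} {C : Cel} {z : ℤ × ℤ} :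
    z ∈ Bxs N N ∪ TubZ N C ↔ ∃ s : ℤ, QQ N C (shf N N s z) := by
  constructor
  · rintro (⟨s, hs⟩ | hz | ⟨s, hs⟩)
    · exact ⟨s, Or.inl hs⟩
    · exact ⟨0, Or.inr (Or.inr ((ring_shf 0 z).2 hz))⟩
    · exact ⟨s, Or.inr (Or.inl hs)⟩
  · rintro ⟨s, hs | hs | hs⟩
    · exact Or.inl ⟨s, hs⟩
    · exact Or.inr (Or.inr ⟨s, hs⟩)
    · exact Or.inr (Or.inl ((ring_shf s z).1 hs))

lemma common {N : ℕ} {C : Cel} (hN : 16 ≤ N) (hC : AdmZ N C) {u v : ℤ × ℤ}
    (hu : u ∈ Bxs N N ∪ TubZ N C) (hv : v ∈ Bxs N N ∪ TubZ N C) (h1 : |u.1 - v.1| ≤ 1) :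
    ∃ s : ℤ, QQ N C (shf N N s u) ∧ QQ N C (shf N N s v) := by
  obtain ⟨s, hs⟩ := mem_P.1 hu
  obtain ⟨s', hs'⟩ := mem_P.1 hv
  have key : ∀ z : ℤ × ℤ, ∀ t : ℤ, QQ N C (shf N N t z) →
      (B0 N (shf N N t z) ∨ shf N N t z ∈ ArmZ N C) ∨ ∀ t' : ℤ, QQ N C (shf N N t' z) := by
    rintro z t (h | h | h)
    · exact Or.inl (Or.inl h)
    · exact Or.inl (Or.inr h)
    · exact Or.inr fun t' => Or.inr (Or.inr ((ring_shf t' z).2 ((ring_shf t z).1 h)))
  rcases key u s hs with hu' | hu'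
  · rcases key v s' hs' with hv' | hv'
    · have b1 := bd hN hC hu'
      have b2 := bd hN hC hv'
      rw [shf_eq] at b1 b2
      have : s = s' := same hN ⟨b1.1, b1.2.1⟩ ⟨b2.1, b2.2.1⟩ h1
      subst this
      exact ⟨s, hs, hs'⟩
    · exact ⟨s, hs, hv' s⟩
  · exact ⟨s', hu' s', hs'⟩

/-- the two other squares of an antidiagonal pair -/
lemma anti {N : ℕ} {C : Cel} (hN : 16 ≤ N) (hC : AdmZ N C) (x y : ℤ)
    (hu : QQ N C (x + 1, y)) (hv : QQ N C (x, y + 1)) :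
    QQ N C (x, y) ∨ QQ N C (x + 1, y + 1) := by
  obtain ⟨c1, c2⟩ := C
  obtain ⟨h4, h5, h6⟩ := adm4 hC
  have hN' : (16 : ℤ) ≤ N := by exact_mod_cast hN
  simp only [QQ, B0, ArmZ, RingZ, Set.mem_ofPred_eq] at hu hv h4 h5 h6 ⊢
  rcases h4 with rfl | rfl | rfl | rfl <;> norm_num at hu hv ⊢ <;> omega

/-- the two other squares of a diagonal pair -/
lemma diag {N : ℕ} {C : Cel} (hN : 16 ≤ N) (hC : AdmZ N C) (x y : ℤ)
    (hu : QQ N C (x, y)) (hv : QQ N C (x + 1, y + 1)) :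
    QQ N C (x + 1, y) ∨ QQ N C (x, y + 1) := by
  obtain ⟨c1, c2⟩ := C
  obtain ⟨h4, h5, h6⟩ := adm4 hC
  have hN' : (16 : ℤ) ≤ N := by exact_mod_cast hN
  simp only [QQ, B0, ArmZ, RingZ, Set.mem_ofPred_eq] at hu hv h4 h5 h6 ⊢
  rcases h4 with rfl | rfl | rfl | rfl <;> norm_num at hu hv ⊢ <;> omega

lemma ext1 {N : ℕ} {C : Cel} (hN : 16 ≤ N) (hC : AdmZ N C) {z : ℤ × ℤ} (hz : QQ N C z) :
    |z.1 - z.2| ≤ 3 * N + 2 := by
  obtain ⟨c1, c2⟩ := C
  obtain ⟨x, y⟩ := z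
  obtain ⟨h4, h5, h6⟩ := adm4 hC
  have hN' : (16 : ℤ) ≤ N := by exact_mod_cast hN
  rw [abs_le]
  simp only [QQ, B0, ArmZ, RingZ, Set.mem_ofPred_eq] at hz h4 h5 h6 ⊢
  rcases h4 with rfl | rfl | rfl | rfl <;> norm_num at hz <;> omega

lemma far {N : ℕ} {C : Cel} (hN : 16 ≤ N) (hC : AdmZ N C) {z : ℤ × ℤ} (hz : z ∈ ArmZ N C)
    (D : ℤ) (hD : D = 0 ∨ 20 * (N : ℤ) ≤ D ∨ D ≤ -(20 * N)) :
    (N : ℤ) ≤ (z.1 + D) - (z.2 + D) ∨ (z.1 + D) + (z.2 + D) ≤ -6 ∨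
      5 ≤ (z.1 + D) + (z.2 + D) := by
  obtain ⟨c1, c2⟩ := C
  obtain ⟨x, y⟩ := z
  obtain ⟨h4, h5, h6⟩ := adm4 hC
  have hN' : (16 : ℤ) ≤ N := by exact_mod_cast hN
  simp only [ArmZ, Set.mem_ofPred_eq] at hz h4 h5 h6 ⊢
  rcases h4 with rfl | rfl | rfl | rfl <;> norm_num at hz <;> omega

end Tz3

open Tz1 Tz3

theorem t_z3 : S_z3 := by
  intro N C hN hC P hP
  have hN' : (16 : ℤ) ≤ N := by exact_mod_cast hN
  subst hP
  refine ⟨?_, ?_, ?_, ?_, ?_⟩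
  · intro x y h1 h2
    by_contra hcon
    push Not at hcon
    obtain ⟨s, a1, a2⟩ := common hN hC hcon.1 hcon.2 (by simp)
    rw [shf_eq] at a1 a2
    have e1 : ((x + 1, y).1 - 20 * (s * N), (x + 1, y).2 - 20 * (s * N)) =
        ((x - 20 * (s * N)) + 1, y - 20 * (s * (N : ℤ))) := by ext <;> simp only; ring
    have e2 : ((x, y + 1).1 - 20 * (s * N), (x, y + 1).2 - 20 * (s * N)) =
        (x - 20 * (s * N), (y - 20 * (s * (N : ℤ))) + 1) := by ext <;> simp only; ring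
    rw [e1] at a1
    rw [e2] at a2
    rcases anti hN hC _ _ a1 a2 with h | h
    · exact h1 (mem_P.2 ⟨s, by rw [shf_eq]; exact h⟩)
    · refine h2 (mem_P.2 ⟨s, ?_⟩)
      rw [shf_eq]
      convert h using 2 <;> ring
  · intro x y h1 h2
    by_contra hcon
    push Not at hcon
    obtain ⟨s, a1, a2⟩ := common hN hC hcon.1 hcon.2 (by simp)
    rw [shf_eq] at a1 a2
    have e2 : ((x + 1, y + 1).1 - 20 * (s * N), (x + 1, y + 1).2 - 20 * (s * N)) =
        ((x - 20 * (s * N)) + 1, (y - 20 * (s * (N : ℤ))) + 1) := by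
      ext <;> simp only <;> ring
    rw [e2] at a2
    rcases diag hN hC _ _ a1 a2 with h | h
    · refine h1 (mem_P.2 ⟨s, ?_⟩)
      rw [shf_eq]
      convert h using 2
      ring
    · refine h2 (mem_P.2 ⟨s, ?_⟩)
      rw [shf_eq]
      convert h using 2
      ring
  · intro z s
    constructor
    · constructor
      · rintro ⟨s', h⟩
        refine ⟨s' - s, ?_⟩
        show B0 N (shf N N (s' - s) (shf N N s z))
        rw [shf_shf, sub_add_cancel]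
        exact h
      · rintro ⟨s', h⟩
        refine ⟨s' + s, ?_⟩
        show B0 N (shf N N (s' + s) z)
        rw [← shf_shf]
        exact h
    · constructor
      · rintro (h | ⟨s', h⟩)
        · exact Or.inl ((ring_shf s z).2 h)
        · refine Or.inr ⟨s' - s, ?_⟩
          rw [shf_shf, sub_add_cancel]
          exact h
      · rintro (h | ⟨s', h⟩)
        · exact Or.inl ((ring_shf s z).1 h)
        · refine Or.inr ⟨s' + s, ?_⟩
          rw [← shf_shf]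
          exact h
  · intro z hz
    obtain ⟨s, hs⟩ := mem_P.1 hz
    have := ext1 hN hC hs
    rw [shf_eq] at this
    simp only at this
    rw [show z.1 - 20 * (s * (N : ℤ)) - (z.2 - 20 * (s * N)) = z.1 - z.2 by ring] at this
    exact this
  · rintro z (hz | ⟨s', hz⟩) s
    · left
      rw [shf_eq]
      simp only [RingZ, Set.mem_ofPred_eq] at hz ⊢
      omega
    · have hD : 20 * ((s' - s) * (N : ℤ)) = 0 ∨ 20 * (N : ℤ) ≤ 20 * ((s' - s) * (N : ℤ)) ∨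
          20 * ((s' - s) * (N : ℤ)) ≤ -(20 * N) := by
        have h1 : s' - s = 0 ∨ 1 ≤ s' - s ∨ s' - s ≤ -1 := by omega
        rcases h1 with h1 | h1 | h1
        · left; rw [h1]; ring
        · right; left; nlinarith
        · right; right; nlinarith
      have := far hN hC hz _ hD
      rw [shf_eq] at this ⊢
      simp only at this ⊢
      have e1 : z.1 - 20 * (s' * (N : ℤ)) + 20 * ((s' - s) * (N : ℤ)) = z.1 - 20 * (s * N) := by
        ring
      have e2 : z.2 - 20 * (s' * (N : ℤ)) + 20 * ((s' - s) * (N : ℤ)) = z.2 - 20 * (s * N) := by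
        ring
      rw [e1, e2] at this
      exact this

end Pool.Agent.W808.KZ
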