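import Pool.Agent.W808.KZ.Defs

/-!
# Upper bound for the three arm event of the dislocated plane: the steps
(every step is a `Prop`; the file `T_X.lean` proves `t_X` from its hypotheses)
-/

set_option autoImplicit false

namespace Pool.Agent.W808.KZ
open H974 H906.Cyl
open H12S (Dir hbE segD rimE H4 Crs Nr sqE)
open Pool.Agent.H160R2.ML (nm)
open Pool.Agent.H160R2.MU (Cel csq cpos prd shf BxS Bxs EP inSq PC Bad Cc)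
open Pool.Agent.W808.HU (PTr)
open Pool.Agent.W801.OU

/-! ## coarse geometry -/

/-- the tube touches the boxes only at its cells -/
def S_z1 : Prop := ∀ (N : ℕ) (C : Cel), 16 ≤ N → AdmZ N C → ∀ (s : ℤ) (z b : ℤ × ℤ),
  z ∈ TubZ N C → b ∈ BxS N N s → |z.1 - b.1| ≤ 1 → |z.2 - b.2| ≤ 1 → shf N N s z = csq N C

/-- the tube is connected and contains its cells -/
def S_z2 : Prop := ∀ (N : ℕ) (C : Cel), 16 ≤ N → AdmZ N C →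
  (∀ (r : ℕ) (z z' : ℤ × ℤ) (u v : Vtx), 1 ≤ r → z ∈ TubZ N C → z' ∈ TubZ N C → inSq r z u →
    inSq r z' v → Reach (ET N r C \ EB N r) u v) ∧
  (∀ (s : ℤ) (z : ℤ × ℤ), shf N N s z = csq N C → z ∈ TubZ N C)

/-- no checkerboard, periodicity, extent; the tube is far from the zippers -/
def S_z3 : Prop := ∀ (N : ℕ) (C : Cel), 16 ≤ N → AdmZ N C → ∀ P : Set (ℤ × ℤ),
  P = Bxs N N ∪ TubZ N C →
  (∀ x y : ℤ, (x, y) ∉ P → (x + 1, y + 1) ∉ P → (x + 1, y) ∉ P ∨ (x, y + 1) ∉ P) ∧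
  (∀ x y : ℤ, (x + 1, y) ∉ P → (x, y + 1) ∉ P → (x, y) ∉ P ∨ (x + 1, y + 1) ∉ P) ∧
  (∀ (z : ℤ × ℤ) (s : ℤ), (z ∈ Bxs N N ↔ shf N N s z ∈ Bxs N N) ∧
    (z ∈ TubZ N C ↔ shf N N s z ∈ TubZ N C)) ∧
  (∀ z ∈ P, |z.1 - z.2| ≤ 3 * N + 2) ∧
  (∀ z ∈ TubZ N C, ∀ s : ℤ, (N : ℤ) ≤ (shf N N s z).1 - (shf N N s z).2 ∨
    (shf N N s z).1 + (shf N N s z).2 ≤ -6 ∨ 5 ≤ (shf N N s z).1 + (shf N N s z).2)

/-- the closed region: above the ring every point of class `1` is connected to a point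
`(n + 1 + 2 n s, - 2 n)`; the points below the ring are isolated from the rest when the tube is open -/
def S_EX : Prop := ∀ (N r : ℕ) (C : Cel), 16 ≤ N → 4 ≤ r → AdmZ N C → ∀ (n M : ℕ),
  n = prd N N * r → M = 4 * n →
  (∀ x : ℤ × ℤ, XE N r C n x → x.2 < (3 * N + 1) * r → ∃ s : ℤ,
    RZ (Zn n) {e | e ∉ EB N r ∧ e ∉ ET N r C} ∅ x (n + 1 + 2 * n * s, -(2 * n))) ∧
  (∀ p : Vtx, OutF N r C p → XE N r C n (fp p) ∧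
    (RZ (Zn n) {e | e ∉ EB N r ∧ e ∉ ET N r C} ∅ (fp p) (n + 1, -(2 * n)) ∨
      RZ (Zn n) {e | e ∉ EB N r ∧ e ∉ ET N r C} ∅ (fp p) (n + 1 - 2 * n, -(2 * n)))) ∧
  (∀ F : Finset Edg, F ⊆ CE n M → ∀ x y : ℤ × ℤ, XE N r C n x → (3 * N + 1) * r ≤ x.2 →
    RC n (per n (FA N r C n M F)) x y → (3 * N + 1) * r < y.2)

/-! ## deterministic steps -/

/-- parity: two different sectors have adjacent touching points at the boundary of the box -/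
def S_ADJ : Prop := ∀ (R : ℕ) (G : Set Edg), 1 ≤ R →
  (∀ c d : ℕ, c < 3 → d < 3 → c ≠ d → ¬ RZ {0} (bxz R) G (scz 0 0 c) (scz 0 0 d)) →
  ∀ c d : ℕ, c < 3 → d < 3 → c ≠ d → ∃ (x y : ℤ × ℤ) (e e' : Edg), e ∉ bxz R ∧ e' ∈ bxz R ∧
    RZ {0} (bxz R) G (scz 0 0 c) x ∧ RZ {0} (bxz R) G (scz 0 0 d) y ∧
    ((Cor {0} 0 e x ∧ Cor {0} 1 e y) ∨ (Cor {0} 1 e x ∧ Cor {0} 0 e y)) ∧
    ((Cor {0} 0 e' x ∧ Cor {0} 1 e' y) ∨ (Cor {0} 1 e' x ∧ Cor {0} 0 e' y))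

/-- not all three sectors touch the outside in class `1` -/
def S_NC : Prop := ∀ (R : ℕ) (G : Set Edg), 1 ≤ R → ∃ c : ℕ, c < 3 ∧ ∀ (x : ℤ × ℤ) (e : Edg),
  e ∉ bxz R → Cor {0} 1 e x → ¬ RZ {0} (bxz R) G (scz 0 0 c) x

def S_DET : Prop := ∀ (N r : ℕ) (C : Cel), 16 ≤ N → 4 ≤ r → AdmZ N C → ∀ (n M : ℕ),
  n = prd N N * r → M = 4 * n → ∀ F : Finset Edg, F ⊆ CE n M → LandZ N r C (per n F) →
  EZ N r C n (per n (FA N r C n M F))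

def S_DETP : Prop := ∀ (N r : ℕ) (C : Cel), 16 ≤ N → 4 ≤ r → AdmZ N C → ∀ (n M : ℕ),
  n = prd N N * r → M = 4 * n →
  Pr (fun _ => (1 / 2 : ℝ)) (boxE (N * r)) (fun F => LandZ N r C (↑F : Set Edg)) ≤
    PC n M (fun F => EZ N r C n (per n (FA N r C n M F)))

/-- the leg event implies the event of a smaller box -/
def S_DEC : Prop := ∀ (n M R : ℕ), 1 ≤ R → 4 * R ≤ n → 2 * R ≤ M → ∀ (B F : Finset Edg),
  B ⊆ CE n M → F ⊆ CE n M → (∀ e ∈ boxE R, red n e ∈ B ↔ red n e ∈ F) →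
  G3 n (per n B) → SE3 R (per n F)

/-! ## bad events -/

/-- step A: different clusters are far from each other at the boundary of the tube -/
def S_SEPA : Prop := ∀ (N r ρ l : ℕ) (C : Cel), 16 ≤ N → AdmZ N C → 1 ≤ l → 32 * l ≤ ρ →
  64 * ρ ≤ r → ∀ (n M : ℕ), n = prd N N * r → M = 4 * n → ∀ F : Finset Edg, F ⊆ CE n M →
  ¬ Bad 1 N r ρ l (prd N N) n M F → ∀ x x' u u' : ℤ × ℤ,
  XA N r C n x → XA N r C n x' →
  RC n (per n (FA N r C n M F)) x u → RC n (per n (FA N r C n M F)) x' u' →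
  DeA N r C n u → DeA N r C n u' → nrp l u u' → RC n (per n (FA N r C n M F)) x x'

/-- step B: different clusters are far from each other at the boundary of boxes and tube -/
def S_SEPB : Prop := ∀ (N r ρ l : ℕ) (C : Cel), 16 ≤ N → AdmZ N C → 1 ≤ l → 32 * l ≤ ρ →
  64 * ρ ≤ r → ∀ (n M : ℕ), n = prd N N * r → M = 4 * n → ∀ F : Finset Edg, F ⊆ CE n M →
  ¬ Bad 0 N r ρ l (prd N N) n M F → ¬ BZ N r ρ n F → ∀ x x' u u' : ℤ × ℤ,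
  XB N r C n x → XB N r C n x' → RW N r C n (per n F) x u → RW N r C n (per n F) x' u' →
  DeB N r C n u → DeB N r C n u' → (nrp l u u' ∨ (bigZ N r ρ n u ∧ bigZ N r ρ n u')) →
  RW N r C n (per n F) x x'

/-- the bad events have small probability, for arbitrarily large `M3` -/
def S_BADK : Prop := ∀ (N ν : ℕ), 1 ≤ N → 4 * N ≤ ν → ∀ δ : ℝ, 0 < δ → ∀ K : ℕ, ∃ M3 M4 : ℕ,
  K ≤ M3 ∧ 64 ≤ M3 ∧ 64 * M3 ≤ M4 ∧ ∀ (c r : ℕ), c < 2 → M4 ≤ r →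
  PC (ν * r) (4 * (ν * r)) (Bad c N r (r / M3) (r / M4) ν (ν * r) (4 * (ν * r))) ≤ δ

/-- crossings around a point of the zipper (both classes, the zipper may be crossed) -/
def S_ZC : Prop := ∀ δ : ℝ, 0 < δ → ∃ K : ℕ, 1 ≤ K ∧ ∀ (a b : ℕ) (t0 : ℤ), 1 ≤ a → K * a ≤ b →
  t0 ≤ -(4 * b : ℤ) → ∀ (S : Finset Edg) (B : Set Edg), (∀ e ∈ B, e ∈ S) →
  (∀ e ∈ B, |e.1 + e.2.1| ≤ 2 * b ∧ |dco e - t0| ≤ 2 * b) →
  Pr (fun _ => (1 / 2 : ℝ)) S (fun F => ZCr {0} B (↑F : Set Edg) t0 a b) ≤ δ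

def S_ZP : Prop := ∀ N : ℕ, 16 ≤ N → ∀ δ : ℝ, 0 < δ → ∃ K : ℕ, ∀ (ρ r : ℕ), 1 ≤ ρ → K * ρ ≤ r →
  ∀ (n M : ℕ), n = prd N N * r → M = 4 * n → PC n M (BZ N r ρ n) ≤ δ

def S_BADZ : Prop := ∀ N : ℕ, 16 ≤ N → ∀ δ : ℝ, 0 < δ → ∃ M3 M4 : ℕ, 64 ≤ M3 ∧ 64 * M3 ≤ M4 ∧
  ∀ (c r : ℕ), c < 2 → M4 ≤ r → ∀ (n M : ℕ), n = prd N N * r → M = 4 * n →
  PC n M (fun F => Bad c N r (r / M3) (r / M4) (prd N N) n M F ∨ BZ N r (r / M3) n F) ≤ δ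

/-- independence -/
def S_IND : Prop := ∀ (c N r ρ l : ℕ), c < 2 → 16 ≤ N → 2 ≤ r → 1 ≤ l → 32 * l ≤ ρ →
  64 * ρ ≤ r → ∀ (n M : ℕ), n = prd N N * r → M = 4 * n →
  PC n M (fun F => SE3 (N * r / 2 : ℕ) (per n F) ∧
      (Bad c N r ρ l (prd N N) n M F ∨ BZ N r ρ n F))
    ≤ uR (N * r / 2) * PC n M (fun F => Bad c N r ρ l (prd N N) n M F ∨ BZ N r ρ n F)

/-! ## re-randomisation -/

/-- step A, deterministic part -/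
def S_MA : Prop := ∀ (N r ρ l : ℕ) (C : Cel), 16 ≤ N → AdmZ N C → 1 ≤ l → 32 * l ≤ ρ →
  64 * ρ ≤ r → ∀ (n M : ℕ), n = prd N N * r → M = 4 * n → ∀ F G : Finset Edg, F ⊆ CE n M →
  G ⊆ CE n M → ¬ Bad 1 N r ρ l (prd N N) n M F → PTr 1 n M l G →
  EZ N r C n (per n (FA N r C n M F)) →
  EZ N r C n (per n (FB N r C n M (mrg (ExA N r C n M F) F G)))

/-- step A, stability of the explored set -/
def S_EXA : Prop := ∀ (N r : ℕ) (C : Cel), 16 ≤ N → 2 ≤ r → AdmZ N C → ∀ (n M : ℕ),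
  n = prd N N * r → M = 4 * n → ∀ F G : Finset Edg, F ⊆ CE n M → G ⊆ CE n M →
  ExA N r C n M (mrg (ExA N r C n M F) F G) = ExA N r C n M F

/-- step B, deterministic part -/
def S_MB : Prop := ∀ (N r ρ l : ℕ) (C : Cel), 16 ≤ N → AdmZ N C → 1 ≤ l → 32 * l ≤ ρ →
  64 * ρ ≤ r → ∀ (n M : ℕ), n = prd N N * r → M = 4 * n → ∀ F G : Finset Edg, F ⊆ CE n M →
  G ⊆ CE n M → ¬ Bad 0 N r ρ l (prd N N) n M F → ¬ BZ N r ρ n F → PTr 0 n M l G →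
  EZ N r C n (per n (FB N r C n M F)) → One n M (per n (mrg (ExB N r C n M F) F G))

/-- step B, stability of the explored set -/
def S_EXB : Prop := ∀ (N r : ℕ) (C : Cel), 16 ≤ N → 2 ≤ r → AdmZ N C → ∀ (n M : ℕ),
  n = prd N N * r → M = 4 * n → ∀ F G : Finset Edg, F ⊆ CE n M → G ⊆ CE n M →
  ExB N r C n M (mrg (ExB N r C n M F) F G) = ExB N r C n M F

/-! ## the steps -/

def S_STA : Prop := ∀ (N : ℕ) (C : Cel), 16 ≤ N → AdmZ N C → ∀ δ : ℝ, 0 < δ → ∃ K : ℝ, 0 < K ∧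
  ∃ r0 : ℕ, ∀ r : ℕ, r0 ≤ r → ∀ (n M : ℕ), n = prd N N * r → M = 4 * n →
  PC n M (fun F => EZ N r C n (per n (FA N r C n M F))) ≤
    δ * uR (N * r / 2) + K * PC n M (fun F => EZ N r C n (per n (FB N r C n M F)))

def S_STB : Prop := ∀ (N : ℕ) (C : Cel), 16 ≤ N → AdmZ N C → ∀ δ : ℝ, 0 < δ → ∃ K : ℝ, 0 < K ∧
  ∃ r0 : ℕ, ∀ r : ℕ, r0 ≤ r → ∀ (n M : ℕ), n = prd N N * r → M = 4 * n →
  PC n M (fun F => EZ N r C n (per n (FB N r C n M F))) ≤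
    δ * uR (N * r / 2) + K * PC n M (fun F => One n M (per n F))

/-- landing -/
def S_LAND : Prop := ∀ δ : ℝ, 0 < δ → ∃ N : ℕ, 16 ≤ N ∧ ∃ Cs : Finset Cel,
  (∀ C ∈ Cs, AdmZ N C) ∧ ∃ r0 : ℕ, ∀ r : ℕ, r0 ≤ r →
  uR (N * r) ≤ δ * uR (N * r / 2) + ∑ C ∈ Cs,
    Pr (fun _ => (1 / 2 : ℝ)) (boxE (N * r)) (fun F => LandZ N r C (↑F : Set Edg))

/-- the recursion -/
def S_RCR : Prop := ∀ δ : ℝ, 0 < δ → ∃ N : ℕ, 16 ≤ N ∧ ∃ K : ℝ, 0 < K ∧ ∃ r0 : ℕ, ∀ r : ℕ,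
  r0 ≤ r → uR (N * r) ≤ δ * uR (N * r / 2) + K * (r : ℝ) ^ (-(2 / 3 : ℝ))

/-- monotonicity -/
def S_MON : Prop := ∀ R R' : ℕ, 1 ≤ R → R ≤ R' → uR R' ≤ uR R

end Pool.Agent.W808.KZ
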