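import Pool.Agent.W801.OU.Stm
import Pool.Agent.W808.HU.Stm

/-!
# Upper bound for the three arm event of the dislocated plane: definitions

Coordinates of `Pool.Agent.W801.OU`: points `(j, t)`, vertices = points with `j + t` even (class `0`),
faces = points with `j + t` odd (class `1`); the square of the edge `e` has the corners `(s, d)`,
`(s + 1, d)`, `(s, d + 1)`, `(s + 1, d + 1)`, `s = e.1 + e.2.1`, `d = dco e`.  Zippers on the side
`t < 0` at the columns `j ∈ Zn n`.  Coarse squares of side `r`; boxes `[-N r, N r)²` shifted by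
`s (n, n)`, `n = prd N N * r = 20 N r`.
-/

set_option autoImplicit false

namespace Pool.Agent.W808.KZ
open H974 H906.Cyl
open H12S (Dir hbE segD rimE H4 Crs Nr sqE)
open Pool.Agent.H160R2.ML (nm)
open Pool.Agent.H160R2.MU (Cel csq cpos prd shf BxS Bxs EP inSq PC Bad Cc)
open Pool.Agent.W808.HU (PTr)
open Pool.Agent.W801.OU

/-- a vertex as a point -/
def vp (v : Vtx) : ℤ × ℤ := (v.1 + v.2, v.1 - v.2)

/-- a face (lower left corner `v`) as a point -/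
def fp (v : Vtx) : ℤ × ℤ := (v.1 + v.2 + 1, v.1 - v.2)

/-! ## coarse geometry -/

/-- admissible cells -/
def AdmZ (N : ℕ) (C : Cel) : Prop := C.1 < 4 ∧ -(N : ℤ) + 6 ≤ C.2 ∧ C.2 + 7 ≤ N

/-- the arm from the cell `C` of the box `0` to the ring -/
def ArmZ (N : ℕ) (C : Cel) : Set (ℤ × ℤ) := {z |
  (C.1 = 0 ∧ z.1 = C.2 ∧ (N : ℤ) ≤ z.2 ∧ z.2 ≤ N + 2) ∨
  (C.1 = 0 ∧ z.2 = (N : ℤ) + 2 ∧ C.2 ≤ z.1 ∧ z.1 - z.2 ≤ 3 * N + 2) ∨
  (C.1 = 1 ∧ z.2 = C.2 ∧ (N : ℤ) ≤ z.1 ∧ z.1 - z.2 ≤ 3 * N + 2) ∨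
  (C.1 = 2 ∧ z.1 = C.2 ∧ z.2 ≤ -(N : ℤ) - 1 ∧ z.1 - z.2 ≤ 3 * N + 2) ∨
  (C.1 = 3 ∧ z.2 = C.2 ∧ -(N : ℤ) - 3 ≤ z.1 ∧ z.1 ≤ -N - 1) ∨
  (C.1 = 3 ∧ z.1 = -(N : ℤ) - 3 ∧ z.2 ≤ C.2 ∧ z.1 - z.2 ≤ 3 * N + 2)}

/-- the ring around the cylinder (below the boxes) -/
def RingZ (N : ℕ) : Set (ℤ × ℤ) := {z | (3 * N : ℤ) ≤ z.1 - z.2 ∧ z.1 - z.2 ≤ 3 * N + 2}

/-- the tube: the ring and the arms of all boxes -/
def TubZ (N : ℕ) (C : Cel) : Set (ℤ × ℤ) := {z | z ∈ RingZ N ∨ ∃ s : ℤ, shf N N s z ∈ ArmZ N C}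

/-- squares of the boxes -/
abbrev EB (N r : ℕ) : Set Edg := EP r (Bxs N N)

/-- squares of the tube -/
abbrev ET (N r : ℕ) (C : Cel) : Set Edg := EP r (TubZ N C)

/-! ## configurations: `n = prd N N * r`, `M = 4 n` -/

open Classical in
/-- boxes random, tube open, the rest closed -/
noncomputable def FA (N r : ℕ) (C : Cel) (n M : ℕ) (F : Finset Edg) : Finset Edg :=
  (CE n M).filter (fun e => (e ∈ EB N r ∧ e ∈ F) ∨ (e ∉ EB N r ∧ e ∈ ET N r C))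

open Classical in
/-- boxes and tube random, the rest closed -/
noncomputable def FB (N r : ℕ) (C : Cel) (n M : ℕ) (F : Finset Edg) : Finset Edg :=
  (CE n M).filter (fun e => (e ∈ EB N r ∨ e ∈ ET N r C) ∧ e ∈ F)

/-- faces outside the box of radius `R = N r`, next to it, away from its corners and not in the coarse
square of the cell `C` -/
def OutF (N r : ℕ) (C : Cel) (p : Vtx) : Prop :=
  (((p.2 = N * r ∨ p.2 = -(N * r : ℤ) - 1) ∧ |p.1| + 4 * r ≤ N * r) ∨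
    ((p.1 = N * r ∨ p.1 = -(N * r : ℤ) - 1) ∧ |p.2| + 4 * r ≤ N * r)) ∧
  ¬ (r * (csq N C).1 ≤ p.1 ∧ p.1 < r * (csq N C).1 + r ∧ r * (csq N C).2 ≤ p.2 ∧
    p.2 < r * (csq N C).2 + r)

/-- landing: a sector touches the cell `C` in class `0`, the two others touch the boundary of the box
elsewhere in class `1` -/
def LandZ (N r : ℕ) (C : Cel) (G : Set Edg) : Prop :=
  ∃ i j k : ℕ, i < 3 ∧ j < 3 ∧ k < 3 ∧ i ≠ j ∧ i ≠ k ∧ j ≠ k ∧
    (∃ v : Vtx, inSq r (csq N C) v ∧ nm v = (N * r : ℕ) ∧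
      RZ {0} (bxz (N * r : ℕ)) G (scz 0 0 i) (vp v)) ∧
    (∃ p : Vtx, OutF N r C p ∧ RZ {0} (bxz (N * r : ℕ)) G (scz 0 0 j) (fp p)) ∧
    (∃ p : Vtx, OutF N r C p ∧ RZ {0} (bxz (N * r : ℕ)) G (scz 0 0 k) (fp p))

/-- the points of class `1` of the closed region -/
def XE (N r : ℕ) (C : Cel) (n : ℕ) (x : ℤ × ℤ) : Prop :=
  ∃ e : Edg, e ∉ EB N r ∧ e ∉ ET N r C ∧ Cor (Zn n) 1 e x

/-- the event of the steps: leg event, and one sector is not connected to the closed region -/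
def EZ (N r : ℕ) (C : Cel) (n : ℕ) (G : Set Edg) : Prop :=
  G3 n G ∧ ∃ c : ℕ, c < 3 ∧ ∀ x : ℤ × ℤ, XE N r C n x → ¬ RC n G (scz n 0 c) x

/-! ## distances -/

/-- distance at most `4 l` in the coordinates of `ℤ²` (points of the same class) -/
def nrp (l : ℕ) (u v : ℤ × ℤ) : Prop :=
  |(u.1 - v.1) + (u.2 - v.2)| ≤ 8 * l ∧ |(u.1 - v.1) - (u.2 - v.2)| ≤ 8 * l

/-- crossing from distance `a` to distance `b` around the point `(0, t0)` of the zipper `0`, in the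
squares of `B` -/
def ZCr (Z : Set ℤ) (B G : Set Edg) (t0 a b : ℤ) : Prop :=
  ∃ x y : ℤ × ℤ, |x.1| ≤ a ∧ |x.2 - t0| ≤ a ∧ (b ≤ |y.1| ∨ b ≤ |y.2 - t0|) ∧ RZ Z B G x y

/-- bad event at the point where the zipper `0` leaves the box `0` -/
def BZ (N r ρ n : ℕ) (F : Finset Edg) : Prop :=
  ZCr (Zn n) {e | |e.1 + e.2.1| ≤ r ∧ |dco e + 2 * N * r| ≤ r} (per n F) (-(2 * N * r)) (16 * ρ) (r / 2)

/-! ## step A: the exploration of class `1` around the tube -/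

/-- marked points: sectors, class `1` of the closed region, class `0` of the tube -/
def XA (N r : ℕ) (C : Cel) (n : ℕ) (x : ℤ × ℤ) : Prop :=
  (∃ (s : ℤ) (c : ℕ), c < 3 ∧ x = scz n s c) ∨ XE N r C n x ∨
    ∃ e : Edg, e ∉ EB N r ∧ e ∈ ET N r C ∧ Cor (Zn n) 0 e x

/-- points of class `1` of the tube -/
def DeA (N r : ℕ) (C : Cel) (n : ℕ) (u : ℤ × ℤ) : Prop :=
  ∃ e : Edg, e ∉ EB N r ∧ e ∈ ET N r C ∧ Cor (Zn n) 1 e u

/-- the clusters of the marked points -/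
def KA (N r : ℕ) (C : Cel) (n M : ℕ) (F : Finset Edg) (x : ℤ × ℤ) : Prop :=
  ∃ y, XA N r C n y ∧ RC n (per n (FA N r C n M F)) y x

open Classical in
/-- the explored squares -/
noncomputable def ExA (N r : ℕ) (C : Cel) (n M : ℕ) (F : Finset Edg) : Finset Edg :=
  (CE n M).filter (fun e => e ∈ EB N r ∧
    ∃ x, KA N r C n M F x ∧ (Cor (Zn n) 0 e x ∨ Cor (Zn n) 1 e x))

/-! ## step B: the exploration of the clusters in the boxes and the tube -/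

/-- the wired points: class `1` of the closed region, and all the points far from the boxes -/
def XW (N r : ℕ) (C : Cel) (n : ℕ) (x : ℤ × ℤ) : Prop := XE N r C n x ∨ (2 * n : ℤ) ≤ |x.2|

/-- connection in the boxes and the tube, with the wired points -/
def RW (N r : ℕ) (C : Cel) (n : ℕ) (G : Set Edg) : ℤ × ℤ → ℤ × ℤ → Prop :=
  Relation.EqvGen (fun x y => (XW N r C n x ∧ XW N r C n y) ∨ LZ (Zn n) (EB N r ∪ ET N r C) G x y)

/-- marked points: sectors and wired points -/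
def XB (N r : ℕ) (C : Cel) (n : ℕ) (x : ℤ × ℤ) : Prop :=
  (∃ (s : ℤ) (c : ℕ), c < 3 ∧ x = scz n s c) ∨ XW N r C n x

/-- points of class `0` of the closed region -/
def DeB (N r : ℕ) (C : Cel) (n : ℕ) (u : ℤ × ℤ) : Prop :=
  ∃ e : Edg, e ∉ EB N r ∧ e ∉ ET N r C ∧ Cor (Zn n) 0 e u

/-- points far from the boxes or near the points where the zippers leave the boxes -/
def bigZ (N r ρ n : ℕ) (u : ℤ × ℤ) : Prop :=
  (n : ℤ) ≤ |u.2| ∨ ∃ s : ℤ, |u.1 - 2 * n * s| ≤ 8 * ρ ∧ |u.2 + 2 * N * r| ≤ 8 * ρ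

/-- the clusters of the marked points -/
def KB (N r : ℕ) (C : Cel) (n : ℕ) (F : Finset Edg) (x : ℤ × ℤ) : Prop :=
  ∃ y, XB N r C n y ∧ RW N r C n (per n F) y x

open Classical in
/-- the explored squares -/
noncomputable def ExB (N r : ℕ) (C : Cel) (n M : ℕ) (F : Finset Edg) : Finset Edg :=
  (CE n M).filter (fun e => (e ∈ EB N r ∨ e ∈ ET N r C) ∧
    ∃ x, KB N r C n F x ∧ (Cor (Zn n) 0 e x ∨ Cor (Zn n) 1 e x))

open Classical in
/-- explored squares of `F`, the others of `G` -/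
noncomputable def mrg (X F G : Finset Edg) : Finset Edg := (F ∩ X) ∪ (G \ X)

end Pool.Agent.W808.KZ
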