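import Pool.Agent.W808.KZ.T_EXA

/-!
# Step B: stability of the explored set (helper239)
-/

set_option autoImplicit false

namespace Pool.Agent.W808.KZ
open H974 H906.Cyl
open Pool.Agent.H160R2.MU (Cel csq cpos prd shf BxS Bxs EP inSq PC Bad Cc)
open Pool.Agent.W801.OU

theorem t_EXB : S_z3 → S_EXB := by
  intro h3 N r C hN hr hC n M hn hM F G hF hG
  have hn0 := TEXA.n_pos hN hr hn
  ext e
  rw [TEXA.mem_ExB, TEXA.mem_ExB, TEXA.KB_eq h3 hN hC hn hn0 hF hG]

end Pool.Agent.W808.KZ
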