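import Pool.Agent.W808.KZ.Stm


/-! LAND, part 1: honest connections of both classes away from the zipper (helper352). -/

set_option autoImplicit false

namespace Pool.Agent.W808.KZ
open H974 H906.Cyl
open H12S (Dir hbE segD rimE H4 Crs Nr sqE)
open Pool.Agent.H160R2.ML (nm)
open Pool.Agent.H160R2.MU (Cel csq cpos prd shf BxS Bxs EP inSq PC Bad Cc)
open Pool.Agent.W801.OU

namespace TLAND

theorem dco_f (x y : ℤ) : dco (x, y, false) = x - y - 1 := rfl
theorem dco_t (x y : ℤ) : dco (x, y, true) = x - y := rfl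

/-- the point of class `c` -/
def pc (c : ℤ) (v : Vtx) : ℤ × ℤ := (v.1 + v.2 + c, v.1 - v.2)

theorem pc_inj {c : ℤ} {v w : Vtx} (h : pc c v = pc c w) : v = w := by
  unfold pc at h
  rw [Prod.mk.injEq] at h
  apply Prod.ext <;> omega

theorem pc_zero (v : Vtx) : pc 0 v = vp v := by
  simp [pc, vp]

theorem pc_one (v : Vtx) : pc 1 v = fp v := rfl

/-- the square of the edge `e` of class `c` -/
def sh (c : ℤ) (e : Edg) : Edg := edz (e.1 + e.2.1 + c) (dco e)

theorem sh0 (e : Edg) : sh 0 e = e := by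
  unfold sh
  rw [add_zero, edz_of]

theorem sh1t (a b : ℤ) : sh 1 (a, b, true) = (a + 1, b, false) := by
  unfold sh
  rw [dco_t]
  unfold edz
  rw [if_neg (by dsimp only; omega)]
  simp only [Prod.mk.injEq, and_true]
  omega

theorem sh1f (a b : ℤ) : sh 1 (a, b, false) = (a, b + 1, true) := by
  unfold sh
  rw [dco_f]
  unfold edz
  rw [if_pos (by dsimp only; omega)]
  simp only [Prod.mk.injEq, and_true]
  omega

/-- the configuration of class `c` -/
def Gc (c : ℤ) (G : Set Edg) : Set Edg := {e | sh c e ∈ G ↔ c = 0}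

theorem mem_Gc {c : ℤ} {G : Set Edg} {e : Edg} : e ∈ Gc c G ↔ (sh c e ∈ G ↔ c = 0) := Iff.rfl

/-- the square is away from the zipper -/
def Hon (g : Edg) : Prop := ¬ (dco g < 0 ∧ (g.1 + g.2.1 = 0 ∨ g.1 + g.2.1 + 1 = 0))

theorem mem_zp {g : Edg} : g ∈ zp {0} ↔ (dco g < 0 ∧ g.1 + g.2.1 + 1 = 0) := by
  unfold zp
  simp

theorem Hon.zp {g : Edg} (h : Hon g) : g ∉ zp {0} := fun h' => h ⟨(mem_zp.1 h').1, Or.inr (mem_zp.1 h').2⟩

theorem nrm_eq {d j t : ℤ} (h : ¬ (d < 0 ∧ j = 0)) : nrm {0} d j t = (j, t) := by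
  unfold nrm
  rw [if_neg]
  simpa using h

theorem nrm_zero {d t : ℤ} (h : d < 0) : nrm {0} d 0 t = (-1, t) := by
  unfold nrm
  rw [if_pos ⟨h, by simp⟩]
  simp

/-- the diagonal of class `c` of an honest square -/
theorem dg_hon {c : ℤ} (hc : c = 0 ∨ c = 1) {e : Edg} (h : Hon (sh c e)) :
    Dg {0} c (sh c e) (pc c (src e)) (pc c (tgt e)) := by
  unfold Hon at h
  obtain ⟨a, b, _ | _⟩ := e
  · rcases hc with rfl | rfl
    · rw [sh0] at h ⊢
      rw [dco_f] at h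
      have h1 := Dg.fall (Z := {0}) (c := 0) (e := (a, b, false)) (by rw [dco_f]; dsimp only; omega)
      rw [dco_f] at h1
      dsimp only at h h1
      rw [nrm_eq (by omega), nrm_eq (by omega)] at h1
      convert h1 using 1
      · exact Prod.ext (by dsimp only [pc, src] <;> omega) (by dsimp only [pc, src] <;> omega)
      · exact Prod.ext (by simp only [pc, tgt, Bool.false_eq_true, if_false] <;> omega)
          (by simp only [pc, tgt, Bool.false_eq_true, if_false] <;> omega)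
    · rw [sh1f] at h ⊢
      rw [dco_t] at h
      have h1 := Dg.fall (Z := {0}) (c := 1) (e := (a, b + 1, true)) (by rw [dco_t]; dsimp only; omega)
      rw [dco_t] at h1
      dsimp only at h h1
      rw [nrm_eq (by omega), nrm_eq (by omega)] at h1
      convert h1 using 1
      · exact Prod.ext (by dsimp only [pc, src] <;> omega) (by dsimp only [pc, src] <;> omega)
      · exact Prod.ext (by simp only [pc, tgt, Bool.false_eq_true, if_false] <;> omega)
          (by simp only [pc, tgt, Bool.false_eq_true, if_false] <;> omega)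
  · rcases hc with rfl | rfl
    · rw [sh0] at h ⊢
      rw [dco_t] at h
      have h1 := Dg.rise (Z := {0}) (c := 0) (e := (a, b, true)) (by rw [dco_t]; dsimp only; omega)
      rw [dco_t] at h1
      dsimp only at h h1
      rw [nrm_eq (by omega), nrm_eq (by omega)] at h1
      convert h1 using 1
      · exact Prod.ext (by dsimp only [pc, src] <;> omega) (by dsimp only [pc, src] <;> omega)
      · exact Prod.ext (by simp only [pc, tgt, if_true] <;> omega)
          (by simp only [pc, tgt, if_true] <;> omega)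
    · rw [sh1t] at h ⊢
      rw [dco_f] at h
      have h1 := Dg.rise (Z := {0}) (c := 1) (e := (a + 1, b, false))
        (by rw [dco_f]; dsimp only; omega)
      rw [dco_f] at h1
      dsimp only at h h1
      rw [nrm_eq (by omega), nrm_eq (by omega)] at h1
      convert h1 using 1
      · exact Prod.ext (by dsimp only [pc, src] <;> omega) (by dsimp only [pc, src] <;> omega)
      · exact Prod.ext (by simp only [pc, tgt, if_true] <;> omega)
          (by simp only [pc, tgt, if_true] <;> omega)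

/-- the edge of class `c` of a square -/
theorem exists_sh {c : ℤ} (hc : c = 0 ∨ c = 1) (g : Edg) : ∃ e, g = sh c e := by
  rcases hc with rfl | rfl
  · exact ⟨g, (sh0 g).symm⟩
  · obtain ⟨p, q, _ | _⟩ := g
    · exact ⟨(p - 1, q, true), by rw [sh1t, sub_add_cancel]⟩
    · exact ⟨(p, q - 1, false), by rw [sh1f, sub_add_cancel]⟩

theorem sh_inj {c : ℤ} {e e' : Edg} (h : sh c e = sh c e') : e = e' := by
  unfold sh at h
  obtain ⟨h1, h2⟩ := edz_inj h
  rw [← edz_of e, ← edz_of e', h2]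
  congr 1
  omega

theorem dg_unique {Z : Set ℤ} {c : ℤ} {g : Edg} {x y x' y' : ℤ × ℤ} (_ : c = 0 ∨ c = 1)
    (h : Dg Z c g x y) (h' : Dg Z c g x' y') : x = x' ∧ y = y' := by
  cases h <;> cases h'
  · exact ⟨rfl, rfl⟩
  · omega
  · omega
  · exact ⟨rfl, rfl⟩

theorem dg_hon' {c : ℤ} (hc : c = 0 ∨ c = 1) {g : Edg} (h : Hon g) {x y : ℤ × ℤ}
    (hg : Dg {0} c g x y) : ∃ e, g = sh c e ∧ x = pc c (src e) ∧ y = pc c (tgt e) := by
  obtain ⟨e, rfl⟩ := exists_sh hc g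
  exact ⟨e, rfl, dg_unique hc hg (dg_hon hc h)⟩

/-- the corners of a square -/
theorem dg_corner {Z : Set ℤ} {c : ℤ} {g : Edg} {x y z : ℤ × ℤ} (hg : Dg Z c g x y)
    (hz : z = x ∨ z = y) : (z = nrm Z (dco g) (g.1 + g.2.1) z.2 ∨
      z = nrm Z (dco g) (g.1 + g.2.1 + 1) z.2) ∧ (z.2 = dco g ∨ z.2 = dco g + 1) := by
  have hs : ∀ j t : ℤ, (nrm Z (dco g) j t).2 = t := by
    intro j t
    unfold nrm
    split_ifs <;> rfl
  cases hg <;> rcases hz with rfl | rfl <;> simp only [hs] <;> tauto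

theorem nrm_fst (d j t : ℤ) : (nrm {0} d j t).1 = j ∨ (d < 0 ∧ j = 0 ∧ (nrm {0} d j t).1 = -1) := by
  unfold nrm
  split_ifs with h
  · right
    have : j = 0 := by simpa using h.2
    exact ⟨h.1, this, by rw [this]; rfl⟩
  · exact Or.inl rfl

/-- the position of a corner -/
theorem corner_pos {c : ℤ} {g : Edg} {x y z : ℤ × ℤ} (hg : Dg {0} c g x y)
    (hz : z = x ∨ z = y) : ((z.1 = g.1 + g.2.1 ∨ z.1 = g.1 + g.2.1 + 1) ∨
      (dco g < 0 ∧ z.1 = -1 ∧ (g.1 + g.2.1 = 0 ∨ g.1 + g.2.1 + 1 = 0))) ∧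
      (z.2 = dco g ∨ z.2 = dco g + 1) := by
  obtain ⟨h1, h2⟩ := dg_corner hg hz
  refine ⟨?_, h2⟩
  rcases h1 with h1 | h1
  · rcases nrm_fst (dco g) (g.1 + g.2.1) z.2 with h3 | ⟨h3, h4, h5⟩
    · rw [← h1] at h3; exact Or.inl (Or.inl h3)
    · rw [← h1] at h5; exact Or.inr ⟨h3, h5, Or.inl h4⟩
  · rcases nrm_fst (dco g) (g.1 + g.2.1 + 1) z.2 with h3 | ⟨h3, h4, h5⟩
    · rw [← h1] at h3; exact Or.inl (Or.inr h3)
    · rw [← h1] at h5; exact Or.inr ⟨h3, h5, Or.inr h4⟩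

/-- a square with a corner away from the zipper -/
theorem hon_of {c : ℤ} {g : Edg} {x y z : ℤ × ℤ} (hg : Dg {0} c g x y)
    (hz : z = x ∨ z = y) (h : z.2 ≤ 0 → z.1 < -1 ∨ 1 < z.1) : Hon g := by
  obtain ⟨h1, h2⟩ := corner_pos hg hz
  unfold Hon
  intro h3
  omega

theorem eqv_iff {α : Type*} {E : α → α → Prop} (P : α → Prop)
    (h : ∀ a b, E a b → (P a ↔ P b)) {a b : α} (hab : Relation.EqvGen E a b) : P a ↔ P b := by
  induction hab with
  | rel a b h1 => exact h a b h1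
  | refl a => exact Iff.rfl
  | symm a b _ ih => exact ih.symm
  | trans a b c _ _ ih1 ih2 => exact ih1.trans ih2

theorem eqv_mono {α : Type*} {E E' : α → α → Prop} (h : ∀ a b, E a b → E' a b) {a b : α}
    (hab : Relation.EqvGen E a b) : Relation.EqvGen E' a b := by
  induction hab with
  | rel a b h1 => exact Relation.EqvGen.rel _ _ (h a b h1)
  | refl a => exact Relation.EqvGen.refl _
  | symm a b _ ih => exact Relation.EqvGen.symm _ _ ih
  | trans a b c _ _ ih1 ih2 => exact Relation.EqvGen.trans _ _ _ ih1 ih2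

theorem rz_mono {Z : Set ℤ} {B B' G : Set Edg} (h : B ⊆ B') {x y : ℤ × ℤ} (hr : RZ Z B G x y) :
    RZ Z B' G x y :=
  eqv_mono (fun _ _ ⟨e, h1, h2⟩ => ⟨e, h h1, h2⟩) hr

/-- the parity of the corners of an honest square -/
theorem pc_par {c : ℤ} (hc : c = 0 ∨ c = 1) (v : Vtx) : ((pc c v).1 + (pc c v).2) % 2 = c := by
  unfold pc
  rcases hc with rfl | rfl <;> dsimp only <;> omega

/-- exit of a region away from the zipper, with a collapse `κ` of the edges outside `S` -/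
theorem exit_c {c : ℤ} (hc : c = 0 ∨ c = 1) {B G S : Set Edg} {κ : Vtx → Vtx} {P : Vtx → Prop}
    (hP : ∀ v, P v → (pc c v).2 ≤ 0 → (pc c v).1 < -1 ∨ 1 < (pc c v).1)
    (hS : ∀ e ∈ Gc c G, sh c e ∈ B → (P (src e) ∨ P (tgt e)) →
      κ (src e) = κ (tgt e) ∨ (κ (src e) = src e ∧ κ (tgt e) = tgt e ∧ e ∈ S))
    {u : Vtx} {y : ℤ × ℤ} (h : RZ {0} B G (pc c u) y) (hu : P u)
    (hy : ∀ v, y = pc c v → ¬ P v) :
    ∃ z, ¬ P z ∧ Reach (Gc c G ∩ S) (κ u) (κ z) ∧ ∃ e, sh c e ∈ B ∧ (src e = z ∨ tgt e = z) := by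
  by_contra hA
  have step : ∀ e ∈ Gc c G, sh c e ∈ B → ∀ v w : Vtx,
      ((src e = v ∧ tgt e = w) ∨ (src e = w ∧ tgt e = v)) →
      (P v ∧ Reach (Gc c G ∩ S) (κ u) (κ v)) → (P w ∧ Reach (Gc c G ∩ S) (κ u) (κ w)) := by
    intro e he hB v w hvw hv
    have hr : Reach (Gc c G ∩ S) (κ u) (κ w) := by
      rcases hS e he hB (by rcases hvw with ⟨h1, -⟩ | ⟨-, h1⟩ <;> rw [h1] <;> tauto) with
        h1 | ⟨h1, h2, h3⟩
      · rcases hvw with ⟨h4, h5⟩ | ⟨h4, h5⟩
        · rw [h4, h5] at h1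
          rw [← h1]
          exact hv.2
        · rw [h4, h5] at h1
          rw [h1]
          exact hv.2
      · refine Relation.ReflTransGen.tail hv.2 ⟨e, ⟨he, h3⟩, ?_⟩
        rcases hvw with ⟨h4, h5⟩ | ⟨h4, h5⟩
        · rw [h4] at h1; rw [h5] at h2
          rw [h1, h2]; exact Or.inl ⟨h4, h5⟩
        · rw [h4] at h1; rw [h5] at h2
          rw [h1, h2]; exact Or.inr ⟨h4, h5⟩
    refine ⟨?_, hr⟩
    by_contra hw
    exact hA ⟨w, hw, hr, e, hB, by tauto⟩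
  have key : ∀ a b : ℤ × ℤ, LZ {0} B G a b →
      ((∃ v, a = pc c v ∧ P v ∧ Reach (Gc c G ∩ S) (κ u) (κ v)) ↔
        (∃ v, b = pc c v ∧ P v ∧ Reach (Gc c G ∩ S) (κ u) (κ v))) := by
    rintro a b ⟨g, hgB, -, hg⟩
    have hcl : ∀ c' : ℤ, (c' = 0 ∨ c' = 1) → Dg {0} c' g a b → ∀ v, (pc c v = a ∨ pc c v = b) →
        P v → ∃ e, g = sh c e ∧ a = pc c (src e) ∧ b = pc c (tgt e) ∧ c' = c := by
      intro c' hc' hd v hv hPv
      have hh : Hon g := hon_of hd hv (hP v hPv)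
      obtain ⟨e, h1, h2, h3⟩ := dg_hon' hc' hh hd
      have hcc : c' = c := by
        rw [← pc_par hc v]
        rcases hv with h4 | h4
        · rw [h4, h2, pc_par hc']
        · rw [h4, h3, pc_par hc']
      subst hcc
      exact ⟨e, h1, h2, h3, rfl⟩
    have hmain : ∀ v, (pc c v = a ∨ pc c v = b) → P v →
        ∃ e, e ∈ Gc c G ∧ sh c e ∈ B ∧ a = pc c (src e) ∧ b = pc c (tgt e) := by
      intro v hv hPv
      rcases hg with ⟨h1, h2⟩ | ⟨h1, h2⟩
      · obtain ⟨e, h3, h4, h5, h6⟩ := hcl 0 (Or.inl rfl) h2 v hv hPv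
        rw [h3] at h1 hgB
        exact ⟨e, mem_Gc.2 ⟨fun _ => h6.symm, fun _ => h1⟩, hgB, h4, h5⟩
      · obtain ⟨e, h3, h4, h5, h6⟩ := hcl 1 (Or.inr rfl) h2 v hv hPv
        rw [h3] at h1 hgB
        exact ⟨e, mem_Gc.2 ⟨fun h => absurd h h1, fun h => by omega⟩, hgB, h4, h5⟩
    constructor
    · rintro ⟨v, h1, h2, h3⟩
      obtain ⟨e, h4, h5, h6, h7⟩ := hmain v (Or.inl h1.symm) h2
      have h8 : v = src e := pc_inj (h1.symm.trans h6)
      have := step e h4 h5 v (tgt e) (Or.inl ⟨h8.symm, rfl⟩) ⟨h2, h3⟩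
      exact ⟨tgt e, h7, this⟩
    · rintro ⟨v, h1, h2, h3⟩
      obtain ⟨e, h4, h5, h6, h7⟩ := hmain v (Or.inr h1.symm) h2
      have h8 : v = tgt e := pc_inj (h1.symm.trans h7)
      have := step e h4 h5 v (src e) (Or.inr ⟨rfl, h8.symm⟩) ⟨h2, h3⟩
      exact ⟨src e, h6, this⟩
  obtain ⟨v, h1, h2, -⟩ := (eqv_iff _ key h).1 ⟨u, rfl, hu, Reach.refl _ _⟩
  exact hy v h1 h2

/-- an honest link -/
theorem lz_of {c : ℤ} (hc : c = 0 ∨ c = 1) {B G : Set Edg} {e : Edg} (he : e ∈ Gc c G)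
    (hB : sh c e ∈ B) (hh : Hon (sh c e)) : LZ {0} B G (pc c (src e)) (pc c (tgt e)) := by
  refine ⟨sh c e, hB, hh.zp, ?_⟩
  have h1 := dg_hon hc hh
  rcases hc with rfl | rfl
  · exact Or.inl ⟨(mem_Gc.1 he).2 rfl, h1⟩
  · exact Or.inr ⟨fun h => absurd ((mem_Gc.1 he).1 h) (by norm_num), h1⟩

/-- honest paths -/
theorem rz_of_reach {c : ℤ} (hc : c = 0 ∨ c = 1) {B G S : Set Edg}
    (hS : ∀ e ∈ S, sh c e ∈ B ∧ Hon (sh c e)) {u w : Vtx} (h : Reach (Gc c G ∩ S) u w) :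
    RZ {0} B G (pc c u) (pc c w) := by
  induction h with
  | refl => exact Relation.EqvGen.refl _
  | tail _ hs ih =>
    rename_i x y _
    obtain ⟨e, ⟨heG, heS⟩, hxy⟩ := hs
    obtain ⟨h1, h2⟩ := hS e heS
    have h3 : RZ {0} B G (pc c (src e)) (pc c (tgt e)) :=
      Relation.EqvGen.rel _ _ (lz_of hc heG h1 h2)
    refine Relation.EqvGen.trans _ _ _ ih ?_
    rcases hxy with ⟨rfl, rfl⟩ | ⟨rfl, rfl⟩
    · exact h3
    · exact Relation.EqvGen.symm _ _ h3

/-- exit of a region, both classes -/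
theorem exit_z {B B' G : Set Edg} {P : ℤ × ℤ → Prop}
    (hB : ∀ g ∈ B, g ∉ zp {0} → ∀ (c : ℤ) (x y : ℤ × ℤ), Dg {0} c g x y → (P x ∨ P y) → g ∈ B')
    {x y : ℤ × ℤ} (h : RZ {0} B G x y) (hx : P x) (hy : ¬ P y) :
    ∃ z, ¬ P z ∧ RZ {0} B' G x z := by
  by_contra hA
  have key : ∀ a b : ℤ × ℤ, LZ {0} B G a b → ((P a ∧ RZ {0} B' G x a) ↔
      (P b ∧ RZ {0} B' G x b)) := by
    rintro a b ⟨g, hg1, hg2, hg3⟩
    have hl : (P a ∨ P b) → RZ {0} B' G a b := by
      intro hab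
      refine Relation.EqvGen.rel _ _ ⟨g, ?_, hg2, hg3⟩
      rcases hg3 with ⟨-, h1⟩ | ⟨-, h1⟩
      · exact hB g hg1 hg2 _ _ _ h1 hab
      · exact hB g hg1 hg2 _ _ _ h1 hab
    constructor
    · rintro ⟨h1, h2⟩
      have h3 : RZ {0} B' G x b := Relation.EqvGen.trans _ _ _ h2 (hl (Or.inl h1))
      refine ⟨?_, h3⟩
      by_contra h4
      exact hA ⟨b, h4, h3⟩
    · rintro ⟨h1, h2⟩
      have h3 : RZ {0} B' G x a :=
        Relation.EqvGen.trans _ _ _ h2 (Relation.EqvGen.symm _ _ (hl (Or.inr h1)))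
      refine ⟨?_, h3⟩
      by_contra h4
      exact hA ⟨a, h4, h3⟩
  exact hy ((eqv_iff _ key h).1 ⟨hx, Relation.EqvGen.refl _⟩).1

end TLAND

end Pool.Agent.W808.KZ
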