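import Pool.Agent.W808.KZ.T_LAND1
import Pool.Agent.H160R2.MU.T_LAND

/-! LAND, part 2: half balls of both classes (helper352). -/

set_option autoImplicit false

namespace Pool.Agent.W808.KZ
open H974 H906.Cyl
open H12S (Dir hbE segD rimE H4 Crs Nr sqE)
open Pool.Agent.H160R2.ML (nm)
open Pool.Agent.H160R2.MU (Cel csq cpos prd shf BxS Bxs EP inSq PC Bad Cc)
open Pool.Agent.W801.OU

namespace TLAND
open Pool.Agent.H160R2.MU.TLAND (nm_le nm_eq tc ediv_near)

/-- the point of the side `d` with coordinate `x`, class `c` -/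
def cR (c : ℤ) (d : Dir) (R x : ℤ) : ℤ × ℤ :=
  match d with
  | Dir.dn => (x, R - c)
  | Dir.up => (x, -R)
  | Dir.lf => (R - c, x)
  | Dir.rt => (-R, x)

def In (c R : ℤ) (v : Vtx) : Prop := (-R ≤ v.1 ∧ v.1 ≤ R - c) ∧ (-R ≤ v.2 ∧ v.2 ≤ R - c)

def Ex (c R : ℤ) (v : Vtx) : Prop := (-R - c ≤ v.1 ∧ v.1 ≤ R) ∧ (-R - c ≤ v.2 ∧ v.2 ≤ R)

def kl (c R : ℤ) (v : Vtx) : Vtx := (max (-R) (min v.1 (R - c)), max (-R) (min v.2 (R - c)))

def onc (c : ℤ) (d : Dir) (R : ℤ) (v : Vtx) : Prop :=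
  match d with
  | Dir.dn => v.2 = R - c
  | Dir.up => v.2 = -R
  | Dir.lf => v.1 = R - c
  | Dir.rt => v.1 = -R

/-- the interior of the half ball -/
def Pi (c : ℤ) (d : Dir) (R x : ℤ) (b : ℕ) (v : Vtx) : Prop :=
  In c R v ∧ |v.1 - (cR c d R x).1| < b ∧ |v.2 - (cR c d R x).2| < b

theorem kl_in {c R : ℤ} {v : Vtx} (h : In c R v) : kl c R v = v := by
  unfold In at h
  unfold kl
  apply Prod.ext <;> dsimp only <;> omega

theorem kl_mem {c R : ℤ} (hR : c ≤ 2 * R) (v : Vtx) : In c R (kl c R v) := by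
  unfold kl In
  dsimp only
  omega

/-- the edges of class `c` of the squares of the box -/
theorem geo {c R : ℤ} (hc : c = 0 ∨ c = 1) (hR : 1 ≤ R) {e : Edg} (h : sh c e ∈ bxz R) :
    (kl c R (src e) = kl c R (tgt e) ∨ (In c R (src e) ∧ In c R (tgt e))) ∧
      Ex c R (src e) ∧ Ex c R (tgt e) := by
  obtain ⟨h1, h2⟩ := h
  rw [nm_le] at h1 h2
  obtain ⟨a, b, _ | _⟩ := e
  · rcases hc with rfl | rfl
    · rw [sh0] at h1 h2
      simp only [src, tgt, Bool.false_eq_true, if_false] at h1 h2 ⊢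
      unfold In Ex
      dsimp only
      refine ⟨Or.inr ?_, ?_⟩ <;> omega
    · rw [sh1f] at h1 h2
      simp only [src, tgt, Bool.false_eq_true, if_false, if_true] at h1 h2 ⊢
      unfold In Ex kl
      dsimp only
      refine ⟨?_, by omega⟩
      by_cases h3 : b = R - 1 ∨ b = -R - 1
      · left
        apply Prod.ext <;> dsimp only <;> omega
      · right
        omega
  · rcases hc with rfl | rfl
    · rw [sh0] at h1 h2
      simp only [src, tgt, if_true] at h1 h2 ⊢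
      unfold In Ex
      dsimp only
      refine ⟨Or.inr ?_, ?_⟩ <;> omega
    · rw [sh1t] at h1 h2
      simp only [src, tgt, Bool.false_eq_true, if_false, if_true] at h1 h2 ⊢
      unfold In Ex kl
      dsimp only
      refine ⟨?_, by omega⟩
      by_cases h3 : a = R - 1 ∨ a = -R - 1
      · left
        apply Prod.ext <;> dsimp only <;> omega
      · right
        omega

theorem pi_edge {c : ℤ} (hc : c = 0 ∨ c = 1) {d : Dir} {R x : ℤ} {b : ℕ} (hx : |x| + b + 1 ≤ R)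
    (e : Edg) (h1 : In c R (src e)) (h2 : In c R (tgt e))
    (h : Pi c d R x b (src e) ∨ Pi c d R x b (tgt e)) :
    e ∈ (↑(hbE d (cR c d R x).1 (cR c d R x).2 b) : Set Edg) := by
  rw [Finset.mem_coe]
  have hx1 := le_abs_self x
  have hx2 := neg_abs_le x
  obtain ⟨p, q, _ | _⟩ := e
  · simp only [src, tgt, Bool.false_eq_true, if_false] at *
    unfold In at h1 h2
    dsimp only at h1 h2
    rcases h with ⟨-, h3, h4⟩ | ⟨-, h3, h4⟩ <;> cases d <;>
      simp only [cR, hbE, mem_RE_false] at * <;> rw [abs_lt] at h3 h4 <;> omega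
  · simp only [src, tgt, if_true] at *
    unfold In at h1 h2
    dsimp only at h1 h2
    rcases h with ⟨-, h3, h4⟩ | ⟨-, h3, h4⟩ <;> cases d <;>
      simp only [cR, hbE, mem_RE_true] at * <;> rw [abs_lt] at h3 h4 <;> omega

/-- position of the edges of a half ball -/
theorem hb_ends {c : ℤ} (hc : c = 0 ∨ c = 1) {d : Dir} {R x : ℤ} {b : ℕ}
    (hx : |x| + 2 * b + 8 ≤ R) {e : Edg} (he : e ∈ hbE d (cR c d R x).1 (cR c d R x).2 b) :
    (In c R (src e) ∧ In c R (tgt e)) ∧ sh c e ∈ bxz R ∧ Hon (sh c e) ∧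
      (R - b - 2 ≤ |(sh c e).1| ∨ R - b - 2 ≤ |(sh c e).2.1|) := by
  have hx1 := le_abs_self x
  have hx2 := neg_abs_le x
  obtain ⟨p, q, _ | _⟩ := e
  · have h1 := le_abs_self p
    have h2 := neg_abs_le p
    have h3 := le_abs_self q
    have h4 := neg_abs_le q
    have h5 := le_abs_self (q + 1)
    have h6 := neg_abs_le (q + 1)
    rcases hc with rfl | rfl
    · rw [sh0]
      unfold In bxz Hon
      rw [dco_f]
      simp only [src, tgt, Bool.false_eq_true, if_false, Set.mem_setOf_eq, nm_le]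
      cases d <;> simp only [cR, hbE, mem_RE_false] at he <;> omega
    · rw [sh1f]
      unfold In bxz Hon
      rw [dco_t]
      simp only [src, tgt, Bool.false_eq_true, if_false, if_true, Set.mem_setOf_eq, nm_le]
      cases d <;> simp only [cR, hbE, mem_RE_false] at he <;> omega
  · have h1 := le_abs_self p
    have h2 := neg_abs_le p
    have h3 := le_abs_self q
    have h4 := neg_abs_le q
    have h5 := le_abs_self (p + 1)
    have h6 := neg_abs_le (p + 1)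
    rcases hc with rfl | rfl
    · rw [sh0]
      unfold In bxz Hon
      rw [dco_t]
      simp only [src, tgt, if_true, Set.mem_setOf_eq, nm_le]
      cases d <;> simp only [cR, hbE, mem_RE_true] at he <;> omega
    · rw [sh1t]
      unfold In bxz Hon
      rw [dco_f]
      simp only [src, tgt, Bool.false_eq_true, if_false, if_true, Set.mem_setOf_eq, nm_le]
      cases d <;> simp only [cR, hbE, mem_RE_true] at he <;> omega

/-- a point of the closed half ball outside its interior is on the rim -/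
theorem rim_z {c : ℤ} (hc : c = 0 ∨ c = 1) {d : Dir} {R x : ℤ} {b : ℕ}
    (hx : |x| + 2 * b + 8 ≤ R) {z : Vtx} (hz : ¬ Pi c d R x b z)
    (h : (∃ e ∈ hbE d (cR c d R x).1 (cR c d R x).2 b, src e = z ∨ tgt e = z)) :
    z ∈ rimE d (cR c d R x).1 (cR c d R x).2 b := by
  obtain ⟨e, he, hez⟩ := h
  have h1 := (hb_ends hc hx he).1
  have hnz : In c R z := by
    rcases hez with rfl | rfl
    · exact h1.1
    · exact h1.2
  have hin : ∀ a b' c' d' : ℤ, e ∈ RE a b' c' d' → inR a b' c' d' z := by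
    intro a b' c' d' he'
    unfold inR
    obtain ⟨p, q, _ | _⟩ := e
    · rw [mem_RE_false] at he'
      simp only [src, tgt, Bool.false_eq_true, if_false] at hez
      rcases hez with rfl | rfl <;> dsimp only <;> omega
    · rw [mem_RE_true] at he'
      simp only [src, tgt, if_true] at hez
      rcases hez with rfl | rfl <;> dsimp only <;> omega
  have hz' : ¬ (|z.1 - (cR c d R x).1| < b ∧ |z.2 - (cR c d R x).2| < b) := fun h => hz ⟨hnz, h⟩
  rw [abs_lt, abs_lt] at hz'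
  unfold In at hnz
  cases d <;> simp only [cR, hbE, rimE, Set.mem_ofPred_eq] at * <;>
    have h2 := hin _ _ _ _ he <;> refine ⟨h2, ?_⟩ <;> unfold inR at h2 <;> omega

theorem pi_of {c : ℤ} {d : Dir} {R x : ℤ} {a b : ℕ} (hab : a < b) {u : Vtx} (hu : In c R u)
    (hd : onc c d R u) (hx : |tc d u - x| ≤ a) : Pi c d R x b u := by
  refine ⟨hu, ?_⟩
  rw [abs_le] at hx
  cases d <;> simp only [cR, onc, tc] at * <;> rw [abs_lt, abs_lt] <;> omega

theorem sg_of {c : ℤ} {d : Dir} {R x : ℤ} {a : ℕ} {u : Vtx}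
    (hd : onc c d R u) (hx : |tc d u - x| ≤ a) :
    u ∈ segD d (cR c d R x).1 (cR c d R x).2 a := by
  rw [abs_le] at hx
  cases d <;> simp only [cR, onc, tc, segD, Set.mem_ofPred_eq] at * <;> omega

/-- the points of the half ball are away from the zipper -/
theorem pi_hon {c : ℤ} (hc : c = 0 ∨ c = 1) {d : Dir} {R x : ℤ} {b : ℕ}
    (hx : |x| + 2 * b + 8 ≤ R) {v : Vtx} (h1 : Ex c R v) (h2 : Pi c d R x b (kl c R v)) :
    (pc c v).2 ≤ 0 → (pc c v).1 < -1 ∨ 1 < (pc c v).1 := by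
  have hx1 := le_abs_self x
  have hx2 := neg_abs_le x
  obtain ⟨h3, h4, h5⟩ := h2
  rw [abs_lt] at h4 h5
  unfold Ex at h1
  unfold pc
  unfold kl at h3 h4 h5
  cases d <;> simp only [cR] at h3 h4 h5 ⊢ <;> omega

/-- the tip -/
def Tip (y : ℤ × ℤ) : Prop := (-1 ≤ y.1 ∧ y.1 ≤ 1) ∧ y.2 = 0

theorem tip_scz {i : ℕ} (hi : i < 3) : Tip (scz 0 0 i) := by
  unfold Tip scz
  dsimp only
  omega

theorem tip_npi {c : ℤ} (hc : c = 0 ∨ c = 1) {d : Dir} {R x : ℤ} {b : ℕ}
    (hx : |x| + 2 * b + 8 ≤ R) {y : ℤ × ℤ} (hy : Tip y) (v : Vtx) (h : y = pc c v) :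
    ¬ (Ex c R v ∧ Pi c d R x b (kl c R v)) := by
  have hx1 := le_abs_self x
  have hx2 := neg_abs_le x
  rintro ⟨-, h3, h4, h5⟩
  rw [abs_lt] at h4 h5
  subst h
  unfold Tip pc at hy
  unfold kl at h3 h4 h5
  dsimp only at hy
  cases d <;> simp only [cR] at h3 h4 h5 <;> omega

/-- two different clusters near a boundary point -/
theorem two_z {c : ℤ} (hc : c = 0 ∨ c = 1) {R x : ℤ} {d : Dir} {a b : ℕ} {G : Set Edg}
    (hab : a < b) (hx : |x| + 2 * b + 8 ≤ R) {u u' : Vtx} {y y' : ℤ × ℤ}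
    (hu : In c R u) (hud : onc c d R u) (hux : |tc d u - x| ≤ a)
    (hu' : In c R u') (hud' : onc c d R u') (hux' : |tc d u' - x| ≤ a)
    (h : RZ {0} (bxz R) G (pc c u) y) (hy : Tip y)
    (h' : RZ {0} (bxz R) G (pc c u') y') (hy' : Tip y')
    (hne : ¬ RZ {0} (bxz R) G (pc c u) (pc c u')) :
    H4 d (cR c d R x).1 (cR c d R x).2 a b (Gc c G) := by
  have hx0 := abs_nonneg x
  have hex : ∀ (u : Vtx) (y : ℤ × ℤ), In c R u → onc c d R u → |tc d u - x| ≤ a →
      RZ {0} (bxz R) G (pc c u) y → Tip y →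
      ∃ z ∈ rimE d (cR c d R x).1 (cR c d R x).2 b,
        Reach (Gc c G ∩ ↑(hbE d (cR c d R x).1 (cR c d R x).2 b)) u z := by
    intro u y hu hud hux h hy
    have hPu := pi_of hab hu hud hux
    obtain ⟨z, hz, hr, e, he, hez⟩ := exit_c hc (κ := kl c R)
      (P := fun v => Ex c R v ∧ Pi c d R x b (kl c R v))
      (S := (↑(hbE d (cR c d R x).1 (cR c d R x).2 b) : Set Edg))
      (fun v hv => pi_hon hc hx hv.1 hv.2) (fun e _ h1 h2 => by
        obtain ⟨h3 | ⟨h3, h4⟩, -, -⟩ := geo hc (by omega) h1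
        · exact Or.inl h3
        · right
          refine ⟨kl_in h3, kl_in h4, ?_⟩
          rw [kl_in h3, kl_in h4] at h2
          exact pi_edge hc (by omega) e h3 h4 (by tauto)) h
      ⟨by unfold In at hu; unfold Ex; omega, by rw [kl_in hu]; exact hPu⟩ (tip_npi hc hx hy)
    have hEz : Ex c R z := by
      obtain ⟨-, h3, h4⟩ := geo hc (by omega) he
      rcases hez with rfl | rfl
      · exact h3
      · exact h4
    have hz' : ¬ Pi c d R x b (kl c R z) := fun h => hz ⟨hEz, h⟩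
    rw [kl_in hu] at hr
    refine ⟨kl c R z, rim_z hc hx hz' ?_, hr⟩
    rcases Relation.ReflTransGen.cases_tail hr with h5 | ⟨y, -, e, ⟨-, he⟩, hyz⟩
    · rw [h5] at hz'
      exact absurd hPu hz'
    · exact ⟨e, Finset.mem_coe.1 he, by tauto⟩
  refine ⟨u, sg_of hud hux, u', sg_of hud' hux', hex u y hu hud hux h hy,
    hex u' y' hu' hud' hux' h' hy', fun hr => hne ?_⟩
  refine rz_of_reach hc (S := (↑(hbE d (cR c d R x).1 (cR c d R x).2 b) : Set Edg)) ?_ hr
  intro e he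
  have h1 := hb_ends hc hx (Finset.mem_coe.1 he)
  exact ⟨h1.2.1, h1.2.2.1⟩

/-- the boundary -/
def Bd (c R : ℤ) (v : Vtx) : Prop :=
  In c R v ∧ (v.2 = R - c ∨ v.1 = R - c ∨ v.2 = -R ∨ v.1 = -R)

theorem same_z {c : ℤ} (hc : c = 0 ∨ c = 1) {R ρ l : ℤ} {d : Dir} {u v : Vtx}
    (hud : onc c d R u) (ht : |tc d u| + 2 * ρ < R) (hl : l + 2 ≤ ρ) (hl0 : 0 ≤ l)
    (hv : Bd c R v) (h1 : |u.1 - v.1| ≤ l) (h2 : |u.2 - v.2| ≤ l) :
    onc c d R v ∧ |tc d v - tc d u| ≤ l := by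
  obtain ⟨hv1, hv2⟩ := hv
  unfold In at hv1
  rw [abs_le] at h1 h2
  have ht2 := abs_lt.1 (show |tc d u| < R - 2 * ρ by omega)
  clear ht
  cases d <;> simp only [onc, tc] at * <;> rw [abs_le] <;> omega

/-- different clusters touch the boundary far from each other -/
theorem far_z {c : ℤ} (hc : c = 0 ∨ c = 1) {R ρ r : ℕ} {G : Set Edg} (hr : 1 ≤ r)
    (hrρ : 64 * r ≤ ρ) (hρ : 64 * ρ ≤ R)
    (hB : ¬ ∃ (d : Dir) (i : ℤ), |(r : ℤ) * i| + 2 * ρ + 8 ≤ R ∧
      H4 d (cR c d R (r * i)).1 (cR c d R (r * i)).2 (8 * r) ρ (Gc c G)) {d : Dir} {u v : Vtx}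
    {y y' : ℤ × ℤ} (hu : Bd c R u) (hud : onc c d R u) (ht : |tc d u| + 3 * ρ < R)
    (hv : Bd c R v) (h : RZ {0} (bxz R) G (pc c u) y) (hy : Tip y)
    (h' : RZ {0} (bxz R) G (pc c v) y') (hy' : Tip y')
    (hne : ¬ RZ {0} (bxz R) G (pc c u) (pc c v)) :
    ¬ (|u.1 - v.1| ≤ 4 * r ∧ |u.2 - v.2| ≤ 4 * r) := by
  rintro ⟨h1, h2⟩
  obtain ⟨hvd, hvt⟩ := same_z (l := 4 * r) (ρ := ρ) hc hud (by omega) (by omega) (by omega) hv h1 h2
  obtain ⟨e1, e2⟩ := ediv_near (t := tc d u) hr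
  rw [abs_le] at hvt
  have ht2 := abs_lt.1 (by omega : |tc d u| < (R : ℤ) - 3 * ρ)
  have hx : |(r : ℤ) * (tc d u / r)| + 2 * ρ + 8 ≤ R := by
    have : |(r : ℤ) * (tc d u / r)| ≤ (R : ℤ) - 2 * ρ - 8 := by rw [abs_le]; omega
    omega
  refine hB ⟨d, tc d u / r, hx, ?_⟩
  refine two_z hc (by omega) hx hu.1 hud ?_ hv.1 hvd ?_ h hy h' hy' hne
  · rw [abs_le]; push_cast; omega
  · rw [abs_le]; push_cast; omega

end TLAND

end Pool.Agent.W808.KZ
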