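import Pool.Agent.W808.KZ.T_LAND2

/-! LAND, part 3: touching points and the deterministic part (helper352). -/

set_option autoImplicit false

namespace Pool.Agent.W808.KZ
open H974 H906.Cyl
open H12S (Dir hbE segD rimE H4 Crs Nr sqE)
open Pool.Agent.H160R2.ML (nm)
open Pool.Agent.H160R2.MU (Cel csq cpos prd shf BxS Bxs EP inSq PC Bad Cc)
open Pool.Agent.W801.OU

namespace TLAND
open Pool.Agent.H160R2.MU.TLAND (nm_le nm_eq tc ediv_near sg cl cl_lt onS inSq_cl)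

theorem cor_hon {c : ℤ} (hc : c = 0 ∨ c = 1) {g : Edg} (hh : Hon g) {x : ℤ × ℤ}
    (h : Cor {0} c g x) : ∃ e v, g = sh c e ∧ (v = src e ∨ v = tgt e) ∧ x = pc c v := by
  obtain ⟨-, y, h1 | h1⟩ := h
  · obtain ⟨e, h2, h3, h4⟩ := dg_hon' hc hh h1
    exact ⟨e, src e, h2, Or.inl rfl, h3⟩
  · obtain ⟨e, h2, h3, h4⟩ := dg_hon' hc hh h1
    exact ⟨e, tgt e, h2, Or.inr rfl, h4⟩

theorem cor_pos {c : ℤ} {g : Edg} {z : ℤ × ℤ} (h : Cor {0} c g z) :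
    (((z.1 = g.1 + g.2.1 ∨ z.1 = g.1 + g.2.1 + 1) ∨
      (dco g < 0 ∧ z.1 = -1 ∧ (g.1 + g.2.1 = 0 ∨ g.1 + g.2.1 + 1 = 0))) ∧
      (z.2 = dco g ∨ z.2 = dco g + 1)) ∧ ¬ (dco g < 0 ∧ g.1 + g.2.1 + 1 = 0) := by
  obtain ⟨h0, y, h1 | h1⟩ := h
  · exact ⟨corner_pos h1 (Or.inl rfl), fun h => h0 (mem_zp.2 h)⟩
  · exact ⟨corner_pos h1 (Or.inr rfl), fun h => h0 (mem_zp.2 h)⟩

theorem touch_hon {R : ℤ} (hR : 8 ≤ R) {e e' : Edg} (he : e ∉ bxz R) (he' : e' ∈ bxz R)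
    {c c' : ℤ} {x : ℤ × ℤ} (h : Cor {0} c e x) (h' : Cor {0} c' e' x)
    (hfar : ¬ (|x.1| ≤ 8 ∧ |x.2 + 2 * R| ≤ 8)) : Hon e ∧ Hon e' := by
  have h1 := cor_pos h
  have h2 := cor_pos h'
  clear h h'
  obtain ⟨x1, x2⟩ := x
  unfold bxz at he he'
  rw [Set.mem_ofPred_eq, nm_le, nm_le] at he he'
  rw [abs_le, abs_le] at hfar
  dsimp only at hfar h1 h2
  unfold Hon
  obtain ⟨p, q, _ | _⟩ := e <;> obtain ⟨p', q', _ | _⟩ := e' <;>
    simp only [src, tgt, Bool.false_eq_true, if_false, if_true, dco_f, dco_t] at * <;> omega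

/-- outer faces next to the sides -/
def OutB (R : ℤ) (p : Vtx) : Prop :=
  ((p.2 = R ∨ p.2 = -R - 1) ∧ -R ≤ p.1 ∧ p.1 < R) ∨ ((p.1 = R ∨ p.1 = -R - 1) ∧ -R ≤ p.2 ∧ p.2 < R)

def Aj (v p : Vtx) : Prop := (p.1 ≤ v.1 ∧ v.1 ≤ p.1 + 1) ∧ (p.2 ≤ v.2 ∧ v.2 ≤ p.2 + 1)

theorem core {R : ℤ} {f f' : Edg} {v p : Vtx} (he : sh 1 f ∉ bxz R) (he' : sh 1 f' ∈ bxz R)
    (h1 : v = src (sh 1 f) ∨ v = tgt (sh 1 f)) (h2 : v = src (sh 1 f') ∨ v = tgt (sh 1 f'))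
    (h3 : p = src f ∨ p = tgt f) (h4 : p = src f' ∨ p = tgt f') :
    nm v = R ∧ OutB R p ∧ Aj v p := by
  unfold bxz at he he'
  rw [Set.mem_ofPred_eq, nm_le, nm_le] at he he'
  have key : ((-R ≤ v.1 ∧ v.1 ≤ R) ∧ (-R ≤ v.2 ∧ v.2 ≤ R)) ∧
      ¬ ((-(R - 1) ≤ v.1 ∧ v.1 ≤ R - 1) ∧ (-(R - 1) ≤ v.2 ∧ v.2 ≤ R - 1)) ∧
      OutB R p ∧ Aj v p := by
    obtain ⟨v1, v2⟩ := v
    obtain ⟨p1, p2⟩ := p
    unfold OutB Aj
    obtain ⟨a, b, _ | _⟩ := f <;> obtain ⟨a', b', _ | _⟩ := f' <;>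
      simp only [sh1t, sh1f, src, tgt, Bool.false_eq_true, if_false, if_true,
        Prod.mk.injEq] at * <;> omega
  obtain ⟨k1, k2, k3, k4⟩ := key
  have k5 := nm_le.2 k1
  have k6 : ¬ nm v ≤ R - 1 := fun h => k2 (nm_le.1 h)
  exact ⟨by omega, k3, k4⟩

/-- touching points: a vertex `x` and an outer face `y` -/
def Tch (R : ℤ) (x y : ℤ × ℤ) (e : Edg) : Prop :=
  ∃ v p : Vtx, x = vp v ∧ y = fp p ∧ Cor {0} 0 e x ∧ Cor {0} 1 e y ∧ nm v = R ∧ OutB R p ∧ Aj v p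

theorem touch0 {R : ℤ} {x y : ℤ × ℤ} {e e' : Edg} (he : e ∉ bxz R) (he' : e' ∈ bxz R)
    (hh : Hon e) (hh' : Hon e') (h0 : Cor {0} 0 e x) (h1 : Cor {0} 1 e y) (h0' : Cor {0} 0 e' x)
    (h1' : Cor {0} 1 e' y) : Tch R x y e := by
  obtain ⟨e1, v, h2, h3, h4⟩ := cor_hon (Or.inl rfl) hh h0
  obtain ⟨e1', v', h2', h3', h4'⟩ := cor_hon (Or.inl rfl) hh' h0'
  obtain ⟨f, p, h5, h6, h7⟩ := cor_hon (Or.inr rfl) hh h1
  obtain ⟨f', p', h5', h6', h7'⟩ := cor_hon (Or.inr rfl) hh' h1'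
  have hv : v = v' := pc_inj (h4.symm.trans h4')
  have hp : p = p' := pc_inj (h7.symm.trans h7')
  subst hv hp
  rw [sh0] at h2 h2'
  subst h2 h2'
  have := core (R := R) (v := v) (p := p) (f := f) (f' := f') (by rw [← h5]; exact he)
    (by rw [← h5']; exact he') (by rw [← h5]; exact h3) (by rw [← h5']; exact h3') h6 h6'
  exact ⟨v, p, h4.trans (pc_zero v), h7.trans (pc_one p), h0, h1, this⟩

theorem cor_par {c : ℤ} (hc : c = 0 ∨ c = 1) {g : Edg} (hh : Hon g) {x : ℤ × ℤ}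
    (h : Cor {0} c g x) : (x.1 + x.2) % 2 = c := by
  obtain ⟨e, v, -, -, h3⟩ := cor_hon hc hh h
  rw [h3]
  exact pc_par hc v

theorem touch {R : ℤ} (hR : 8 ≤ R) {x y : ℤ × ℤ} {e e' : Edg} (he : e ∉ bxz R)
    (he' : e' ∈ bxz R)
    (h : (Cor {0} 0 e x ∧ Cor {0} 1 e y) ∨ (Cor {0} 1 e x ∧ Cor {0} 0 e y))
    (h' : (Cor {0} 0 e' x ∧ Cor {0} 1 e' y) ∨ (Cor {0} 1 e' x ∧ Cor {0} 0 e' y))
    (hfar : ¬ (|x.1| ≤ 8 ∧ |x.2 + 2 * R| ≤ 8)) : Tch R x y e ∨ Tch R y x e := by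
  have hh : Hon e ∧ Hon e' := by
    rcases h with ⟨h1, -⟩ | ⟨h1, -⟩ <;> rcases h' with ⟨h2, -⟩ | ⟨h2, -⟩ <;>
      exact touch_hon hR he he' h1 h2 hfar
  rcases h with ⟨h1, h2⟩ | ⟨h1, h2⟩ <;> rcases h' with ⟨h3, h4⟩ | ⟨h3, h4⟩
  · exact Or.inl (touch0 he he' hh.1 hh.2 h1 h2 h3 h4)
  · have := cor_par (Or.inl rfl) hh.1 h1
    rw [cor_par (Or.inr rfl) hh.2 h3] at this
    norm_num at this
  · have := cor_par (Or.inr rfl) hh.1 h1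
    rw [cor_par (Or.inl rfl) hh.2 h3] at this
    norm_num at this
  · exact Or.inr (touch0 he he' hh.1 hh.2 h2 h1 h4 h3)

/-! ### the bad event -/

/-- the configuration of class `c` in the box outside the half box -/
def Gt (c : ℤ) (R : ℕ) (G : Set Edg) : Set Edg :=
  Gc c G ∩ {e | sh c e ∈ boxE R ∧ sh c e ∉ boxE (R / 2)}

/-- the squares near the point where the zipper leaves the box -/
def ZB (R : ℕ) : Set Edg :=
  {e | e ∈ bxz R ∧ |e.1 + e.2.1| ≤ 2 * (R / 8 : ℕ) ∧ |dco e - -(2 * R : ℤ)| ≤ 2 * (R / 8 : ℕ)}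

def BadZ (r ρ R : ℕ) (G : Set Edg) : Prop :=
  (∃ s1 s2 : Bool, Crs (sg s1 R) (sg s2 R) (4 * ρ) (R / 8) (Gt 0 R G)) ∨
  ZCr {0} (ZB R) G (-(2 * R : ℤ)) (16 * ρ : ℕ) (R / 8 : ℕ) ∨
  (∃ (d : Dir) (i : ℤ), |(r : ℤ) * i| + 2 * ρ + 8 ≤ R ∧
    H4 d (cR 0 d R (r * i)).1 (cR 0 d R (r * i)).2 (8 * r) ρ (Gt 0 R G)) ∨
  (∃ (d : Dir) (i : ℤ), |(r : ℤ) * i| + 2 * ρ + 8 ≤ R ∧
    H4 d (cR 1 d R (r * i)).1 (cR 1 d R (r * i)).2 (8 * r) ρ (Gt 1 R G))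

theorem mem_box_iff {R : ℕ} {e : Edg} : e ∈ boxE R ↔ e ∈ bxz R := by
  unfold bxz boxE
  rw [Set.mem_ofPred_eq, nm_le, nm_le]
  obtain ⟨p, q, _ | _⟩ := e
  · rw [mem_RE_false]
    simp only [src, tgt, Bool.false_eq_true, if_false]
    omega
  · rw [mem_RE_true]
    simp only [src, tgt, if_true]
    omega

theorem not_half {R : ℕ} {e : Edg} {b : ℤ} (h : b ≤ |e.1| ∨ b ≤ |e.2.1|) (hb : (R / 2 : ℕ) < b) :
    e ∉ boxE (R / 2) := by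
  intro he
  rw [mem_box_iff] at he
  have h1 := he.1
  rw [nm_le] at h1
  have h2 : |e.1| ≤ (R / 2 : ℕ) ∧ |e.2.1| ≤ (R / 2 : ℕ) := by
    rw [abs_le, abs_le]
    exact h1
  omega

theorem h4_gt {c : ℤ} (hc : c = 0 ∨ c = 1) {R b a : ℕ} {x : ℤ} {d : Dir} {G : Set Edg}
    (hx : |x| + 2 * b + 8 ≤ R) (hR : 64 * b ≤ R)
    (h : H4 d (cR c d R x).1 (cR c d R x).2 a b (Gc c G)) :
    H4 d (cR c d R x).1 (cR c d R x).2 a b (Gt c R G) := by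
  have hx0 := abs_nonneg x
  have key : Gt c R G ∩ ↑(hbE d (cR c d R x).1 (cR c d R x).2 b) =
      Gc c G ∩ ↑(hbE d (cR c d R x).1 (cR c d R x).2 b) := by
    ext e
    constructor
    · rintro ⟨⟨h1, -⟩, h2⟩
      exact ⟨h1, h2⟩
    · rintro ⟨h1, h2⟩
      have h3 := hb_ends hc hx (Finset.mem_coe.1 h2)
      exact ⟨⟨h1, mem_box_iff.2 h3.2.1, not_half h3.2.2.2 (by omega)⟩, h2⟩
  unfold H4 H12S.H3g at h ⊢
  rw [key]
  exact h

/-! ### away from the corners -/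

theorem zfar {R ρ : ℕ} {G : Set Edg} (hρ : 256 * ρ ≤ R) (hρ1 : 1 ≤ ρ)
    (hZ : ¬ ZCr {0} (ZB R) G (-(2 * R : ℤ)) (16 * ρ : ℕ) (R / 8 : ℕ)) {x y : ℤ × ℤ}
    (h : RZ {0} (bxz R) G x y) (hy : Tip y) : ¬ (|x.1| ≤ 16 * ρ ∧ |x.2 + 2 * R| ≤ 16 * ρ) := by
  rintro ⟨h1, h2⟩
  have hb : ((R / 8 : ℕ) : ℤ) * 8 ≤ R ∧ (R : ℤ) < ((R / 8 : ℕ) : ℤ) * 8 + 8 := by omega
  obtain ⟨z, hz, hr⟩ := exit_z (B' := ZB R)
    (P := fun z => |z.1| < (R / 8 : ℕ) ∧ |z.2 + 2 * R| < (R / 8 : ℕ)) (by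
      intro g hg _ c x y hd hP
      obtain ⟨u, hu, hu2⟩ : ∃ u, (u = x ∨ u = y) ∧ (|u.1| < ((R / 8 : ℕ) : ℤ) ∧
          |u.2 + 2 * R| < ((R / 8 : ℕ) : ℤ)) := by
        rcases hP with hP | hP
        · exact ⟨x, Or.inl rfl, hP⟩
        · exact ⟨y, Or.inr rfl, hP⟩
      have h3 := corner_pos hd hu
      rw [abs_lt, abs_lt] at hu2
      refine ⟨hg, ?_, ?_⟩
      · rw [abs_le]; omega
      · rw [abs_le]; omega) h ⟨by omega, by omega⟩ (by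
      rintro ⟨-, h3⟩
      rw [abs_lt] at h3
      unfold Tip at hy
      omega)
  refine hZ ⟨x, z, ?_, ?_, ?_, hr⟩
  · push_cast; exact h1
  · rw [sub_neg_eq_add]
    push_cast
    exact h2
  · rw [sub_neg_eq_add]
    by_contra h3
    exact hz ⟨by omega, by omega⟩

theorem sgt (R : ℤ) : sg true R = R := rfl
theorem sgf (R : ℤ) : sg false R = -R := rfl

theorem corner_z {R ρ : ℕ} {G : Set Edg} (hρ : 256 * ρ ≤ R) (hρ1 : 1 ≤ ρ)
    (hC : ¬ ∃ s1 s2 : Bool, Crs (sg s1 R) (sg s2 R) (4 * ρ) (R / 8) (Gt 0 R G))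
    {d : Dir} {v : Vtx} {y : ℤ × ℤ} (hv : nm v = R) (hvd : onc 0 d R v)
    (h : RZ {0} (bxz R) G (vp v) y) (hy : Tip y)
    (hfar : ¬ (|(vp v).1| ≤ 16 * ρ ∧ |(vp v).2 + 2 * R| ≤ 16 * ρ)) : |tc d v| + 4 * ρ < R := by
  by_contra hcon
  rw [not_lt] at hcon
  have hv' := (nm_eq hv).1
  rw [abs_le, abs_le] at hfar
  unfold vp at hfar
  dsimp only at hfar
  obtain ⟨s1, s2, h0, h1, h2⟩ : ∃ s1 s2 : Bool, (s1 = true ∨ s2 = false) ∧
      |v.1 - sg s1 R| ≤ 4 * ρ ∧ |v.2 - sg s2 R| ≤ 4 * ρ := by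
    rcases abs_cases (tc d v) with ⟨ha, -⟩ | ⟨ha, -⟩ <;> rw [ha] at hcon <;> cases d <;>
      simp only [onc, tc] at hvd hcon
    · exact ⟨true, false, Or.inl rfl, by rw [sgt, abs_le]; omega, by rw [sgf, abs_le]; omega⟩
    · exact ⟨true, true, Or.inl rfl, by rw [sgt, abs_le]; omega, by rw [sgt, abs_le]; omega⟩
    · exfalso; omega
    · exact ⟨true, true, Or.inl rfl, by rw [sgt, abs_le]; omega, by rw [sgt, abs_le]; omega⟩
    · exact ⟨false, false, Or.inr rfl, by rw [sgf, abs_le]; omega, by rw [sgf, abs_le]; omega⟩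
    · exfalso; omega
    · exact ⟨false, false, Or.inr rfl, by rw [sgf, abs_le]; omega, by rw [sgf, abs_le]; omega⟩
    · exact ⟨true, false, Or.inl rfl, by rw [sgt, abs_le]; omega, by rw [sgf, abs_le]; omega⟩
  apply hC
  have hsg : (sg s1 (R : ℤ) = R ∧ sg s2 (R : ℤ) = R) ∨ (sg s1 (R : ℤ) = R ∧ sg s2 (R : ℤ) = -R) ∨
      (sg s1 (R : ℤ) = -R ∧ sg s2 (R : ℤ) = -R) := by
    cases s1 <;> cases s2 <;> simp [sg] at h0 ⊢
  have hR8 : (((R / 8 : ℕ) : ℤ)) * 8 ≤ R ∧ (R : ℤ) < ((R / 8 : ℕ) : ℤ) * 8 + 8 := by omega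
  obtain ⟨z, hz, hr, -⟩ := exit_c (c := 0) (Or.inl rfl) (κ := id)
    (P := fun v => |v.1 - sg s1 R| < (R / 8 : ℕ) ∧ |v.2 - sg s2 R| < (R / 8 : ℕ))
    (S := {e | sh 0 e ∈ boxE R ∧ sh 0 e ∉ boxE (R / 2)}) (B := bxz R) (G := G) (u := v) (y := y)
    (by
      rintro w ⟨h3, h4⟩
      rw [abs_lt] at h3 h4
      unfold pc
      dsimp only
      omega) (by
      intro e _ h3 h4
      right
      refine ⟨rfl, rfl, mem_box_iff.2 h3, not_half (b := (R : ℤ) - (R / 8 : ℕ) - 2) ?_ (by omega)⟩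
      rw [sh0]
      have h5 := le_abs_self e.1
      have h6 := neg_abs_le e.1
      obtain ⟨p, q, _ | _⟩ := e <;>
        simp only [src, tgt, Bool.false_eq_true, if_false, if_true] at h4 h5 h6 ⊢ <;>
        simp only [abs_lt] at h4 <;> omega)
    (by rw [pc_zero]; exact h) ⟨by omega, by omega⟩ (by
      rintro w hw ⟨h3, h4⟩
      rw [abs_lt] at h3 h4
      subst hw
      unfold Tip pc at hy
      dsimp only at hy
      omega)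
  refine ⟨s1, s2, v, z, ?_, ?_, hr⟩
  · rw [abs_le] at h1 h2
    unfold inR
    push_cast
    omega
  · rw [abs_lt, abs_lt] at hz
    omega

/-! ### outer faces -/

theorem outer_link {R : ℤ} {G : Set Edg} {p : Vtx} (hp : OutB R p) (hR : 1 ≤ R)
    (hh : (fp p).2 ≤ 0 → (fp p).1 < -1 ∨ 1 < (fp p).1) {y : ℤ × ℤ}
    (h : RZ {0} (bxz R) G (fp p) y) (hy : y ≠ fp p) :
    RZ {0} (bxz R) G (fp p) (fp (kl 1 R p)) := by
  obtain ⟨z, hz, hr, -⟩ := exit_c (c := 1) (Or.inr rfl) (κ := id) (P := fun v => v = p)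
    (S := {e | sh 1 e ∈ bxz R}) (B := bxz R) (G := G) (u := p) (y := y)
    (by rintro w rfl; exact hh) (fun e _ h3 _ => Or.inr ⟨rfl, rfl, h3⟩) h rfl (by
      rintro w hw rfl
      exact hy (by rw [hw, pc_one]))
  rcases Relation.ReflTransGen.cases_head hr with h1 | ⟨w, ⟨e, ⟨he1, he2⟩, he3⟩, -⟩
  · exact absurd h1.symm hz
  · have he2' : sh 1 e ∈ bxz R := he2
    simp only [id] at he3
    have hHon : Hon (sh 1 e) := by
      unfold Hon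
      unfold fp at hh
      dsimp only at hh
      obtain ⟨a, b, _ | _⟩ := e
      · rw [sh1f, dco_t]
        simp only [src, tgt, Bool.false_eq_true, if_false] at he3 ⊢
        rcases he3 with ⟨h3, h4⟩ | ⟨h3, h4⟩
        · rw [← h3] at hh; dsimp only at hh; omega
        · rw [← h4] at hh; dsimp only at hh; omega
      · rw [sh1t, dco_f]
        simp only [src, tgt, if_true] at he3 ⊢
        rcases he3 with ⟨h3, h4⟩ | ⟨h3, h4⟩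
        · rw [← h3] at hh; dsimp only at hh; omega
        · rw [← h4] at hh; dsimp only at hh; omega
    have hw : w = kl 1 R p := by
      unfold bxz at he2'
      rw [Set.mem_ofPred_eq, nm_le, nm_le] at he2'
      obtain ⟨p1, p2⟩ := p
      obtain ⟨w1, w2⟩ := w
      unfold OutB at hp
      unfold kl
      obtain ⟨a, b, _ | _⟩ := e
      · rw [sh1f] at he2'
        simp only [src, tgt, Bool.false_eq_true, if_false, if_true, Prod.mk.injEq] at he3 he2' hp ⊢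
        omega
      · rw [sh1t] at he2'
        simp only [src, tgt, Bool.false_eq_true, if_false, if_true, Prod.mk.injEq] at he3 he2' hp ⊢
        omega
    have hl : RZ {0} (bxz R) G (pc 1 (src e)) (pc 1 (tgt e)) :=
      Relation.EqvGen.rel _ _ (lz_of (Or.inr rfl) he1 he2' hHon)
    rw [← hw, ← pc_one, ← pc_one]
    rcases he3 with ⟨h3, h4⟩ | ⟨h3, h4⟩
    · rw [h3, h4] at hl; exact hl
    · rw [h3, h4] at hl; exact Relation.EqvGen.symm _ _ hl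

theorem adj_side {R ρ : ℤ} {d : Dir} {v p : Vtx} (hρ : 1 ≤ ρ) (hR : 256 * ρ ≤ R)
    (hvd : onc 0 d R v) (ht : |tc d v| + 4 * ρ < R) (hp : OutB R p) (ha : Aj v p) :
    Bd 1 R (kl 1 R p) ∧ onc 1 d R (kl 1 R p) ∧ |tc d (kl 1 R p)| + 3 * ρ < R ∧
      ((fp p).2 ≤ 0 → (fp p).1 < -1 ∨ 1 < (fp p).1) ∧
      (|(kl 1 R p).1 - p.1| ≤ 1 ∧ |(kl 1 R p).2 - p.2| ≤ 1) ∧
      (((p.2 = R ∨ p.2 = -R - 1) ∧ |p.1| + 3 * ρ ≤ R) ∨
        ((p.1 = R ∨ p.1 = -R - 1) ∧ |p.2| + 3 * ρ ≤ R)) := by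
  have ht2 := abs_lt.1 (show |tc d v| < R - 4 * ρ by omega)
  have key : ∀ t : ℤ, (-(R - 3 * ρ) < t ∧ t < R - 3 * ρ) → |t| + 3 * ρ < R := by
    intro t ht
    have := abs_lt.2 ht
    omega
  have key2 : ∀ t : ℤ, (-(R - 3 * ρ) < t ∧ t < R - 3 * ρ) → |t| + 3 * ρ ≤ R := fun t ht =>
    (key t ht).le
  clear ht
  unfold OutB at hp
  unfold Aj at ha
  unfold Bd In kl fp
  refine ⟨?_, ?_, ?_, ?_, ?_, ?_⟩
  · cases d <;> simp only [onc, tc] at * <;> omega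
  · cases d <;> simp only [onc, tc] at * <;> omega
  · apply key
    cases d <;> simp only [onc, tc] at * <;> omega
  · cases d <;> simp only [onc, tc] at * <;> omega
  · rw [abs_le, abs_le]
    cases d <;> simp only [onc, tc] at * <;> omega
  · cases d <;> simp only [onc, tc] at *
    · left
      exact ⟨by omega, key2 _ (by omega)⟩
    · left
      exact ⟨by omega, key2 _ (by omega)⟩
    · right
      exact ⟨by omega, key2 _ (by omega)⟩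
    · right
      exact ⟨by omega, key2 _ (by omega)⟩

end TLAND

end Pool.Agent.W808.KZ
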