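import Pool.Agent.W808.KZ.T_LAND3

/-! LAND, part 4: the deterministic part, end (helper352). -/

set_option autoImplicit false

namespace Pool.Agent.W808.KZ
open H974 H906.Cyl
open H12S (Dir hbE segD rimE H4 Crs Nr sqE)
open Pool.Agent.H160R2.ML (nm)
open Pool.Agent.H160R2.MU (Cel csq cpos prd shf BxS Bxs EP inSq PC Bad Cc)
open Pool.Agent.W801.OU

namespace TLAND
open Pool.Agent.H160R2.MU.TLAND (nm_le nm_eq tc ediv_near sg cl cl_lt onS inSq_cl side_of)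

/-- a touching pair: the sector `c` touches in class `0` at `v`, the sector `d` in class `1` at `p` -/
structure TT (R ρ : ℕ) (G : Set Edg) (c d : ℕ) (v p : Vtx) : Prop where
  hv : RZ {0} (bxz R) G (scz 0 0 c) (vp v)
  hp : RZ {0} (bxz R) G (scz 0 0 d) (fp p)
  nv : nm v = R
  op : OutB R p
  aj : Aj v p
  sd : ∃ s : Dir, onc 0 s R v ∧ |tc s v| + 4 * ρ < R
  te : ∃ e : Edg, e ∉ bxz R ∧ Cor {0} 1 e (fp p)

theorem onc_iff {d : Dir} {R : ℤ} {v : Vtx} : onc 0 d R v ↔ onS d R v := by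
  cases d <;> simp [onc, onS]

theorem tt_of {R ρ : ℕ} {G : Set Edg} (hρ : 256 * ρ ≤ R) (hρ1 : 1 ≤ ρ)
    (hC : ¬ ∃ s1 s2 : Bool, Crs (sg s1 R) (sg s2 R) (4 * ρ) (R / 8) (Gt 0 R G))
    (hZ : ¬ ZCr {0} (ZB R) G (-(2 * R : ℤ)) (16 * ρ : ℕ) (R / 8 : ℕ))
    {c d : ℕ} (hc : c < 3) {x y : ℤ × ℤ} {e : Edg} (he : e ∉ bxz R)
    (hx : RZ {0} (bxz R) G (scz 0 0 c) x) (hy : RZ {0} (bxz R) G (scz 0 0 d) y)
    (h : Tch R x y e) : ∃ v p, TT R ρ G c d v p := by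
  obtain ⟨v, p, h1, h2, -, h4, h5, h6, h7⟩ := h
  subst h1 h2
  obtain ⟨s, hs⟩ := side_of h5
  have h8 := zfar hρ hρ1 hZ (Relation.EqvGen.symm _ _ hx) (tip_scz hc)
  exact ⟨v, p, hx, hy, h5, h6, h7, ⟨s, onc_iff.2 hs, corner_z hρ hρ1 hC h5 (onc_iff.2 hs)
    (Relation.EqvGen.symm _ _ hx) (tip_scz hc) h8⟩, e, he, h4⟩

theorem bd_of {R : ℕ} {v : Vtx} (h : nm v = R) : Bd 0 R v := by
  have h1 := nm_eq h
  unfold Bd In
  omega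

section
variable {R ρ r : ℕ} {G : Set Edg}

theorem far0 (hρ : 256 * ρ ≤ R) (hr : 1 ≤ r) (hrρ : 64 * r ≤ ρ)
    (hB : ¬ ∃ (d : Dir) (i : ℤ), |(r : ℤ) * i| + 2 * ρ + 8 ≤ R ∧
      H4 d (cR 0 d R (r * i)).1 (cR 0 d R (r * i)).2 (8 * r) ρ (Gc 0 G))
    (hS : ∀ c d : ℕ, c < 3 → d < 3 → c ≠ d → ¬ RZ {0} (bxz R) G (scz 0 0 c) (scz 0 0 d))
    {c d c' d' : ℕ} {v p v' p' : Vtx} (hc : c < 3) (hc' : c' < 3) (hne : c ≠ c')
    (h : TT R ρ G c d v p) (h' : TT R ρ G c' d' v' p') :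
    ¬ (|v.1 - v'.1| ≤ 4 * r ∧ |v.2 - v'.2| ≤ 4 * r) := by
  obtain ⟨s, hs1, hs2⟩ := h.sd
  refine far_z (c := 0) (Or.inl rfl) hr hrρ (by omega) hB (bd_of h.nv) hs1 (by omega)
    (bd_of h'.nv) (y := scz 0 0 c) (y' := scz 0 0 c')
    (by rw [pc_zero]; exact Relation.EqvGen.symm _ _ h.hv) (tip_scz hc)
    (by rw [pc_zero]; exact Relation.EqvGen.symm _ _ h'.hv) (tip_scz hc') ?_
  rw [pc_zero, pc_zero]
  intro h1
  exact hS c c' hc hc' hne (Relation.EqvGen.trans _ _ _ (Relation.EqvGen.trans _ _ _ h.hv h1)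
    (Relation.EqvGen.symm _ _ h'.hv))

theorem tt_link (hρ : 256 * ρ ≤ R) (hρ1 : 1 ≤ ρ) {c d : ℕ} (hd : d < 3) {v p : Vtx}
    (h : TT R ρ G c d v p) : RZ {0} (bxz R) G (fp p) (fp (kl 1 R p)) := by
  obtain ⟨s, hs1, hs2⟩ := h.sd
  have h1 := adj_side (R := R) (ρ := ρ) (by omega) (by omega) hs1 hs2 h.op h.aj
  refine outer_link h.op (by omega) h1.2.2.2.1 (Relation.EqvGen.symm _ _ h.hp) ?_
  intro h2
  have h3 := h.op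
  unfold OutB at h3
  unfold scz fp at h2
  rw [Prod.mk.injEq] at h2
  omega

theorem far1 (hρ : 256 * ρ ≤ R) (hr : 1 ≤ r) (hrρ : 64 * r ≤ ρ)
    (hB : ¬ ∃ (d : Dir) (i : ℤ), |(r : ℤ) * i| + 2 * ρ + 8 ≤ R ∧
      H4 d (cR 1 d R (r * i)).1 (cR 1 d R (r * i)).2 (8 * r) ρ (Gc 1 G))
    (hS : ∀ c d : ℕ, c < 3 → d < 3 → c ≠ d → ¬ RZ {0} (bxz R) G (scz 0 0 c) (scz 0 0 d))
    {c d c' d' : ℕ} {v p v' p' : Vtx} (hd : d < 3) (hd' : d' < 3) (hne : d ≠ d')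
    (h : TT R ρ G c d v p) (h' : TT R ρ G c' d' v' p') :
    ¬ (|p.1 - p'.1| ≤ r + 1 ∧ |p.2 - p'.2| ≤ r + 1) := by
  rintro ⟨ha, hb⟩
  have hl := tt_link hρ (by omega) hd h
  have hl' := tt_link hρ (by omega) hd' h'
  obtain ⟨s, hs1, hs2⟩ := h.sd
  have h1 := adj_side (R := R) (ρ := ρ) (by omega) (by omega) hs1 hs2 h.op h.aj
  obtain ⟨s', hs1', hs2'⟩ := h'.sd
  have h1' := adj_side (R := R) (ρ := ρ) (by omega) (by omega) hs1' hs2' h'.op h'.aj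
  have k1 := h1.2.2.2.2.1
  have k1' := h1'.2.2.2.2.1
  have hu : RZ {0} (bxz R) G (scz 0 0 d) (fp (kl 1 R p)) := Relation.EqvGen.trans _ _ _ h.hp hl
  have hu' : RZ {0} (bxz R) G (scz 0 0 d') (fp (kl 1 R p')) :=
    Relation.EqvGen.trans _ _ _ h'.hp hl'
  refine far_z (c := 1) (Or.inr rfl) hr hrρ (by omega) hB h1.1 h1.2.1 (by have := h1.2.2.1; omega)
    h1'.1 (y := scz 0 0 d) (y' := scz 0 0 d')
    (by rw [pc_one]; exact Relation.EqvGen.symm _ _ hu) (tip_scz hd)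
    (by rw [pc_one]; exact Relation.EqvGen.symm _ _ hu') (tip_scz hd') ?_ ?_
  · rw [pc_one, pc_one]
    intro h2
    exact hS d d' hd hd' hne (Relation.EqvGen.trans _ _ _ (Relation.EqvGen.trans _ _ _ hu h2)
      (Relation.EqvGen.symm _ _ hu'))
  · simp only [abs_le] at k1 k1' ha hb ⊢
    omega

end

/-- the three touching pairs give the landing event -/
theorem main_z {N r ρ : ℕ} {G : Set Edg} (hr : 1 ≤ r) (hrρ : 64 * r ≤ ρ)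
    (hρ : 256 * ρ ≤ N * r)
    (hB0 : ¬ ∃ (d : Dir) (i : ℤ), |(r : ℤ) * i| + 2 * ρ + 8 ≤ (N * r : ℕ) ∧
      H4 d (cR 0 d (N * r : ℕ) (r * i)).1 (cR 0 d (N * r : ℕ) (r * i)).2 (8 * r) ρ (Gc 0 G))
    (hB1 : ¬ ∃ (d : Dir) (i : ℤ), |(r : ℤ) * i| + 2 * ρ + 8 ≤ (N * r : ℕ) ∧
      H4 d (cR 1 d (N * r : ℕ) (r * i)).1 (cR 1 d (N * r : ℕ) (r * i)).2 (8 * r) ρ (Gc 1 G))
    (hS : ∀ c d : ℕ, c < 3 → d < 3 → c ≠ d →
      ¬ RZ {0} (bxz (N * r : ℕ)) G (scz 0 0 c) (scz 0 0 d))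
    {Z V W : ℕ} (hZ : Z < 3) (hV : V < 3) (hW : W < 3) (hZV : Z ≠ V) (hZW : Z ≠ W) (hVW : V ≠ W)
    {vα pα vβ pβ vγ pγ : Vtx} (hα : TT (N * r) ρ G Z V vα pα) (hβ : TT (N * r) ρ G Z W vβ pβ)
    (hγ : TT (N * r) ρ G V W vγ pγ) : ∃ C, AdmZ N C ∧ LandZ N r C G := by
  obtain ⟨s, hs1, hs2⟩ := hβ.sd
  have hr0 : (0 : ℤ) < r := by exact_mod_cast hr
  have hin : inSq r (csq N (cl s (tc s vβ / r))) vβ := inSq_cl hr (onc_iff.1 hs1)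
  have hpush : ((N * r : ℕ) : ℤ) = N * r := by push_cast; ring
  refine ⟨cl s (tc s vβ / r), ?_, Z, V, W, hZ, hV, hW, hZV, hZW, hVW,
    ⟨vβ, hin, hβ.nv, hβ.hv⟩, ⟨pα, ⟨?_, ?_⟩, hα.hp⟩, ⟨pγ, ⟨?_, ?_⟩, hγ.hp⟩⟩
  · obtain ⟨h1, h2⟩ := cl_lt s (tc s vβ / r)
    have h3 := abs_lt.1 (show |tc s vβ| < ((N * r : ℕ) : ℤ) - 4 * ρ by omega)
    push_cast at h3
    have h4' : (64 * r : ℤ) ≤ ρ := by exact_mod_cast hrρ
    refine ⟨h1, ?_, ?_⟩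
    · rw [h2, Int.le_ediv_iff_mul_le hr0]
      linarith [h3.1]
    · rw [h2]
      have h5 : tc s vβ / r < N - 6 := by
        rw [Int.ediv_lt_iff_lt_mul hr0]
        linarith [h3.2]
      omega
  · obtain ⟨t, ht1, ht2⟩ := hα.sd
    have h1 := (adj_side (R := (N * r : ℕ)) (ρ := ρ) (by omega) (by omega) ht1 ht2 hα.op
      hα.aj).2.2.2.2.2
    rw [hpush] at h1
    omega
  · intro h
    refine far1 hρ hr hrρ hB1 hS hW hV (Ne.symm hVW) hβ hα ?_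
    have h1 := hβ.aj
    unfold Aj at h1
    unfold inSq at hin
    rw [abs_le, abs_le]
    omega
  · obtain ⟨t, ht1, ht2⟩ := hγ.sd
    have h1 := (adj_side (R := (N * r : ℕ)) (ρ := ρ) (by omega) (by omega) ht1 ht2 hγ.op
      hγ.aj).2.2.2.2.2
    rw [hpush] at h1
    omega
  · intro h
    refine far0 hρ hr hrρ hB0 hS hZ hV hZV hβ hγ ?_
    have h1 := hγ.aj
    unfold Aj at h1
    unfold inSq at hin
    rw [abs_le, abs_le]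
    omega

theorem det_z (hADJ : S_ADJ) (hNC : S_NC) {N r ρ : ℕ} {G : Set Edg} (hr : 1 ≤ r)
    (hrρ : 64 * r ≤ ρ) (hρ : 256 * ρ ≤ N * r) (hB : ¬ BadZ r ρ (N * r) G)
    (hS : SE3 (N * r : ℕ) G) : ∃ C, AdmZ N C ∧ LandZ N r C G := by
  obtain ⟨hS1, -⟩ := hS
  have hρ1 : 1 ≤ ρ := by omega
  have hC := fun h => hB (Or.inl h)
  have hZ := fun h => hB (Or.inr (Or.inl h))
  have hB0 : ¬ ∃ (d : Dir) (i : ℤ), |(r : ℤ) * i| + 2 * ρ + 8 ≤ (N * r : ℕ) ∧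
      H4 d (cR 0 d (N * r : ℕ) (r * i)).1 (cR 0 d (N * r : ℕ) (r * i)).2 (8 * r) ρ (Gc 0 G) := by
    rintro ⟨d, i, h1, h2⟩
    exact hB (Or.inr (Or.inr (Or.inl ⟨d, i, h1, h4_gt (Or.inl rfl) h1 (by omega) h2⟩)))
  have hB1 : ¬ ∃ (d : Dir) (i : ℤ), |(r : ℤ) * i| + 2 * ρ + 8 ≤ (N * r : ℕ) ∧
      H4 d (cR 1 d (N * r : ℕ) (r * i)).1 (cR 1 d (N * r : ℕ) (r * i)).2 (8 * r) ρ (Gc 1 G) := by
    rintro ⟨d, i, h1, h2⟩
    exact hB (Or.inr (Or.inr (Or.inr ⟨d, i, h1, h4_gt (Or.inr rfl) h1 (by omega) h2⟩)))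
  have hT : ∀ c d : ℕ, c < 3 → d < 3 → c ≠ d →
      ∃ v p, TT (N * r) ρ G c d v p ∨ TT (N * r) ρ G d c v p := by
    intro c d hc hd hcd
    obtain ⟨x, y, e, e', he, he', hx, hy, h1, h2⟩ := hADJ (N * r) G (by omega) hS1 c d hc hd hcd
    have h3 := zfar hρ hρ1 hZ (Relation.EqvGen.symm _ _ hx) (tip_scz hc)
    rcases touch (by omega) he he' h1 h2 (by
      rintro ⟨h4, h5⟩
      exact h3 ⟨by omega, by omega⟩) with h4 | h4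
    · obtain ⟨v, p, h5⟩ := tt_of hρ hρ1 hC hZ hc he hx hy h4
      exact ⟨v, p, Or.inl h5⟩
    · obtain ⟨v, p, h5⟩ := tt_of hρ hρ1 hC hZ hd he hy hx h4
      exact ⟨v, p, Or.inr h5⟩
  obtain ⟨Z, hZ3, hZn⟩ := hNC (N * r) G (by omega)
  have hZd : ∀ d : ℕ, d < 3 → Z ≠ d → ∃ v p, TT (N * r) ρ G Z d v p := by
    intro d hd hne
    obtain ⟨v, p, h1 | h1⟩ := hT Z d hZ3 hd hne
    · exact ⟨v, p, h1⟩
    · obtain ⟨e, he1, he2⟩ := h1.te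
      exact absurd h1.hp (hZn _ e he1 he2)
  obtain ⟨a, b, ha, hb, hZa, hZb, hab⟩ : ∃ a b : ℕ, a < 3 ∧ b < 3 ∧ Z ≠ a ∧ Z ≠ b ∧ a ≠ b := by
    interval_cases Z
    · exact ⟨1, 2, by norm_num, by norm_num, by norm_num, by norm_num, by norm_num⟩
    · exact ⟨0, 2, by norm_num, by norm_num, by norm_num, by norm_num, by norm_num⟩
    · exact ⟨0, 1, by norm_num, by norm_num, by norm_num, by norm_num, by norm_num⟩
  obtain ⟨va, pa, hva⟩ := hZd a ha hZa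
  obtain ⟨vb, pb, hvb⟩ := hZd b hb hZb
  obtain ⟨v, p, h1 | h1⟩ := hT a b ha hb hab
  · exact main_z hr hrρ hρ hB0 hB1 hS1 hZ3 ha hb hZa hZb hab hva hvb h1
  · exact main_z hr hrρ hρ hB0 hB1 hS1 hZ3 hb ha hZb hZa (Ne.symm hab) hvb hva h1

/-! ### monotonicity and locality -/

theorem bxz_mono {R R' : ℤ} (h : R ≤ R') : bxz R ⊆ bxz R' :=
  fun _ he => ⟨he.1.trans h, he.2.trans h⟩

theorem se3_mono {R R' : ℤ} (hR : R ≤ R') {G : Set Edg} (h : SE3 R' G) : SE3 R G := by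
  refine ⟨fun c d hc hd hcd hr => h.1 c d hc hd hcd (rz_mono (bxz_mono hR) hr), fun c hc => ?_⟩
  obtain ⟨x, hx, e, he, hxe⟩ := h.2 c hc
  by_contra hA
  have hA' : ∀ y : ℤ × ℤ, RZ {0} (bxz R) G (scz 0 0 c) y → ∀ e : Edg, e ∉ bxz R →
      ¬ (Cor {0} 0 e y ∨ Cor {0} 1 e y) := fun y hy e he h1 => hA ⟨y, hy, e, he, h1⟩
  have key : ∀ a b : ℤ × ℤ, LZ {0} (bxz R') G a b → (RZ {0} (bxz R) G (scz 0 0 c) a ↔
      RZ {0} (bxz R) G (scz 0 0 c) b) := by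
    rintro a b ⟨g, hg1, hg2, hg3⟩
    by_cases hgR : g ∈ bxz R
    · have hl : RZ {0} (bxz R) G a b := Relation.EqvGen.rel _ _ ⟨g, hgR, hg2, hg3⟩
      exact ⟨fun h1 => Relation.EqvGen.trans _ _ _ h1 hl,
        fun h1 => Relation.EqvGen.trans _ _ _ h1 (Relation.EqvGen.symm _ _ hl)⟩
    · have hca : Cor {0} 0 g a ∨ Cor {0} 1 g a := by
        rcases hg3 with ⟨-, h1⟩ | ⟨-, h1⟩
        · exact Or.inl ⟨hg2, b, Or.inl h1⟩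
        · exact Or.inr ⟨hg2, b, Or.inl h1⟩
      have hcb : Cor {0} 0 g b ∨ Cor {0} 1 g b := by
        rcases hg3 with ⟨-, h1⟩ | ⟨-, h1⟩
        · exact Or.inl ⟨hg2, a, Or.inr h1⟩
        · exact Or.inr ⟨hg2, a, Or.inr h1⟩
      exact ⟨fun h1 => absurd hca (hA' a h1 g hgR), fun h1 => absurd hcb (hA' b h1 g hgR)⟩
  have h1 := (eqv_iff _ key hx).1 (Relation.EqvGen.refl _)
  exact hA' x h1 e (fun h2 => he (bxz_mono hR h2)) hxe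

theorem lz_congr {Z : Set ℤ} {B G G' : Set Edg} (h : ∀ e ∈ B, (e ∈ G ↔ e ∈ G')) {x y : ℤ × ℤ}
    (hl : LZ Z B G x y) : LZ Z B G' x y := by
  obtain ⟨e, h1, h2, h3⟩ := hl
  refine ⟨e, h1, h2, ?_⟩
  have := h e h1
  tauto

theorem rz_congr {Z : Set ℤ} {B G G' : Set Edg} (h : ∀ e ∈ B, (e ∈ G ↔ e ∈ G')) {x y : ℤ × ℤ} :
    RZ Z B G x y ↔ RZ Z B G' x y :=
  ⟨eqv_mono fun _ _ => lz_congr h, eqv_mono fun _ _ => lz_congr fun e he => (h e he).symm⟩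

theorem se3_local {R : ℕ} (F : Finset Edg) :
    SE3 (R : ℤ) (↑F : Set Edg) ↔ SE3 (R : ℤ) (↑(F ∩ boxE R) : Set Edg) := by
  have h : ∀ e ∈ bxz (R : ℤ), (e ∈ (↑F : Set Edg) ↔ e ∈ (↑(F ∩ boxE R) : Set Edg)) := by
    intro e he
    rw [Finset.mem_coe, Finset.mem_coe, Finset.mem_inter]
    exact ⟨fun h1 => ⟨h1, mem_box_iff.2 he⟩, fun h1 => h1.1⟩
  have h2 : ∀ x y : ℤ × ℤ, RZ {0} (bxz (R : ℤ)) (↑F : Set Edg) x y ↔
      RZ {0} (bxz (R : ℤ)) (↑(F ∩ boxE R) : Set Edg) x y := fun x y => rz_congr h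
  unfold SE3
  simp only [h2]

theorem bad_local {r ρ R : ℕ} (hR : 64 ≤ R) {G G' : Set Edg}
    (h : ∀ e : Edg, e ∈ boxE R → e ∉ boxE (R / 2) → (e ∈ G ↔ e ∈ G')) :
    BadZ r ρ R G ↔ BadZ r ρ R G' := by
  have h1 : ∀ c : ℤ, Gt c R G = Gt c R G' := by
    intro c
    ext e
    unfold Gt
    constructor
    · rintro ⟨h2, h3, h4⟩
      exact ⟨mem_Gc.2 ((h _ h3 h4).symm.trans (mem_Gc.1 h2)), h3, h4⟩
    · rintro ⟨h2, h3, h4⟩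
      exact ⟨mem_Gc.2 ((h _ h3 h4).trans (mem_Gc.1 h2)), h3, h4⟩
  have h2 : ∀ x y : ℤ × ℤ, RZ {0} (ZB R) G x y ↔ RZ {0} (ZB R) G' x y := by
    intro x y
    apply rz_congr
    rintro e ⟨he1, he2, he3⟩
    refine h e (mem_box_iff.2 he1) (not_half (b := (R : ℤ) - 2 * (R / 8 : ℕ) - 2) ?_ (by omega))
    rw [abs_le] at he2 he3
    have h5 := neg_abs_le e.1
    have h6 := le_abs_self e.2.1
    obtain ⟨p, q, _ | _⟩ := e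
    · rw [dco_f] at he3
      dsimp only at he2 h5 h6 ⊢
      omega
    · rw [dco_t] at he3
      dsimp only at he2 h5 h6 ⊢
      omega
  unfold BadZ ZCr
  simp only [h1, h2]

end TLAND

end Pool.Agent.W808.KZ
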