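import Pool.Agent.W808.KZ.T_LAND4
import Pool.Agent.H160R2.MU.T_BADP1

/-! LAND, part 5: probabilities (helper352). -/

set_option autoImplicit false

namespace Pool.Agent.W808.KZ
open H974 H906.Cyl
open H12S (Dir hbE segD rimE H4 Crs Nr sqE)
open Pool.Agent.H160R2.ML (nm)
open Pool.Agent.H160R2.MU (Cel csq cpos prd shf BxS Bxs EP inSq PC Bad Cc)
open Pool.Agent.W801.OU

namespace TLAND
open Pool.Agent.H160R2.MU.TLAND (nm_le nm_eq tc sg ok2 pr_false)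
open H12S (Win win_half H4_bound win_arm_of win_blk)
open H12S.EP2 (pr_biUnion choose_M)

theorem transport {c : ℤ} (hc : c = 0 ∨ c = 1) {R : ℕ} {T : Finset Edg}
    (hT : ∀ e ∈ T, sh c e ∈ boxE R) (A : Set Edg → Prop) :
    Pr (fun _ => (1 / 2 : ℝ)) (boxE R) (fun F => A (Gc c (↑F : Set Edg) ∩ ↑T)) =
      Pr (fun _ => (1 / 2 : ℝ)) T (fun F => A ↑F) := by
  classical
  have hsub : T.image (sh c) ⊆ boxE R := by
    intro x hx
    obtain ⟨e, he, rfl⟩ := Finset.mem_image.1 hx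
    exact hT e he
  have hinj : Set.InjOn (sh c) (↑T : Set Edg) := fun e _ e' _ h => sh_inj h
  have hmap := Pool.Agent.H160R2.MU.TBADP.Pr_map (q := 1 / 2) hinj hsub (fun F => A ↑F)
  rw [← hmap]
  rcases hc with rfl | rfl
  · apply Pr_congr
    intro F _
    have : Gc 0 (↑F : Set Edg) ∩ ↑T = (↑(T.filter (fun e => sh 0 e ∈ F)) : Set Edg) := by
      ext e
      rw [Set.mem_inter_iff, mem_Gc, Finset.mem_coe, Finset.mem_coe, Finset.mem_coe,
        Finset.mem_filter]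
      simp only [iff_true]
      tauto
    rw [this]
  · have h2 := Pr_compl (fun _ => (1 / 2 : ℝ)) (boxE R)
      (fun F => A ↑(T.filter (fun e => sh 1 e ∈ F)))
    have h3 : (fun _ : Edg => 1 - (1 / 2 : ℝ)) = (fun _ => (1 / 2 : ℝ)) := by
      funext _; norm_num
    rw [h3] at h2
    rw [h2]
    apply Pr_congr
    intro F _
    have : Gc 1 (↑F : Set Edg) ∩ ↑T =
        (↑(T.filter (fun e => sh 1 e ∈ boxE R \ F)) : Set Edg) := by
      ext e
      rw [Set.mem_inter_iff, mem_Gc, Finset.mem_coe, Finset.mem_coe, Finset.mem_coe,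
        Finset.mem_filter, Finset.mem_sdiff]
      constructor
      · rintro ⟨h4, h5⟩
        refine ⟨h5, hT e h5, fun h6 => ?_⟩
        have := h4.1 h6
        norm_num at this
      · rintro ⟨h5, h6, h7⟩
        exact ⟨⟨fun h8 => absurd h8 h7, fun h8 => by norm_num at h8⟩, h5⟩
    rw [this]

theorem h4_sumz {c : ℤ} (hc : c = 0 ∨ c = 1) {C α : ℝ} (hC : 0 < C) {κ : ℝ}
    (hw : ∀ n, Win (1 / 2) κ n)
    (hH4 : ∀ (q : ℝ) (n : ℕ), Win q κ n → ∀ r ρ : ℕ, 1 ≤ r → r ≤ ρ → ρ ≤ n →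
      ∀ (d : Dir) (x0 y0 : ℤ) (S : Finset Edg), hbE d x0 y0 ρ ⊆ S →
      Pr (fun _ => q) S (fun F => H4 d x0 y0 r ρ ↑F) ≤ C * ((r : ℝ) / ρ) ^ (1 + α))
    {s K m R : ℕ} (hs : 1 ≤ s) (hR : R ≤ K * s) (hm : 8 ≤ m) (hmR : 64 * (m * s) ≤ R) :
    Pr (fun _ => (1 / 2 : ℝ)) (boxE R) (fun F => ∃ (d : Dir) (i : ℤ),
      |(s : ℤ) * i| + 2 * (m * s : ℕ) + 8 ≤ R ∧
      H4 d (cR c d R (s * i)).1 (cR c d R (s * i)).2 (8 * s) (m * s) (Gt c R (↑F : Set Edg))) ≤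
      (8 * K + 4) * (C * (8 / m) ^ (1 + α)) := by
  let T : Finset (Dir × ℤ) := (Finset.univ : Finset Dir) ×ˢ Finset.Icc (-(K : ℤ)) K
  let B : Dir × ℤ → Finset Edg → Prop := fun p F => |(s : ℤ) * p.2| + 2 * (m * s : ℕ) + 8 ≤ R ∧
    H4 p.1 (cR c p.1 R (s * p.2)).1 (cR c p.1 R (s * p.2)).2 (8 * s) (m * s)
      (Gt c R (↑F : Set Edg))
  have hcover : Pr (fun _ => (1 / 2 : ℝ)) (boxE R) (fun F => ∃ (d : Dir) (i : ℤ),
      |(s : ℤ) * i| + 2 * (m * s : ℕ) + 8 ≤ R ∧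
      H4 d (cR c d R (s * i)).1 (cR c d R (s * i)).2 (8 * s) (m * s) (Gt c R (↑F : Set Edg))) ≤
      Pr (fun _ => (1 / 2 : ℝ)) (boxE R) (fun F => ∃ p ∈ T, B p F) := by
    refine Pr_mono ok2 fun F _ hF => ?_
    obtain ⟨d, i, h1, h2⟩ := hF
    refine ⟨(d, i), ?_, h1, h2⟩
    have hR' : (R : ℤ) ≤ K * s := by exact_mod_cast hR
    have h3 : |i| ≤ K := H12S.FP2.abs_bound hs (by omega)
    rw [abs_le] at h3
    simp only [T, Finset.mem_product, Finset.mem_univ, Finset.mem_Icc, true_and]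
    exact h3
  have hB : ∀ p ∈ T, Pr (fun _ => (1 / 2 : ℝ)) (boxE R) (B p) ≤ C * (8 / m) ^ (1 + α) := by
    intro p _
    by_cases hp : |(s : ℤ) * p.2| + 2 * (m * s : ℕ) + 8 ≤ R
    · have hms : 8 * s ≤ m * s := Nat.mul_le_mul_right s hm
      set Hb := hbE p.1 (cR c p.1 R (s * p.2)).1 (cR c p.1 R (s * p.2)).2 (m * s) with hHb
      have hT : ∀ e ∈ Hb, sh c e ∈ boxE R := fun e he => mem_box_iff.2 (hb_ends hc hp he).2.1
      have h1 : Pr (fun _ => (1 / 2 : ℝ)) (boxE R) (B p) ≤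
          Pr (fun _ => (1 / 2 : ℝ)) (boxE R) (fun F =>
            H4 p.1 (cR c p.1 R (s * p.2)).1 (cR c p.1 R (s * p.2)).2 (8 * s) (m * s)
              (Gc c (↑F : Set Edg) ∩ ↑Hb)) := by
        refine Pr_mono ok2 fun F _ hF => ?_
        have h2 := hF.2
        have hset : (Gc c (↑F : Set Edg) ∩ ↑Hb) ∩ ↑Hb = Gt c R (↑F : Set Edg) ∩ ↑Hb := by
          ext e
          constructor
          · rintro ⟨⟨h3, h4⟩, -⟩
            have h5 := hb_ends hc hp (Finset.mem_coe.1 h4)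
            exact ⟨⟨h3, mem_box_iff.2 h5.2.1, not_half h5.2.2.2 (by omega)⟩, h4⟩
          · rintro ⟨⟨h3, -⟩, h4⟩
            exact ⟨⟨h3, h4⟩, h4⟩
        unfold H4 H12S.H3g at h2 ⊢
        rw [← hHb] at h2 ⊢
        rw [hset]
        exact h2
      refine h1.trans ?_
      rw [transport hc hT (fun E => H4 p.1 (cR c p.1 R (s * p.2)).1 (cR c p.1 R (s * p.2)).2
        (8 * s) (m * s) E)]
      refine (hH4 (1 / 2) (m * s) (hw _) (8 * s) (m * s) (by omega) hms le_rfl p.1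
          _ _ _ (Finset.Subset.refl _)).trans_eq ?_
      have hs' : (0 : ℝ) < s := by exact_mod_cast hs
      have hm' : (0 : ℝ) < m := by exact_mod_cast (by omega : 0 < m)
      congr 2
      push_cast
      field_simp
    · rw [pr_false (boxE R) (A := B p) fun F h => hp h.1]
      positivity
  have hT : (T.card : ℝ) = 8 * K + 4 := by
    have e1 : (Finset.Icc (-(K : ℤ)) K).card = 2 * K + 1 := by
      rw [Int.card_Icc]
      omega
    have e3 : (Finset.univ : Finset Dir).card = 4 := rfl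
    have e4 : T.card = 4 * (2 * K + 1) := by
      simp only [T, Finset.card_product, e1, e3]
    rw [e4]
    push_cast
    ring
  refine hcover.trans ((pr_biUnion (by norm_num) (by norm_num) (boxE R) T B).trans
    ((Finset.sum_le_sum hB).trans ?_))
  rw [Finset.sum_const, nsmul_eq_mul, hT]

theorem probz (hZC : S_ZC) (δ : ℝ) (hδ : 0 < δ) : ∃ N B : ℕ, 16 ≤ N ∧ 64 ≤ B ∧
    256 * B ≤ N ∧ ∀ r : ℕ, 1 ≤ r →
    Pr (fun _ => (1 / 2 : ℝ)) (boxE (N * r))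
      (fun F => BadZ r (B * r) (N * r) (↑F : Set Edg)) ≤ δ := by
  obtain ⟨κ, hκ, hw⟩ := win_half
  obtain ⟨C1, c1, hC1, hc1, harm⟩ := win_arm_of
    (by intro q κ n h m hm hmn c1 c2 S; exact win_blk h hm hmn c1 c2 S) κ hκ
  obtain ⟨C2, c2, hC2, hc2, hH4⟩ := H4_bound κ hκ
  have hδ4 : 0 < δ / 4 := by positivity
  obtain ⟨K, hK, hZ⟩ := hZC (δ / 4) hδ4
  obtain ⟨M1, hM1, hM1'⟩ := choose_M 1 0 C1 4 (by positivity) le_rfl hC1.le (by norm_num) hc1
    hδ4 (16 * K + 64)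
  obtain ⟨B, hB, hB'⟩ := choose_M (8 * (8 * M1)) 4 C2 8 (by positivity) (by positivity) hC2.le
    (by norm_num) hc2 hδ4 64
  have e1 : 64 * B ≤ M1 * B := Nat.mul_le_mul_right B (by omega)
  have e2 : (16 * K) * B ≤ M1 * B := Nat.mul_le_mul_right B (by omega)
  refine ⟨8 * (M1 * B), B, by omega, hB, by omega, ?_⟩
  intro r hr
  set N := 8 * (M1 * B) with hN
  have hR8 : N * r / 8 = M1 * (B * r) := by
    rw [hN, show 8 * (M1 * B) * r = 8 * (M1 * (B * r)) by ring]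
    omega
  have hρ1 : 1 ≤ B * r := Nat.mul_pos (by omega) (by omega)
  have e3 : 64 * (B * r) ≤ M1 * (B * r) := Nat.mul_le_mul_right _ (by omega)
  have hNr : N * r = 8 * (M1 * (B * r)) := by rw [hN]; ring
  -- corners
  have s1 : Pr (fun _ => (1 / 2 : ℝ)) (boxE (N * r)) (fun F => ∃ s1 s2 : Bool,
      Crs (sg s1 (N * r : ℕ)) (sg s2 (N * r : ℕ)) (4 * (B * r)) (N * r / 8)
        (Gt 0 (N * r) (↑F : Set Edg))) ≤ δ / 4 := by
    have h1 : Pr (fun _ => (1 / 2 : ℝ)) (boxE (N * r)) (fun F => ∃ s1 s2 : Bool,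
        Crs (sg s1 (N * r : ℕ)) (sg s2 (N * r : ℕ)) (4 * (B * r)) (N * r / 8)
        (Gt 0 (N * r) (↑F : Set Edg))) ≤ Pr (fun _ => (1 / 2 : ℝ)) (boxE (N * r)) (fun F =>
          ∃ p ∈ (Finset.univ : Finset (Bool × Bool)),
          Crs (sg p.1 (N * r : ℕ)) (sg p.2 (N * r : ℕ)) (4 * (B * r)) (N * r / 8)
            (↑F : Set Edg)) := by
      refine Pr_mono ok2 fun F _ hF => ?_
      obtain ⟨a, b, x, y, h1, h2, h3⟩ := hF
      refine ⟨(a, b), Finset.mem_univ _, x, y, h1, h2, h3.mono ?_⟩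
      rintro e ⟨h4, -⟩
      have h5 := (mem_Gc.1 h4).2 rfl
      rw [sh0] at h5
      exact h5
    refine h1.trans ((pr_biUnion (by norm_num) (by norm_num) _ _ _).trans ?_)
    have h2 : ∀ p ∈ (Finset.univ : Finset (Bool × Bool)), Pr (fun _ => (1 / 2 : ℝ)) (boxE (N * r))
        (fun F => Crs (sg p.1 (N * r : ℕ)) (sg p.2 (N * r : ℕ)) (4 * (B * r))
          (N * r / 8) (↑F : Set Edg)) ≤ C1 * (4 / (M1 : ℝ)) ^ c1 := by
      intro p _
      refine ((harm (1 / 2) (N * r / 8) (hw _) (4 * (B * r)) (N * r / 8) (by omega) ?_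
        le_rfl (sg p.1 (N * r : ℕ)) (sg p.2 (N * r : ℕ)) (boxE (N * r))).1).trans_eq ?_
      · rw [hR8]
        omega
      · rw [hR8]
        have hp' : (0 : ℝ) < (B * r : ℕ) := by exact_mod_cast hρ1
        have hm' : (0 : ℝ) < M1 := by exact_mod_cast (by omega : 0 < M1)
        congr 2
        rw [Nat.cast_mul 4, Nat.cast_mul M1]
        generalize ((B * r : ℕ) : ℝ) = t at hp'
        field_simp
        norm_num
    refine (Finset.sum_le_sum h2).trans ?_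
    rw [Finset.sum_const, nsmul_eq_mul]
    refine le_trans (le_of_eq ?_) hM1'
    have hm' : (0 : ℝ) < M1 := by exact_mod_cast (by omega : 0 < M1)
    have hcard : ((Finset.univ : Finset (Bool × Bool)).card : ℝ) = 4 := by norm_num
    rw [hcard, Real.rpow_add (by positivity), Real.rpow_one]
    field_simp
    ring
  -- the zipper
  have s0 : Pr (fun _ => (1 / 2 : ℝ)) (boxE (N * r)) (fun F =>
      ZCr {0} (ZB (N * r)) (↑F : Set Edg) (-(2 * (N * r : ℕ) : ℤ)) (16 * (B * r) : ℕ)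
        (N * r / 8 : ℕ)) ≤ δ / 4 := by
    refine hZ (16 * (B * r)) (N * r / 8) (-(2 * (N * r : ℕ) : ℤ)) (by omega) ?_ (by omega)
      (boxE (N * r)) (ZB (N * r)) (fun e he => mem_box_iff.2 he.1) (fun e he => he.2)
    rw [hR8]
    calc K * (16 * (B * r)) = (16 * K) * (B * r) := by ring
      _ ≤ M1 * (B * r) := Nat.mul_le_mul_right _ (by omega)
  have s2 := h4_sumz (c := 0) (Or.inl rfl) hC2 hw hH4 (s := r) (K := N) (m := B) (R := N * r)
    hr le_rfl (by omega) (by omega)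
  have s3 := h4_sumz (c := 1) (Or.inr rfl) hC2 hw hH4 (s := r) (K := N) (m := B) (R := N * r)
    hr le_rfl (by omega) (by omega)
  have s2' : (8 * ((N : ℕ) : ℝ) + 4) * (C2 * (8 / (B : ℝ)) ^ (1 + c2)) ≤ δ / 4 := by
    refine le_trans (le_of_eq ?_) hB'
    rw [hN]
    push_cast
    ring
  unfold BadZ
  refine (Pr_or_le ok2 _ _ _).trans ?_
  have t1 := Pr_or_le ok2 (boxE (N * r)) (fun F =>
      ZCr {0} (ZB (N * r)) (↑F : Set Edg) (-(2 * (N * r : ℕ) : ℤ)) (16 * (B * r) : ℕ)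
        (N * r / 8 : ℕ)) (fun F => (∃ (d : Dir) (i : ℤ),
      |(r : ℤ) * i| + 2 * (B * r : ℕ) + 8 ≤ (N * r : ℕ) ∧
      H4 d (cR 0 d (N * r : ℕ) (r * i)).1 (cR 0 d (N * r : ℕ) (r * i)).2 (8 * r) (B * r)
        (Gt 0 (N * r) (↑F : Set Edg))) ∨ (∃ (d : Dir) (i : ℤ),
      |(r : ℤ) * i| + 2 * (B * r : ℕ) + 8 ≤ (N * r : ℕ) ∧
      H4 d (cR 1 d (N * r : ℕ) (r * i)).1 (cR 1 d (N * r : ℕ) (r * i)).2 (8 * r) (B * r)
        (Gt 1 (N * r) (↑F : Set Edg))))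
  have t2 := Pr_or_le ok2 (boxE (N * r)) (fun F => ∃ (d : Dir) (i : ℤ),
      |(r : ℤ) * i| + 2 * (B * r : ℕ) + 8 ≤ (N * r : ℕ) ∧
      H4 d (cR 0 d (N * r : ℕ) (r * i)).1 (cR 0 d (N * r : ℕ) (r * i)).2 (8 * r) (B * r)
        (Gt 0 (N * r) (↑F : Set Edg))) (fun F => ∃ (d : Dir) (i : ℤ),
      |(r : ℤ) * i| + 2 * (B * r : ℕ) + 8 ≤ (N * r : ℕ) ∧
      H4 d (cR 1 d (N * r : ℕ) (r * i)).1 (cR 1 d (N * r : ℕ) (r * i)).2 (8 * r) (B * r)
        (Gt 1 (N * r) (↑F : Set Edg)))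
  linarith

end TLAND

end Pool.Agent.W808.KZ
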