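import Pool.Agent.W808.KZ.T_STA

/-!
# Upper bound for the three arm event of the dislocated plane: re-randomising the outside (step B)
-/

set_option autoImplicit false

namespace Pool.Agent.W808.KZ
open H974 H906.Cyl
open H12S (Dir hbE segD rimE H4 Crs Nr sqE)
open Pool.Agent.H160R2.ML (nm)
open Pool.Agent.H160R2.MU (Cel csq cpos prd shf BxS Bxs EP inSq PC Bad Cc)
open Pool.Agent.W808.HU (PTr)
open Pool.Agent.W801.OU

/-- **step B** -/
theorem t_STB : Pool.Agent.H160R2.MU.S_PRB → S_MB → S_EXB → Pool.Agent.W808.HU.S_TRP → S_BADZ →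
    S_DEC → S_IND → S_STB := by
  intro hPRB hMB hEXB hTRP hBADZ hDEC hIND N C hN hC δ hδ
  obtain ⟨M3, M4, hM3, hM4, hB⟩ := hBADZ N hN δ hδ
  have hprd : prd N N = 20 * N := by unfold prd; ring
  obtain ⟨κ, hκ, r0, hT⟩ := hTRP (prd N N) M4 (by omega) (by omega)
  refine ⟨1 / κ, by positivity, max r0 M4, ?_⟩
  intro r hr n M hn hM
  have hr1 : r0 ≤ r := le_trans (le_max_left _ _) hr
  have hr2 : M4 ≤ r := le_trans (le_max_right _ _) hr
  obtain ⟨hl, hlρ, hρ, hrb⟩ := TSTA.radii hM3 hM4 hr2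
  have htrap : κ ≤ PC n M (PTr 0 n M (r / M4)) := by
    have h1 := hT 0 r (by norm_num) hr1
    rw [← hn, ← hM] at h1
    exact h1
  refine TSTA.comb hPRB n M (ExB N r C n M)
    (fun F => EZ N r C n (per n (FB N r C n M F)))
    (fun F => Bad 0 N r (r / M3) (r / M4) (prd N N) n M F ∨ BZ N r (r / M3) n F)
    (PTr 0 n M (r / M4))
    (fun F => One n M (per n F)) κ _ hκ ?_ ?_ ?_ htrap
  · exact TSTA.badp hDEC hIND (by norm_num) hN hl hlρ hρ hn hM
      (hB 0 r (by norm_num) hr2 n M hn hM) _ (FB N r C n M) (fun F _ h => h.1)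
      (fun F _ => TSTA.FB_sub) (fun F hF => TSTA.FB_box (by omega) (by omega) hn hF)
  · intro F G hF hG
    exact hEXB N r C hN (by omega) hC n M hn hM F G hF hG
  · intro F G hF hG h1 h2 h3
    exact hMB N r (r / M3) (r / M4) C hN hC hl hlρ hρ n M hn hM F G hF hG
      (fun h => h2 (Or.inl h)) (fun h => h2 (Or.inr h)) h3 h1

end Pool.Agent.W808.KZ
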