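import Pool.Agent.W808.KZ.Stm
import Pool.Agent.H160R2.MU.T_UB

/-! Task UR3: the upper bound from the recursion. -/

set_option autoImplicit false

namespace Pool.Agent.W808.KZ
open H974 H906.Cyl
open H12S (Dir hbE segD rimE H4 Crs Nr sqE)
open Pool.Agent.H160R2.ML (nm)
open Pool.Agent.H160R2.MU (Cel csq cpos prd shf BxS Bxs EP inSq PC Bad Cc)
open Pool.Agent.W808.HU (PTr)
open Pool.Agent.W801.OU

namespace TUR3

theorem uR_le_one (m : ℕ) : uR m ≤ 1 :=
  Pr_le_one (fun _ => by norm_num) _ _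

end TUR3

theorem t_UR3 (hR : S_RCR) (hM : S_MON) : Pool.Agent.W801.OU.S_UR3 := by
  set e : ℝ := (2 / 3 : ℝ) with he
  have he0 : 0 < e := by rw [he]; norm_num
  obtain ⟨N, hN, C, hC, r0, h⟩ := hR (1 / 2 * (4:ℝ) ^ (-e)) (by positivity)
  set r1 : ℕ := max r0 3 with hr1
  set C' : ℝ := max ((N * r1 : ℕ) : ℝ) 1 ^ e + 2 * C * (2 * N : ℝ) ^ e with hC'
  have hNr : (0 : ℝ) < max ((N * r1 : ℕ) : ℝ) 1 := lt_max_of_lt_right one_pos
  have hNpos : (0 : ℝ) < N := by exact_mod_cast (by omega : 0 < N)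
  have hp1 : 0 < max ((N * r1 : ℕ) : ℝ) 1 ^ e := Real.rpow_pos_of_pos hNr _
  have hp2 : 0 < 2 * C * (2 * N : ℝ) ^ e := by positivity
  have hC'0 : 0 < C' := by rw [hC']; linarith
  refine ⟨C', hC'0, ?_⟩
  intro m
  induction m using Nat.strong_induction_on with
  | _ m ih =>
    intro hm
    have hmpos : (0 : ℝ) < m := by exact_mod_cast (by omega : 0 < m)
    by_cases hbig : N * r1 ≤ m
    · have hN0 : 0 < N := by omega
      set r : ℕ := m / N with hr
      have hr1r : r1 ≤ r := (Nat.le_div_iff_mul_le hN0).2 (by rw [Nat.mul_comm]; exact hbig)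
      have hr3 : 3 ≤ r := le_trans (le_max_right _ _) hr1r
      have hr0 : r0 ≤ r := le_trans (le_max_left _ _) hr1r
      have hdm := Nat.div_add_mod m N
      have hml := Nat.mod_lt m hN0
      have hmr : N * r ≤ m := by rw [hr]; omega
      have hmlt : m < N * (r + 1) := by rw [hr, Nat.mul_add]; omega
      have h3N : 3 * N ≤ N * r := by
        calc 3 * N = N * 3 := by ring
          _ ≤ N * r := Nat.mul_le_mul_left _ hr3
      have hs : uR m ≤ (1 / 2 * (4:ℝ) ^ (-e)) * uR (N * r / 2) + C * (r : ℝ) ^ (-e) :=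
        (hM (N * r) m (by omega) hmr).trans (h r hr0)
      have hs' := ih (N * r / 2) (by omega) (by omega)
      exact Pool.Agent.H160R2.MU.TUB.real_step e he0 N r m (N * r / 2) C C' _ _ (by omega) hr3
        hmlt hmr rfl (by omega) hs hs' hC (by rw [hC']; linarith)
    · push Not at hbig
      refine (TUR3.uR_le_one m).trans ?_
      have h1 : (1 : ℝ) ≤ max ((N * r1 : ℕ) : ℝ) 1 ^ e * (m : ℝ) ^ (-e) := by
        rw [Real.rpow_neg hmpos.le, ← div_eq_mul_inv, one_le_div (Real.rpow_pos_of_pos hmpos _)]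
        refine Real.rpow_le_rpow hmpos.le ?_ he0.le
        refine le_trans ?_ (le_max_left _ _)
        exact_mod_cast hbig.le
      refine h1.trans (mul_le_mul_of_nonneg_right ?_ (Real.rpow_pos_of_pos hmpos _).le)
      rw [hC']
      linarith

end Pool.Agent.W808.KZ
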